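import Pool.Agent.Run7.h459.NB

set_option linter.unusedSectionVars false

/-! Local systems of a central amalgam. -/

namespace Run7.h459

open Finset

variable {α X O A H : Type} [Fintype O] [DecidableEq O] [Group A] [Group H] {C : Subgroup H}

/-- abstract hypotheses on the base system -/
structure AmH (h : α → H) (C : Subgroup H) (ρ : ℕ) (π0 : α → Equiv.Perm X) (ι : A →* H)
    (κ : A →* Equiv.Perm X) : Prop where
  hinv : ∀ t, h t * h t = 1
  hC : C ≤ Subgroup.center H
  loc : Lcl h (2 * ρ + 3) π0
  ιC : ∀ a, ι a ∈ C
  ιinj : Function.Injective ι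
  up : ∀ a, ∃ w : List α, w.length ≤ ρ ∧ vv h w = ι a ∧ evp π0 w = κ a
  low : ∀ w : List α, w.length ≤ ρ → vv h w ∈ C → ∃ a, ι a = vv h w ∧ evp π0 w = κ a

variable {h : α → H} {ρ : ℕ} {π0 : α → Equiv.Perm X} {ι : A →* H} {κ : A →* Equiv.Perm X}

theorem AmH.sq (hA : AmH h C ρ π0 ι κ) (t : α) (x : X) : π0 t (π0 t x) = x := by
  have := (hA.loc [t, t] (by simp) x).2 (by simp [hA.hinv])
  simpa using this

theorem AmH.free (hA : AmH h C ρ π0 ι κ) (a : A) (x : X) (hx : κ a x = x) : a = 1 := by
  obtain ⟨w, h1, h2, h3⟩ := hA.up a
  rw [← h3] at hx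
  have := (hA.loc w (by omega) x).1 hx
  rw [h2] at this
  exact hA.ιinj (by rw [this, map_one])

theorem vrev (hinv : ∀ t, h t * h t = 1) (w : List α) : vv h w.reverse = (vv h w)⁻¹ := by
  have hi : ∀ t, (h t)⁻¹ = h t := fun t => inv_eq_of_mul_eq_one_right (hinv t)
  induction w with
  | nil => simp
  | cons t w ih => simp [ih, hi]

theorem erev (hinv : ∀ t x, π0 t (π0 t x) = x) (w : List α) : evp π0 w.reverse = (evp π0 w)⁻¹ := by
  have hsq : ∀ t, (π0 t)⁻¹ = π0 t := fun t => by
    apply inv_eq_of_mul_eq_one_right
    ext x; exact hinv t x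
  induction w with
  | nil => simp
  | cons t w ih => simp [ih, hsq]

/-- comparing words -/
theorem AmH.cmp (hA : AmH h C ρ π0 ι κ) (u w : List α) (hl : u.length + w.length ≤ 2 * ρ + 3)
    (x : X) : evp π0 u x = evp π0 w x ↔ vv h u = vv h w := by
  have := hA.loc (w.reverse ++ u) (by simp; omega) x
  rw [evp_append, erev hA.sq, vv_append, vrev hA.hinv] at this
  rw [Equiv.Perm.mul_apply, Equiv.Perm.inv_def, Equiv.symm_apply_eq, inv_mul_eq_one] at this
  rw [this]
  exact eq_comm

theorem AmH.cmp' (hA : AmH h C ρ π0 ι κ) (u w : List α) (hl : u.length + w.length ≤ 2 * ρ + 3)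
    (hv : vv h u = vv h w) : evp π0 u = evp π0 w := by
  ext x; exact (hA.cmp u w hl x).2 hv

theorem AmH.comm (hA : AmH h C ρ π0 ι κ) (a : A) (t : α) : κ a * π0 t = π0 t * κ a := by
  obtain ⟨w, h1, h2, h3⟩ := hA.up a
  have := hA.cmp' (w ++ [t]) ([t] ++ w) (by simp; omega) (by
    rw [vv_append, vv_append, h2]
    simp only [vv_cons, vv_nil, mul_one]
    exact (Subgroup.mem_center_iff.1 (hA.hC (hA.ιC a)) (h t)).symm)
  rw [evp_append, evp_append, h3] at this
  simpa using this

theorem AmH.os (hA : AmH h C ρ π0 ι κ) {p : X → O} (hs : Function.Surjective p)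
    (hp : ∀ x y, p x = p y ↔ ∃ a, κ a x = y) : OS π0 p := by
  refine ⟨hs, hA.sq, fun t x y hxy => ?_⟩
  obtain ⟨a, rfl⟩ := (hp x y).1 hxy
  refine (hp _ _).2 ⟨a, ?_⟩
  have := congrArg (fun f : Equiv.Perm X => f x) (hA.comm a t)
  simpa using this

/-- deleting the letter `none` -/
def strip (w : List (Option α)) : List α := w.filterMap id

theorem strip_len (w : List (Option α)) : (strip w).length ≤ w.length := List.length_filterMap_le _ _

theorem vt_right' (w : List (Option α)) : (vt h w : TG H C).right = vv h (strip w) := by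
  induction w with
  | nil => rfl
  | cons a w ih =>
    rw [vt_cons, SemidirectProduct.mul_right, ih]
    cases a with
    | none => simp [v1, tau, strip]
    | some a => simp [v1, strip]

theorem vt_some' (w : List α) : (vt h (w.map some) : TG H C) = SemidirectProduct.inr (vv h w) :=
  vt_some h w

theorem exists_some {w : List (Option α)} (hw : none ∉ w) : ∃ u : List α, w = u.map some := by
  induction w with
  | nil => exact ⟨[], rfl⟩
  | cons a w ih =>
    simp only [List.mem_cons, not_or] at hw
    obtain ⟨u, hu⟩ := ih hw.2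
    cases a with
    | none => exact absurd rfl hw.1
    | some a => exact ⟨a :: u, by simp [hu]⟩

variable {τ : Equiv.Perm X}

/-- removing two letters `none` around a central word -/
theorem cancel_none (hC : C ≤ Subgroup.center H) {u : List α} (hu : vv h u ∈ C)
    (a b : List (Option α)) :
    (vt h (a ++ none :: (u.map some ++ none :: b)) : TG H C) = vt h (a ++ (u.map some ++ b)) := by
  simp only [vt_append, vt_cons, vt_some']
  have h1 := inr_central (C := C) h hC hu none
  have h2 : (v1 h none : TG H C) * v1 h none = 1 := tau_mul_self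
  calc (vt h a : TG H C) * (v1 h none * (SemidirectProduct.inr (vv h u) * (v1 h none * vt h b)))
      = vt h a * ((v1 h none * v1 h none) * (SemidirectProduct.inr (vv h u) * vt h b)) := by
        rw [← mul_assoc (SemidirectProduct.inr (vv h u)), h1]; simp only [mul_assoc]
    _ = _ := by rw [h2, one_mul]

theorem cancel_none' (hτ2 : ∀ x, τ (τ x) = x) {u : List α}
    (hu : ∀ x, τ (evp π0 u x) = evp π0 u (τ x))
    (a b : List (Option α)) :
    evp (pf τ π0) (a ++ none :: (u.map some ++ none :: b)) = evp (pf τ π0) (a ++ (u.map some ++ b)) := by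
  ext x
  simp only [evp_append, evp_cons, Equiv.Perm.mul_apply, evp_some, pf_none]
  rw [hu, hτ2]

theorem amal_rel (hA : AmH h C ρ π0 ι κ) (hτ2 : ∀ x, τ (τ x) = x)
    (hτκ : ∀ a x, τ (κ a x) = κ a (τ x)) :
    ∀ (n : ℕ) (w : List (Option α)), w.length = n → w.length ≤ 2 * ρ + 3 →
      (vt h w : TG H C) = 1 → evp (pf τ π0) w = 1 := by
  intro n
  induction n using Nat.strong_induction_on with
  | _ n ih =>
    intro w hn hlen hv
    by_cases hw : none ∈ w
    · obtain ⟨a, u, b, rfl, hu⟩ := PN h w hw (by rw [hv]; rfl)
      have hu' : vv h u ∈ C := hu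
      simp only [List.length_append, List.length_cons, List.length_map] at hlen hn
      -- the middle word acts centrally
      have hmid : ∃ a1 : A, evp π0 u = κ a1 := by
        by_cases hul : u.length ≤ ρ
        · obtain ⟨a1, _, h1⟩ := hA.low u hul hu'
          exact ⟨a1, h1⟩
        · have h1 := hv
          rw [cancel_none hA.hC hu'] at h1
          have h2 : (vt h (b ++ a) : TG H C) = SemidirectProduct.inr (vv h u)⁻¹ := by
            simp only [vt_append, vt_some'] at h1 ⊢
            rw [map_inv, eq_inv_iff_mul_eq_one, mul_assoc]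
            have h3 := mul_eq_one_iff_eq_inv.1 h1
            rw [h3, mul_inv_rev]
            group
          have h3 : vv h (strip (b ++ a)) = (vv h u)⁻¹ := by
            rw [← vt_right' (C := C), h2]; rfl
          have hsl : (strip (b ++ a)).length ≤ b.length + a.length := by
            have := strip_len (b ++ a); simpa using this
          obtain ⟨a1, h4, h5⟩ := hA.low (strip (b ++ a)) (by omega) (by
            rw [h3]; exact inv_mem hu')
          refine ⟨a1⁻¹, ?_⟩
          rw [map_inv, ← h5, ← erev hA.sq]
          apply hA.cmp'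
          · rw [List.length_reverse]; omega
          · rw [vrev hA.hinv, h3, inv_inv]
      obtain ⟨a1, ha1⟩ := hmid
      rw [cancel_none' hτ2 (fun x => by rw [ha1]; exact hτκ a1 x)]
      rw [cancel_none hA.hC hu'] at hv
      exact ih _ (by simp only [List.length_append, List.length_map]; omega) _ rfl
        (by simp only [List.length_append, List.length_map]; omega) hv
    · obtain ⟨u, rfl⟩ := exists_some hw
      rw [evp_some]
      rw [vt_some'] at hv
      have h1 : vv h u = 1 := SemidirectProduct.inr_injective (by rw [hv, map_one])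
      ext x
      exact (hA.loc u (by simpa using hlen) x).2 h1

theorem amal_free (hA : AmH h C ρ π0 ι κ) (hτ2 : ∀ x, τ (τ x) = x)
    (hτκ : ∀ a x, τ (κ a x) = κ a (τ x)) {p : X → O} (hs : Function.Surjective p)
    (hp : ∀ x y, p x = p y ↔ ∃ a, κ a x = y) (σ : Equiv.Perm O)
    (hσ : σ ∈ Gd (Bad (nr π0 p (2 * ρ + 3)) (2 * ρ + 3))) (hτσ : ∀ x, p (τ x) = σ (p x)) :
    ∀ (n : ℕ) (w : List (Option α)), w.length = n → w.length ≤ 2 * ρ + 3 →
      ∀ x, evp (pf τ π0) w x = x → (vt h w : TG H C) = 1 := by
  intro n
  induction n using Nat.strong_induction_on with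
  | _ n ih =>
    intro w hn hlen x hx
    by_cases hw : none ∈ w
    · obtain ⟨u, V, y, hl, ⟨g, hg⟩, hfix, hpy, hVe⟩ :=
        NBlem (C := C) (h := h) (hA.os hs hp) σ hσ hτσ hτ2 w hw hlen x hx
      -- it suffices to show that the rotated word is trivial
      suffices hsuff : (vt h (u.map some ++ none :: V) : TG H C) = 1 by
        rw [hsuff] at hg
        have : g * vt h w = g * 1 := by
          rw [mul_one]
          exact (mul_inv_eq_one.1 hg.symm)
        exact mul_left_cancel this
      obtain ⟨c, hc⟩ := (hp _ _).1 hpy.symm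
      -- hc : κ c y = evp π0 u y
      obtain ⟨wc, hwc1, hwc2, hwc3⟩ := hA.up c
      by_cases hul : u.length + ρ ≤ 2 * ρ + 3
      · -- case A
        have h1 : vv h u = vv h wc := by
          rw [← hA.cmp u wc (by omega) y, hwc3, hc]
        have hu' : vv h u ∈ C := by rw [h1, hwc2]; exact hA.ιC c
        have h2 : evp π0 u = κ c := by
          rw [← hwc3]; exact hA.cmp' u wc (by omega) h1
        rcases hVe with rfl | ⟨V', rfl⟩
        · exfalso
          have h3 : τ (evp π0 u y) = y := by simpa using hfix
          have h4 := hτσ (evp π0 u y)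
          rw [h3, hpy] at h4
          exact (mem_PMs.1 (mem_Gd.1 hσ).1).2 _ h4.symm
        · simp only [List.length_append, List.length_cons, List.length_nil] at hl
          -- rotate the last letter to the front
          have h3 : (vt h (u.map some ++ none :: (V' ++ [none])) : TG H C) =
              v1 h none * vt h ([] ++ none :: (u.map some ++ none :: V')) * (v1 h none)⁻¹ := by
            have h5 : (v1 h none : TG H C) * v1 h none = 1 := tau_mul_self
            have h6 : (v1 h none : TG H C)⁻¹ = v1 h none := inv_eq_of_mul_eq_one_right h5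
            simp only [vt_append, vt_cons, vt_nil, mul_one, one_mul]
            rw [h6, ← mul_assoc (v1 h none) (v1 h none), h5, one_mul]
            simp only [mul_assoc]
          rw [h3, cancel_none hA.hC hu']
          have h7 : (vt h ([] ++ (u.map some ++ V')) : TG H C) = 1 := by
            apply ih (u.length + V'.length) (by omega) _ (by simp) (by simp; omega)
              (τ y)
            rw [List.nil_append, evp_append, Equiv.Perm.mul_apply, evp_some]
            have h8 : τ (evp (pf τ π0) V' (τ (evp π0 u y))) = y := by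
              rw [evp_append, Equiv.Perm.mul_apply] at hfix
              simpa [pf_none] using hfix
            have h9 : evp (pf τ π0) V' (τ (evp π0 u y)) = τ y := by rw [← h8, hτ2, h8]
            have h10 : evp (pf τ π0) V' (evp π0 u (τ y)) = τ y := by
              rw [h2, ← hτκ, ← h2]; exact h9
            -- conjugate by the central word
            have hcomm : ∀ (W : List (Option α)) z, evp (pf τ π0) W (κ c z) = κ c (evp (pf τ π0) W z) := by
              intro W
              induction W with
              | nil => intro z; rfl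
              | cons t W ihW =>
                intro z
                rw [evp_cons, Equiv.Perm.mul_apply, Equiv.Perm.mul_apply, ihW]
                cases t with
                | none => exact hτκ c _
                | some t =>
                  have := congrArg (fun f : Equiv.Perm X => f (evp (pf τ π0) W z)) (hA.comm c t)
                  simpa [pf_some] using this.symm
            rw [h2, hcomm] at h10
            rw [h2]; exact h10
          rw [h7]; group
      · -- case B
        have hVl : V.length + 1 ≤ ρ := by omega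
        have hW1 : (vt h (wc.map some ++ none :: V) : TG H C) = 1 := by
          apply ih (wc.length + (V.length + 1)) (by omega) _ (by simp) (by simp; omega)
            (evp π0 u y)
          rw [evp_append, Equiv.Perm.mul_apply, evp_cons, Equiv.Perm.mul_apply, pf_none, hfix,
            evp_some, hwc3, hc]
        rw [vt_append, vt_some', hwc2] at hW1
        have hV1 : (vt h (none :: V) : TG H C) = SemidirectProduct.inr (ι c)⁻¹ := by
          rw [map_inv]; exact eq_inv_of_mul_eq_one_right hW1
        have hs1 : vv h (strip (none :: V)) = (ι c)⁻¹ := by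
          rw [← vt_right' (C := C), hV1]; rfl
        have hsl : (strip (none :: V)).length ≤ V.length + 1 := by
          have := strip_len (none :: V); simpa using this
        obtain ⟨a1, h4, h5⟩ := hA.low (strip (none :: V)) (by omega) (by
            rw [hs1]; exact inv_mem (hA.ιC c))
        have h6 : a1 = c⁻¹ := hA.ιinj (by rw [h4, hs1, map_inv])
        have h7 : vv h u = vv h (strip (none :: V)).reverse := by
          rw [← hA.cmp u _ (by rw [List.length_reverse]; omega) y, erev hA.sq, h5, h6, map_inv,
            inv_inv, hc]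
        rw [vrev hA.hinv, hs1, inv_inv] at h7
        rw [vt_append, vt_some', h7]
        exact hW1
    · obtain ⟨u, rfl⟩ := exists_some hw
      rw [evp_some] at hx
      rw [vt_some', (hA.loc u (by simpa using hlen) x).1 hx, map_one]

/-- good lifts are local -/
theorem amal_local (hA : AmH h C ρ π0 ι κ) (hτ2 : ∀ x, τ (τ x) = x)
    (hτκ : ∀ a x, τ (κ a x) = κ a (τ x)) {p : X → O} (hs : Function.Surjective p)
    (hp : ∀ x y, p x = p y ↔ ∃ a, κ a x = y) (σ : Equiv.Perm O)
    (hσ : σ ∈ Gd (Bad (nr π0 p (2 * ρ + 3)) (2 * ρ + 3))) (hτσ : ∀ x, p (τ x) = σ (p x)) :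
    Lcl (v1 h : Option α → TG H C) (2 * ρ + 3) (pf τ π0) := by
  intro w hw x
  constructor
  · intro hx
    exact amal_free hA hτ2 hτκ hs hp σ hσ hτσ _ w rfl hw x hx
  · intro hv
    rw [amal_rel (C := C) hA hτ2 hτκ _ w rfl hw hv]; rfl

/-- local systems are lifts -/
theorem amal_conv (hA : AmH h C ρ π0 ι κ)
    (hL : Lcl (v1 h : Option α → TG H C) (2 * ρ + 3) (pf τ π0)) :
    (∀ x, τ (τ x) = x) ∧ (∀ a x, τ (κ a x) = κ a (τ x)) ∧ ∀ a x, κ a x ≠ τ x := by
  have h1 : ∀ x, τ (τ x) = x := by
    intro x
    have := (hL [none, none] (by simp) x).2 (by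
      simp only [vv_cons, vv_nil, mul_one]; exact tau_mul_self)
    simpa [pf_none] using this
  refine ⟨h1, ?_, ?_⟩
  · intro a x
    obtain ⟨w, hw1, hw2, hw3⟩ := hA.up a
    have := (hL (none :: (w.map some ++ none :: (w.reverse.map some))) (by simp; omega) (κ a x)).2 (by
      show (vt h _ : TG H C) = 1
      have h5 := cancel_none (h := h) hA.hC (u := w) (by rw [hw2]; exact hA.ιC a) [] (w.reverse.map some)
      rw [List.nil_append] at h5
      rw [h5, List.nil_append, vt_append, vt_some', vt_some', vrev hA.hinv, ← map_mul,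
        mul_inv_cancel, map_one])
    rw [evp_cons, evp_append, evp_cons, Equiv.Perm.mul_apply, Equiv.Perm.mul_apply,
      Equiv.Perm.mul_apply, evp_some, evp_some, erev hA.sq, hw3, pf_none] at this
    rw [Equiv.Perm.inv_def, Equiv.symm_apply_apply] at this
    rw [← this, h1]
  · intro a x hax
    obtain ⟨w, hw1, hw2, hw3⟩ := hA.up a
    have := (hL (none :: w.map some) (by simp; omega) x).1 (by
      rw [evp_cons, Equiv.Perm.mul_apply, evp_some, hw3, hax, pf_none, h1])
    have h3 : (tau : TG H C) * SemidirectProduct.inr (vv h w) = 1 := by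
      rw [← vt_some']
      exact this
    exact tau_ne_inr (C := C) (vv h w)⁻¹ (by
      rw [map_inv]; exact eq_inv_of_mul_eq_one_left h3)

end Run7.h459
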