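import Pool.Agent.Run7.h459.QP2

set_option linter.unusedSectionVars false

/-! Lower bounds for the length of central elements. -/

namespace Run7.h459

/-- central vectors supported on small indices -/
def ZD (D : ℕ) : Subgroup Ga where
  carrier := {x | ∃ c : VV, (∀ j, D < 11 ^ j → c j = 0) ∧ x = zc c}
  mul_mem' := by
    rintro a b ⟨c, hc, rfl⟩ ⟨c', hc', rfl⟩
    exact ⟨c + c', fun j hj => by rw [Pi.add_apply, hc j hj, hc' j hj, add_zero], (zc_add _ _).symm⟩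
  one_mem' := ⟨0, fun _ _ => rfl, zc_zero.symm⟩
  inv_mem' := by
    rintro a ⟨c, hc, rfl⟩
    exact ⟨-c, fun j hj => by rw [Pi.neg_apply, hc j hj, neg_zero], (zc_neg _).symm⟩

instance (D : ℕ) : (ZD D).Normal := by
  constructor
  rintro _ ⟨c, hc, rfl⟩ g
  refine ⟨c, hc, ?_⟩
  rw [← zc_comm, mul_inv_cancel_right]

theorem mem_ZD_zc {D : ℕ} {c : VV} : zc c ∈ ZD D ↔ ∀ j, D < 11 ^ j → c j = 0 := by
  constructor
  · rintro ⟨c', hc', h⟩; rw [zc_inj h]; exact hc'
  · intro h; exact ⟨c, h, rfl⟩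

theorem zet_small {k : ℤ} {D : ℕ} (hk : |k| ≤ D) (hk0 : k ≠ 0) (j : ℕ) (hj : D < 11 ^ j) :
    zet 15 k j = 0 := by
  unfold zet
  rw [if_neg]
  rintro ⟨h1, _⟩
  have h2 : (11:ℤ) ^ j ≤ |k| := Int.le_of_dvd (abs_pos.2 hk0) ((dvd_abs _ _).2 h1)
  have h3 : ((D : ℕ) : ℤ) < 11 ^ j := by exact_mod_cast hj
  omega

theorem kk_small {k l : ℤ} {D : ℕ} (hk : |k - l| ≤ D) (j : ℕ) (hj : D < 11 ^ j) :
    (Da.κ k l - Da.κ l k : VV) j = 0 := by
  by_cases h : (k - l) % 2 = 0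
  · rw [kk_same h]; rfl
  · by_cases hk2 : k % 2 = 1
    · rw [kk_odd hk2 (by omega)]; exact zet_small hk (by omega) j hj
    · rw [kk_even (by omega) (by omega), Pi.neg_apply, zet_small hk (by omega) j hj, neg_zero]

theorem comm_ZD (D : ℕ) (k l : ℤ) (hkl : |k - l| ≤ D) :
    Commute ((Lk lt k : Ga) : Ga ⧸ ZD D) ((Lk lt l : Ga) : Ga ⧸ ZD D) := by
  have h1 : Lk lt k * Lk lt l * (Lk lt k)⁻¹ * (Lk lt l)⁻¹ ∈ ZD D := by
    rw [Lam_comm, mem_ZD_zc]
    exact fun j hj => kk_small hkl j hj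
  have h2 : QuotientGroup.mk' (ZD D) (Lk lt k * Lk lt l * (Lk lt k)⁻¹ * (Lk lt l)⁻¹) = 1 :=
    (QuotientGroup.eq_one_iff (N := ZD D) _).2 h1
  rw [map_mul, map_mul, map_mul, map_inv, map_inv, mul_inv_eq_one, mul_inv_eq_iff_eq_mul] at h2
  exact h2

theorem zc_closed {w : List Lt} {c : VV} (hc : vl w = zc c) :
    endp 0 w = 0 ∧ (∀ k, net k (tog 0 w) = 0) ∧ pr (Lk lt) (tog 0 w) = zc c := by
  have h1 : endp 0 w = 0 := by rw [← vl_p, hc]; rfl
  refine ⟨h1, fun k => by rw [← vl_h, hc]; rfl, ?_⟩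
  have := vl_eq w
  rw [h1, hc] at this
  rw [this]
  exact (mul_one _).symm

theorem bd_low (D : ℕ) (w : List Lt) (c : VV) (hc : vl w = zc c) (hlen : w.length < 4 * (D + 2)) :
    ∀ j, D < 11 ^ j → c j = 0 := by
  obtain ⟨h1, h2, h3⟩ := zc_closed hc
  have h4 := path_lemma (fun k => QuotientGroup.mk' (ZD D) (Lk lt k)) D (comm_ZD D) w 0 h1 hlen h2
  rw [← pr_map (QuotientGroup.mk' (ZD D)) (Lk lt), h3] at h4
  exact mem_ZD_zc.1 ((QuotientGroup.eq_one_iff (N := ZD D) _).1 h4)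

theorem lam_zpow' (k n : ℤ) : Lk lt k ^ n = lam k n := by rw [Lk_lt, lam_zpow, one_mul]

theorem bd_tight (i : ℕ) (hi : 1 ≤ i) (w : List Lt) (c : VV) (hc : vl w = zc c)
    (hlen : w.length ≤ 4 * (11 ^ i + 1)) (hw : ∀ t ∈ w, 0 ≤ t.2 ∧ t.2 ≤ 2) :
    ∃ α β : ℤ, |α| ≤ 2 ∧ |β| ≤ 2 ∧ (c i = ((α * β : ℤ) : ZMod 15) ∨ c i = -((α * β : ℤ) : ZMod 15)) := by
  obtain ⟨h1, h2, h3⟩ := zc_closed hc
  have hp : 11 ≤ 11 ^ i := by
    calc 11 = 11 ^ 1 := by norm_num
      _ ≤ 11 ^ i := Nat.pow_le_pow_right (by norm_num) hi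
  set D := 11 ^ i - 1 with hD
  have hq := path_lemma_tight (fun k => QuotientGroup.mk' (ZD D) (Lk lt k)) D (by omega) (comm_ZD D)
    w 0 h1 (by omega) h2 2 (by norm_num) hw
  rw [← pr_map (QuotientGroup.mk' (ZD D)) (Lk lt), h3] at hq
  rcases hq with hq | ⟨k, α, β, g, hα, hβ, hq⟩
  · have h5 := mem_ZD_zc.1 ((QuotientGroup.eq_one_iff (N := ZD D) _).1 hq) i (by omega)
    exact ⟨0, 0, by norm_num, by norm_num, Or.inl (by rw [h5]; simp)⟩
  · obtain ⟨g', rfl⟩ := QuotientGroup.mk'_surjective (ZD D) g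
    have hk1 : k + (D:ℤ) + 1 = k + ((11 ^ i : ℕ) : ℤ) := by omega
    have hcomm : ∃ s : ℤ, (s = 1 ∨ s = -1) ∧
        (Da.κ k (k + ((11 ^ i : ℕ) : ℤ)) - Da.κ (k + ((11 ^ i : ℕ) : ℤ)) k : VV) = s • ev1 i := by
      have hz : zet 15 (k - (k + ((11 ^ i : ℕ) : ℤ))) = ev1 i := by
        rw [show k - (k + ((11 ^ i : ℕ) : ℤ)) = -((11 ^ i : ℕ) : ℤ) by ring, zet_neg, zet_pow]
      have hpo := pow11_odd i
      by_cases hk : k % 2 = 1
      · exact ⟨1, Or.inl rfl, by rw [kk_odd hk (by omega), hz, one_smul]⟩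
      · exact ⟨-1, Or.inr rfl, by rw [kk_even (by omega) (by omega), hz, neg_smul, one_smul]⟩
    obtain ⟨s, hs, hcomm⟩ := hcomm
    have fin : ∀ (x y : Ga) (a : ℤ), x * y * x⁻¹ * y⁻¹ = zc (a • ev1 i) →
        QuotientGroup.mk' (ZD D) (zc c) =
          QuotientGroup.mk' (ZD D) g' * ((QuotientGroup.mk' (ZD D) x) * (QuotientGroup.mk' (ZD D) y) *
          (QuotientGroup.mk' (ZD D) x)⁻¹ * (QuotientGroup.mk' (ZD D) y)⁻¹) *
          (QuotientGroup.mk' (ZD D) g')⁻¹ → c i = (a : ZMod 15) := by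
      intro x y a hxy hh
      rw [← map_inv, ← map_inv, ← map_mul, ← map_mul, ← map_mul, hxy, ← map_mul, ← zc_comm,
        ← map_inv, ← map_mul, mul_inv_cancel_right] at hh
      have h6 : QuotientGroup.mk' (ZD D) (zc (c - a • ev1 i)) = 1 := by
        rw [sub_eq_add_neg, zc_add, zc_neg, map_mul, map_inv, hh, mul_inv_cancel]
      have h7 := mem_ZD_zc.1 ((QuotientGroup.eq_one_iff (N := ZD D) _).1 h6) i (by omega)
      rw [Pi.sub_apply, Pi.smul_apply] at h7
      simp only [ev1, Pi.single_eq_same] at h7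
      rw [sub_eq_zero] at h7
      rw [h7]; simp
    rcases hq with hq | hq
    · rw [commutatorElement_def] at hq
      simp only [← map_zpow] at hq
      rw [hk1, lam_zpow', lam_zpow'] at hq
      refine ⟨α, β, hα, hβ, ?_⟩
      have := fin (lam (k + ((11 ^ i : ℕ) : ℤ)) β) (lam k α) (-(s * (α * β))) (by
        rw [comm_lam]
        congr 1
        rw [← neg_sub, hcomm, ← neg_smul, ← mul_smul]
        congr 1; ring) hq
      rw [this]
      rcases hs with hs | hs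
      · right; rw [hs]; push_cast; ring
      · left; rw [hs]; push_cast; ring
    · rw [commutatorElement_def] at hq
      simp only [← map_zpow] at hq
      rw [hk1, lam_zpow', lam_zpow'] at hq
      refine ⟨α, β, hα, hβ, ?_⟩
      have := fin (lam k α) (lam (k + ((11 ^ i : ℕ) : ℤ)) β) (s * (α * β)) (by
        rw [comm_lam]
        congr 1
        rw [hcomm, ← mul_smul]
        congr 1; ring) hq
      rw [this]
      rcases hs with hs | hs
      · left; rw [hs]; push_cast; ring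
      · right; rw [hs]; push_cast; ring

/-- parity of closed words -/
theorem even_of_closed (w : List Lt) (h : (vl w).p % 2 = 0) : w.length % 2 = 0 := by
  rw [vl_p] at h
  have : ∀ (w : List Lt) (p : ℤ), (endp p w - p - w.length) % 2 = 0 := by
    intro w
    induction w with
    | nil => intro p; simp [endp]
    | cons t w ih =>
      intro p
      have := ih (nx p t)
      simp only [endp, List.length_cons]
      unfold nx at this ⊢
      split_ifs at this ⊢ <;> push_cast <;> omega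
  have := this w 0
  omega

end Run7.h459
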