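import Pool.Agent.Run7.h459.Bd

set_option linter.unusedSectionVars false

/-! Short words for central elements. -/

namespace Run7.h459

open Finset

def bet (k : ℤ) : VV := Da.κ k 0 - Da.κ 0 k

def sb (l : List (ℤ × ℤ)) : VV := (l.map fun x => x.2 • bet x.1).sum

@[simp] theorem sb_nil : sb [] = 0 := rfl
@[simp] theorem sb_cons (x : ℤ × ℤ) (l : List (ℤ × ℤ)) : sb (x :: l) = x.2 • bet x.1 + sb l := by
  simp [sb]
@[simp] theorem sb_append (l l' : List (ℤ × ℤ)) : sb (l ++ l') = sb l + sb l' := by simp [sb]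

theorem comm_pr (l : List (ℤ × ℤ)) (b : ℤ) :
    pr (Lk lt) l * lam 0 b * (pr (Lk lt) l)⁻¹ * (lam 0 b)⁻¹ = zc (b • sb l) := by
  induction l with
  | nil => simp [zc_zero]
  | cons x l ih =>
    rw [pr_cons, lam_zpow', sb_cons, smul_add, add_comm, zc_add, ← ih]
    have h1 : zc (b • x.2 • bet x.1) = lam x.1 x.2 * lam 0 b * (lam x.1 x.2)⁻¹ * (lam 0 b)⁻¹ := by
      rw [comm_lam, ← mul_smul, mul_comm]; rfl
    rw [h1, ih]
    have h2 := zc_comm (b • sb l) ((lam x.1 x.2))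
    calc lam x.1 x.2 * pr (Lk lt) l * lam 0 b * (lam x.1 x.2 * pr (Lk lt) l)⁻¹ * (lam 0 b)⁻¹
        = lam x.1 x.2 * (pr (Lk lt) l * lam 0 b * (pr (Lk lt) l)⁻¹ * (lam 0 b)⁻¹) * lam 0 b *
          (lam x.1 x.2)⁻¹ * (lam 0 b)⁻¹ := by group
      _ = lam x.1 x.2 * zc (b • sb l) * lam 0 b * (lam x.1 x.2)⁻¹ * (lam 0 b)⁻¹ := by rw [ih]
      _ = _ := by rw [← h2]; simp only [mul_assoc]

theorem blk0 (b1 b2 : ℤ) : vl (blk 0 b1 b2 1) = lam 0 (b1 - b2) := by
  have h := blk_tog (G := Ga) 0 b1 b2 1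
  rw [vl_eq, h.1, h.2, lam_zpow']
  show lam 0 _ * 1 = _
  rw [mul_one]; simp

/-- the commutator word -/
def gw (X : List Lt) (b1 b2 : ℤ) : List Lt :=
  X ++ (blk 0 b1 b2 1 ++ (X.reverse ++ (blk 0 b1 b2 1).reverse))

theorem gw_length (X : List Lt) (b1 b2 : ℤ) : (gw X b1 b2).length = 2 * X.length + 4 := by
  simp [gw, blk_length]; ring

theorem gw_val (X : List Lt) (b1 b2 : ℤ) (hX : endp 0 X = 0) :
    vl (gw X b1 b2) = zc ((b1 - b2) • sb (tog 0 X)) := by
  unfold gw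
  rw [vl_append, vl_append, vl_append, vl_reverse, vl_reverse, blk0, ← comm_pr]
  have : vl X = pr (Lk lt) (tog 0 X) := by
    rw [vl_eq, hX]; exact mul_one _
  rw [this]; simp only [mul_assoc]

theorem gw_mem {X : List Lt} {b1 b2 : ℤ} {P : Lt → Prop} (hX : ∀ t ∈ X, P t)
    (h1 : P (false, b1)) (h2 : P (false, b2)) : ∀ t ∈ gw X b1 b2, P t := by
  have hb : ∀ t ∈ blk 0 b1 b2 1, P t := by
    intro t ht
    simp only [blk, List.mem_cons, List.not_mem_nil, or_false] at ht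
    have : tp 0 = false := rfl
    rw [this] at ht
    rcases ht with h | h <;> rw [h] <;> assumption
  intro t ht
  simp only [gw, List.mem_append, List.mem_reverse] at ht
  rcases ht with h | h | h | h
  · exact hX t h
  · exact hb t h
  · exact hX t h
  · exact hb t h

theorem sb_lp (f : ℤ → ℤ) (p : ℤ) (n : ℕ) :
    sb (tog p (lp f p n)) = - ∑ j ∈ range n, f (p - 1 - j) • bet (p - 1 - j) := by
  induction n generalizing p with
  | zero => simp [lp, tog]
  | succ n ih =>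
    rw [lp, tog, nx_lp, eg_lp, am_lp, sb_cons, ih, sum_range_succ', neg_add]
    simp only [Nat.cast_zero, sub_zero, neg_smul]
    rw [add_comm]
    congr 2
    apply sum_congr rfl
    intro j _
    push_cast
    rw [show p - 1 - 1 - (j:ℤ) = p - 1 - (j + 1) by ring]

theorem sb_rp (f : ℤ → ℤ) (p : ℤ) (n : ℕ) :
    sb (tog p (rp f p n)) = ∑ j ∈ range n, f (p + j) • bet (p + j) := by
  induction n generalizing p with
  | zero => simp [rp, tog]
  | succ n ih =>
    rw [rp, tog, nx_rp, eg_rp, am_rp, sb_cons, ih, sum_range_succ']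
    simp only [Nat.cast_zero, add_zero]
    rw [add_comm]
    congr 1
    apply sum_congr rfl
    intro j _
    push_cast
    rw [show p + 1 + (j:ℤ) = p + (j + 1) by ring]

section
variable {ι : Type*} (s : Finset ι) (m : ι → ℕ)

def fs (a : ι → ℤ) (k : ℤ) : ℤ := ∑ x ∈ s, if k = -(m x : ℤ) then a x else 0

variable {s m}
theorem fs_zero_of {a : ι → ℤ} {k : ℤ} (h : ∀ x ∈ s, k ≠ -(m x : ℤ)) : fs s m a k = 0 := by
  apply sum_eq_zero
  intro x hx
  rw [if_neg (h x hx)]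

theorem fs_amt {a : ι → ℤ} (hinj : Set.InjOn m s) {P : ℤ → ℤ → Prop} (h0 : ∀ k, P k 0)
    (h : ∀ x ∈ s, P (-(m x : ℤ)) (a x)) (k : ℤ) : P k (fs s m a k) := by
  by_cases hk : ∃ x ∈ s, k = -(m x : ℤ)
  · obtain ⟨x, hx, rfl⟩ := hk
    unfold fs
    rw [sum_eq_single x]
    · rw [if_pos rfl]; exact h x hx
    · intro y hy hyx
      rw [if_neg]
      intro h1
      exact hyx (hinj hy hx (by omega))
    · intro h1; exact absurd hx h1
  · push Not at hk
    rw [fs_zero_of hk]; exact h0 k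

theorem fs_sum {a : ι → ℤ} {d : ℕ} (hm : ∀ x ∈ s, 1 ≤ m x ∧ m x ≤ d) (β : ℤ → VV) :
    ∑ n ∈ range d, fs s m a (-(n:ℤ) - 1) • β (-(n:ℤ) - 1) = ∑ x ∈ s, a x • β (-(m x : ℤ)) := by
  unfold fs
  simp only [sum_smul]
  rw [sum_comm]
  apply sum_congr rfl
  intro x hx
  obtain ⟨h1, h2⟩ := hm x hx
  rw [sum_eq_single (m x - 1)]
  · have : -((m x - 1 : ℕ) : ℤ) - 1 = -(m x : ℤ) := by omega
    rw [this, if_pos rfl]
  · intro n _ hn
    rw [if_neg (by omega), zero_smul]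
  · intro h; exact absurd (mem_range.2 (by omega)) h

/-- the walk to the left and back -/
def Xw (f1 f2 : ℤ → ℤ) (u v : ℤ) (e d : ℕ) : List Lt :=
  lp f1 0 d ++ (blk (-d) u v e ++ rp f2 (-d) d)

theorem Xw_length (f1 f2 : ℤ → ℤ) (u v : ℤ) (e d : ℕ) :
    (Xw f1 f2 u v e d).length = 2 * d + 2 * e := by
  simp [Xw, blk_length]; ring

theorem Xw_end (f1 f2 : ℤ → ℤ) (u v : ℤ) (e d : ℕ) : endp 0 (Xw f1 f2 u v e d) = 0 := by
  unfold Xw
  rw [endp_append, endp_append, endp_lp, zero_sub, (blk_tog (G := Unit) _ _ _ _).1, endp_rp]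
  ring

theorem sb_blk (k a b : ℤ) (m : ℕ) : sb (tog k (blk k a b m)) = ((m:ℤ) * (a - b)) • bet k := by
  induction m with
  | zero => simp [blk, tog]
  | succ m ih =>
    have h1 : nx k (tp k, a) = k + 1 := nx_rp _ _
    have e0 : tp k = tp (k + 1 - 1) := by rw [add_sub_cancel_right]
    have h2 : nx (k + 1) (tp k, b) = k := by rw [e0, nx_lp]; ring
    have h3 : eg (k + 1) (tp k, b) = k := by rw [e0, eg_lp]; ring
    have h4 : am (k + 1) (tp k, b) = -b := by rw [e0, am_lp]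
    rw [blk, tog, tog, h1, h2, h3, h4, eg_rp, am_rp, sb_cons, sb_cons, ih]
    simp only
    rw [← add_smul, ← add_smul]
    congr 1; push_cast; ring

theorem Xw_sb (a1 a2 : ι → ℤ) (u v : ℤ) (e d : ℕ) (hm : ∀ x ∈ s, 1 ≤ m x ∧ m x ≤ d) :
    sb (tog 0 (Xw (fs s m a1) (fs s m a2) u v e d)) =
      ∑ x ∈ s, (a2 x - a1 x) • bet (-(m x : ℤ)) + ((e:ℤ) * (u - v)) • bet (-d) := by
  unfold Xw
  rw [tog_append, tog_append, sb_append, sb_append, endp_lp, zero_sub,
    (blk_tog (G := Unit) _ _ _ _).1, sb_blk, sb_lp, sb_rp]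
  have h1 : ∑ j ∈ range d, fs s m a1 (0 - 1 - (j:ℤ)) • bet (0 - 1 - (j:ℤ)) =
      ∑ x ∈ s, a1 x • bet (-(m x : ℤ)) := by
    rw [← fs_sum hm]
    apply sum_congr rfl
    intro j _
    rw [show (0:ℤ) - 1 - (j:ℤ) = -(j:ℤ) - 1 by ring]
  have h2 : ∑ j ∈ range d, fs s m a2 (-(d:ℤ) + (j:ℤ)) • bet (-(d:ℤ) + (j:ℤ)) =
      ∑ x ∈ s, a2 x • bet (-(m x : ℤ)) := by
    rw [← fs_sum hm, ← sum_range_reflect]
    apply sum_congr rfl
    intro j hj
    have hj := mem_range.1 hj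
    rw [show -((d:ℤ)) + ((d - 1 - j : ℕ) : ℤ) = -(j:ℤ) - 1 by omega]
  rw [h1, h2]
  simp only [sub_smul, sum_sub_distrib]
  abel

theorem Xw_mem {P : Lt → Prop} {a1 a2 : ι → ℤ} {u v : ℤ} {e d : ℕ} (hinj : Set.InjOn m s)
    (h0 : ∀ b, P (b, 0)) (h1 : ∀ x ∈ s, P (tp (-(m x : ℤ)), a1 x))
    (h2 : ∀ x ∈ s, P (tp (-(m x : ℤ)), a2 x)) (hu : P (tp (-(d:ℤ)), u)) (hv : P (tp (-(d:ℤ)), v)) :
    ∀ t ∈ Xw (fs s m a1) (fs s m a2) u v e d, P t := by
  have hlp : ∀ (n : ℕ) (p : ℤ), ∀ t ∈ lp (fs s m a1) p n, P t := by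
    intro n
    induction n with
    | zero => intro p t ht; simp [lp] at ht
    | succ n ih =>
      intro p t ht
      rw [lp, List.mem_cons] at ht
      rcases ht with ht | ht
      · rw [ht]; exact fs_amt hinj (P := fun k a => P (tp k, a)) (fun k => h0 _) h1 _
      · exact ih _ t ht
  have hrp : ∀ (n : ℕ) (p : ℤ), ∀ t ∈ rp (fs s m a2) p n, P t := by
    intro n
    induction n with
    | zero => intro p t ht; simp [rp] at ht
    | succ n ih =>
      intro p t ht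
      rw [rp, List.mem_cons] at ht
      rcases ht with ht | ht
      · rw [ht]; exact fs_amt hinj (P := fun k a => P (tp k, a)) (fun k => h0 _) h2 _
      · exact ih _ t ht
  have hbl : ∀ n, ∀ t ∈ blk (-(d:ℤ)) u v n, P t := by
    intro n
    induction n with
    | zero => intro t ht; simp [blk] at ht
    | succ n ih =>
      intro t ht
      rw [blk, List.mem_cons, List.mem_cons] at ht
      rcases ht with ht | ht | ht
      · rw [ht]; exact hu
      · rw [ht]; exact hv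
      · exact ih t ht
  intro t ht
  simp only [Xw, List.mem_append] at ht
  rcases ht with h | h | h
  · exact hlp _ _ t h
  · exact hbl _ t h
  · exact hrp _ _ t h

end

theorem bet_odd {c : ℕ} (hc : c = 1 ∨ c = 3 ∨ c = 5 ∨ c = 7) (j : ℕ) :
    bet (-((c * 11 ^ j : ℕ) : ℤ)) = ev1 j := by
  have hpo := pow11_odd j
  have hodd : (-((c * 11 ^ j : ℕ) : ℤ)) % 2 = 1 := by
    push_cast at hpo ⊢
    rcases hc with h | h | h | h <;> subst h <;> push_cast <;> omega
  have := kk_odd hodd (show (0:ℤ) % 2 = 0 by norm_num)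
  unfold bet
  rw [this, sub_zero, zet_neg]
  apply zet_eq
  · push_cast; exact dvd_mul_left _ _
  · push_cast
    rw [pow_succ, mul_comm ((11:ℤ) ^ j) 11, mul_dvd_mul_iff_right (pow_ne_zero _ (by norm_num))]
    rcases hc with h | h | h | h <;> subst h <;> norm_num

theorem tp_odd {c : ℕ} (hc : c = 1 ∨ c = 3 ∨ c = 5 ∨ c = 7) (j : ℕ) :
    tp (-((c * 11 ^ j : ℕ) : ℤ)) = true := by
  have hpo := pow11_odd j
  have hodd : (-((c * 11 ^ j : ℕ) : ℤ)) % 2 = 1 := by
    push_cast at hpo ⊢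
    rcases hc with h | h | h | h <;> subst h <;> push_cast <;> omega
  exact decide_eq_true hodd

theorem sum_ev1 (i : ℕ) (c : VV) (hc : ∀ j, i < j → c j = 0) (a : ℕ → ℤ)
    (ha : ∀ j, j ≤ i → ((a j : ℤ) : ZMod 15) = c j) : ∑ j ∈ range (i + 1), a j • ev1 j = c := by
  funext n
  rw [Finset.sum_apply]
  by_cases hn : n ≤ i
  · rw [sum_eq_single n]
    · simp [ev1, ha n hn]
    · intro b _ hb
      simp [ev1, Pi.single_eq_of_ne (Ne.symm hb)]
    · intro h; exact absurd (mem_range.2 (by omega)) h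
  · rw [sum_eq_zero, hc n (by omega)]
    intro j hj
    have := mem_range.1 hj
    have : n ≠ j := by omega
    simp [ev1, Pi.single_eq_of_ne this]

/-! first generating set -/

def ok1 (t : Lt) : Prop :=
  (t.1 = false ∧ (t.2 = 0 ∨ t.2 = 1)) ∨
  (t.1 = true ∧ (t.2 = 0 ∨ t.2 = 1 ∨ t.2 = 3 ∨ t.2 = 5 ∨ t.2 = 7))

def r1a (x : ZMod 15) : ℤ :=
  match x with
  | 2 => 1 | 4 => 1 | 6 => 1 | 8 => 7 | 9 => 7 | 10 => 5 | 11 => 5 | 12 => 3 | 13 => 3 | 14 => 1
  | _ => 0
def r1b (x : ZMod 15) : ℤ :=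
  match x with
  | 1 => 1 | 2 => 3 | 3 => 3 | 4 => 5 | 5 => 5 | 6 => 7 | 7 => 7 | 9 => 1 | 11 => 1 | 13 => 1
  | _ => 0

theorem r1_spec : ∀ x : ZMod 15, ((r1b x - r1a x : ℤ) : ZMod 15) = x := by decide
theorem r1_ok : ∀ x : ZMod 15, (r1a x = 0 ∨ r1a x = 1 ∨ r1a x = 3 ∨ r1a x = 5 ∨ r1a x = 7) ∧
    (r1b x = 0 ∨ r1b x = 1 ∨ r1b x = 3 ∨ r1b x = 5 ∨ r1b x = 7) := by decide

def f1a (i : ℕ) (c : VV) : ℤ → ℤ := fs (range (i + 1)) (fun j => 1 * 11 ^ j) (fun j => r1a (c j))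
def f1b (i : ℕ) (c : VV) : ℤ → ℤ := fs (range (i + 1)) (fun j => 1 * 11 ^ j) (fun j => r1b (c j))

def bw1 (i : ℕ) (c : VV) : List Lt := gw (Xw (f1a i c) (f1b i c) 0 0 0 (11 ^ i)) 1 0

theorem bw1_length (i : ℕ) (c : VV) : (bw1 i c).length = 4 * (11 ^ i + 1) := by
  rw [bw1, gw_length, Xw_length]; ring

theorem pow_inj1 : Function.Injective (fun j : ℕ => 1 * 11 ^ j) := by
  intro a b h
  simp only [one_mul] at h
  exact Nat.pow_right_injective (by norm_num) h

theorem bw1_ok (i : ℕ) (c : VV) : ∀ t ∈ bw1 i c, ok1 t := by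
  apply gw_mem
  · apply Xw_mem
    · exact fun a _ b _ h => pow_inj1 h
    · intro b; cases b <;> simp [ok1]
    · intro j _; right; exact ⟨tp_odd (Or.inl rfl) j, (r1_ok (c j)).1⟩
    · intro j _; right; exact ⟨tp_odd (Or.inl rfl) j, (r1_ok (c j)).2⟩
    · cases tp (-((11 ^ i : ℕ) : ℤ)) <;> simp [ok1]
    · cases tp (-((11 ^ i : ℕ) : ℤ)) <;> simp [ok1]
  · simp [ok1]
  · simp [ok1]

theorem bw1_val (i : ℕ) (c : VV) (hc : ∀ j, i < j → c j = 0) : vl (bw1 i c) = zc c := by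
  rw [bw1, gw_val _ _ _ (Xw_end _ _ _ _ _ _), f1a, f1b, Xw_sb]
  · simp only [sub_zero, mul_zero, zero_smul, add_zero, one_smul]
    congr 1
    refine Eq.trans ?_ (sum_ev1 i c hc (fun j => r1b (c j) - r1a (c j)) (fun j _ => r1_spec (c j)))
    apply sum_congr rfl
    intro j _
    rw [bet_odd (Or.inl rfl)]
  · intro j hj
    have := mem_range.1 hj
    have h1 : 11 ^ j ≤ 11 ^ i := pow_mono' (by omega)
    have h2 : 1 ≤ 11 ^ j := Nat.one_le_pow _ _ (by norm_num)
    omega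

/-! second generating set -/

def ok2 (t : Lt) : Prop := t.2 = 0 ∨ t.2 = 1 ∨ t.2 = 2

def rd (x : ZMod 15) (q : Fin 4) : ℤ :=
  if x.val ≤ 7 then min 2 (max 0 ((x.val : ℤ) - 2 * (q.val : ℤ)))
  else - min 2 (max 0 (15 - (x.val : ℤ) - 2 * (q.val : ℤ)))

def rda (x : ZMod 15) (q : Fin 4) : ℤ := max 0 (-(rd x q))
def rdb (x : ZMod 15) (q : Fin 4) : ℤ := max 0 (rd x q)

theorem rd_spec : ∀ x : ZMod 15, ((∑ q : Fin 4, (rdb x q - rda x q) : ℤ) : ZMod 15) = x := by
  decide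
theorem rd_ok : ∀ (x : ZMod 15) (q : Fin 4), (rda x q = 0 ∨ rda x q = 1 ∨ rda x q = 2) ∧
    (rdb x q = 0 ∨ rdb x q = 1 ∨ rdb x q = 2) := by decide

/-- index set: `none` is the top edge -/
def ms (i : ℕ) : Option (ℕ × Fin 4) → ℕ
  | none => 11 ^ i
  | some (j, q) => (2 * q.val + 1) * 11 ^ j

def ss (i : ℕ) : Finset (Option (ℕ × Fin 4)) :=
  Finset.insertNone ((range i) ×ˢ (Finset.univ : Finset (Fin 4)))

def am2 (c : VV) (f : ZMod 15 → Fin 4 → ℤ) (a : ℤ) : Option (ℕ × Fin 4) → ℤ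
  | none => a
  | some (j, q) => f (c j) q

theorem q_cases (q : Fin 4) : 2 * q.val + 1 = 1 ∨ 2 * q.val + 1 = 3 ∨ 2 * q.val + 1 = 5 ∨
    2 * q.val + 1 = 7 := by fin_cases q <;> simp

theorem ms_form (i : ℕ) (x : Option (ℕ × Fin 4)) :
    ∃ (c j : ℕ), (c = 1 ∨ c = 3 ∨ c = 5 ∨ c = 7) ∧ ms i x = c * 11 ^ j ∧
      (x = none → c = 1 ∧ j = i) ∧ (∀ y, x = some y → c = 2 * y.2.val + 1 ∧ j = y.1) := by
  cases x with
  | none => exact ⟨1, i, Or.inl rfl, by simp [ms], fun _ => ⟨rfl, rfl⟩, fun y hy => by simp at hy⟩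
  | some y =>
    exact ⟨2 * y.2.val + 1, y.1, q_cases y.2, rfl, fun h => by simp at h,
      fun z hz => by simp only [Option.some.injEq] at hz; rw [hz]; exact ⟨rfl, rfl⟩⟩

theorem form_inj {c c' j j' : ℕ} (hc : c = 1 ∨ c = 3 ∨ c = 5 ∨ c = 7)
    (hc' : c' = 1 ∨ c' = 3 ∨ c' = 5 ∨ c' = 7) (h : c * 11 ^ j = c' * 11 ^ j') : c = c' ∧ j = j' := by
  have key : ∀ {c c' j j' : ℕ}, (c = 1 ∨ c = 3 ∨ c = 5 ∨ c = 7) → j < j' →
      c * 11 ^ j = c' * 11 ^ j' → False := by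
    intro c c' j j' hc hlt h
    obtain ⟨k, rfl⟩ := Nat.exists_eq_add_of_lt hlt
    have h1 : c * 11 ^ j = (c' * 11 ^ k * 11) * 11 ^ j := by rw [h]; ring
    have h2 := Nat.eq_of_mul_eq_mul_right (pow_pos (by norm_num) j) h1
    omega
  rcases lt_trichotomy j j' with hj | hj | hj
  · exact (key hc hj h).elim
  · subst hj
    exact ⟨Nat.eq_of_mul_eq_mul_right (pow_pos (by norm_num) j) h, rfl⟩
  · exact (key hc' hj h.symm).elim

theorem ms_inj (i : ℕ) : Set.InjOn (ms i) (ss i) := by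
  intro x hx y hy h
  obtain ⟨c, j, hc, h1, h2, h3⟩ := ms_form i x
  obtain ⟨c', j', hc', h1', h2', h3'⟩ := ms_form i y
  rw [h1, h1'] at h
  obtain ⟨e1, e2⟩ := form_inj hc hc' h
  cases x with
  | none =>
    cases y with
    | none => rfl
    | some y =>
      have a1 := (h2 rfl).2
      have a2 := (h3' y rfl).2
      have hy' : y.1 < i := by
        have : some y ∈ ss i := hy
        simp only [ss, mem_insertNone, Option.mem_def, Option.some.injEq, forall_eq', mem_product,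
          mem_range] at this
        exact this.1
      omega
  | some x =>
    cases y with
    | none =>
      have a1 := (h2' rfl).2
      have a2 := (h3 x rfl).2
      have hy' : x.1 < i := by
        have : some x ∈ ss i := hx
        simp only [ss, mem_insertNone, Option.mem_def, Option.some.injEq, forall_eq', mem_product,
          mem_range] at this
        exact this.1
      omega
    | some y =>
      have a1 := h3 x rfl
      have a2 := h3' y rfl
      congr 1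
      ext
      · omega
      · omega

theorem builder2 (i : ℕ) (c : VV) (hc : ∀ j, i < j → c j = 0) (b1 b2 a1 a2 u v : ℤ) (e : ℕ)
    (h1 : ok2 (false, b1)) (h2 : ok2 (false, b2)) (h3 : ok2 (true, a1)) (h4 : ok2 (true, a2))
    (h5 : ok2 (true, u)) (h6 : ok2 (true, v)) (bi : ZMod 15)
    (hbi : ((b1 - b2 : ℤ) : ZMod 15) * bi = 1)
    (htop : (((b1 - b2) * (a2 - a1 + e * (u - v)) : ℤ) : ZMod 15) = c i) :
    ∃ w : List Lt, (∀ t ∈ w, ok2 t) ∧ w.length = 4 * (11 ^ i + 1) + 4 * e ∧ vl w = zc c := by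
  let c' : VV := fun j => bi * c j
  let A1 := am2 c' rda a1
  let A2 := am2 c' rdb a2
  refine ⟨gw (Xw (fs (ss i) (ms i) A1) (fs (ss i) (ms i) A2) u v e (11 ^ i)) b1 b2, ?_, ?_, ?_⟩
  · apply gw_mem _ h1 h2
    have okA : ∀ (b b' : Bool) (a : ℤ), ok2 (b, a) → ok2 (b', a) := fun _ _ _ h => h
    apply Xw_mem (P := ok2) (ms_inj i)
    · intro b; left; rfl
    · intro x _
      cases x with
      | none => exact okA _ _ _ h3
      | some y => exact (rd_ok (c' y.1) y.2).1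
    · intro x _
      cases x with
      | none => exact okA _ _ _ h4
      | some y => exact (rd_ok (c' y.1) y.2).2
    · exact okA _ _ _ h5
    · exact okA _ _ _ h6
  · rw [gw_length, Xw_length]; ring
  · rw [gw_val _ _ _ (Xw_end _ _ _ _ _ _), Xw_sb]
    · congr 1
      have hb : bet (-((11 ^ i : ℕ) : ℤ)) = ev1 i := by
        have := bet_odd (c := 1) (Or.inl rfl) i
        rwa [one_mul] at this
      rw [hb, ss, sum_insertNone, sum_product]
      have e1 : ms i none = 11 ^ i := rfl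
      rw [e1, hb]
      have e2 : ∀ j ∈ range i, ∑ q : Fin 4, (A2 (some (j, q)) - A1 (some (j, q))) •
          bet (-(ms i (some (j, q)) : ℤ)) = (∑ q : Fin 4, (rdb (c' j) q - rda (c' j) q)) • ev1 j := by
        intro j _
        rw [sum_smul]
        apply sum_congr rfl
        intro q _
        show (rdb (c' j) q - rda (c' j) q) • bet (-(((2 * q.val + 1) * 11 ^ j : ℕ) : ℤ)) = _
        rw [bet_odd (q_cases q)]
      rw [sum_congr rfl e2]
      have e3 : A2 none - A1 none = a2 - a1 := rfl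
      rw [e3, add_right_comm, ← add_smul, add_comm]
      let aa : ℕ → ℤ := fun j => if j = i then (b1 - b2) * (a2 - a1 + e * (u - v))
        else (b1 - b2) * (∑ q : Fin 4, (rdb (c' j) q - rda (c' j) q))
      have e4 := sum_ev1 i c hc aa (by
        intro j hj
        simp only [aa]
        split_ifs with hji
        · rw [hji]; exact htop
        · rw [Int.cast_mul, rd_spec]
          show _ * (bi * c j) = _
          rw [← mul_assoc, hbi, one_mul])
      rw [← e4, sum_range_succ, smul_add, smul_sum, ← mul_smul]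
      congr 1
      · apply sum_congr rfl
        intro j hj
        have hji : j ≠ i := by have := mem_range.1 hj; omega
        simp only [aa, if_neg hji]
        rw [← mul_smul]
      · simp only [aa, if_true]
    · intro x hx
      obtain ⟨c0, j, hc0, h1', h2', h3'⟩ := ms_form i x
      have hp : 1 ≤ 11 ^ j := Nat.one_le_pow _ _ (by norm_num)
      cases x with
      | none => exact ⟨Nat.one_le_pow _ _ (by norm_num), le_refl _⟩
      | some y =>
        have a2 := (h3' y rfl).2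
        have hy' : y.1 < i := by
          simp only [ss, mem_insertNone, Option.mem_def, Option.some.injEq, forall_eq', mem_product,
            mem_range] at hx
          exact hx.1
        have h7 : 11 ^ (j + 1) ≤ 11 ^ i := pow_mono' (by omega)
        rw [pow_succ] at h7
        rw [h1']
        rcases hc0 with h | h | h | h <;> rw [h] <;> constructor <;> omega

theorem top_exact : ∀ x : ZMod 15, (x = 1 ∨ x = 2 ∨ x = 4 ∨ x = 11 ∨ x = 13 ∨ x = 14) →
    ∃ b1 b2 a1 a2 : Fin 3, ∃ bi : ZMod 15, ((b1.val : ZMod 15) - b2.val) * bi = 1 ∧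
      ((b1.val : ZMod 15) - b2.val) * ((a2.val : ZMod 15) - a1.val) = x := by decide

theorem top_crude : ∀ x : ZMod 15,
    ∃ a1 a2 u v : Fin 3,
      ((a2.val : ZMod 15) - a1.val + 3 * ((u.val : ZMod 15) - v.val)) = x := by decide

theorem ok2_fin (b : Bool) (a : Fin 3) : ok2 (b, (a.val : ℤ)) := by
  fin_cases a <;> simp [ok2]

theorem build_exact (i : ℕ) (c : VV) (hc : ∀ j, i < j → c j = 0)
    (ht : c i = 1 ∨ c i = 2 ∨ c i = 4 ∨ c i = 11 ∨ c i = 13 ∨ c i = 14) :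
    ∃ w : List Lt, (∀ t ∈ w, ok2 t) ∧ w.length = 4 * (11 ^ i + 1) ∧ vl w = zc c := by
  obtain ⟨b1, b2, a1, a2, bi, h1, h2⟩ := top_exact (c i) ht
  obtain ⟨w, hw1, hw2, hw3⟩ := builder2 i c hc b1.val b2.val a1.val a2.val 0 0 0 (ok2_fin _ _)
    (ok2_fin _ _) (ok2_fin _ _) (ok2_fin _ _) (Or.inl rfl) (Or.inl rfl) bi
    (by push_cast; exact h1) (by push_cast; simpa using h2)
  exact ⟨w, hw1, by rw [hw2]; ring, hw3⟩

theorem build_crude (i : ℕ) (c : VV) (hc : ∀ j, i < j → c j = 0) :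
    ∃ w : List Lt, (∀ t ∈ w, ok2 t) ∧ w.length = 4 * (11 ^ i + 1) + 12 ∧ vl w = zc c := by
  obtain ⟨a1, a2, u, v, h2⟩ := top_crude (c i)
  obtain ⟨w, hw1, hw2, hw3⟩ := builder2 i c hc 1 0 a1.val a2.val u.val v.val 3 (Or.inr (Or.inl rfl))
    (Or.inl rfl) (ok2_fin _ _) (ok2_fin _ _) (ok2_fin _ _) (ok2_fin _ _) 1
    (by simp) (by push_cast; simpa using h2)
  exact ⟨w, hw1, by rw [hw2], hw3⟩

end Run7.h459
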