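import Pool.Agent.Run7.h459.Gg

set_option linter.unusedSectionVars false

/-! Relators of odd length. -/

namespace Run7.h459

variable {B : Type} [Fintype B] [DecidableEq B] {ts : B → Fin 7 → Bool} {P : Type} [Group P]
  {gb : B → P} {C : Subgroup (P × QQ)} {e : P →* Z2}

theorem hom_word_one {G T : Type*} [Group G] (φ : G →* Z2) (val : T → G) (w : List T)
    (h : ∀ t ∈ w, φ (val t) = 1) : φ (vv val w) = 1 := by
  induction w with
  | nil => simp
  | cons t w ih =>
    rw [vv_cons, map_mul, h t (by simp), ih (fun s hs => h s (by simp [hs])), one_mul]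

theorem hom_word_odd {G T : Type*} [Group G] (φ : G →* Z2) (val : T → G) (w : List T)
    (h : ∀ t ∈ w, φ (val t) = Multiplicative.ofAdd 1) :
    φ (vv val w) = Multiplicative.ofAdd ((w.length : ℕ) : ZMod 2) := by
  induction w with
  | nil => simp
  | cons t w ih =>
    rw [vv_cons, map_mul, h t (by simp), ih (fun s hs => h s (by simp [hs])), ← ofAdd_add]
    congr 1
    push_cast [List.length_cons]; ring

/-- coordinate homomorphism -/
def qh (C : Subgroup (P × QQ)) (l : Fin 7) : TG (P × QQ) C →* Z2 :=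
  ((AddMonoidHom.toMultiplicative (Pi.evalAddMonoidHom (fun _ : Fin 7 => ZMod 2) l)).comp
    (MonoidHom.snd P QQ)).comp SemidirectProduct.rightHom

def ph (C : Subgroup (P × QQ)) (e : P →* Z2) : TG (P × QQ) C →* Z2 :=
  parHom (e.comp (MonoidHom.fst P QQ))

theorem qh_el (l l' : Fin 7) : qh C l (vl2 gb C (some (pu l' : Al ts))) = 1 ∨ l = l' := by
  by_cases h : l = l'
  · exact Or.inr h
  · left
    show Multiplicative.ofAdd ((Pi.single l' 1 : Fin 7 → ZMod 2) l) = 1
    rw [Pi.single_eq_of_ne h]; rfl

theorem qh_self (l : Fin 7) : qh C l (vl2 gb C (some (pu l : Al ts))) = Multiplicative.ofAdd 1 := by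
  show Multiplicative.ofAdd ((Pi.single l 1 : Fin 7 → ZMod 2) l) = _
  rw [Pi.single_eq_same]

theorem qh_ne (l : Fin 7) (t : Option (Al ts)) (h : qh C l (vl2 gb C t) ≠ 1) :
    t = some (pu l) ∨ ∃ b, ∃ hb : ts b l = true, t = some (de b l hb) := by
  cases t with
  | none => exact absurd rfl h
  | some a =>
    rcases al_cases a with ⟨l', rfl⟩ | ⟨b, rfl⟩ | ⟨b, l', hb, rfl⟩
    · rcases qh_el (gb := gb) (C := C) (ts := ts) l l' with h1 | h1
      · exact absurd h1 h
      · left; rw [h1]
    · exact absurd rfl h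
    · by_cases hl : l = l'
      · right; subst hl; exact ⟨b, hb, rfl⟩
      · exfalso
        apply h
        show Multiplicative.ofAdd ((Pi.single l' 1 : Fin 7 → ZMod 2) l) = 1
        rw [Pi.single_eq_of_ne hl]; rfl

theorem odd_lemma (H : GbH gb C e) {X : Type} (π : Option (Al ts) → Equiv.Perm X) {r : ℕ} (hr : 2 ≤ r)
    (h : Lcl (vl2 gb C) (2 * r) π) (w : List (Option (Al ts))) (hw : w.length = 2 * r + 1)
    (hv : vv (vl2 gb C) w = 1) : evp π w = 1 := by
  have hL := letH (ts := ts) H
  -- a pure letter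
  have hpure : ∃ l : Fin 7, some (pu l) ∈ w := by
    by_contra hcon
    push Not at hcon
    have h1 := hom_word_odd (ph C e) (vl2 gb C) w (by
      intro t ht
      cases t with
      | none => exact parHom_tau _
      | some a =>
        rcases al_cases a with ⟨l', rfl⟩ | ⟨b, rfl⟩ | ⟨b, l', hb, rfl⟩
        · exact absurd ht (hcon l')
        · show parHom _ (SemidirectProduct.inr _) = _
          rw [parHom_inr]; exact H.par b
        · show parHom _ (SemidirectProduct.inr _) = _
          rw [parHom_inr]; exact H.par b)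
    rw [hv, map_one, hw] at h1
    have h2 : ((2 * r + 1 : ℕ) : ZMod 2) = 1 := by
      push_cast
      rw [show (2 : ZMod 2) = 0 from rfl]; simp
    rw [h2] at h1
    exact absurd h1 (by decide)
  obtain ⟨l, hl⟩ := hpure
  obtain ⟨w1, w2, rfl⟩ := List.append_of_mem hl
  set p : Option (Al ts) := some (pu l) with hp
  -- the pure letter commutes
  have hvc : ∀ t : Option (Al ts), vl2 gb C p * vl2 gb C t = vl2 gb C t * vl2 gb C p := by
    intro t
    exact inr_central (hh gb) H.hC (H.hq (el l)) t
  have hpc : ∀ t, π p * π t = π t * π p := by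
    intro t
    ext x
    have := (h.eq_iff hL (by omega) [p, t] [t, p] (by simp; omega) x).2 (by
      simp only [vv_cons, vv_nil, mul_one]; exact hvc t)
    simpa using this
  have hvcW : ∀ W : List (Option (Al ts)), vl2 gb C p * vv (vl2 gb C) W = vv (vl2 gb C) W * vl2 gb C p := by
    intro W
    induction W with
    | nil => simp
    | cons t W ih => rw [vv_cons, ← mul_assoc, hvc, mul_assoc, ih, mul_assoc]
  have hpcW : ∀ W : List (Option (Al ts)), π p * evp π W = evp π W * π p := by
    intro W
    induction W with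
    | nil => simp
    | cons t W ih => rw [evp_cons, ← mul_assoc, hpc, mul_assoc, ih, mul_assoc]
  -- merging
  have hmerge : ∀ t : Option (Al ts), qh C l (vl2 gb C t) ≠ 1 → ∃ s : List (Option (Al ts)), s.length ≤ 1 ∧
      π p * π t = evp π s ∧ vl2 gb C p * vl2 gb C t = vv (vl2 gb C) s := by
    intro t ht
    rcases qh_ne l t ht with h1 | ⟨b, hb, h1⟩
    · refine ⟨[], by simp, ?_, ?_⟩
      · rw [h1]; ext x
        have := h.sq hL (by omega) p x
        simpa using this
      · rw [h1]; exact hL.inv p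
    · have hval : vl2 gb C p * vl2 gb C t = vv (vl2 gb C) [(some (ba b) : Option (Al ts))] := by
        rw [h1]
        show (SemidirectProduct.inr (hh gb (pu l : Al ts)) * SemidirectProduct.inr
          (hh gb (de b l hb : Al ts)) : TG (P × QQ) C) = _
        rw [← map_mul, vv_cons, vv_nil, mul_one]
        show _ = (SemidirectProduct.inr (hh gb (ba b : Al ts)) : TG (P × QQ) C)
        congr 1
        simp [el_sq]
      refine ⟨[some (ba b)], by simp, ?_, hval⟩
      ext x
      have := (h.eq_iff hL (by omega) [p, t] [some (ba b)] (by simp; omega) x).2 (by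
        rw [← hval]; simp)
      simpa using this
  have hsecond : (∃ t ∈ w1, qh C l (vl2 gb C t) ≠ 1) ∨ (∃ t ∈ w2, qh C l (vl2 gb C t) ≠ 1) := by
    by_contra hcon
    push Not at hcon
    have h1 := hom_word_one (qh C l) (vl2 gb C) w1 hcon.1
    have h2 := hom_word_one (qh C l) (vl2 gb C) w2 hcon.2
    have h3 := congrArg (qh C l) hv
    rw [vv_append, vv_cons, map_mul, map_mul, h1, h2, qh_self, MonoidHom.map_one (qh C l)] at h3
    exact absurd h3 (by decide)
  rcases hsecond with ⟨t, ht, hq⟩ | ⟨t, ht, hq⟩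
  · obtain ⟨w3, w4, rfl⟩ := List.append_of_mem ht
    obtain ⟨s, hs1, hs2, hs3⟩ := hmerge t hq
    have e1 : evp π (w3 ++ t :: w4 ++ p :: w2) = evp π (w3 ++ (s ++ (w4 ++ w2))) := by
      simp only [evp_append, evp_cons, ← hs2]
      rw [hpc t]
      calc evp π w3 * (π t * evp π w4) * (π p * evp π w2)
          = evp π w3 * (π t * (evp π w4 * π p) * evp π w2) := by simp only [mul_assoc]
        _ = _ := by rw [← hpcW]; simp only [mul_assoc]
    have e2 : vv (vl2 gb C) (w3 ++ t :: w4 ++ p :: w2) = vv (vl2 gb C) (w3 ++ (s ++ (w4 ++ w2))) := by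
      simp only [vv_append, vv_cons, ← hs3]
      rw [hvc t]
      calc vv (vl2 gb C) w3 * (vl2 gb C t * vv (vl2 gb C) w4) * (vl2 gb C p * vv (vl2 gb C) w2)
          = vv (vl2 gb C) w3 * (vl2 gb C t * (vv (vl2 gb C) w4 * vl2 gb C p) * vv (vl2 gb C) w2) := by
            simp only [mul_assoc]
        _ = _ := by rw [← hvcW]; simp only [mul_assoc]
    rw [e1]
    rw [e2] at hv
    ext x
    refine (h _ ?_ x).2 hv
    simp only [List.length_append, List.length_cons] at hw ⊢
    omega
  · obtain ⟨w3, w4, rfl⟩ := List.append_of_mem ht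
    obtain ⟨s, hs1, hs2, hs3⟩ := hmerge t hq
    have e1 : evp π (w1 ++ p :: (w3 ++ t :: w4)) = evp π (w1 ++ (w3 ++ (s ++ w4))) := by
      simp only [evp_append, evp_cons, ← hs2]
      calc evp π w1 * (π p * (evp π w3 * (π t * evp π w4)))
          = evp π w1 * ((π p * evp π w3) * (π t * evp π w4)) := by simp only [mul_assoc]
        _ = _ := by rw [hpcW]; simp only [mul_assoc]
    have e2 : vv (vl2 gb C) (w1 ++ p :: (w3 ++ t :: w4)) = vv (vl2 gb C) (w1 ++ (w3 ++ (s ++ w4))) := by
      simp only [vv_append, vv_cons, ← hs3]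
      calc vv (vl2 gb C) w1 * (vl2 gb C p * (vv (vl2 gb C) w3 * (vl2 gb C t * vv (vl2 gb C) w4)))
          = vv (vl2 gb C) w1 * ((vl2 gb C p * vv (vl2 gb C) w3) * (vl2 gb C t * vv (vl2 gb C) w4)) := by
            simp only [mul_assoc]
        _ = _ := by rw [hvcW]; simp only [mul_assoc]
    rw [e1]
    rw [e2] at hv
    ext x
    refine (h _ ?_ x).2 hv
    simp only [List.length_append, List.length_cons] at hw ⊢
    omega

end Run7.h459
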