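import Pool.Agent.Run7.h459.QP4
import Pool.Agent.Run7.h459.Od
import Pool.Agent.Run7.h459.Bu

set_option linter.unusedSectionVars false

/-! Coordinates of words. -/

namespace Run7.h459

abbrev PP := Ga × Ga
abbrev HH := PP × QQ
abbrev MV := Multiplicative VV

theorem lt_inj {t t' : Lt} (h : lt t = lt t') : t = t' := by
  rcases t with ⟨b, a⟩
  rcases t' with ⟨b', a'⟩
  cases b <;> cases b'
  · rw [lt_f, lt_f] at h
    have h1 := congrArg LG.h h
    simp only at h1
    rw [Finsupp.single_injective _ h1]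
  · rw [lt_f, lt_t] at h
    exact absurd (congrArg LG.p h) (by norm_num)
  · rw [lt_f, lt_t] at h
    exact absurd (congrArg LG.p h) (by norm_num)
  · rw [lt_t, lt_t] at h
    have h1 := congrArg LG.h h
    simp only at h1
    rw [neg_inj.1 (Finsupp.single_injective _ h1)]

theorem lt_ne (t : Lt) : lt t ≠ 1 := by
  intro h
  rcases t with ⟨b, a⟩
  cases b
  · rw [lt_f] at h; exact absurd (congrArg LG.p h) (by norm_num)
  · rw [lt_t] at h; exact absurd (congrArg LG.p h) (by norm_num)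

noncomputable def pg : Ga →* Z2 where
  toFun g := Multiplicative.ofAdd (Da.ε g.p)
  map_one' := by show Multiplicative.ofAdd (Da.ε 0) = 1; rw [map_zero]; rfl
  map_mul' x y := by
    show Multiplicative.ofAdd (Da.ε (Da.ac x.p y.p)) = _
    rw [Dat.ε_ac]; rfl

theorem pg_lt (t : Lt) : pg (lt t) = Multiplicative.ofAdd 1 := by
  rcases t with ⟨b, a⟩
  cases b
  · show Multiplicative.ofAdd (Da.ε 1) = _
    rw [map_one]
  · show Multiplicative.ofAdd (Da.ε (-1)) = _
    rw [map_neg, map_one]; rfl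

noncomputable def zcH : MV →* Ga where
  toFun c := zc c.toAdd
  map_one' := rfl
  map_mul' _ _ := zc_add _ _

/-- the central homomorphism -/
noncomputable def cc : MV × MV × QQ →* HH where
  toFun x := ((zcH x.1, zcH x.2.1), x.2.2)
  map_one' := by simp
  map_mul' x y := by simp

noncomputable def CC : Subgroup HH := cc.range

theorem cc_inj : Function.Injective cc := by
  rintro ⟨a, b, q⟩ ⟨a', b', q'⟩ h
  have h1 : zc a.toAdd = zc a'.toAdd := congrArg (fun x : HH => x.1.1) h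
  have h2 : zc b.toAdd = zc b'.toAdd := congrArg (fun x : HH => x.1.2) h
  have h3 : q = q' := congrArg (fun x : HH => x.2) h
  rw [Prod.ext_iff, Prod.ext_iff]
  exact ⟨zc_inj h1, zc_inj h2, h3⟩

theorem CC_center : CC ≤ Subgroup.center HH := by
  rintro _ ⟨⟨a, b, q⟩, rfl⟩
  rw [Subgroup.mem_center_iff]
  rintro ⟨⟨g, g'⟩, q'⟩
  rw [Prod.ext_iff, Prod.ext_iff]
  exact ⟨⟨(zc_comm _ _).symm, (zc_comm _ _).symm⟩, mul_comm _ _⟩

theorem CC_q (q : QQ) : ((1 : PP), q) ∈ CC := ⟨(1, 1, q), rfl⟩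

section
variable {B : Type} [Fintype B] [DecidableEq B] {ts : B → Fin 7 → Bool}

def kk (c : B → List Lt) : Al ts → List Lt
  | Sum.inl _ => []
  | Sum.inr (Sum.inl b) => c b
  | Sum.inr (Sum.inr x) => c x.1.1

noncomputable def qa (gb : B → PP) (a : Al ts) : QQ := (hh gb a).2

def WW (c : B → List Lt) (w : List (Al ts)) : List Lt := w.flatMap (kk c)

@[simp] theorem WW_nil (c : B → List Lt) : WW c ([] : List (Al ts)) = [] := rfl
@[simp] theorem WW_cons (c : B → List Lt) (a : Al ts) (w : List (Al ts)) :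
    WW c (a :: w) = kk c a ++ WW c w := rfl

theorem WW_len {c : B → List Lt} (hc : ∀ b, (c b).length ≤ 1) (w : List (Al ts)) :
    (WW c w).length ≤ w.length := by
  induction w with
  | nil => simp
  | cons a w ih =>
    have : (kk c a).length ≤ 1 := by
      rcases al_cases a with ⟨l, rfl⟩ | ⟨b, rfl⟩ | ⟨b, l, h, rfl⟩
      · simp [kk]
      · exact hc b
      · exact hc b
    simp only [WW_cons, List.length_append, List.length_cons]; omega

variable {gb : B → PP} {c1 c2 : B → List Lt}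

theorem hh_coord (hgb : ∀ b, gb b = (vl (c1 b), vl (c2 b))) (a : Al ts) :
    hh gb a = ((vl (kk c1 a), vl (kk c2 a)), qa gb a) := by
  rcases al_cases a with ⟨l, rfl⟩ | ⟨b, rfl⟩ | ⟨b, l, h, rfl⟩
  · rfl
  · rw [Prod.ext_iff]; exact ⟨hgb b, rfl⟩
  · rw [Prod.ext_iff]; exact ⟨hgb b, rfl⟩

noncomputable def qq (gb : B → PP) (w : List (Al ts)) : QQ := (w.map (qa gb)).prod

theorem vv_coord (hgb : ∀ b, gb b = (vl (c1 b), vl (c2 b))) (w : List (Al ts)) :
    vv (hh gb) w = ((vl (WW c1 w), vl (WW c2 w)), qq gb w) := by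
  induction w with
  | nil => rfl
  | cons a w ih =>
    rw [vv_cons, ih, hh_coord hgb, WW_cons, WW_cons, vl_append, vl_append]
    simp [qq]

/-- a system with coordinates -/
structure CrdH {X : Type} (gb : B → PP) (c1 c2 : B → List Lt) (ok : Lt → Prop)
    (π0 : Al ts → Equiv.Perm X) (Θ1 Θ2 : Lt → Equiv.Perm X) (E : QQ →* Equiv.Perm X) : Prop where
  hgb : ∀ b, gb b = (vl (c1 b), vl (c2 b))
  l1 : ∀ b, (c1 b).length ≤ 1
  l2 : ∀ b, (c2 b).length ≤ 1
  o1 : ∀ b, ∀ t ∈ c1 b, ok t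
  o2 : ∀ b, ∀ t ∈ c2 b, ok t
  dec : ∀ a, π0 a = ((kk c1 a).map Θ1).prod * (((kk c2 a).map Θ2).prod * E (qa gb a))
  c12 : ∀ t t', ok t → ok t' → Θ1 t * Θ2 t' = Θ2 t' * Θ1 t
  cE1 : ∀ t q, ok t → Θ1 t * E q = E q * Θ1 t
  cE2 : ∀ t q, ok t → Θ2 t * E q = E q * Θ2 t

theorem kk_ok {ok : Lt → Prop} {c : B → List Lt} (ho : ∀ b, ∀ t ∈ c b, ok t) (a : Al ts) :
    ∀ t ∈ kk c a, ok t := by
  rcases al_cases a with ⟨l, rfl⟩ | ⟨b, rfl⟩ | ⟨b, l, h, rfl⟩
  · intro t ht; simp [kk] at ht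
  · exact ho b
  · exact ho b

theorem WW_ok {ok : Lt → Prop} {c : B → List Lt} (ho : ∀ b, ∀ t ∈ c b, ok t) (w : List (Al ts)) :
    ∀ t ∈ WW c w, ok t := by
  induction w with
  | nil => intro t ht; simp at ht
  | cons a w ih =>
    intro t ht
    rw [WW_cons, List.mem_append] at ht
    rcases ht with h | h
    · exact kk_ok ho a t h
    · exact ih t h

theorem comm_prod {G : Type*} [Group G] {T : Type*} (f : T → G) (g : G) (w : List T)
    (h : ∀ t ∈ w, g * f t = f t * g) : g * (w.map f).prod = (w.map f).prod * g := by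
  induction w with
  | nil => simp
  | cons t w ih =>
    rw [List.map_cons, List.prod_cons, ← mul_assoc, h t (by simp), mul_assoc,
      ih (fun s hs => h s (by simp [hs])), mul_assoc]

variable {X : Type} {ok : Lt → Prop} {π0 : Al ts → Equiv.Perm X} {Θ1 Θ2 : Lt → Equiv.Perm X}
  {E : QQ →* Equiv.Perm X}

theorem CrdH.word (h : CrdH gb c1 c2 ok π0 Θ1 Θ2 E) (w : List (Al ts)) :
    evp π0 w = ((WW c1 w).map Θ1).prod * (((WW c2 w).map Θ2).prod * E (qq gb w)) := by
  induction w with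
  | nil => simp [qq]
  | cons a w ih =>
    have e1 : ∀ t ∈ WW c1 w, E (qa gb a) * Θ1 t = Θ1 t * E (qa gb a) :=
      fun t ht => (h.cE1 t _ (WW_ok h.o1 w t ht)).symm
    have e2 : ∀ t ∈ WW c2 w, E (qa gb a) * Θ2 t = Θ2 t * E (qa gb a) :=
      fun t ht => (h.cE2 t _ (WW_ok h.o2 w t ht)).symm
    have e3 : ((kk c2 a).map Θ2).prod * ((WW c1 w).map Θ1).prod =
        ((WW c1 w).map Θ1).prod * ((kk c2 a).map Θ2).prod := by
      apply comm_prod
      intro t ht
      symm
      apply comm_prod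
      intro t' ht'
      exact h.c12 t t' (WW_ok h.o1 w t ht) (kk_ok h.o2 a t' ht')
    have e1' := comm_prod Θ1 _ _ e1
    have e2' := comm_prod Θ2 _ _ e2
    have hq : qq gb (a :: w) = qa gb a * qq gb w := by simp [qq]
    rw [evp_cons, ih, h.dec a, WW_cons, WW_cons, List.map_append, List.prod_append,
      List.map_append, List.prod_append, hq, map_mul]
    generalize ((kk c1 a).map Θ1).prod = A1 at *
    generalize ((kk c2 a).map Θ2).prod = A2 at *
    generalize ((WW c1 w).map Θ1).prod = B1 at *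
    generalize ((WW c2 w).map Θ2).prod = B2 at *
    generalize E (qa gb a) = e at *
    generalize E (qq gb w) = f at *
    calc A1 * (A2 * e) * (B1 * (B2 * f)) = A1 * A2 * (e * B1) * (B2 * f) := by simp only [mul_assoc]
      _ = A1 * (A2 * B1) * (e * B2) * f := by rw [e1']; simp only [mul_assoc]
      _ = A1 * B1 * (A2 * B2 * (e * f)) := by rw [e3, e2']; simp only [mul_assoc]

theorem comm_closure {G : Type*} [Group G] {S : Set G} {g x : G} (h : ∀ s ∈ S, g * s = s * g)
    (hx : x ∈ Subgroup.closure S) : g * x = x * g := by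
  have : Subgroup.closure S ≤ Subgroup.centralizer {g} := by
    rw [Subgroup.closure_le]
    intro s hs
    rw [SetLike.mem_coe, Subgroup.mem_centralizer_singleton_iff]
    exact (h s hs).symm
  have h2 := this hx
  rw [Subgroup.mem_centralizer_singleton_iff] at h2
  exact h2.symm

/-- the central action of a local system -/
theorem exists_K (h : CrdH gb c1 c2 ok π0 Θ1 Θ2 E) {Λ i D : ℕ} (ar1 : AR Θ1 ok Λ) (ar2 : AR Θ2 ok Λ)
    (hi : 2 ≤ i) (hΛ : 8 * (11 ^ i + 1) + 2 ≤ Λ) (hD1 : 4 * (D + 1) ≤ Λ) (hD2 : D < 11 ^ (i + 1)) :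
    ∃ K : MV × MV × QQ →* Equiv.Perm X, (∀ x a, K x * π0 a = π0 a * K x) ∧
      (∀ w : List (Al ts), (WW c1 w).length < 4 * (D + 2) → (WW c2 w).length < 4 * (D + 2) →
        ∀ x, vv (hh gb) w = cc x → evp π0 w = K x) ∧
      (∀ x : MV × MV × QQ, (∀ j, j ≤ i → x.1.toAdd j = 0) → (∀ j, j ≤ i → x.2.1.toAdd j = 0) →
        x.2.2 = 1 → K x = 1) := by
  obtain ⟨κ1, a1, a2, a3, a4, a5⟩ := Qp ar1 hi hΛ hD1 hD2
  obtain ⟨κ2, b1, b2, b3, b4, b5⟩ := Qp ar2 hi hΛ hD1 hD2
  -- commutations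
  have m1 : ∀ c t, ok t → κ1 c * Θ2 t = Θ2 t * κ1 c := by
    intro c t ht
    symm
    apply comm_closure _ (a5 c)
    rintro _ ⟨t', ht', rfl⟩
    exact (h.c12 t' t ht' ht).symm
  have m2 : ∀ c t, ok t → κ2 c * Θ1 t = Θ1 t * κ2 c := by
    intro c t ht
    symm
    apply comm_closure _ (b5 c)
    rintro _ ⟨t', ht', rfl⟩
    exact h.c12 t t' ht ht'
  have m3 : ∀ c q, E q * κ1 c = κ1 c * E q := by
    intro c q
    apply comm_closure _ (a5 c)
    rintro _ ⟨t', ht', rfl⟩
    exact (h.cE1 t' q ht').symm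
  have m4 : ∀ c q, E q * κ2 c = κ2 c * E q := by
    intro c q
    apply comm_closure _ (b5 c)
    rintro _ ⟨t', ht', rfl⟩
    exact (h.cE2 t' q ht').symm
  have m5 : ∀ c c', κ1 c * κ2 c' = κ2 c' * κ1 c := by
    intro c c'
    apply comm_closure _ (b5 c')
    rintro _ ⟨t', ht', rfl⟩
    exact m1 c t' ht'
  let K : MV × MV × QQ →* Equiv.Perm X :=
    { toFun := fun x => κ1 x.1 * (κ2 x.2.1 * E x.2.2)
      map_one' := by simp
      map_mul' := fun x y => by
        simp only [Prod.fst_mul, Prod.snd_mul, map_mul]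
        have e1 := m3 y.1 x.2.2
        have e2 := m4 y.2.1 x.2.2
        have e3 := m5 y.1 x.2.1
        calc κ1 x.1 * κ1 y.1 * (κ2 x.2.1 * κ2 y.2.1 * (E x.2.2 * E y.2.2))
            = κ1 x.1 * (κ1 y.1 * κ2 x.2.1) * (κ2 y.2.1 * E x.2.2) * E y.2.2 := by
              simp only [mul_assoc]
          _ = κ1 x.1 * κ2 x.2.1 * (κ1 y.1 * E x.2.2) * κ2 y.2.1 * E y.2.2 := by
              rw [e3, ← e2]; simp only [mul_assoc]
          _ = _ := by rw [← e1]; simp only [mul_assoc] }
  have hK : ∀ x, K x = κ1 x.1 * (κ2 x.2.1 * E x.2.2) := fun x => rfl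
  refine ⟨K, ?_, ?_, ?_⟩
  · intro x a
    have g1 : ∀ t, ok t → K x * Θ1 t = Θ1 t * K x := by
      intro t ht
      rw [hK]
      calc κ1 x.1 * (κ2 x.2.1 * E x.2.2) * Θ1 t = κ1 x.1 * (κ2 x.2.1 * (E x.2.2 * Θ1 t)) := by
            simp only [mul_assoc]
        _ = κ1 x.1 * ((κ2 x.2.1 * Θ1 t) * E x.2.2) := by rw [← h.cE1 t _ ht]; simp only [mul_assoc]
        _ = (κ1 x.1 * Θ1 t) * (κ2 x.2.1 * E x.2.2) := by rw [m2 _ t ht]; simp only [mul_assoc]
        _ = _ := by rw [a1 _ t ht]; simp only [mul_assoc]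
    have g2 : ∀ t, ok t → K x * Θ2 t = Θ2 t * K x := by
      intro t ht
      rw [hK]
      calc κ1 x.1 * (κ2 x.2.1 * E x.2.2) * Θ2 t = κ1 x.1 * (κ2 x.2.1 * (E x.2.2 * Θ2 t)) := by
            simp only [mul_assoc]
        _ = κ1 x.1 * ((κ2 x.2.1 * Θ2 t) * E x.2.2) := by rw [← h.cE2 t _ ht]; simp only [mul_assoc]
        _ = (κ1 x.1 * Θ2 t) * (κ2 x.2.1 * E x.2.2) := by rw [b1 _ t ht]; simp only [mul_assoc]
        _ = _ := by rw [m1 _ t ht]; simp only [mul_assoc]
    have g3 : ∀ q, K x * E q = E q * K x := by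
      intro q
      rw [hK]
      calc κ1 x.1 * (κ2 x.2.1 * E x.2.2) * E q = κ1 x.1 * (κ2 x.2.1 * (E x.2.2 * E q)) := by
            simp only [mul_assoc]
        _ = κ1 x.1 * ((κ2 x.2.1 * E q) * E x.2.2) := by
            rw [← map_mul, mul_comm, map_mul]; simp only [mul_assoc]
        _ = (κ1 x.1 * E q) * (κ2 x.2.1 * E x.2.2) := by rw [← m4]; simp only [mul_assoc]
        _ = _ := by rw [← m3]; simp only [mul_assoc]
    rw [h.dec a]
    have f1 := comm_prod Θ1 (K x) (kk c1 a) (fun t ht => g1 t (kk_ok h.o1 a t ht))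
    have f2 := comm_prod Θ2 (K x) (kk c2 a) (fun t ht => g2 t (kk_ok h.o2 a t ht))
    rw [← mul_assoc, f1, mul_assoc, ← mul_assoc (K x), f2, mul_assoc, g3]
    simp only [mul_assoc]
  · intro w hw1 hw2 x hx
    rw [vv_coord h.hgb] at hx
    have x1 : vl (WW c1 w) = zc x.1.toAdd := congrArg (fun y : HH => y.1.1) hx
    have x2 : vl (WW c2 w) = zc x.2.1.toAdd := congrArg (fun y : HH => y.1.2) hx
    have x3 : qq gb w = x.2.2 := congrArg (fun y : HH => y.2) hx
    rw [h.word, a4 _ (WW_ok h.o1 w) hw1 _ x1, b4 _ (WW_ok h.o2 w) hw2 _ x2, x3]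
    rfl
  · intro x h1 h2 h3
    rw [hK]
    have e1 : κ1 x.1 = 1 := a3 _ h1
    have e2 : κ2 x.2.1 = 1 := b3 _ h2
    rw [e1, e2, h3]; simp

/-! The action of the gadget group. -/

def wq (q : QQ) : List (Al ts) := ((List.finRange 7).filter (fun l => decide (q.toAdd l = 1))).map pu

theorem wq_len (q : QQ) : (wq q : List (Al ts)).length ≤ 7 := by
  unfold wq
  rw [List.length_map]
  refine (List.length_filter_le _ _).trans (by simp)

theorem prod_pu (L : List (Fin 7)) : vv (hh gb) (L.map (pu : Fin 7 → Al ts)) = (1, (L.map el).prod) := by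
  induction L with
  | nil => rfl
  | cons l L ih => rw [List.map_cons, vv_cons, ih]; simp

theorem el_prod (q : QQ) : (((List.finRange 7).filter (fun l => decide (q.toAdd l = 1))).map el).prod = q := by
  have key : ∀ L : List (Fin 7), (L.map el).prod =
      Multiplicative.ofAdd ((L.map (fun l => (Pi.single l 1 : Fin 7 → ZMod 2))).sum) := by
    intro L
    induction L with
    | nil => rfl
    | cons l L ih => rw [List.map_cons, List.prod_cons, ih, List.map_cons, List.sum_cons, ofAdd_add]; rfl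
  rw [key]
  have h2 : ∀ f : Fin 7 → ZMod 2, (((List.finRange 7).filter (fun l => decide (f l = 1))).map
      (fun l => (Pi.single l 1 : Fin 7 → ZMod 2))).sum = f := by
    intro f
    have h3 : ∀ L : List (Fin 7), ((L.filter (fun l => decide (f l = 1))).map
        (fun l => (Pi.single l 1 : Fin 7 → ZMod 2))).sum =
        (L.map (fun l => (Pi.single l (f l) : Fin 7 → ZMod 2))).sum := by
      intro L
      induction L with
      | nil => rfl
      | cons l L ih =>
        rcases zmod2_cases (f l) with h | h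
        · rw [List.filter_cons_of_neg (by simp [h]), ih]; simp [h]
        · rw [List.filter_cons_of_pos (by simp [h])]; simp [h, ih]
    rw [h3, ← List.ofFn_eq_map, List.sum_ofFn]
    exact Finset.univ_sum_single f
  rw [h2]; rfl

theorem vv_wq (q : QQ) : vv (hh gb) (wq q : List (Al ts)) = (1, q) := by
  unfold wq
  rw [prod_pu, el_prod]

end

end Run7.h459
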