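import Pool.Agent.Run7.h459.PM

set_option linter.unusedSectionVars false

/-! Union bound for disconnected matchings. -/

namespace Run7.h459

open Finset

variable {O : Type*} [Fintype O] [DecidableEq O]

/-- the matchings for which a set is closed -/
def Cl (I : Finset O) : Finset (Equiv.Perm O) := (PMs O).filter fun π => Clo π I

theorem Cl_card_eq (I I' : Finset O) (h : I.card = I'.card) : (Cl I).card = (Cl I').card := by
  -- a permutation moving one set to the other
  have hc : (univ \ I).card = (univ \ I').card := by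
    rw [card_sdiff_of_subset (subset_univ _), card_sdiff_of_subset (subset_univ _), h]
  have key : ∀ (I I' : Finset O), I.card = I'.card → ∃ σ : Equiv.Perm O, ∀ x, σ x ∈ I' ↔ x ∈ I := by
    intro I I' h
    have e1 : {x // x ∈ I} ≃ {x // x ∈ I'} := Finset.equivOfCardEq h
    have hc : Fintype.card {x // x ∉ I} = Fintype.card {x // x ∉ I'} := by
      rw [Fintype.card_subtype_compl, Fintype.card_subtype_compl, Fintype.card_coe,
        Fintype.card_coe, h]
    have e2 : {x // x ∉ I} ≃ {x // x ∉ I'} := Fintype.equivOfCardEq hc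
    refine ⟨Equiv.subtypeCongr e1 e2, fun x => ?_⟩
    by_cases hx : x ∈ I
    · simp [Equiv.subtypeCongr, hx]
    · simp only [Equiv.subtypeCongr, hx, iff_false]
      simpa [hx] using (e2 ⟨x, hx⟩).2
  obtain ⟨σ, hσ⟩ := key I I' h
  have hσ' : ∀ x, σ.symm x ∈ I ↔ x ∈ I' := fun x => by rw [← hσ, Equiv.apply_symm_apply]
  apply card_bij (fun (π : Equiv.Perm O) _ => (σ.symm.trans (π.trans σ) : Equiv.Perm O))
  · intro π hπ
    unfold Cl at hπ ⊢
    rw [mem_filter, mem_PMs] at hπ ⊢
    obtain ⟨⟨h1, h2⟩, h3⟩ := hπ
    refine ⟨⟨fun x => by simp [h1], fun x hx => ?_⟩, fun x hx => ?_⟩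
    · simp only [Equiv.trans_apply] at hx
      rw [← Equiv.eq_symm_apply] at hx
      exact h2 _ hx
    · simp only [Equiv.trans_apply]
      rw [hσ]
      apply h3
      rw [hσ']
      exact hx
  · intro π _ π' _ heq
    ext x
    have := congrArg (fun f : Equiv.Perm O => f (σ x)) heq
    simpa using this
  · intro π hπ
    unfold Cl at hπ
    rw [mem_filter, mem_PMs] at hπ
    obtain ⟨⟨h1, h2⟩, h3⟩ := hπ
    refine ⟨(σ.trans (π.trans σ.symm) : Equiv.Perm O), ?_, by ext x; simp⟩
    unfold Cl
    rw [mem_filter, mem_PMs]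
    refine ⟨⟨fun x => by simp [h1], fun x hx => ?_⟩, fun x hx => ?_⟩
    · simp only [Equiv.trans_apply] at hx
      rw [Equiv.symm_apply_eq] at hx
      exact h2 _ hx
    · simp only [Equiv.trans_apply]
      rw [hσ']
      apply h3
      rw [hσ]; exact hx

/-- closed sets of an involution -/
theorem closed_count (π : Equiv.Perm O) (hπ : π ∈ PMs O) (a : ℕ) :
    (((powersetCard (2 * a) (univ : Finset O)).filter fun I => Clo π I).card) ≤
      (Fintype.card O / 2).choose a := by
  classical
  rw [mem_PMs] at hπ
  obtain ⟨hinv, hfp⟩ := hπ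
  let e := Fintype.equivFin O
  let R : Finset O := univ.filter fun x => e x < e (π x)
  have hhalf : ∀ I : Finset O, Clo π I → 2 * (I ∩ R).card = I.card := by
    intro I hI
    have h1 : (I ∩ R).card = (I \ R).card := by
      apply card_bij (fun x _ => π x)
      · intro x hx
        rw [mem_inter, mem_filter] at hx
        rw [mem_sdiff, mem_filter]
        refine ⟨hI x hx.1, fun h => ?_⟩
        rw [hinv] at h
        exact absurd (h.2.trans hx.2.2) (lt_irrefl _)
      · intro x _ y _ h; exact π.injective h
      · intro y hy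
        rw [mem_sdiff, mem_filter] at hy
        refine ⟨π y, ?_, hinv y⟩
        rw [mem_inter, mem_filter, hinv]
        refine ⟨hI y hy.1, mem_univ _, ?_⟩
        have h2 : ¬ e y < e (π y) := fun h => hy.2 ⟨mem_univ _, h⟩
        rcases lt_trichotomy (e y) (e (π y)) with h | h | h
        · exact absurd h h2
        · exact absurd (e.injective h).symm (hfp y)
        · exact h
    have h2 := card_inter_add_card_sdiff I R
    omega
  have hR : R.card = Fintype.card O / 2 := by
    have := hhalf univ (fun x _ => mem_univ _)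
    rw [univ_inter, card_univ] at this
    omega
  rw [← hR, ← card_powersetCard]
  apply card_le_card_of_injOn (fun I => I ∩ R)
  · intro I hI
    rw [mem_coe, mem_filter, mem_powersetCard] at hI
    rw [mem_coe, mem_powersetCard]
    refine ⟨inter_subset_right, ?_⟩
    show (I ∩ R).card = a
    have := hhalf I hI.2
    have := hI.1.2
    omega
  · intro I hI J hJ hIJ
    rw [mem_coe, mem_filter] at hI hJ
    simp only at hIJ
    have key : ∀ I J : Finset O, Clo π I → Clo π J → I ∩ R = J ∩ R → I ⊆ J := by
      intro I J hI hJ h x hx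
      by_cases hxR : x ∈ R
      · have : x ∈ I ∩ R := mem_inter.2 ⟨hx, hxR⟩
        rw [h] at this
        exact (mem_inter.1 this).1
      · have h3 : π x ∈ R := by
          rw [mem_filter, hinv]
          refine ⟨mem_univ _, ?_⟩
          have h2 : ¬ e x < e (π x) := fun h => hxR (mem_filter.2 ⟨mem_univ _, h⟩)
          rcases lt_trichotomy (e x) (e (π x)) with h | h | h
          · exact absurd h h2
          · exact absurd (e.injective h).symm (hfp x)
          · exact h
        have : π x ∈ I ∩ R := mem_inter.2 ⟨hI x hx, h3⟩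
        rw [h] at this
        have := hJ _ (mem_inter.1 this).1
        rwa [hinv] at this
    exact Subset.antisymm (key I J hI.2 hJ.2 hIJ) (key J I hJ.2 hI.2 hIJ.symm)

theorem vand_sq (m a : ℕ) : (m.choose a) ^ 2 ≤ (2 * m).choose (2 * a) := by
  rw [two_mul m, two_mul a, Nat.add_choose_eq, pow_two]
  exact single_le_sum (f := fun ij : ℕ × ℕ => m.choose ij.1 * m.choose ij.2)
    (fun _ _ => Nat.zero_le _) (mem_antidiagonal.2 rfl : (a, a) ∈ antidiagonal (a + a))

theorem Cl_bound (I : Finset O) (a m : ℕ) (hI : I.card = 2 * a) (hN : Fintype.card O = 2 * m) :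
    (Cl I).card * m.choose a ≤ (PMs O).card := by
  classical
  have ham : a ≤ m := by
    have := card_le_univ I; omega
  have h1 : (Fintype.card O).choose (2 * a) * (Cl I).card ≤ (PMs O).card * m.choose a := by
    calc (Fintype.card O).choose (2 * a) * (Cl I).card
        = ∑ I' ∈ powersetCard (2 * a) (univ : Finset O), (Cl I').card := by
          rw [sum_congr rfl (g := fun _ => (Cl I).card)]
          · rw [sum_const, card_powersetCard, smul_eq_mul, card_univ]
          · intro I' hI'
            exact Cl_card_eq _ _ (by rw [(mem_powersetCard.1 hI').2, hI])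
      _ = ∑ π ∈ PMs O, (((powersetCard (2 * a) (univ : Finset O)).filter fun I => Clo π I).card) := by
          unfold Cl
          simp only [card_filter]
          rw [sum_comm]
      _ ≤ ∑ π ∈ PMs O, m.choose a := by
          apply sum_le_sum
          intro π hπ
          have := closed_count π hπ a
          rwa [hN, Nat.mul_div_cancel_left m (by norm_num)] at this
      _ = _ := by rw [sum_const, smul_eq_mul]
  have h2 := vand_sq m a
  rw [hN] at h1
  have h3 : 0 < m.choose a := Nat.choose_pos ham
  have h4 : (m.choose a) * ((Cl I).card * m.choose a) ≤ m.choose a * (PMs O).card := by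
    calc (m.choose a) * ((Cl I).card * m.choose a) = (m.choose a) ^ 2 * (Cl I).card := by ring
      _ ≤ (2 * m).choose (2 * a) * (Cl I).card := Nat.mul_le_mul_right _ h2
      _ ≤ _ := by rw [mul_comm (m.choose a)]; exact h1
  exact Nat.le_of_mul_le_mul_left h4 h3

theorem Cl_odd (I : Finset O) (hI : I.card % 2 = 1) : (Cl I).card = 0 := by
  rw [card_eq_zero]
  unfold Cl
  rw [filter_eq_empty_iff]
  intro π hπ hc
  rw [mem_PMs] at hπ
  obtain ⟨l, _, _, h, _⟩ := exists_list hπ.1 hπ.2 _ I rfl hc
  omega

theorem choose_ge {n k : ℕ} (h1 : 1 ≤ k) (h2 : k + 1 ≤ n) : n ≤ n.choose k := by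
  obtain ⟨d, rfl⟩ := Nat.exists_eq_add_of_le h2
  have : (k + 1 + d).choose k = (k + 1 + d).choose (d + 1) := by
    rw [← Nat.choose_symm_of_eq_add]; ring
  induction k with
  | zero => omega
  | succ k ih =>
    rcases Nat.eq_zero_or_pos k with hk | hk
    · subst hk; simp
    · have h3 : (k + 1 + 1 + d).choose (k + 1) = (k + 1 + d).choose k + (k + 1 + d).choose (k + 1) := by
        rw [show k + 1 + 1 + d = (k + 1 + d) + 1 by ring, Nat.choose_succ_succ]
      have h4 := ih (by omega) (by omega) (by rw [← Nat.choose_symm_of_eq_add]; ring)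
      have h5 : 0 < (k + 1 + d).choose (k + 1) := Nat.choose_pos (by omega)
      omega

theorem choose_mono2 {a b a' b' : ℕ} (h1 : a' ≤ a) (h2 : b' ≤ b) :
    (a' + b').choose a' ≤ (a + b).choose a := by
  calc (a' + b').choose a' ≤ (a' + b).choose a' := Nat.choose_le_choose _ (by omega)
    _ = (a' + b).choose b := by rw [Nat.choose_symm_add]
    _ ≤ (a + b).choose b := Nat.choose_le_choose _ (by omega)
    _ = (a + b).choose a := by rw [Nat.choose_symm_add]

theorem pow4_le (k j : ℕ) : (k.choose j) ^ 4 ≤ (4 * k).choose (4 * j) := by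
  have h1 := vand_sq k j
  have h2 := vand_sq (2 * k) (2 * j)
  calc (k.choose j) ^ 4 = ((k.choose j) ^ 2) ^ 2 := by ring
    _ ≤ ((2 * k).choose (2 * j)) ^ 2 := Nat.pow_le_pow_left h1 2
    _ ≤ (2 * (2 * k)).choose (2 * (2 * j)) := h2
    _ = _ := by congr 1 <;> ring

variable {B : Type*} [Fintype B] [DecidableEq B]

theorem disc_bound (β : O → B) (hβ : ∀ b, 8 ≤ (univ.filter fun x => β x = b).card)
    (hN : 0 < Fintype.card O) :
    (((PMs O).filter fun π => ∃ J : Finset B, J.Nonempty ∧ J ≠ univ ∧
      Clo π (univ.filter fun x => β x ∈ J)).card : ℝ) ≤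
      Real.sqrt (2 / Fintype.card O) * (PMs O).card := by
  classical
  set k := Fintype.card B with hk
  set pre : Finset B → Finset O := fun J => univ.filter fun x => β x ∈ J with hpre
  have hcard : ∀ J : Finset B, 8 * J.card ≤ (pre J).card := by
    intro J
    have : (pre J).card = ∑ b ∈ J, (univ.filter fun x => β x = b).card := by
      rw [hpre, ← card_biUnion]
      · congr 1; ext x; simp
      · intro a _ b _ hab
        rw [Function.onFun, disjoint_filter]
        intro x _ h1 h2
        exact hab (h1.symm.trans h2)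
    rw [this, mul_comm, ← smul_eq_mul, ← sum_const]
    exact sum_le_sum fun b _ => hβ b
  have hcompl : ∀ J : Finset B, (pre J).card + (pre Jᶜ).card = Fintype.card O := by
    intro J
    rw [← card_union_of_disjoint, ← card_univ]
    · congr 1; ext x; simp [hpre, em]
    · rw [hpre]
      simp only
      rw [disjoint_filter]
      intro x _ h1 h2
      exact (mem_compl.1 h2) h1
  -- bound for each J
  have hJ : ∀ J : Finset B, J.Nonempty → J ≠ univ →
      ((Cl (pre J)).card : ℝ) ≤ Real.sqrt (2 / Fintype.card O) *
        (((k.choose J.card : ℕ) : ℝ) ^ 2)⁻¹ * (PMs O).card := by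
    intro J hJ1 hJ2
    have hJc : 1 ≤ J.card := card_pos.2 hJ1
    have hJc2 : J.card + 1 ≤ k := by
      have h5 : J ⊂ univ := ⟨subset_univ _, fun h => hJ2 (Subset.antisymm (subset_univ _) h)⟩
      have := card_lt_card h5
      rw [card_univ] at this
      omega
    have hcc : Jᶜ.card = k - J.card := by rw [card_compl]
    have c1 := hcard J
    have c2 := hcard Jᶜ
    have c3 := hcompl J
    by_cases hodd : (pre J).card % 2 = 1
    · rw [Cl_odd _ hodd]; simp; positivity
    by_cases hNodd : Fintype.card O % 2 = 1
    · have : PMs O = ∅ := by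
        by_contra h
        obtain ⟨π, hπ⟩ := nonempty_iff_ne_empty.2 h
        have hπ' := mem_PMs.1 hπ
        obtain ⟨l, _, _, h, _⟩ := exists_list hπ'.1 hπ'.2 _ univ rfl (fun x _ => mem_univ _)
        rw [card_univ] at h
        omega
      unfold Cl; rw [this]; simp
    obtain ⟨a, ha⟩ : ∃ a, (pre J).card = 2 * a := ⟨(pre J).card / 2, by omega⟩
    obtain ⟨m, hm⟩ : ∃ m, Fintype.card O = 2 * m := ⟨Fintype.card O / 2, by omega⟩
    have hb := Cl_bound (pre J) a m ha hm
    have hbr : ((Cl (pre J)).card : ℝ) * (m.choose a : ℕ) ≤ (PMs O).card := by exact_mod_cast hb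
    -- lower bounds for the binomial
    have l1 : m ≤ m.choose a := choose_ge (by omega) (by omega)
    have l2 : (k.choose J.card) ^ 4 ≤ m.choose a := by
      refine (pow4_le _ _).trans ?_
      have h5 := choose_mono2 (a' := 4 * J.card) (b' := 4 * (k - J.card)) (a := a) (b := m - a)
        (by omega) (by omega)
      rw [show 4 * J.card + 4 * (k - J.card) = 4 * k by omega, show a + (m - a) = m by omega] at h5
      exact h5
    have hm0 : 0 < m := by omega
    have hmR : (0:ℝ) < m := by exact_mod_cast hm0
    have hkc : 0 < k.choose J.card := Nat.choose_pos (by omega)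
    have hkR : (0:ℝ) < ((k.choose J.card : ℕ) : ℝ) := by exact_mod_cast hkc
    have l1r : (m : ℝ) ≤ (m.choose a : ℕ) := by exact_mod_cast l1
    have l2r : ((k.choose J.card : ℕ) : ℝ) ^ 4 ≤ (m.choose a : ℕ) := by exact_mod_cast l2
    have hs : Real.sqrt m * ((k.choose J.card : ℕ) : ℝ) ^ 2 ≤ (m.choose a : ℕ) := by
      have h6 : (Real.sqrt m * ((k.choose J.card : ℕ) : ℝ) ^ 2) ^ 2 ≤ ((m.choose a : ℕ) : ℝ) ^ 2 := by
        rw [mul_pow, Real.sq_sqrt hmR.le, pow_two ((m.choose a : ℕ) : ℝ), ← pow_mul]
        exact mul_le_mul l1r l2r (by positivity) (by positivity)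
      exact le_of_sq_le_sq h6 (by positivity)
    have hsq : Real.sqrt (2 / Fintype.card O) = (Real.sqrt m)⁻¹ := by
      rw [← Real.sqrt_inv]
      congr 1
      rw [hm]; push_cast; field_simp
    rw [hsq, ← mul_inv, inv_mul_eq_div, le_div_iff₀ (by positivity)]
    calc ((Cl (pre J)).card : ℝ) * (Real.sqrt m * ((k.choose J.card : ℕ) : ℝ) ^ 2)
        ≤ (Cl (pre J)).card * (m.choose a : ℕ) := by gcongr
      _ ≤ _ := hbr
  set 𝒥 : Finset (Finset B) := (univ : Finset B).powerset.filter fun J => J.Nonempty ∧ J ≠ univ with h𝒥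
  have hcov : (PMs O).filter (fun π => ∃ J : Finset B, J.Nonempty ∧ J ≠ univ ∧
      Clo π (univ.filter fun x => β x ∈ J)) ⊆ 𝒥.biUnion fun J => Cl (pre J) := by
    intro π hπ
    obtain ⟨h1, J, h2, h3, h4⟩ := mem_filter.1 hπ
    rw [mem_biUnion]
    exact ⟨J, mem_filter.2 ⟨mem_powerset.2 (subset_univ _), h2, h3⟩, mem_filter.2 ⟨h1, h4⟩⟩
  calc (((PMs O).filter fun π => ∃ J : Finset B, J.Nonempty ∧ J ≠ univ ∧
        Clo π (univ.filter fun x => β x ∈ J)).card : ℝ)
      ≤ ((𝒥.biUnion fun J => Cl (pre J)).card : ℝ) := by exact_mod_cast card_le_card hcov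
    _ ≤ ∑ J ∈ 𝒥, ((Cl (pre J)).card : ℝ) := by exact_mod_cast card_biUnion_le
    _ ≤ ∑ J ∈ 𝒥, Real.sqrt (2 / Fintype.card O) * (((k.choose J.card : ℕ) : ℝ) ^ 2)⁻¹ *
          (PMs O).card := by
        apply sum_le_sum
        intro J hJ'
        have := (mem_filter.1 hJ').2
        exact hJ J this.1 this.2
    _ = (∑ J ∈ 𝒥, (((k.choose J.card : ℕ) : ℝ) ^ 2)⁻¹) *
          (Real.sqrt (2 / Fintype.card O) * (PMs O).card) := by
        rw [sum_mul]; apply sum_congr rfl; intro J _; ring
    _ ≤ 1 * (Real.sqrt (2 / Fintype.card O) * (PMs O).card) := by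
        apply mul_le_mul_of_nonneg_right _ (by positivity)
        let f : ℕ → ℝ := fun j => if 1 ≤ j ∧ j + 1 ≤ k then (((k.choose j : ℕ) : ℝ) ^ 2)⁻¹ else 0
        have hf0 : ∀ j, 0 ≤ f j := by
          intro j; simp only [f]; split_ifs <;> positivity
        calc ∑ J ∈ 𝒥, (((k.choose J.card : ℕ) : ℝ) ^ 2)⁻¹
            = ∑ J ∈ 𝒥, f J.card := by
              apply sum_congr rfl
              intro J hJ'
              obtain ⟨h1, h2, h3⟩ := mem_filter.1 hJ'
              have a1 : 1 ≤ J.card := card_pos.2 h2
              have a2 : J.card + 1 ≤ k := by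
                have h5 : J ⊂ univ := ⟨subset_univ _, fun h => h3 (Subset.antisymm (subset_univ _) h)⟩
                have := card_lt_card h5
                rw [card_univ] at this
                omega
              simp only [f]
              rw [if_pos ⟨a1, a2⟩]
          _ ≤ ∑ J ∈ (univ : Finset B).powerset, f J.card :=
              sum_le_sum_of_subset_of_nonneg (filter_subset _ _) (fun _ _ _ => hf0 _)
          _ = ∑ j ∈ range (k + 1), (k.choose j) • f j := by
              rw [sum_powerset_apply_card, card_univ]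
          _ ≤ ∑ j ∈ range (k + 1), (if 1 ≤ j ∧ j + 1 ≤ k then (1 / (k : ℝ)) else 0) := by
              apply sum_le_sum
              intro j _
              simp only [f]
              split_ifs with h
              · have h1 := choose_ge h.1 h.2
                have h2 : (0:ℝ) < k := by
                  have : 0 < k := by omega
                  exact_mod_cast this
                have h3 : (k : ℝ) ≤ (k.choose j : ℕ) := by exact_mod_cast h1
                have h4 : (0:ℝ) < (k.choose j : ℕ) := lt_of_lt_of_le h2 h3
                rw [nsmul_eq_mul, pow_two, mul_inv, ← mul_assoc, mul_inv_cancel₀ h4.ne', one_mul,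
                  one_div]
                exact inv_anti₀ h2 h3
              · simp
          _ = ((range (k + 1)).filter (fun j => 1 ≤ j ∧ j + 1 ≤ k)).card * (1 / (k : ℝ)) := by
              rw [← sum_filter, sum_const, nsmul_eq_mul]
          _ ≤ 1 := by
              rcases Nat.eq_zero_or_pos k with h0 | h0
              · rw [h0]; simp
              · have h2 : (0:ℝ) < k := by exact_mod_cast h0
                rw [mul_one_div, div_le_one h2]
                have : ((range (k + 1)).filter (fun j => 1 ≤ j ∧ j + 1 ≤ k)).card ≤ k := by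
                  calc ((range (k + 1)).filter (fun j => 1 ≤ j ∧ j + 1 ≤ k)).card
                      ≤ (Ico 1 k).card := by
                        apply card_le_card
                        intro j hj
                        have := (mem_filter.1 hj).2
                        rw [mem_Ico]; omega
                    _ ≤ k := by simp
                exact_mod_cast this
    _ = _ := one_mul _

end Run7.h459
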