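import Pool.Agent.Run7.h459.Am
import Pool.Agent.Run7.h459.UB

set_option linter.unusedSectionVars false

/-! Counting lifts. -/

namespace Run7.h459

open Finset

section conj
variable {O : Type*} [Fintype O] [DecidableEq O]

theorem pm_conj {π π' : Equiv.Perm O} (h : π ∈ PMs O) (h' : π' ∈ PMs O) :
    ∃ σ : Equiv.Perm O, ∀ x, σ (π x) = π' (σ x) := by
  have key : ∀ π ∈ PMs O, Equiv.Perm.cycleType π = Multiset.replicate (Fintype.card O / 2) 2 := by
    intro π hπ
    rw [mem_PMs] at hπ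
    have h2 : ∀ n ∈ Equiv.Perm.cycleType π, n = 2 := by
      intro n hn
      have h3 := Equiv.Perm.two_le_of_mem_cycleType hn
      have h4 := Equiv.Perm.dvd_of_mem_cycleType hn
      have h5 : orderOf π ∣ 2 := orderOf_dvd_of_pow_eq_one (by
        ext x; rw [pow_two, Equiv.Perm.mul_apply, hπ.1]; rfl)
      have h6 := Nat.le_of_dvd (by norm_num) (h4.trans h5)
      omega
    rw [Multiset.eq_replicate]
    refine ⟨?_, h2⟩
    have h3 : Equiv.Perm.cycleType π = Multiset.replicate (Multiset.card (Equiv.Perm.cycleType π)) 2 :=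
      Multiset.eq_replicate.2 ⟨rfl, h2⟩
    have h4 := Equiv.Perm.sum_cycleType π
    rw [h3, Multiset.sum_replicate, smul_eq_mul] at h4
    have h5 : π.support = univ := by
      ext x; simp [hπ.2 x]
    rw [h5, card_univ] at h4
    omega
  have h1 : IsConj π π' := by
    rw [Equiv.Perm.isConj_iff_cycleType_eq, key π h, key π' h']
  obtain ⟨σ, hσ⟩ := isConj_iff.1 h1
  refine ⟨σ, fun x => ?_⟩
  rw [← hσ]; simp

end conj

variable {α X A H : Type} [Group A] [Group H] {C : Subgroup H}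
  [Fintype X] [DecidableEq X] [Fintype A]

/-- orbit relation -/
def orel (κ : A →* Equiv.Perm X) : Setoid X where
  r x y := ∃ a, κ a x = y
  iseqv := by
    refine ⟨fun x => ⟨1, by simp⟩, ?_, ?_⟩
    · rintro x y ⟨a, rfl⟩
      exact ⟨a⁻¹, by rw [map_inv]; simp⟩
    · rintro x y z ⟨a, rfl⟩ ⟨b, rfl⟩
      exact ⟨b * a, by simp⟩

abbrev Orb (κ : A →* Equiv.Perm X) := Quotient (orel κ)

noncomputable instance (κ : A →* Equiv.Perm X) : Fintype (Orb κ) := by
  classical
  exact Quotient.fintype _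

noncomputable instance (κ : A →* Equiv.Perm X) : DecidableEq (Orb κ) := Classical.decEq _

def pr0 (κ : A →* Equiv.Perm X) (x : X) : Orb κ := Quotient.mk (orel κ) x

variable {κ : A →* Equiv.Perm X}

theorem pr0_eq (x y : X) : pr0 κ x = pr0 κ y ↔ ∃ a, κ a x = y := Quotient.eq

theorem pr0_sur : Function.Surjective (pr0 κ) := Quotient.mk_surjective

/-- the lifts -/
def IsLift (κ : A →* Equiv.Perm X) (τ : Equiv.Perm X) : Prop :=
  (∀ x, τ (τ x) = x) ∧ (∀ a x, τ (κ a x) = κ a (τ x)) ∧ ∀ a x, κ a x ≠ τ x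

def Over (κ : A →* Equiv.Perm X) (τ : Equiv.Perm X) (π : Equiv.Perm (Orb κ)) : Prop :=
  ∀ x, pr0 κ (τ x) = π (pr0 κ x)

theorem exists_over {τ : Equiv.Perm X} (hτ : IsLift κ τ) : ∃ π ∈ PMs (Orb κ), Over κ τ π := by
  obtain ⟨h1, h2, h3⟩ := hτ
  let f : Orb κ → Orb κ := Quotient.map τ (by
    rintro x y ⟨a, rfl⟩
    exact ⟨a, (h2 a x).symm⟩)
  have hf : ∀ x, f (pr0 κ x) = pr0 κ (τ x) := fun x => rfl
  have hinv : Function.Involutive f := by
    intro o
    obtain ⟨x, rfl⟩ := pr0_sur o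
    rw [hf, hf, h1]
  refine ⟨hinv.toPerm, ?_, fun x => (hf x).symm⟩
  rw [mem_PMs]
  refine ⟨hinv, fun o ho => ?_⟩
  obtain ⟨x, rfl⟩ := pr0_sur o
  have h4 : pr0 κ (τ x) = pr0 κ x := ho
  obtain ⟨a, ha⟩ := (pr0_eq _ _).1 h4.symm
  exact h3 a x ha

theorem over_unique {τ : Equiv.Perm X} {π π' : Equiv.Perm (Orb κ)} (h : Over κ τ π)
    (h' : Over κ τ π') : π = π' := by
  ext o
  obtain ⟨x, rfl⟩ := pr0_sur o
  rw [← h, ← h']

open Classical in
noncomputable def Fib (κ : A →* Equiv.Perm X) (π : Equiv.Perm (Orb κ)) : Finset (Equiv.Perm X) :=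
  univ.filter fun τ => IsLift κ τ ∧ Over κ τ π

theorem mem_Fib {τ : Equiv.Perm X} {π : Equiv.Perm (Orb κ)} :
    τ ∈ Fib κ π ↔ IsLift κ τ ∧ Over κ τ π := by unfold Fib; simp

/-- coordinates -/
theorem exists_coord (hfree : ∀ a x, κ a x = x → a = 1) :
    ∃ e : Orb κ × A ≃ X, (∀ o a, pr0 κ (e (o, a)) = o) ∧ ∀ o a b, e (o, b * a) = κ b (e (o, a)) := by
  classical
  let s : Orb κ → X := fun o => Quotient.out o
  have hs : ∀ o, pr0 κ (s o) = o := fun o => Quotient.out_eq o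
  let f : Orb κ × A → X := fun q => κ q.2 (s q.1)
  have hf1 : ∀ o a, pr0 κ (f (o, a)) = o := by
    intro o a
    have : pr0 κ (s o) = pr0 κ (f (o, a)) := (pr0_eq _ _).2 ⟨a, rfl⟩
    rw [← this, hs]
  have hbij : Function.Bijective f := by
    constructor
    · rintro ⟨o, a⟩ ⟨o', a'⟩ h
      have h1 : o = o' := by rw [← hf1 o a, h, hf1]
      subst h1
      have h2 : κ (a'⁻¹ * a) (s o) = s o := by
        rw [map_mul, map_inv, Equiv.Perm.mul_apply]
        show (κ a')⁻¹ (f (o, a)) = s o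
        rw [h]
        exact Equiv.symm_apply_apply _ _
      have h3 := hfree _ _ h2
      rw [inv_mul_eq_one] at h3
      rw [h3]
    · intro x
      obtain ⟨a, ha⟩ := (pr0_eq (κ := κ) (s (pr0 κ x)) x).1 (hs _)
      exact ⟨(pr0 κ x, a), ha⟩
  refine ⟨Equiv.ofBijective f hbij, hf1, fun o a b => ?_⟩
  show κ (b * a) (s o) = κ b (κ a (s o))
  simp

theorem card_orb (hfree : ∀ a x, κ a x = x → a = 1) :
    Fintype.card (Orb κ) * Fintype.card A = Fintype.card X := by
  obtain ⟨e, _⟩ := exists_coord hfree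
  rw [← Fintype.card_prod]
  exact Fintype.card_congr e

theorem fib_le (hfree : ∀ a x, κ a x = x → a = 1) {π π' : Equiv.Perm (Orb κ)}
    (h : π ∈ PMs (Orb κ)) (h' : π' ∈ PMs (Orb κ)) : (Fib κ π).card ≤ (Fib κ π').card := by
  obtain ⟨σ, hσ⟩ := pm_conj h h'
  obtain ⟨e, he1, he2⟩ := exists_coord hfree
  let st : Equiv.Perm X := e.symm.trans ((σ.prodCongr (Equiv.refl A)).trans e)
  have hst : ∀ o a, st (e (o, a)) = e (σ o, a) := by
    intro o a; simp [st]
  have hst1 : ∀ x, pr0 κ (st x) = σ (pr0 κ x) := by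
    intro x
    obtain ⟨⟨o, a⟩, rfl⟩ := e.surjective x
    rw [hst, he1, he1]
  have hst2 : ∀ b x, st (κ b x) = κ b (st x) := by
    intro b x
    obtain ⟨⟨o, a⟩, rfl⟩ := e.surjective x
    rw [← he2, hst, hst, he2]
  have hst3 : ∀ b x, st.symm (κ b x) = κ b (st.symm x) := by
    intro b x
    rw [Equiv.symm_apply_eq, hst2, Equiv.apply_symm_apply]
  have hπ' := mem_PMs.1 h'
  apply card_le_card_of_injOn (fun τ => (st.symm.trans (τ.trans st) : Equiv.Perm X))
  · intro τ hτ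
    rw [mem_coe, mem_Fib] at hτ ⊢
    obtain ⟨⟨h1, h2, h3⟩, h4⟩ := hτ
    have hov : Over κ (st.symm.trans (τ.trans st) : Equiv.Perm X) π' := by
      intro x
      simp only [Equiv.trans_apply]
      rw [hst1, h4, hσ, ← hst1, Equiv.apply_symm_apply]
    refine ⟨⟨fun x => by simp [h1], fun a x => by simp [hst3, h2, hst2], fun a x hx => ?_⟩, hov⟩
    have h5 := hov x
    have h6 : pr0 κ x = pr0 κ ((st.symm.trans (τ.trans st) : Equiv.Perm X) x) :=
      (pr0_eq _ _).2 ⟨a, hx⟩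
    rw [← h6] at h5
    exact hπ'.2 _ h5.symm
  · intro τ _ τ' _ heq
    ext x
    have := congrArg (fun f : Equiv.Perm X => f (st x)) heq
    simpa using this

theorem fib_eq (hfree : ∀ a x, κ a x = x → a = 1) {π π' : Equiv.Perm (Orb κ)}
    (h : π ∈ PMs (Orb κ)) (h' : π' ∈ PMs (Orb κ)) : (Fib κ π).card = (Fib κ π').card :=
  le_antisymm (fib_le hfree h h') (fib_le hfree h' h)

variable {h : α → H} {ρ : ℕ} {π0 : α → Equiv.Perm X} {ι : A →* H}

/-- transitivity of a system -/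
def Trn {β Y : Type} (π : β → Equiv.Perm Y) : Prop := ∀ x y, ∃ w, evp π w x = y

/-- blocks -/
def brel {O : Type} (π0 : α → Equiv.Perm X) (p : X → O) [Fintype O] [DecidableEq O] (hos : OS π0 p) : Setoid O where
  r o o' := ∃ x u, p x = o ∧ p (evp π0 u x) = o'
  iseqv := by
    refine ⟨fun o => ?_, ?_, ?_⟩
    · obtain ⟨x, hx⟩ := hos.sur o
      exact ⟨x, [], hx, hx⟩
    · rintro o o' ⟨x, u, rfl, rfl⟩
      exact ⟨evp π0 u x, u.reverse, rfl, by rw [hos.reverse]; simp⟩
    · rintro o o' o'' ⟨x, u, rfl, rfl⟩ ⟨y, v, h1, rfl⟩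
      refine ⟨x, v ++ u, rfl, ?_⟩
      rw [evp_append, Equiv.Perm.mul_apply]
      exact hos.word v _ _ h1.symm

open Classical in
/-- the main counting statement -/
theorem count_main [Fintype α] (h : α → H) (C : Subgroup H) (ρ : ℕ) (b8 : Fin 8 → List α)
    (hb8 : ∀ k, (b8 k).length ≤ 16) (hρ : 32 ≤ ρ)
    (hb8' : ∀ k l, k ≠ l → vv h (b8 k) * (vv h (b8 l))⁻¹ ∉ C) :
    ∃ (c : ℝ) (N0 : ℕ), 0 < c ∧ ∀ (X : Type) [Fintype X] [DecidableEq X] (π0 : α → Equiv.Perm X)
      (ι : A →* H) (κ : A →* Equiv.Perm X), AmH h C ρ π0 ι κ →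
      N0 * Fintype.card A ≤ Fintype.card X → 0 < Fintype.card X →
      ((univ.filter fun τ : Equiv.Perm X => Lcl (v1 h : Option α → TG H C) (2 * ρ + 3) (pf τ π0) ∧
        ¬ Trn (pf τ π0)).card : ℝ) ≤
      Real.sqrt (2 * Fintype.card A / Fintype.card X) / c *
      ((univ.filter fun τ : Equiv.Perm X =>
        Lcl (v1 h : Option α → TG H C) (2 * ρ + 3) (pf τ π0)).card : ℝ) := by
  obtain ⟨c, N0, hc, hmg⟩ := many_good (2 * ρ + 3) (nwords (Fintype.card α) (2 * ρ + 3))
  refine ⟨c, N0, hc, ?_⟩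
  intro X _ _ π0 ι κ hA hN hXpos
  have hfree := hA.free
  have hcard := card_orb (κ := κ) hfree
  have hApos : 0 < Fintype.card A := Fintype.card_pos_iff.2 ⟨1⟩
  have hos : OS π0 (pr0 κ) := hA.os pr0_sur pr0_eq
  have hN' : N0 ≤ Fintype.card (Orb κ) := by
    rw [← hcard] at hN
    exact Nat.le_of_mul_le_mul_right hN hApos
  have hgood := hmg (Orb κ) (nr π0 (pr0 κ) (2 * ρ + 3)) (fun x y => nr_symm hos x y)
    (fun x => nr_card hos x) hN'
  have hOpos : 0 < Fintype.card (Orb κ) := by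
    rcases Nat.eq_zero_or_pos (Fintype.card (Orb κ)) with h0 | h0
    · rw [h0, zero_mul] at hcard; omega
    · exact h0
  by_cases hPM : (PMs (Orb κ)) = ∅
  · -- no lifts at all
    have hempty : (univ.filter fun τ : Equiv.Perm X =>
        Lcl (v1 h : Option α → TG H C) (2 * ρ + 3) (pf τ π0)) = ∅ := by
      rw [filter_eq_empty_iff]
      intro τ _ hτ
      obtain ⟨π, hπ, _⟩ := exists_over (κ := κ) (amal_conv hA hτ)
      rw [hPM] at hπ
      exact notMem_empty _ hπ
    have hempty2 : (univ.filter fun τ : Equiv.Perm X =>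
        Lcl (v1 h : Option α → TG H C) (2 * ρ + 3) (pf τ π0) ∧ ¬ Trn (pf τ π0)) = ∅ := by
      rw [filter_eq_empty_iff] at hempty ⊢
      intro τ hτ hh
      exact hempty hτ hh.1
    rw [hempty, hempty2]; simp
  obtain ⟨πs, hπs⟩ := nonempty_iff_ne_empty.2 hPM
  set F := (Fib κ πs).card with hF
  have hFe : ∀ π ∈ PMs (Orb κ), (Fib κ π).card = F := fun π hπ => fib_eq hfree hπ hπs
  -- lower bound for the number of local systems
  have hlow : F * (Gd (Bad (nr π0 (pr0 κ) (2 * ρ + 3)) (2 * ρ + 3))).card ≤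
      (univ.filter fun τ : Equiv.Perm X =>
        Lcl (v1 h : Option α → TG H C) (2 * ρ + 3) (pf τ π0)).card := by
    have h1 : (Gd (Bad (nr π0 (pr0 κ) (2 * ρ + 3)) (2 * ρ + 3))).biUnion (Fib κ) ⊆
        (univ.filter fun τ : Equiv.Perm X =>
        Lcl (v1 h : Option α → TG H C) (2 * ρ + 3) (pf τ π0)) := by
      intro τ hτ
      rw [mem_biUnion] at hτ
      obtain ⟨σ, hσ, hτ⟩ := hτ
      rw [mem_Fib] at hτ
      rw [mem_filter]
      exact ⟨mem_univ _, amal_local hA hτ.1.1 hτ.1.2.1 pr0_sur pr0_eq σ hσ hτ.2⟩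
    refine le_trans (le_of_eq ?_) (card_le_card h1)
    rw [card_biUnion]
    · rw [sum_congr rfl (fun π hπ => hFe π (mem_Gd.1 hπ).1), sum_const, smul_eq_mul, mul_comm]
    · intro π _ π' _ hne
      rw [Function.onFun, disjoint_left]
      intro τ h1 h2
      rw [mem_Fib] at h1 h2
      exact hne (over_unique h1.2 h2.2)
  -- blocks
  let B := Quotient (brel π0 (pr0 κ) hos)
  let _ : Fintype B := Quotient.fintype _
  let _ : DecidableEq B := Classical.decEq _
  let β : Orb κ → B := Quotient.mk _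
  have hβ : ∀ o o', β o = β o' ↔ ∃ x u, pr0 κ x = o ∧ pr0 κ (evp π0 u x) = o' := by
    intro o o'; exact Quotient.eq
  have hβ8 : ∀ b, 8 ≤ (univ.filter fun o => β o = b).card := by
    intro b
    obtain ⟨o, rfl⟩ := Quotient.mk_surjective b
    obtain ⟨x, rfl⟩ := pr0_sur o
    have h1 : (univ : Finset (Fin 8)).card ≤ (univ.filter fun o => β o = β (pr0 κ x)).card := by
      apply card_le_card_of_injOn (fun k => pr0 κ (evp π0 (b8 k) x))
      · intro k _
        rw [mem_coe, mem_filter]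
        refine ⟨mem_univ _, ?_⟩
        symm
        exact (hβ _ _).2 ⟨x, b8 k, rfl, rfl⟩
      · intro k _ l _ hkl
        by_contra hne
        obtain ⟨a, ha⟩ := (pr0_eq _ _).1 hkl
        obtain ⟨w, hw1, hw2, hw3⟩ := hA.up a
        rw [← hw3, ← Equiv.Perm.mul_apply, ← evp_append, hA.cmp _ _ (by
          have := hb8 k; have := hb8 l
          rw [List.length_append]; omega), vv_append, hw2] at ha
        apply hb8' l k (Ne.symm hne)
        rw [← ha, mul_inv_cancel_right]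
        exact hA.ιC a
    simpa using h1
  have hdisc := disc_bound β hβ8 hOpos
  -- upper bound for the disconnected ones
  have hup : (univ.filter fun τ : Equiv.Perm X =>
      Lcl (v1 h : Option α → TG H C) (2 * ρ + 3) (pf τ π0) ∧ ¬ Trn (pf τ π0)).card ≤
      F * ((PMs (Orb κ)).filter fun π => ∃ J : Finset B, J.Nonempty ∧ J ≠ univ ∧
      Clo π (univ.filter fun x => β x ∈ J)).card := by
    have h1 : (univ.filter fun τ : Equiv.Perm X =>
        Lcl (v1 h : Option α → TG H C) (2 * ρ + 3) (pf τ π0) ∧ ¬ Trn (pf τ π0)) ⊆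
        ((PMs (Orb κ)).filter fun π => ∃ J : Finset B, J.Nonempty ∧ J ≠ univ ∧
        Clo π (univ.filter fun x => β x ∈ J)).biUnion (Fib κ) := by
      intro τ hτ
      rw [mem_filter] at hτ
      obtain ⟨_, hτL, hτT⟩ := hτ
      have hlift := amal_conv hA hτL
      obtain ⟨π, hπ, hov⟩ := exists_over (κ := κ) hlift
      rw [mem_biUnion]
      refine ⟨π, ?_, mem_Fib.2 ⟨hlift, hov⟩⟩
      rw [mem_filter]
      refine ⟨hπ, ?_⟩
      unfold Trn at hτT
      push Not at hτT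
      obtain ⟨x, y, hxy⟩ := hτT
      let J : Finset B := univ.filter fun b => ∃ w, β (pr0 κ (evp (pf τ π0) w x)) = b
      have hJ : ∀ b, b ∈ J ↔ ∃ w, β (pr0 κ (evp (pf τ π0) w x)) = b := by
        intro b; simp [J]
      have hfull : ∀ z, β (pr0 κ z) ∈ J → ∃ w, evp (pf τ π0) w x = z := by
        intro z hz
        obtain ⟨w, hw⟩ := (hJ _).1 hz
        obtain ⟨x', u, h2, h3⟩ := (hβ _ _).1 hw
        have h4 := hos.word u _ _ h2
        rw [h4] at h3
        obtain ⟨a, ha⟩ := (pr0_eq _ _).1 h3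
        obtain ⟨wa, hw1, hw2, hw3⟩ := hA.up a
        refine ⟨wa.map some ++ (u.map some ++ w), ?_⟩
        rw [evp_append, evp_append, Equiv.Perm.mul_apply, Equiv.Perm.mul_apply, evp_some, evp_some,
          hw3, ha]
      refine ⟨J, ⟨β (pr0 κ x), (hJ _).2 ⟨[], rfl⟩⟩, ?_, ?_⟩
      · intro hJu
        obtain ⟨w, hw⟩ := hfull y (by rw [hJu]; exact mem_univ _)
        exact hxy w hw
      · intro o ho
        rw [mem_filter] at ho ⊢
        refine ⟨mem_univ _, ?_⟩
        obtain ⟨z, rfl⟩ := pr0_sur o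
        obtain ⟨w, hw⟩ := hfull z ho.2
        rw [← hov, hJ]
        exact ⟨none :: w, by rw [evp_cons, Equiv.Perm.mul_apply, hw]; rfl⟩
    refine (card_le_card h1).trans (card_biUnion_le.trans ?_)
    rw [sum_congr rfl (fun π hπ => hFe π (mem_filter.1 hπ).1), sum_const, smul_eq_mul, mul_comm]
  have hsq : Real.sqrt (2 * Fintype.card A / Fintype.card X) = Real.sqrt (2 / Fintype.card (Orb κ)) := by
    congr 1
    rw [← hcard]
    push_cast
    have h1 : (0:ℝ) < Fintype.card A := by exact_mod_cast hApos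
    have h2 : (0:ℝ) < Fintype.card (Orb κ) := by exact_mod_cast hOpos
    field_simp
  rw [hsq]
  have e1 : ((univ.filter fun τ : Equiv.Perm X =>
      Lcl (v1 h : Option α → TG H C) (2 * ρ + 3) (pf τ π0) ∧ ¬ Trn (pf τ π0)).card : ℝ) ≤
      F * (Real.sqrt (2 / Fintype.card (Orb κ)) * (PMs (Orb κ)).card) := by
    refine le_trans (Nat.cast_le.2 hup) ?_
    rw [Nat.cast_mul]
    exact mul_le_mul_of_nonneg_left hdisc (Nat.cast_nonneg _)
  have e2 : (F : ℝ) * (c * (PMs (Orb κ)).card) ≤ ((univ.filter fun τ : Equiv.Perm X =>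
        Lcl (v1 h : Option α → TG H C) (2 * ρ + 3) (pf τ π0)).card : ℝ) := by
    refine le_trans (mul_le_mul_of_nonneg_left hgood (Nat.cast_nonneg _)) ?_
    exact_mod_cast hlow
  calc _ ≤ (F : ℝ) * (Real.sqrt (2 / Fintype.card (Orb κ)) * (PMs (Orb κ)).card) := e1
    _ = Real.sqrt (2 / Fintype.card (Orb κ)) / c * (F * (c * (PMs (Orb κ)).card)) := by
      field_simp
    _ ≤ _ := by gcongr

end Run7.h459
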