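import Pool.Agent.Run7.h459.TH
import Pool.Agent.Run7.h459.Ct

set_option linter.unusedSectionVars false

/-! Finite permutation representations of the amalgam which are free on short words modulo a
central subgroup. -/

namespace Run7.h459

open Finset

theorem pms_nonempty {O : Type} [Fintype O] [DecidableEq O] (m : ℕ) (h : Fintype.card O = m * 2) :
    (PMs O).Nonempty := by
  have e : O ≃ Fin m × Bool := Fintype.equivOfCardEq (by simp [h])
  refine ⟨e.trans (((Equiv.refl (Fin m)).prodCongr Equiv.boolNot).trans e.symm), ?_⟩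
  rw [mem_PMs]
  constructor
  · intro x
    simp only [Equiv.trans_apply, Equiv.apply_symm_apply]
    rw [Equiv.symm_apply_eq]
    generalize e x = y
    rcases y with ⟨a, b⟩
    simp [Equiv.boolNot]
  · intro x hx
    simp only [Equiv.trans_apply] at hx
    rw [Equiv.symm_apply_eq] at hx
    generalize e x = y at hx
    rcases y with ⟨a, b⟩
    have := congrArg Prod.snd hx
    cases b <;> simp [Equiv.boolNot] at this

section
variable {H : Type} [Group H] {C : Subgroup H}

theorem inr_center (hC : C ≤ Subgroup.center H) {c : H} (hc : c ∈ C) (g : TG H C) :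
    (SemidirectProduct.inr c : TG H C) * g = g * SemidirectProduct.inr c := by
  have h1 : MulAction.toPermHom H (H ⧸ C) c = 1 := by
    ext j
    induction j using QuotientGroup.induction_on with
    | H x =>
      show c • (x : H ⧸ C) = x
      rw [MulAction.Quotient.smul_coe, smul_eq_mul, QuotientGroup.eq, mul_inv_rev]
      have h2 := Subgroup.mem_center_iff.1 (hC (inv_mem hc)) x⁻¹
      rw [h2, mul_assoc, inv_mul_cancel, mul_one]
      exact inv_mem hc
  have h2 : act H C c = 1 := by
    show pequivHom (MulAction.toPermHom H (H ⧸ C) c) = 1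
    rw [h1, map_one]
  apply SemidirectProduct.ext
  · simp [h2]
  · simp only [SemidirectProduct.mul_right, SemidirectProduct.right_inr]
    exact (Subgroup.mem_center_iff.1 (hC hc) _).symm

end

variable {α H Q : Type} [Fintype α] [Group H] [Group Q] [Fintype Q] [DecidableEq Q]
  {C : Subgroup H}

/-- left multiplication -/
def Lm (Q : Type) [Group Q] (N : ℕ) : Q →* Equiv.Perm (Q × Fin N) where
  toFun x := (Equiv.mulLeft x).prodCongr (Equiv.refl _)
  map_one' := by ext ⟨a, b⟩ <;> simp
  map_mul' x y := by ext ⟨a, b⟩ <;> simp [mul_assoc]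

theorem Lm_apply (N : ℕ) (x : Q) (y : Q × Fin N) : Lm Q N x y = (x * y.1, y.2) := rfl

theorem Lm_inj (N : ℕ) (x x' : Q) (y : Q × Fin N) (h : Lm Q N x y = Lm Q N x' y) : x = x' := by
  rw [Lm_apply, Lm_apply, Prod.mk.injEq] at h
  exact mul_right_cancel h.1

theorem abs_E (hC : C ≤ Subgroup.center H) (h : α → H) (hinv : ∀ t, h t * h t = 1)
    (Φ : H →* Q) (C0 : Subgroup H) (hC0 : C0 ≤ C) (Λ : ℕ)
    (hsep1 : ∀ u : List α, u.length ≤ Λ → ∀ c ∈ C, Φ (vv h u) = Φ c → vv h u ∈ C)
    (hsep0 : ∀ u : List α, u.length ≤ Λ → Φ (vv h u) = 1 → vv h u ∈ C0) :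
    ∃ (k : ℕ) (ρ : TG H C →* Equiv.Perm (Q × Fin (2 ^ k))), ∀ w : List (Option α),
      w.length ≤ Λ → ∀ r, evp (fun a => ρ (v1 h a)) w r = r →
      ∃ c ∈ C0, (vt h w : TG H C) = SemidirectProduct.inr c := by
  classical
  obtain ⟨cst0, N0, hcst, hmg⟩ := many_good Λ (nwords (Fintype.card α) Λ)
  set k := N0 + 1 with hk
  set N := 2 ^ k with hN
  have hNN : N0 ≤ N := by
    have : k < 2 ^ k := Nat.lt_pow_self (by norm_num)
    omega
  let A : Subgroup Q := C.map Φ
  let _ : Fintype A := Fintype.ofFinite _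
  let κ : A →* Equiv.Perm (Q × Fin N) := (Lm Q N).comp A.subtype
  let π0 : α → Equiv.Perm (Q × Fin N) := fun a => Lm Q N (Φ (h a))
  have hκ : ∀ (a : A) x, κ a x = (a.1 * x.1, x.2) := fun a x => rfl
  have hev : ∀ u : List α, evp π0 u = Lm Q N (Φ (vv h u)) := by
    intro u
    induction u with
    | nil => simp
    | cons t u ih => rw [evp_cons, ih, vv_cons, map_mul, map_mul]
  have hfree : ∀ a x, κ a x = x → a = 1 := by
    intro a x hx
    have h1 : Lm Q N a.1 x = Lm Q N 1 x := by rw [map_one]; exact hx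
    exact Subtype.ext (Lm_inj _ _ _ _ h1)
  have hcen : ∀ c ∈ C, ∀ g : H, Φ c * Φ g = Φ g * Φ c := by
    intro c hc g
    rw [← map_mul, ← map_mul]
    exact congrArg Φ (Subgroup.mem_center_iff.1 (hC hc) g).symm
  have hcomm : ∀ (a : A) (g : H), κ a * Lm Q N (Φ g) = Lm Q N (Φ g) * κ a := by
    rintro ⟨_, c, hc, rfl⟩ g
    show Lm Q N (Φ c) * Lm Q N (Φ g) = Lm Q N (Φ g) * Lm Q N (Φ c)
    rw [← map_mul (Lm Q N), ← map_mul (Lm Q N), hcen c hc]
  have hos : OS π0 (pr0 κ) := by
    refine ⟨pr0_sur, ?_, ?_⟩
    · intro t x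
      show (Lm Q N (Φ (h t)) * Lm Q N (Φ (h t))) x = x
      rw [← map_mul, ← map_mul, hinv, map_one, map_one]; rfl
    · intro t x y hxy
      obtain ⟨a, rfl⟩ := (pr0_eq _ _).1 hxy
      refine (pr0_eq _ _).2 ⟨a, ?_⟩
      exact congrArg (fun f : Equiv.Perm (Q × Fin N) => f x) (hcomm a (h t))
  have hcard := card_orb (κ := κ) hfree
  have hAQ : Fintype.card A ∣ Fintype.card Q := by
    rw [← Nat.card_eq_fintype_card, ← Nat.card_eq_fintype_card]
    exact Subgroup.card_subgroup_dvd_card A
  obtain ⟨idx, hidx⟩ := hAQ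
  have hApos : 0 < Fintype.card A := Fintype.card_pos_iff.2 ⟨1⟩
  have hQpos : 0 < Fintype.card Q := Fintype.card_pos_iff.2 ⟨1⟩
  have hO : Fintype.card (Orb κ) = idx * N := by
    apply Nat.eq_of_mul_eq_mul_right hApos
    rw [hcard, Fintype.card_prod, Fintype.card_fin, hidx]; ring
  have hidx0 : 0 < idx := by
    rcases Nat.eq_zero_or_pos idx with h0 | h0
    · rw [h0, mul_zero] at hidx; omega
    · exact h0
  have hPM : (PMs (Orb κ)).Nonempty := by
    apply pms_nonempty (idx * 2 ^ N0)
    rw [hO, hN, hk, pow_succ]; ring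
  have hgood := hmg (Orb κ) (nr π0 (pr0 κ) Λ) (fun x y => nr_symm hos x y)
    (fun x => nr_card hos x) (by
      rw [hO]; nlinarith)
  have hGd : (Gd (Bad (nr π0 (pr0 κ) Λ) Λ)).Nonempty := by
    rw [← card_pos]
    have h1 : (0:ℝ) < (PMs (Orb κ)).card := by exact_mod_cast card_pos.2 hPM
    have h2 : (0:ℝ) < (Gd (Bad (nr π0 (pr0 κ) Λ) Λ)).card := lt_of_lt_of_le (by positivity) hgood
    exact_mod_cast h2
  obtain ⟨σ, hσ⟩ := hGd
  have hσPM := mem_PMs.1 (mem_Gd.1 hσ).1
  obtain ⟨e, he1, he2⟩ := exists_coord hfree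
  let τ : Equiv.Perm (Q × Fin N) := e.symm.trans ((σ.prodCongr (Equiv.refl A)).trans e)
  have hτe : ∀ o a, τ (e (o, a)) = e (σ o, a) := by intro o a; simp [τ]
  have hτσ : ∀ x, pr0 κ (τ x) = σ (pr0 κ x) := by
    intro x
    obtain ⟨⟨o, a⟩, rfl⟩ := e.surjective x
    rw [hτe, he1, he1]
  have hτκ : ∀ b x, τ (κ b x) = κ b (τ x) := by
    intro b x
    obtain ⟨⟨o, a⟩, rfl⟩ := e.surjective x
    rw [← he2, hτe, hτe, he2]
  have hτ2 : ∀ x, τ (τ x) = x := by
    intro x
    obtain ⟨⟨o, a⟩, rfl⟩ := e.surjective x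
    rw [hτe, hτe, hσPM.1]
  obtain ⟨ρ, hρ1, hρ2⟩ := exists_hom (C := C) ((Lm Q N).comp Φ) τ (by ext x <;> simp [hτ2]) (by
    intro c hc
    ext1 x
    exact (hτκ ⟨Φ c, c, hc, rfl⟩ x).symm)
  have hρ : (fun a => ρ (v1 h a)) = pf τ π0 := by
    funext a
    cases a with
    | none => exact hρ2
    | some a => exact hρ1 (h a)
  refine ⟨k, ρ, ?_⟩
  rw [hρ]
  have key : ∀ (n : ℕ) (w : List (Option α)), w.length = n → w.length ≤ Λ → ∀ x,
      evp (pf τ π0) w x = x → ∃ c ∈ C0, (vt h w : TG H C) = SemidirectProduct.inr c := by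
    intro n
    induction n using Nat.strong_induction_on with
    | _ n ih =>
      intro w hn hlen x hx
      by_cases hw : none ∈ w
      · obtain ⟨u, V, y, hl, ⟨g, hg⟩, hfix, hpy, hVe⟩ :=
          NBlem (C := C) (h := h) hos σ hσ hτσ hτ2 w hw hlen x hx
        obtain ⟨⟨_, c, hc, rfl⟩, ha⟩ := (pr0_eq _ _).1 hpy.symm
        have h1 : Φ (vv h u) = Φ c := by
          apply Lm_inj N _ _ y
          rw [← hev]
          exact ha.symm
        have hu' : vv h u ∈ C := hsep1 u (by omega) c hc h1
        suffices hsuff : ∃ c ∈ C0, (vt h (u.map some ++ none :: V) : TG H C) = SemidirectProduct.inr c by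
          obtain ⟨c0, hc0, h2⟩ := hsuff
          refine ⟨c0, hc0, ?_⟩
          rw [hg] at h2
          have h3 : (vt h w : TG H C) = g⁻¹ * SemidirectProduct.inr c0 * g := by
            rw [← h2]; group
          rw [h3, mul_assoc, inr_center hC (hC0 hc0), ← mul_assoc, inv_mul_cancel, one_mul]
        have h2 : evp π0 u = κ ⟨Φ (vv h u), vv h u, hu', rfl⟩ := hev u
        rcases hVe with rfl | ⟨V', rfl⟩
        · exfalso
          have h3 : τ (evp π0 u y) = y := by simpa using hfix
          have h4 := hτσ (evp π0 u y)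
          rw [h3, hpy] at h4
          exact hσPM.2 _ h4.symm
        · simp only [List.length_append, List.length_cons, List.length_nil] at hl
          have h3 : (vt h (u.map some ++ none :: (V' ++ [none])) : TG H C) =
              v1 h none * vt h ([] ++ none :: (u.map some ++ none :: V')) * (v1 h none)⁻¹ := by
            have h5 : (v1 h none : TG H C) * v1 h none = 1 := tau_mul_self
            have h6 : (v1 h none : TG H C)⁻¹ = v1 h none := inv_eq_of_mul_eq_one_right h5
            simp only [vt_append, vt_cons, vt_nil, mul_one, one_mul]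
            rw [h6, ← mul_assoc (v1 h none) (v1 h none), h5, one_mul]
            simp only [mul_assoc]
          rw [h3, cancel_none hC hu']
          have h7 : ∃ c ∈ C0, (vt h ([] ++ (u.map some ++ V')) : TG H C) = SemidirectProduct.inr c := by
            apply ih (u.length + V'.length) (by omega) _ (by simp) (by
              simp only [List.length_append, List.length_nil, List.length_map]; omega) (τ y)
            rw [List.nil_append, evp_append, Equiv.Perm.mul_apply, evp_some]
            have h8 : τ (evp (pf τ π0) V' (τ (evp π0 u y))) = y := by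
              rw [evp_append, Equiv.Perm.mul_apply] at hfix
              simpa [pf_none] using hfix
            have h9 : evp (pf τ π0) V' (τ (evp π0 u y)) = τ y := by rw [← h8, hτ2, h8]
            have h10 : evp (pf τ π0) V' (evp π0 u (τ y)) = τ y := by
              rw [h2, ← hτκ, ← h2]; exact h9
            have hcomm2 : ∀ (a : A) (W : List (Option α)) z,
                evp (pf τ π0) W (κ a z) = κ a (evp (pf τ π0) W z) := by
              intro a W
              induction W with
              | nil => intro z; rfl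
              | cons t W ihW =>
                intro z
                rw [evp_cons, Equiv.Perm.mul_apply, Equiv.Perm.mul_apply, ihW]
                cases t with
                | none => exact hτκ a _
                | some t =>
                  exact (congrArg (fun f : Equiv.Perm (Q × Fin N) => f (evp (pf τ π0) W z))
                    (hcomm a (h t))).symm
            rw [h2, hcomm2] at h10
            rw [h2]; exact h10
          obtain ⟨c0, hc0, h8⟩ := h7
          refine ⟨c0, hc0, ?_⟩
          rw [h8, ← inr_center hC (hC0 hc0), mul_assoc, mul_inv_cancel, mul_one]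
      · obtain ⟨u, rfl⟩ := exists_some hw
        rw [evp_some, hev] at hx
        have h1 : Φ (vv h u) = 1 := by
          apply Lm_inj N _ _ x
          rw [hx, map_one]; rfl
        exact ⟨vv h u, hsep0 u (by simpa using hlen) h1, vt_some' u⟩
  exact fun w hw r hr => key _ w rfl hw r hr

end Run7.h459
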