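import Pool.Agent.Run7.h459.Gam

set_option linter.unusedSectionVars false

/-! Finite quotients. -/

namespace Run7.h459

theorem zmod_dvd {N d : ℕ} (hd : d ∣ N) (x : ℤ) : ((d : ZMod N) ∣ (x : ZMod N)) ↔ (d : ℤ) ∣ x := by
  constructor
  · rintro ⟨y, hy⟩
    obtain ⟨y', rfl⟩ := ZMod.intCast_surjective y
    have : ((x - d * y' : ℤ) : ZMod N) = 0 := by push_cast; rw [hy]; simp
    rw [ZMod.intCast_zmod_eq_zero_iff_dvd] at this
    have h1 : (d : ℤ) ∣ N := by exact_mod_cast hd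
    have h2 := h1.trans this
    have h3 : (d : ℤ) ∣ (x - d * y') + d * y' := dvd_add h2 (dvd_mul_right _ _)
    simpa using h3
  · rintro ⟨y, rfl⟩
    exact ⟨(y : ZMod N), by push_cast; rfl⟩

def VQ (M m e : ℕ) (_h : m ∣ e) : Type := Fin M → ZMod m

section
variable {M m e : ℕ} {h : m ∣ e}
instance : AddCommGroup (VQ M m e h) := inferInstanceAs (AddCommGroup (Fin M → ZMod m))
noncomputable instance : Module (ZMod e) (VQ M m e h) :=
  Module.compHom (Fin M → ZMod m) (ZMod.castHom h (ZMod m))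
end

variable (M m e : ℕ) (h : m ∣ e)

open Classical in
noncomputable def Db : Dat (ZMod (2 * 11 ^ M)) (VQ M m e h) where
  ε := ZMod.castHom (dvd_mul_right 2 (11 ^ M)) (ZMod 2)
  ζ := fun k j => if ((11 ^ j.val : ℕ) : ZMod (2 * 11 ^ M)) ∣ k ∧
    ¬ ((11 ^ (j.val + 1) : ℕ) : ZMod (2 * 11 ^ M)) ∣ k then 1 else 0
  hζ := fun x => by funext j; simp only [dvd_neg]

abbrev Gh := LG (Db M m e h) (ZMod e)

def cV (hm : m ∣ 15) : VV →+ VQ M m e h where
  toFun := fun c j => ZMod.castHom hm (ZMod m) (c j.val)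
  map_zero' := by funext j; exact map_zero (ZMod.castHom hm (ZMod m))
  map_add' := fun x y => by funext j; exact map_add (ZMod.castHom hm (ZMod m)) _ _

noncomputable def hM : (ℤ →₀ ℤ) →+ (ZMod (2 * 11 ^ M) →₀ ZMod e) :=
  Finsupp.liftAddHom (fun k : ℤ => (Finsupp.singleAddHom (k : ZMod (2 * 11 ^ M))).comp
    (Int.castAddHom (ZMod e)))

theorem hM_single (k a : ℤ) :
    hM M e (Finsupp.single k a) = Finsupp.single (k : ZMod (2 * 11 ^ M)) (a : ZMod e) := by
  unfold hM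
  rw [Finsupp.liftAddHom_apply_single]
  simp

theorem eps_cast (k : ℤ) : (Db M m e h).ε (k : ZMod (2 * 11 ^ M)) = Da.ε k := by
  show ZMod.castHom (dvd_mul_right 2 (11 ^ M)) (ZMod 2) (k : ZMod (2 * 11 ^ M)) = ((k : ℤ) : ZMod 2)
  simp

theorem zeta_cast (hm : m ∣ 15) (k : ℤ) :
    (Db M m e h).ζ (k : ZMod (2 * 11 ^ M)) = cV M m e h hm (Da.ζ k) := by
  funext j
  show (if _ then _ else _ : ZMod m) = ZMod.castHom hm (ZMod m) (zet 15 k j.val)
  have h1 : 11 ^ j.val ∣ 2 * 11 ^ M := (pow_dvd_pow 11 (le_of_lt j.2)).mul_left 2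
  have h2 : 11 ^ (j.val + 1) ∣ 2 * 11 ^ M := (pow_dvd_pow 11 j.2).mul_left 2
  have h3 := zmod_dvd h1 k
  have h4 := zmod_dvd h2 k
  unfold zet
  by_cases hP : (11 : ℤ) ^ j.val ∣ k ∧ ¬ (11 : ℤ) ^ (j.val + 1) ∣ k
  · rw [if_pos hP, if_pos, map_one]
    rw [h3, h4]; push_cast; exact hP
  · rw [if_neg hP, if_neg, map_zero]
    rw [h3, h4]; push_cast; exact hP

theorem kap_cast (hm : m ∣ 15) (k l : ℤ) :
    (Db M m e h).κ (k : ZMod (2 * 11 ^ M)) (l : ZMod (2 * 11 ^ M)) = cV M m e h hm (Da.κ k l) := by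
  unfold Dat.κ
  rw [eps_cast, eps_cast, ← Int.cast_sub, zeta_cast M m e h hm]
  split_ifs
  · rfl
  · simp

theorem B_cast (hm : m ∣ 15) (x y : ℤ →₀ ℤ) :
    (Db M m e h).B (ZMod e) (hM M e x) (hM M e y) = cV M m e h hm (Da.B ℤ x y) := by
  induction x using Finsupp.induction_linear with
  | zero => simp
  | add f g hf hg => simp only [map_add, LinearMap.add_apply, hf, hg]
  | single k a =>
    induction y using Finsupp.induction_linear with
    | zero => simp
    | add f g hf hg => simp only [map_add, hf, hg]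
    | single l b =>
      rw [hM_single, hM_single, Dat.B_single, Dat.B_single, kap_cast M m e h hm,
        Int.cast_smul_eq_zsmul, Int.cast_smul_eq_zsmul, map_zsmul, map_zsmul]

theorem pm_cast (p k : ℤ) : (Db M m e h).pm (p : ZMod (2 * 11 ^ M)) (k : ZMod (2 * 11 ^ M)) =
    ((Da.pm p k : ℤ) : ZMod (2 * 11 ^ M)) := by
  unfold Dat.pm
  rw [eps_cast]
  split_ifs <;> push_cast <;> rfl

theorem ac_cast (p k : ℤ) : (Db M m e h).ac (p : ZMod (2 * 11 ^ M)) (k : ZMod (2 * 11 ^ M)) =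
    ((Da.ac p k : ℤ) : ZMod (2 * 11 ^ M)) := by
  unfold Dat.ac
  rw [eps_cast]
  split_ifs <;> push_cast <;> rfl

theorem sg_cast (p : ℤ) : (Db M m e h).sg (ZMod e) (p : ZMod (2 * 11 ^ M)) =
    ((Da.sg ℤ p : ℤ) : ZMod e) := by
  unfold Dat.sg
  rw [eps_cast]
  split_ifs <;> push_cast <;> rfl

theorem A_cast (p : ℤ) (x : ℤ →₀ ℤ) :
    (Db M m e h).A (ZMod e) (p : ZMod (2 * 11 ^ M)) (hM M e x) = hM M e (Da.A ℤ p x) := by
  induction x using Finsupp.induction_linear with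
  | zero => simp
  | add f g hf hg => simp only [map_add, hf, hg]
  | single k a =>
    rw [hM_single, Dat.A_single, Dat.A_single, hM_single, pm_cast, sg_cast]
    push_cast; rfl

/-- the finite quotient map -/
noncomputable def phi (hm : m ∣ 15) : Ga →* Gh M m e h where
  toFun x := ⟨hM M e x.h, cV M m e h hm x.c, (x.p : ZMod (2 * 11 ^ M))⟩
  map_one' := by
    apply LG.ext'
    · simp
    · simp
    · simp
  map_mul' x y := by
    apply LG.ext'
    · show hM M e (x.h + Da.A ℤ x.p y.h) = hM M e x.h + (Db M m e h).A (ZMod e) _ (hM M e y.h)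
      rw [map_add, A_cast]
    · show cV M m e h hm (x.c + y.c + Da.B ℤ x.h (Da.A ℤ x.p y.h)) = cV M m e h hm x.c +
        cV M m e h hm y.c + (Db M m e h).B (ZMod e) (hM M e x.h)
          ((Db M m e h).A (ZMod e) _ (hM M e y.h))
      rw [map_add, map_add, A_cast, B_cast M m e h hm]
    · show ((Da.ac x.p y.p : ℤ) : ZMod (2 * 11 ^ M)) = (Db M m e h).ac _ _
      rw [ac_cast]

theorem phi_h (hm : m ∣ 15) (x : Ga) : (phi M m e h hm x).h = hM M e x.h := rfl
theorem phi_c (hm : m ∣ 15) (x : Ga) : (phi M m e h hm x).c = cV M m e h hm x.c := rfl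
theorem phi_p (hm : m ∣ 15) (x : Ga) : (phi M m e h hm x).p = (x.p : ZMod (2 * 11 ^ M)) := rfl

def ghEquiv : Gh M m e h ≃ (ZMod (2 * 11 ^ M) →₀ ZMod e) × (Fin M → ZMod m) × ZMod (2 * 11 ^ M) where
  toFun x := (x.h, x.c, x.p)
  invFun x := ⟨x.1, x.2.1, x.2.2⟩
  left_inv _ := rfl
  right_inv _ := rfl

instance neN : NeZero (2 * 11 ^ M) := ⟨by positivity⟩

instance finGh [NeZero m] [NeZero e] : Finite (Gh M m e h) := by
  have : Finite (ZMod (2 * 11 ^ M) →₀ ZMod e) :=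
    Finite.of_injective (fun f : ZMod (2 * 11 ^ M) →₀ ZMod e => (f : ZMod (2 * 11 ^ M) → ZMod e))
      DFunLike.coe_injective
  exact Finite.of_equiv _ (ghEquiv M m e h).symm

theorem card_Gh [NeZero m] [NeZero e] :
    Nat.card (Gh M m e h) = e ^ (2 * 11 ^ M) * (m ^ M * (2 * 11 ^ M)) := by
  classical
  rw [Nat.card_congr (ghEquiv M m e h), Nat.card_prod, Nat.card_prod,
    Nat.card_congr (Finsupp.equivFunOnFinite (α := ZMod (2 * 11 ^ M)) (M := ZMod e)),
    Nat.card_fun, Nat.card_fun]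
  simp [Nat.card_zmod]

/-! Separation. -/

theorem hM_apply (x : ℤ →₀ ℤ) (k : ℤ) (hk : ∀ l ∈ x.support, l ≠ k →
    ((l : ZMod (2 * 11 ^ M)) ≠ (k : ZMod (2 * 11 ^ M)))) :
    hM M e x (k : ZMod (2 * 11 ^ M)) = (x k : ZMod e) := by
  classical
  unfold hM
  rw [Finsupp.liftAddHom_apply, Finsupp.sum, Finsupp.finsetSum_apply]
  by_cases hkx : k ∈ x.support
  · rw [Finset.sum_eq_single k]
    · simp
    · intro l hl hlk
      simp only [AddMonoidHom.coe_comp, Function.comp_apply, Finsupp.singleAddHom_apply]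
      rw [Finsupp.single_apply, if_neg (hk l hl hlk)]
    · intro h; exact absurd hkx h
  · rw [Finset.sum_eq_zero]
    · rw [Finsupp.notMem_support_iff.1 hkx]; simp
    · intro l hl
      have hlk : l ≠ k := fun h => hkx (h ▸ hl)
      simp only [AddMonoidHom.coe_comp, Function.comp_apply, Finsupp.singleAddHom_apply]
      rw [Finsupp.single_apply, if_neg (hk l hl hlk)]

theorem pow11_gt (M : ℕ) : M < 2 * 11 ^ M := by
  have : M < 11 ^ M := Nat.lt_pow_self (by norm_num)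
  omega

theorem cast_ne {M : ℕ} {x : ℤ} (hx : x ≠ 0) (hb : |x| ≤ M) : (x : ZMod (2 * 11 ^ M)) ≠ 0 := by
  intro h
  rw [ZMod.intCast_zmod_eq_zero_iff_dvd] at h
  have h1 := Int.le_of_dvd (abs_pos.2 hx) ((dvd_abs _ _).2 h)
  have h2 := pow11_gt M
  have h3 : ((M:ℕ):ℤ) < ((2 * 11 ^ M : ℕ) : ℤ) := by exact_mod_cast h2
  omega

/-- separation of the non-central part -/
theorem sep_hp (g : Ga) : ∃ B : ℕ, ∀ M m e : ℕ, ∀ (h : m ∣ e) (hm : m ∣ 15), B ≤ M → B ≤ e →
    (phi M m e h hm g).h = 0 → (phi M m e h hm g).p = 0 → g.h = 0 ∧ g.p = 0 := by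
  classical
  obtain ⟨B1, hB1⟩ : ∃ B1 : ℕ, ∀ k ∈ g.h.support, ∀ l ∈ g.h.support, |k - l| ≤ B1 := by
    refine ⟨∑ k ∈ g.h.support, ∑ l ∈ g.h.support, (k - l).natAbs, ?_⟩
    intro k hk l hl
    have h1 : (k - l).natAbs ≤ ∑ l ∈ g.h.support, (k - l).natAbs :=
      Finset.single_le_sum (f := fun l => (k - l).natAbs) (fun _ _ => Nat.zero_le _) hl
    have h2 : ∑ l ∈ g.h.support, (k - l).natAbs ≤
        ∑ k ∈ g.h.support, ∑ l ∈ g.h.support, (k - l).natAbs :=
      Finset.single_le_sum (f := fun k => ∑ l ∈ g.h.support, (k - l).natAbs)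
        (fun _ _ => Nat.zero_le _) hk
    rw [Int.abs_eq_natAbs]
    exact_mod_cast h1.trans h2
  obtain ⟨B2, hB2⟩ : ∃ B2 : ℕ, ∀ k ∈ g.h.support, |g.h k| < B2 := by
    refine ⟨(∑ k ∈ g.h.support, (g.h k).natAbs) + 1, ?_⟩
    intro k hk
    have h1 : (g.h k).natAbs ≤ ∑ l ∈ g.h.support, (g.h l).natAbs :=
      Finset.single_le_sum (f := fun l => (g.h l).natAbs) (fun _ _ => Nat.zero_le _) hk
    rw [Int.abs_eq_natAbs]
    exact_mod_cast Nat.lt_succ_of_le h1
  refine ⟨B1 + B2 + g.p.natAbs, ?_⟩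
  intro M m e h hm hM' he hh hp
  constructor
  · by_contra hne
    obtain ⟨k, hk⟩ := Finsupp.support_nonempty_iff.2 hne
    have h1 := hM_apply M e g.h k (by
      intro l hl hlk heq
      have h2 : ((l - k : ℤ) : ZMod (2 * 11 ^ M)) = 0 := by push_cast; rw [heq, sub_self]
      refine cast_ne (sub_ne_zero.2 hlk) ?_ h2
      have := hB1 l hl k hk
      omega)
    rw [← phi_h M m e h hm, hh] at h1
    have h2 : ((g.h k : ℤ) : ZMod e) = 0 := h1.symm
    rw [ZMod.intCast_zmod_eq_zero_iff_dvd] at h2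
    have h3 := Int.le_of_dvd (abs_pos.2 (Finsupp.mem_support_iff.1 hk)) ((dvd_abs _ _).2 h2)
    have := hB2 k hk
    omega
  · by_contra hne
    rw [phi_p] at hp
    refine cast_ne hne ?_ hp
    rw [Int.abs_eq_natAbs]
    omega

theorem B_fin (x y : ℤ →₀ ℤ) : ∃ B : ℕ, ∀ j, B ≤ j → (Da.B ℤ x y : VV) j = 0 := by
  induction x using Finsupp.induction_linear with
  | zero => exact ⟨0, fun j _ => by simp⟩
  | add f g hf hg =>
    obtain ⟨B1, h1⟩ := hf
    obtain ⟨B2, h2⟩ := hg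
    refine ⟨max B1 B2, fun j hj => ?_⟩
    rw [map_add, LinearMap.add_apply, Pi.add_apply, h1 j (le_trans (le_max_left _ _) hj),
      h2 j (le_trans (le_max_right _ _) hj), add_zero]
  | single k a =>
    induction y using Finsupp.induction_linear with
    | zero => exact ⟨0, fun j _ => by simp⟩
    | add f g hf hg =>
      obtain ⟨B1, h1⟩ := hf
      obtain ⟨B2, h2⟩ := hg
      refine ⟨max B1 B2, fun j hj => ?_⟩
      rw [map_add, Pi.add_apply, h1 j (le_trans (le_max_left _ _) hj),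
        h2 j (le_trans (le_max_right _ _) hj), add_zero]
    | single l b =>
      by_cases hkl : k = l
      · refine ⟨0, fun j _ => ?_⟩
        rw [Da.B_single, hkl, kap_self]; simp
      · refine ⟨(k - l).natAbs, fun j hj => ?_⟩
        rw [Da.B_single]
        have : (Da.κ k l : VV) j = 0 := by
          unfold Dat.κ
          split_ifs
          · show zet 15 (k - l) j = 0
            unfold zet
            rw [if_neg]
            rintro ⟨h1, _⟩
            have h2 := Int.le_of_dvd (abs_pos.2 (sub_ne_zero.2 hkl)) ((dvd_abs _ _).2 h1)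
            have h3 : j < 11 ^ j := Nat.lt_pow_self (by norm_num)
            have h4 : ((j:ℕ):ℤ) < 11 ^ j := by exact_mod_cast h3
            rw [Int.abs_eq_natAbs] at h2
            omega
          · rfl
        rw [Pi.smul_apply, Pi.smul_apply, this]; simp

theorem vl_fin (w : List Lt) : ∃ B : ℕ, ∀ j, B ≤ j → (vl w).c j = 0 := by
  induction w with
  | nil => exact ⟨0, fun _ _ => rfl⟩
  | cons t w ih =>
    obtain ⟨B1, h1⟩ := ih
    obtain ⟨B2, h2⟩ := B_fin (lt t).h (Da.A ℤ (lt t).p (vl w).h)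
    refine ⟨max B1 B2, fun j hj => ?_⟩
    rw [vl_cons, LG.mul_c, Pi.add_apply, Pi.add_apply, h1 j (le_trans (le_max_left _ _) hj),
      h2 j (le_trans (le_max_right _ _) hj)]
    have : (lt t).c = 0 := by
      rcases t with ⟨b, a⟩
      cases b <;> rfl
    rw [this]; simp

/-- separation of the central part -/
theorem sep_c (w : List Lt) : ∃ B : ℕ, ∀ M m e : ℕ, ∀ (h : m ∣ e) (hm : m ∣ 15), B ≤ M →
    (phi M m e h hm (vl w)).c = 0 → ∀ j, ZMod.castHom hm (ZMod m) ((vl w).c j) = 0 := by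
  obtain ⟨B, hB⟩ := vl_fin w
  refine ⟨B, fun M m e h hm hMB hc j => ?_⟩
  by_cases hj : j < M
  · have := congrFun hc ⟨j, hj⟩
    exact this
  · rw [hB j (by omega), map_zero]

end Run7.h459
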