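import Pool.Agent.Run7.h459.S1b

set_option linter.unusedSectionVars false

/-! The second generating set. -/

namespace Run7.h459

def tl2 (s : Fin 6) : Lt :=
  match s with
  | 0 => (false, 0) | 1 => (false, 1) | 2 => (false, 2) | 3 => (true, 0) | 4 => (true, 1)
  | 5 => (true, 2)

theorem tl2_inj : Function.Injective tl2 := by
  intro a b; revert a b; decide

theorem ok2_iff (t : Lt) : ok2 t ↔ ∃ s, tl2 s = t := by
  constructor
  · intro h
    rcases t with ⟨b, a⟩
    cases b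
    · rcases h with h | h | h
      · exact ⟨0, Prod.ext rfl h.symm⟩
      · exact ⟨1, Prod.ext rfl h.symm⟩
      · exact ⟨2, Prod.ext rfl h.symm⟩
    · rcases h with h | h | h
      · exact ⟨3, Prod.ext rfl h.symm⟩
      · exact ⟨4, Prod.ext rfl h.symm⟩
      · exact ⟨5, Prod.ext rfl h.symm⟩
  · rintro ⟨s, rfl⟩
    fin_cases s <;> simp [ok2, tl2]

theorem exists_pre2 (w : List Lt) (hw : ∀ t ∈ w, ok2 t) : ∃ w' : List (Fin 6), w = w'.map tl2 := by
  induction w with
  | nil => exact ⟨[], rfl⟩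
  | cons t w ih =>
    obtain ⟨w', rfl⟩ := ih (fun s hs => hw s (by simp [hs]))
    obtain ⟨s, rfl⟩ := (ok2_iff t).1 (hw t (by simp))
    exact ⟨s :: w', rfl⟩

def c21 (b : B2) : List Lt := if b.1 then [] else [tl2 b.2]
def c22 (b : B2) : List Lt := if b.1 then [tl2 b.2] else []

theorem c21_f (s : Fin 6) : c21 (false, s) = [tl2 s] := rfl
theorem c21_t (s : Fin 6) : c21 (true, s) = [] := rfl
theorem c22_f (s : Fin 6) : c22 (false, s) = [] := rfl
theorem c22_t (s : Fin 6) : c22 (true, s) = [tl2 s] := rfl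

noncomputable def gb2 (b : B2) : PP := (vl (c21 b), vl (c22 b))

theorem gb2_f (s : Fin 6) : gb2 (false, s) = (lt (tl2 s), 1) := by simp [gb2, c21, c22]
theorem gb2_t (s : Fin 6) : gb2 (true, s) = (1, lt (tl2 s)) := by simp [gb2, c21, c22]

noncomputable def e2 : PP →* Z2 := MonoidHom.coprod pg pg

theorem gbH2 : GbH gb2 CC e2 where
  inj := by
    rintro ⟨b, s⟩ ⟨b', s'⟩ h
    cases b <;> cases b'
    · rw [gb2_f, gb2_f, Prod.mk.injEq] at h
      rw [tl2_inj (lt_inj h.1)]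
    · rw [gb2_f, gb2_t, Prod.mk.injEq] at h
      exact absurd h.1 (lt_ne _)
    · rw [gb2_f, gb2_t, Prod.mk.injEq] at h
      exact absurd h.2 (lt_ne _)
    · rw [gb2_t, gb2_t, Prod.mk.injEq] at h
      rw [tl2_inj (lt_inj h.2)]
  sq := by
    rintro ⟨b, s⟩
    cases b
    · rw [gb2_f, Prod.mk_mul_mk, lt_inv]; simp
    · rw [gb2_t, Prod.mk_mul_mk, lt_inv]; simp
  par := by
    rintro ⟨b, s⟩
    cases b
    · rw [gb2_f]
      show pg (lt (tl2 s)) * pg 1 = _
      rw [pg_lt, MonoidHom.map_one pg, mul_one]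
    · rw [gb2_t]
      show pg 1 * pg (lt (tl2 s)) = _
      rw [pg_lt, MonoidHom.map_one pg, one_mul]
  hC := CC_center
  hq := CC_q

section sys
variable {X : Type} {π0 : Al ts2 → Equiv.Perm X} {Λ : ℕ}

noncomputable def T21 (π0 : Al ts2 → Equiv.Perm X) : Lt → Equiv.Perm X :=
  Function.extend tl2 (fun s => π0 (ba (false, s))) (fun _ => 1)
noncomputable def T22 (π0 : Al ts2 → Equiv.Perm X) : Lt → Equiv.Perm X :=
  Function.extend tl2 (fun s => π0 (ba (true, s))) (fun _ => 1)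

theorem T21_tl (s : Fin 6) : T21 π0 (tl2 s) = π0 (ba (false, s)) := tl2_inj.extend_apply _ _ _
theorem T22_tl (s : Fin 6) : T22 π0 (tl2 s) = π0 (ba (true, s)) := tl2_inj.extend_apply _ _ _

theorem ok2_bd (t : Lt) (h : ok2 t) : 0 ≤ t.2 ∧ t.2 ≤ 7 := by
  rcases h with h | h | h <;> rw [h] <;> norm_num

theorem ok2_bd' (t : Lt) (h : ok2 t) : 0 ≤ t.2 ∧ t.2 ≤ 2 := by
  rcases h with h | h | h <;> rw [h] <;> norm_num

theorem vv_t1 (w : List (Fin 6)) : vv (hh gb2) (w.map fun s => (ba (false, s) : Al ts2)) =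
    ((vl (w.map tl2), 1), 1) := by
  induction w with
  | nil => rfl
  | cons s w ih =>
    rw [List.map_cons, vv_cons, ih, hh_ba, gb2_f]
    simp

theorem vv_t2 (w : List (Fin 6)) : vv (hh gb2) (w.map fun s => (ba (true, s) : Al ts2)) =
    ((1, vl (w.map tl2)), 1) := by
  induction w with
  | nil => rfl
  | cons s w ih =>
    rw [List.map_cons, vv_cons, ih, hh_ba, gb2_t]
    simp

theorem ar21 (h : Lcl (hh gb2) Λ π0) : AR (T21 π0) ok2 Λ where
  z := fun b => Or.inl rfl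
  o := fun b => Or.inr (Or.inl rfl)
  bd := ok2_bd
  rel := by
    intro w hw hl hv
    obtain ⟨w', rfl⟩ := exists_pre2 w hw
    rw [List.map_map]
    have h1 : T21 π0 ∘ tl2 = π0 ∘ (fun s => ba (false, s)) := by funext s; exact T21_tl s
    rw [h1, ← List.map_map]
    have h2 : vv (hh gb2) (w'.map fun s => (ba (false, s) : Al ts2)) = 1 := by
      rw [vv_t1, hv]; rfl
    ext x
    exact (h _ (by simpa using hl) x).2 h2

theorem ar22 (h : Lcl (hh gb2) Λ π0) : AR (T22 π0) ok2 Λ where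
  z := fun b => Or.inl rfl
  o := fun b => Or.inr (Or.inl rfl)
  bd := ok2_bd
  rel := by
    intro w hw hl hv
    obtain ⟨w', rfl⟩ := exists_pre2 w hw
    rw [List.map_map]
    have h1 : T22 π0 ∘ tl2 = π0 ∘ (fun s => ba (true, s)) := by funext s; exact T22_tl s
    rw [h1, ← List.map_map]
    have h2 : vv (hh gb2) (w'.map fun s => (ba (true, s) : Al ts2)) = 1 := by
      rw [vv_t2, hv]; rfl
    ext x
    exact (h _ (by simpa using hl) x).2 h2

theorem crd2 (h : Lcl (hh gb2) Λ π0) (hΛ : 60 ≤ Λ) (E : QQ →* Equiv.Perm X)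
    (hE : ∀ q, E q = evp π0 (wq q)) : CrdH gb2 c21 c22 ok2 π0 (T21 π0) (T22 π0) E where
  hgb := fun b => rfl
  l1 := fun b => by rcases b with ⟨_ | _, s⟩ <;> simp [c21]
  l2 := fun b => by rcases b with ⟨_ | _, s⟩ <;> simp [c22]
  o1 := fun b t ht => by
    rcases b with ⟨_ | _, s⟩
    · simp only [c21_f, List.mem_cons, List.not_mem_nil, or_false] at ht
      rw [ht, ok2_iff]; exact ⟨_, rfl⟩
    · simp [c21_t] at ht
  o2 := fun b t ht => by
    rcases b with ⟨_ | _, s⟩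
    · simp [c22_f] at ht
    · simp only [c22_t, List.mem_cons, List.not_mem_nil, or_false] at ht
      rw [ht, ok2_iff]; exact ⟨_, rfl⟩
  dec := by
    have hL := letHh (ts := ts2) gbH2
    have hb : ∀ b : B2, π0 (ba b) = ((c21 b).map (T21 π0)).prod * ((c22 b).map (T22 π0)).prod := by
      rintro ⟨_ | _, s⟩
      · simp [c21, c22, T21_tl]
      · simp [c21, c22, T22_tl]
    intro a
    rcases al_cases a with ⟨l, rfl⟩ | ⟨b, rfl⟩ | ⟨b, l, hbl, rfl⟩
    · show π0 (pu l) = 1 * (1 * E (el l))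
      rw [one_mul, one_mul, hE]
      have := h.eqv hL (by omega) [pu l] (wq (el l)) (by
        have := wq_len (ts := ts2) (el l); simp; omega) (by rw [vv_wq]; simp)
      simpa using this
    · show π0 (ba b) = ((c21 b).map (T21 π0)).prod * (((c22 b).map (T22 π0)).prod * E 1)
      rw [map_one, mul_one]; exact hb b
    · show π0 (de b l hbl) = ((c21 b).map (T21 π0)).prod * (((c22 b).map (T22 π0)).prod * E (el l))
      rw [← mul_assoc, ← hb b, hE]
      have := h.eqv hL (by omega) [de b l hbl] (ba b :: wq (el l)) (by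
        have := wq_len (ts := ts2) (el l); simp; omega) (by rw [vv_cons, vv_nil, vv_cons, vv_wq]; simp)
      simpa using this
  c12 := by
    have hL := letHh (ts := ts2) gbH2
    intro t t' ht ht'
    obtain ⟨s, rfl⟩ := (ok2_iff t).1 ht
    obtain ⟨s', rfl⟩ := (ok2_iff t').1 ht'
    have := h.eqv hL (by omega) [ba (false, s), ba (true, s')] [ba (true, s'), ba (false, s)]
      (by simp; omega) (by simp [gb2_f, gb2_t])
    rw [T21_tl, T22_tl]
    simpa using this
  cE1 := by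
    intro t q ht
    obtain ⟨s, rfl⟩ := (ok2_iff t).1 ht
    have := E_comm gbH2 h hΛ E hE [ba (false, s)] (by simp) q
    rw [T21_tl]
    simpa using this
  cE2 := by
    intro t q ht
    obtain ⟨s, rfl⟩ := (ok2_iff t).1 ht
    have := E_comm gbH2 h hΛ E hE [ba (true, s)] (by simp) q
    rw [T22_tl]
    simpa using this

end sys

noncomputable abbrev val2 : Option (Al ts2) → TG HH CC := v1 (hh gb2)

theorem letH2 : LetH val2 := letH gbH2
theorem rig2 : Rig val2 := rig gbH2 tsH2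
theorem letH1 : LetH (v1 (hh gb1) : Option (Al ts1) → TG HH CC) := letH gbH1
theorem rig1 : Rig (v1 (hh gb1) : Option (Al ts1) → TG HH CC) := rig gbH1 tsH1

theorem Lcl_base' {α X H : Type} [Group H] {C : Subgroup H} {h : α → H} {Λ : ℕ}
    {π : Option α → Equiv.Perm X} (hL : Lcl (v1 h : Option α → TG H C) Λ π) :
    Lcl h Λ (fun a => π (some a)) := by
  have he : ∀ w : List α, evp π (w.map some) = evp (fun a => π (some a)) w := by
    intro w
    induction w with
    | nil => rfl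
    | cons t w ih => rw [List.map_cons, evp_cons, evp_cons, ih]
  intro w hw x
  have := hL (w.map some) (by simpa using hw) x
  rw [he] at this
  rw [this]
  show (vt h (w.map some) : TG H C) = 1 ↔ _
  rw [vt_some', ← map_one (SemidirectProduct.inr : H →* TG H C),
    SemidirectProduct.inr_injective.eq_iff]

theorem evp_some' {α X : Type} (π : Option α → Equiv.Perm X) (w : List α) :
    evp π (w.map some) = evp (fun a => π (some a)) w := by
  induction w with
  | nil => rfl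
  | cons t w ih => rw [List.map_cons, evp_cons, evp_cons, ih]

/-- lengths of the coordinate words -/
theorem WW_sum (w : List (Al ts2)) : (WW c21 w).length + (WW c22 w).length ≤ w.length := by
  induction w with
  | nil => simp
  | cons a w ih =>
    have : (kk c21 a).length + (kk c22 a).length ≤ 1 := by
      have hb : ∀ b : B2, (c21 b).length + (c22 b).length ≤ 1 := by
        rintro ⟨_ | _, s⟩ <;> simp [c21, c22]
      rcases al_cases a with ⟨l, rfl⟩ | ⟨b, rfl⟩ | ⟨b, l, h, rfl⟩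
      · simp [kk]
      · exact hb b
      · exact hb b
    simp only [WW_cons, List.length_append, List.length_cons]; omega

/-- the radius used for the second generating set -/
abbrev Lam (i : ℕ) : ℕ := 8 * (11 ^ i + 1) + 3

/-- lower bounds -/
theorem low_vanish {i : ℕ} (w : List (Al ts2)) (hw : w.length ≤ Lam i) (x : MV × MV × QQ)
    (hx : vv (hh gb2) w = cc x) :
    (∀ j, i < j → x.1.toAdd j = 0) ∧ (∀ j, i < j → x.2.1.toAdd j = 0) := by
  have hs := WW_sum w
  rw [vv_coord (gb := gb2) (c1 := c21) (c2 := c22) (fun b => rfl)] at hx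
  have x1 : vl (WW c21 w) = zc x.1.toAdd := congrArg (fun y : HH => y.1.1) hx
  have x2 : vl (WW c22 w) = zc x.2.1.toAdd := congrArg (fun y : HH => y.1.2) hx
  have hp : 0 < 11 ^ i := pow_pos (by norm_num) _
  have hp2 : 11 ^ (i + 1) = 11 * 11 ^ i := by rw [pow_succ]; ring
  unfold Lam at hw
  have v1 := bd_low (11 ^ (i + 1) - 1) _ _ x1 (by omega)
  have v2 := bd_low (11 ^ (i + 1) - 1) _ _ x2 (by omega)
  have hv : ∀ j, i < j → 11 ^ (i + 1) - 1 < 11 ^ j := by
    intro j hj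
    have := pow_mono' (show i + 1 ≤ j by omega)
    omega
  exact ⟨fun j hj => v1 j (hv j hj), fun j hj => v2 j (hv j hj)⟩

theorem tight_val (x : ZMod 15) (α β : ℤ) (hα : |α| ≤ 2) (hβ : |β| ≤ 2)
    (h : x = ((α * β : ℤ) : ZMod 15) ∨ x = -((α * β : ℤ) : ZMod 15)) :
    x = 0 ∨ x = 1 ∨ x = 2 ∨ x = 4 ∨ x = 11 ∨ x = 13 ∨ x = 14 := by
  rw [abs_le] at hα hβ
  obtain ⟨a1, a2⟩ := hα
  obtain ⟨b1, b2⟩ := hβ
  interval_cases α <;> interval_cases β <;> rcases h with h | h <;> rw [h] <;> decide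

theorem low_tight {i : ℕ} (hi : 1 ≤ i) (w : List (Al ts2)) (hw : w.length ≤ Lam i)
    (x : MV × MV × QQ) (hx : vv (hh gb2) w = cc x)
    (h1 : ¬ (x.1.toAdd i = 0 ∨ x.1.toAdd i = 1 ∨ x.1.toAdd i = 2 ∨ x.1.toAdd i = 4 ∨
      x.1.toAdd i = 11 ∨ x.1.toAdd i = 13 ∨ x.1.toAdd i = 14))
    (h2 : ¬ (x.2.1.toAdd i = 0 ∨ x.2.1.toAdd i = 1 ∨ x.2.1.toAdd i = 2 ∨ x.2.1.toAdd i = 4 ∨
      x.2.1.toAdd i = 11 ∨ x.2.1.toAdd i = 13 ∨ x.2.1.toAdd i = 14)) : False := by
  have hs := WW_sum w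
  rw [vv_coord (gb := gb2) (c1 := c21) (c2 := c22) (fun b => rfl)] at hx
  have x1 : vl (WW c21 w) = zc x.1.toAdd := congrArg (fun y : HH => y.1.1) hx
  have x2 : vl (WW c22 w) = zc x.2.1.toAdd := congrArg (fun y : HH => y.1.2) hx
  have o1 : ∀ t ∈ WW c21 w, ok2 t := WW_ok (by
    intro b t ht
    rcases b with ⟨_ | _, s⟩
    · simp only [c21_f, List.mem_cons, List.not_mem_nil, or_false] at ht
      rw [ht, ok2_iff]; exact ⟨_, rfl⟩
    · simp [c21_t] at ht) w
  have o2 : ∀ t ∈ WW c22 w, ok2 t := WW_ok (by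
    intro b t ht
    rcases b with ⟨_ | _, s⟩
    · simp [c22_f] at ht
    · simp only [c22_t, List.mem_cons, List.not_mem_nil, or_false] at ht
      rw [ht, ok2_iff]; exact ⟨_, rfl⟩) w
  have l1 : 4 * (11 ^ i + 1) < (WW c21 w).length := by
    by_contra hcon
    obtain ⟨α, β, hα, hβ, h⟩ := bd_tight i hi _ _ x1 (by omega) (fun t ht => ok2_bd' t (o1 t ht))
    exact h1 (tight_val _ α β hα hβ h)
  have l2 : 4 * (11 ^ i + 1) < (WW c22 w).length := by
    by_contra hcon
    obtain ⟨α, β, hα, hβ, h⟩ := bd_tight i hi _ _ x2 (by omega) (fun t ht => ok2_bd' t (o2 t ht))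
    exact h2 (tight_val _ α β hα hβ h)
  have p1 := even_of_closed _ (show (vl (WW c21 w)).p % 2 = 0 by rw [x1]; rfl)
  have p2 := even_of_closed _ (show (vl (WW c22 w)).p % 2 = 0 by rw [x2]; rfl)
  unfold Lam at hw
  omega

/-- words from coordinate words -/
theorem word_of_coords (w1 w2 : List Lt) (h1 : ∀ t ∈ w1, ok2 t) (h2 : ∀ t ∈ w2, ok2 t) (c c' : VV)
    (hc : vl w1 = zc c) (hc' : vl w2 = zc c') :
    ∃ w : List (Al ts2), w.length = w1.length + w2.length ∧
      vv (hh gb2) w = cc (Multiplicative.ofAdd c, Multiplicative.ofAdd c', 1) := by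
  obtain ⟨u1, rfl⟩ := exists_pre2 w1 h1
  obtain ⟨u2, rfl⟩ := exists_pre2 w2 h2
  refine ⟨(u1.map fun s => ba (false, s)) ++ (u2.map fun s => ba (true, s)), by simp, ?_⟩
  rw [vv_append, vv_t1, vv_t2, hc, hc', Prod.mk_mul_mk, Prod.mk_mul_mk]
  simp only [mul_one, one_mul]
  rfl

theorem up_exact (i : ℕ) (c c' : VV) (hc : ∀ j, i < j → c j = 0) (hc' : ∀ j, i < j → c' j = 0)
    (ht : c i = 1 ∨ c i = 2 ∨ c i = 4 ∨ c i = 11 ∨ c i = 13 ∨ c i = 14)
    (ht' : c' i = 1 ∨ c' i = 2 ∨ c' i = 4 ∨ c' i = 11 ∨ c' i = 13 ∨ c' i = 14) :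
    ∃ w : List (Al ts2), w.length ≤ Lam i ∧
      vv (hh gb2) w = cc (Multiplicative.ofAdd c, Multiplicative.ofAdd c', 1) := by
  obtain ⟨w1, a1, a2, a3⟩ := build_exact i c hc ht
  obtain ⟨w2, b1, b2, b3⟩ := build_exact i c' hc' ht'
  obtain ⟨w, h1, h2⟩ := word_of_coords w1 w2 a1 b1 c c' a3 b3
  exact ⟨w, by unfold Lam; omega, h2⟩

theorem up_crude (i : ℕ) (c c' : VV) (hc : ∀ j, i < j → c j = 0) (hc' : ∀ j, i < j → c' j = 0) :
    ∃ w : List (Al ts2), w.length ≤ Lam i + 24 ∧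
      vv (hh gb2) w = cc (Multiplicative.ofAdd c, Multiplicative.ofAdd c', 1) := by
  obtain ⟨w1, a1, a2, a3⟩ := build_crude i c hc
  obtain ⟨w2, b1, b2, b3⟩ := build_crude i c' hc'
  obtain ⟨w, h1, h2⟩ := word_of_coords w1 w2 a1 b1 c c' a3 b3
  exact ⟨w, by unfold Lam; omega, h2⟩

theorem up_zero (i : ℕ) (hi : 2 ≤ i) (c c' : VV) (hc : ∀ j, i < j → c j = 0)
    (hc' : ∀ j, i < j → c' j = 0) (h0 : c i = 0 ∨ c' i = 0) :
    ∃ w : List (Al ts2), w.length ≤ Lam i ∧
      vv (hh gb2) w = cc (Multiplicative.ofAdd c, Multiplicative.ofAdd c', 1) := by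
  have hp : 11 ^ i = 11 * 11 ^ (i - 1) := by
    rw [← pow_succ']; congr 1; omega
  have hp2 : 11 ≤ 11 ^ (i - 1) := by
    calc 11 = 11 ^ 1 := by norm_num
      _ ≤ 11 ^ (i - 1) := Nat.pow_le_pow_right (by norm_num) (by omega)
  rcases h0 with h0 | h0
  · obtain ⟨w1, a1, a2, a3⟩ := build_crude (i - 1) c (by
      intro j hj
      rcases Nat.lt_or_ge i j with h | h
      · exact hc j h
      · rw [show j = i by omega, h0])
    obtain ⟨w2, b1, b2, b3⟩ := build_crude i c' hc'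
    obtain ⟨w, h1, h2⟩ := word_of_coords w1 w2 a1 b1 c c' a3 b3
    exact ⟨w, by unfold Lam; omega, h2⟩
  · obtain ⟨w1, a1, a2, a3⟩ := build_crude i c hc
    obtain ⟨w2, b1, b2, b3⟩ := build_crude (i - 1) c' (by
      intro j hj
      rcases Nat.lt_or_ge i j with h | h
      · exact hc' j h
      · rw [show j = i by omega, h0])
    obtain ⟨w, h1, h2⟩ := word_of_coords w1 w2 a1 b1 c c' a3 b3
    exact ⟨w, by unfold Lam; omega, h2⟩

end Run7.h459
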