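import Pool.Agent.Run7.h459.EL
import Pool.Agent.Run7.h459.FQ
import Pool.Agent.Run7.h459.S2

set_option linter.unusedSectionVars false

/-! Finite permutation representations for the second generating set. -/

namespace Run7.h459

def D0 (m : ℕ) (hm : m ∣ 15) : Subgroup (MV × MV × QQ) where
  carrier := {x | (∀ j, ZMod.castHom hm (ZMod m) (x.1.toAdd j) = 0) ∧
    (∀ j, ZMod.castHom hm (ZMod m) (x.2.1.toAdd j) = 0) ∧ x.2.2 = 1}
  one_mem' := ⟨fun _ => map_zero _, fun _ => map_zero _, rfl⟩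
  mul_mem' := by
    rintro a b ⟨h1, h2, h3⟩ ⟨g1, g2, g3⟩
    refine ⟨fun j => ?_, fun j => ?_, ?_⟩
    · show ZMod.castHom hm (ZMod m) (a.1.toAdd j + b.1.toAdd j) = 0
      rw [map_add, h1, g1, add_zero]
    · show ZMod.castHom hm (ZMod m) (a.2.1.toAdd j + b.2.1.toAdd j) = 0
      rw [map_add, h2, g2, add_zero]
    · show a.2.2 * b.2.2 = 1
      rw [h3, g3, mul_one]
  inv_mem' := by
    rintro a ⟨h1, h2, h3⟩
    refine ⟨fun j => ?_, fun j => ?_, ?_⟩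
    · show ZMod.castHom hm (ZMod m) (- a.1.toAdd j) = 0
      rw [map_neg, h1, neg_zero]
    · show ZMod.castHom hm (ZMod m) (- a.2.1.toAdd j) = 0
      rw [map_neg, h2, neg_zero]
    · show (a.2.2)⁻¹ = 1
      rw [h3, inv_one]

theorem ga_zc {g : Ga} (h1 : g.h = 0) (h2 : g.p = 0) : g = zc g.c := by
  rcases g with ⟨a, b, c⟩
  simp only at h1 h2
  rw [h1, h2]; rfl

theorem E_lemma (Λ m : ℕ) (hm : m ∣ 15) (hm2 : 2 ≤ m) :
    ∃ (R : Type) (_ : Fintype R) (_ : Nonempty R) (ρ : TG HH CC →* Equiv.Perm R),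
      (∀ p : ℕ, p.Prime → p ∣ Fintype.card R → p ∣ m ∨ p = 2 ∨ p = 11) ∧
      ∀ w : List (Option (Al ts2)), w.length ≤ Λ → ∀ r, evp (fun a => ρ (val2 a)) w r = r →
        ∃ x ∈ D0 m hm, (vt (hh gb2) w : TG HH CC) = SemidirectProduct.inr (cc x) := by
  classical
  have hex : ∀ u : List (Al ts2), ∃ B : ℕ, ∀ M e : ℕ, ∀ (h : m ∣ e), B ≤ M → B ≤ e →
      ((phi M m e h hm (vl (WW c21 u))).h = 0 → (phi M m e h hm (vl (WW c21 u))).p = 0 →
        (vl (WW c21 u)).h = 0 ∧ (vl (WW c21 u)).p = 0) ∧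
      ((phi M m e h hm (vl (WW c22 u))).h = 0 → (phi M m e h hm (vl (WW c22 u))).p = 0 →
        (vl (WW c22 u)).h = 0 ∧ (vl (WW c22 u)).p = 0) ∧
      ((phi M m e h hm (vl (WW c21 u))).c = 0 →
        ∀ j, ZMod.castHom hm (ZMod m) ((vl (WW c21 u)).c j) = 0) ∧
      ((phi M m e h hm (vl (WW c22 u))).c = 0 →
        ∀ j, ZMod.castHom hm (ZMod m) ((vl (WW c22 u)).c j) = 0) := by
    intro u
    obtain ⟨B1, h1⟩ := sep_hp (vl (WW c21 u))
    obtain ⟨B2, h2⟩ := sep_hp (vl (WW c22 u))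
    obtain ⟨B3, h3⟩ := sep_c (WW c21 u)
    obtain ⟨B4, h4⟩ := sep_c (WW c22 u)
    refine ⟨B1 + B2 + B3 + B4, fun M e h hM he => ⟨?_, ?_, ?_, ?_⟩⟩
    · exact h1 M m e h hm (by omega) (by omega)
    · exact h2 M m e h hm (by omega) (by omega)
    · exact h3 M m e h hm (by omega)
    · exact h4 M m e h hm (by omega)
  choose B hB using hex
  obtain ⟨M, hM⟩ : ∃ M : ℕ, ∀ u : List (Al ts2), u.length ≤ Λ → B u ≤ M := by
    have hfin : {u : List (Al ts2) | u.length ≤ Λ}.Finite := List.finite_length_le _ Λ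
    obtain ⟨M, hM⟩ := (hfin.image B).bddAbove
    exact ⟨M, fun u hu => hM ⟨u, hu, rfl⟩⟩
  have hme : m ∣ m ^ (M + 1) := dvd_pow_self m (by omega)
  have hMe : M ≤ m ^ (M + 1) := by
    have : M + 1 < m ^ (M + 1) := Nat.lt_pow_self (by omega)
    omega
  have : NeZero m := ⟨by omega⟩
  have : NeZero (m ^ (M + 1)) := ⟨by positivity⟩
  let Gq := Gh M m (m ^ (M + 1)) hme
  have hGfin : Finite Gq := finGh M m (m ^ (M + 1)) hme
  have hcardG : Nat.card Gq = (m ^ (M + 1)) ^ (2 * 11 ^ M) * (m ^ M * (2 * 11 ^ M)) :=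
    card_Gh M m (m ^ (M + 1)) hme
  let Q := (Gq × Gq) × QQ
  let _ : Fintype Q := Fintype.ofFinite _
  let ph : Ga →* Gq := phi M m (m ^ (M + 1)) hme hm
  let Φ : HH →* Q := (ph.prodMap ph).prodMap (MonoidHom.id QQ)
  have hΦ : ∀ u : List (Al ts2), Φ (vv (hh gb2) u) = ((ph (vl (WW c21 u)), ph (vl (WW c22 u))), qq gb2 u) := by
    intro u
    rw [vv_coord (gb := gb2) (c1 := c21) (c2 := c22) (fun b => rfl)]; rfl
  have hphz : ∀ c : VV, (ph (zc c)).h = 0 ∧ (ph (zc c)).p = 0 := by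
    intro c
    constructor
    · show Run7.h459.hM M (m ^ (M + 1)) (0 : ℤ →₀ ℤ) = 0
      exact map_zero _
    · show ((0 : ℤ) : ZMod (2 * 11 ^ M)) = 0
      simp
  have hval : ∀ u : List (Al ts2), (vl (WW c21 u)).h = 0 → (vl (WW c21 u)).p = 0 →
      (vl (WW c22 u)).h = 0 → (vl (WW c22 u)).p = 0 →
      vv (hh gb2) u = cc (Multiplicative.ofAdd (vl (WW c21 u)).c,
        Multiplicative.ofAdd (vl (WW c22 u)).c, qq gb2 u) := by
    intro u h1 h2 h3 h4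
    rw [vv_coord (gb := gb2) (c1 := c21) (c2 := c22) (fun b => rfl)]
    show _ = ((zc (vl (WW c21 u)).c, zc (vl (WW c22 u)).c), qq gb2 u)
    rw [← ga_zc h1 h2, ← ga_zc h3 h4]
  obtain ⟨k, ρ, hρ⟩ := abs_E (α := Al ts2) (H := HH) (Q := Q) (C := CC) CC_center (hh gb2)
    (fun t => (letHh (ts := ts2) gbH2).inv t) Φ ((D0 m hm).map cc)
    (by rintro _ ⟨x, _, rfl⟩; exact ⟨x, rfl⟩) Λ
    (by
      rintro u hu _ ⟨⟨a, b, q⟩, rfl⟩ heq
      rw [hΦ] at heq
      have e1 : ph (vl (WW c21 u)) = ph (zc a.toAdd) := congrArg (fun x : Q => x.1.1) heq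
      have e2 : ph (vl (WW c22 u)) = ph (zc b.toAdd) := congrArg (fun x : Q => x.1.2) heq
      have hBu := hM u hu
      obtain ⟨g1, g2, _, _⟩ := hB u M (m ^ (M + 1)) hme hBu (hBu.trans hMe)
      obtain ⟨f1, f2⟩ := g1 (by rw [show phi M m (m ^ (M + 1)) hme hm (vl (WW c21 u)) = _ from e1]; exact (hphz _).1)
        (by rw [show phi M m (m ^ (M + 1)) hme hm (vl (WW c21 u)) = _ from e1]; exact (hphz _).2)
      obtain ⟨f3, f4⟩ := g2 (by rw [show phi M m (m ^ (M + 1)) hme hm (vl (WW c22 u)) = _ from e2]; exact (hphz _).1)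
        (by rw [show phi M m (m ^ (M + 1)) hme hm (vl (WW c22 u)) = _ from e2]; exact (hphz _).2)
      exact ⟨_, (hval u f1 f2 f3 f4).symm⟩)
    (by
      intro u hu heq
      rw [hΦ] at heq
      have e1 : ph (vl (WW c21 u)) = 1 := congrArg (fun x : Q => x.1.1) heq
      have e2 : ph (vl (WW c22 u)) = 1 := congrArg (fun x : Q => x.1.2) heq
      have e3 : qq gb2 u = 1 := congrArg (fun x : Q => x.2) heq
      have hBu := hM u hu
      obtain ⟨g1, g2, g3, g4⟩ := hB u M (m ^ (M + 1)) hme hBu (hBu.trans hMe)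
      have e1' : phi M m (m ^ (M + 1)) hme hm (vl (WW c21 u)) = 1 := e1
      have e2' : phi M m (m ^ (M + 1)) hme hm (vl (WW c22 u)) = 1 := e2
      obtain ⟨f1, f2⟩ := g1 (by rw [e1']; rfl) (by rw [e1']; rfl)
      obtain ⟨f3, f4⟩ := g2 (by rw [e2']; rfl) (by rw [e2']; rfl)
      refine ⟨(Multiplicative.ofAdd (vl (WW c21 u)).c,
        Multiplicative.ofAdd (vl (WW c22 u)).c, qq gb2 u), ⟨?_, ?_, e3⟩, (hval u f1 f2 f3 f4).symm⟩
      · exact g3 (by rw [e1']; rfl)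
      · exact g4 (by rw [e2']; rfl))
  refine ⟨Q × Fin (2 ^ k), inferInstance, ⟨((1, 1), 1), ⟨0, by positivity⟩⟩, ρ, ?_, ?_⟩
  · intro p hp hdvd
    rw [← Nat.card_eq_fintype_card, Nat.card_prod, Nat.card_prod, Nat.card_prod, hcardG,
      Nat.card_fin] at hdvd
    have hQQ : Nat.card QQ = 2 ^ 7 := by
      show Nat.card (Multiplicative (Fin 7 → ZMod 2)) = 2 ^ 7
      rw [Nat.card_congr (Multiplicative.toAdd (α := Fin 7 → ZMod 2)), Nat.card_fun]
      simp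
    rw [hQQ] at hdvd
    have h2 : p ∣ 2 → p ∣ m ∨ p = 2 ∨ p = 11 := fun h =>
      Or.inr (Or.inl ((Nat.prime_dvd_prime_iff_eq hp Nat.prime_two).1 h))
    have h11 : p ∣ 11 → p ∣ m ∨ p = 2 ∨ p = 11 := fun h =>
      Or.inr (Or.inr ((Nat.prime_dvd_prime_iff_eq hp (by norm_num)).1 h))
    have hG : p ∣ (m ^ (M + 1)) ^ (2 * 11 ^ M) * (m ^ M * (2 * 11 ^ M)) → p ∣ m ∨ p = 2 ∨ p = 11 := by
      intro h
      rcases hp.dvd_mul.1 h with h | h
      · exact Or.inl (hp.dvd_of_dvd_pow (hp.dvd_of_dvd_pow h))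
      rcases hp.dvd_mul.1 h with h | h
      · exact Or.inl (hp.dvd_of_dvd_pow h)
      rcases hp.dvd_mul.1 h with h | h
      · exact h2 h
      · exact h11 (hp.dvd_of_dvd_pow h)
    rcases hp.dvd_mul.1 hdvd with h | h
    · rcases hp.dvd_mul.1 h with h | h
      · rcases hp.dvd_mul.1 h with h | h
        · exact hG h
        · exact hG h
      · exact h2 (hp.dvd_of_dvd_pow h)
    · exact h2 (hp.dvd_of_dvd_pow h)
  · intro w hw r hr
    obtain ⟨_, ⟨x, hx, rfl⟩, h2⟩ := hρ w hw r hr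
    exact ⟨x, hx, h2⟩

end Run7.h459
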