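import Pool.Agent.Run7.h459.S2g

set_option linter.unusedSectionVars false

/-! The group and its two generating sets. -/

namespace Run7.h459

open Finset

/-- subgroups containing all the coordinate generators -/
structure GoodS (G : Subgroup (TG HH CC)) : Prop where
  a1 : ∀ t : Lt, (SemidirectProduct.inr ((lt t, 1), 1) : TG HH CC) ∈ G
  a2 : ∀ t : Lt, (SemidirectProduct.inr ((1, lt t), 1) : TG HH CC) ∈ G
  a3 : ∀ l, (SemidirectProduct.inr (1, el l) : TG HH CC) ∈ G
  a4 : (tau : TG HH CC) ∈ G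

theorem gen_coord {G : Subgroup (TG HH CC)} (j : Ga →* TG HH CC)
    (h : ∀ b : Bool, j (lt (b, 0)) ∈ G ∧ j (lt (b, 1)) ∈ G) (t : Lt) : j (lt t) ∈ G := by
  rw [lt_form t, map_mul, map_zpow]
  refine mul_mem (zpow_mem ?_ _) (h _).1
  unfold xi
  rw [map_mul]
  exact mul_mem (h _).2 (h _).1

theorem GoodS.w1 {G : Subgroup (TG HH CC)} (hG : GoodS G) (w : List Lt) :
    (SemidirectProduct.inr ((vl w, 1), 1) : TG HH CC) ∈ G := by
  induction w with
  | nil => exact one_mem _
  | cons t w ih =>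
    have : (SemidirectProduct.inr ((vl (t :: w), 1), 1) : TG HH CC) =
        SemidirectProduct.inr ((lt t, 1), 1) * SemidirectProduct.inr ((vl w, 1), 1) := by
      rw [← map_mul]; simp
    rw [this]
    exact mul_mem (hG.a1 t) ih

theorem GoodS.w2 {G : Subgroup (TG HH CC)} (hG : GoodS G) (w : List Lt) :
    (SemidirectProduct.inr ((1, vl w), 1) : TG HH CC) ∈ G := by
  induction w with
  | nil => exact one_mem _
  | cons t w ih =>
    have : (SemidirectProduct.inr ((1, vl (t :: w)), 1) : TG HH CC) =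
        SemidirectProduct.inr ((1, lt t), 1) * SemidirectProduct.inr ((1, vl w), 1) := by
      rw [← map_mul]; simp
    rw [this]
    exact mul_mem (hG.a2 t) ih

section
variable {B : Type} [Fintype B] [DecidableEq B] {ts : B → Fin 7 → Bool} {gb : B → PP}
  {c1 c2 : B → List Lt}

theorem GoodS.le {G : Subgroup (TG HH CC)} (hG : GoodS G)
    (hgb : ∀ b, gb b = (vl (c1 b), vl (c2 b))) (o : Option (Al ts)) :
    (v1 (hh gb) o : TG HH CC) ∈ G := by
  cases o with
  | none => exact hG.a4
  | some a =>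
    show (SemidirectProduct.inr (hh gb a) : TG HH CC) ∈ G
    have key : ∀ q : QQ, (SemidirectProduct.inr (1, q) : TG HH CC) ∈ G →
        (SemidirectProduct.inr ((vl (kk c1 a), vl (kk c2 a)), q) : TG HH CC) ∈ G := by
      intro q hq
      have : (SemidirectProduct.inr ((vl (kk c1 a), vl (kk c2 a)), q) : TG HH CC) =
          SemidirectProduct.inr ((vl (kk c1 a), 1), 1) *
          (SemidirectProduct.inr ((1, vl (kk c2 a)), 1) * SemidirectProduct.inr (1, q)) := by
        rw [← map_mul, ← map_mul]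
        congr 1
        rw [Prod.ext_iff, Prod.ext_iff]
        simp
      rw [this]
      exact mul_mem (hG.w1 _) (mul_mem (hG.w2 _) hq)
    rw [hh_coord hgb a]
    apply key
    rcases al_cases a with ⟨l, rfl⟩ | ⟨b, rfl⟩ | ⟨b, l, h, rfl⟩
    · exact hG.a3 l
    · exact one_mem _
    · exact hG.a3 l

end

noncomputable def j1 : Ga →* TG HH CC :=
  (SemidirectProduct.inr : HH →* TG HH CC).comp ((MonoidHom.inl PP QQ).comp (MonoidHom.inl Ga Ga))
noncomputable def j2 : Ga →* TG HH CC :=
  (SemidirectProduct.inr : HH →* TG HH CC).comp ((MonoidHom.inl PP QQ).comp (MonoidHom.inr Ga Ga))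

theorem good1 : GoodS (Subgroup.closure (Set.range val1)) := by
  have hmem : ∀ o, val1 o ∈ Subgroup.closure (Set.range val1) := fun o =>
    Subgroup.subset_closure ⟨o, rfl⟩
  have hs : ∀ s : Fin 7, j1 (lt (tl1 s)) ∈ Subgroup.closure (Set.range val1) := by
    intro s
    have h1 := hmem (some (ba (s, none)))
    have h2 : val1 (some (ba (s, none))) = j1 (lt (tl1 s)) := by
      show SemidirectProduct.inr (gb1 (s, none), 1) = _
      unfold gb1 c11 c12
      rw [vl_cons, vl_nil, mul_one]; rfl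
    rwa [h2] at h1
  have hs' : ∀ s : Fin 7, j2 (lt (tl1 s)) ∈ Subgroup.closure (Set.range val1) := by
    intro s
    have h1 := mul_mem (hmem (some (ba (0, some s)))) (hmem (some (ba (0, none))))
    have h2 : val1 (some (ba (0, some s))) * val1 (some (ba (0, none))) = j2 (lt (tl1 s)) := by
      show SemidirectProduct.inr (gb1 (0, some s), 1) * SemidirectProduct.inr (gb1 (0, none), 1) = _
      rw [← map_mul]
      unfold gb1 c11 c12
      simp only [vl_cons, vl_nil, mul_one, Prod.mk_mul_mk, lt_inv]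
      rfl
    rwa [h2] at h1
  refine ⟨?_, ?_, ?_, ?_⟩
  · exact gen_coord j1 (fun b => by
      cases b
      · exact ⟨hs 0, hs 1⟩
      · exact ⟨hs 2, hs 3⟩)
  · exact gen_coord j2 (fun b => by
      cases b
      · exact ⟨hs' 0, hs' 1⟩
      · exact ⟨hs' 2, hs' 3⟩)
  · exact fun l => hmem (some (pu l))
  · exact hmem none

theorem good2 : GoodS (Subgroup.closure (Set.range val2)) := by
  have hmem : ∀ o, val2 o ∈ Subgroup.closure (Set.range val2) := fun o =>
    Subgroup.subset_closure ⟨o, rfl⟩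
  have hs : ∀ s : Fin 6, j1 (lt (tl2 s)) ∈ Subgroup.closure (Set.range val2) := by
    intro s
    have h1 := hmem (some (ba (false, s)))
    have h2 : val2 (some (ba (false, s))) = j1 (lt (tl2 s)) := by
      show SemidirectProduct.inr (gb2 (false, s), 1) = _
      rw [gb2_f]; rfl
    rwa [h2] at h1
  have hs' : ∀ s : Fin 6, j2 (lt (tl2 s)) ∈ Subgroup.closure (Set.range val2) := by
    intro s
    have h1 := hmem (some (ba (true, s)))
    have h2 : val2 (some (ba (true, s))) = j2 (lt (tl2 s)) := by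
      show SemidirectProduct.inr (gb2 (true, s), 1) = _
      rw [gb2_t]; rfl
    rwa [h2] at h1
  refine ⟨?_, ?_, ?_, ?_⟩
  · exact gen_coord j1 (fun b => by
      cases b
      · exact ⟨hs 0, hs 1⟩
      · exact ⟨hs 3, hs 4⟩)
  · exact gen_coord j2 (fun b => by
      cases b
      · exact ⟨hs' 0, hs' 1⟩
      · exact ⟨hs' 3, hs' 4⟩)
  · exact fun l => hmem (some (pu l))
  · exact hmem none

/-- the group -/
noncomputable def GG : Subgroup (TG HH CC) := Subgroup.closure (Set.range val2)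

theorem closure_eq : Subgroup.closure (Set.range val1) = GG := by
  apply le_antisymm
  · rw [Subgroup.closure_le]
    rintro _ ⟨o, rfl⟩
    exact GoodS.le (c1 := c11) (c2 := c12) good2 (fun b => rfl) o
  · unfold GG
    rw [Subgroup.closure_le]
    rintro _ ⟨o, rfl⟩
    exact GoodS.le (c1 := c21) (c2 := c22) good1 (fun b => rfl) o

theorem val1_mem (o : Option (Al ts1)) : val1 o ∈ GG := by
  rw [← closure_eq]; exact Subgroup.subset_closure ⟨o, rfl⟩
theorem val2_mem (o : Option (Al ts2)) : val2 o ∈ GG := Subgroup.subset_closure ⟨o, rfl⟩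

noncomputable def s1 (o : Option (Al ts1)) : GG := ⟨val1 o, val1_mem o⟩
noncomputable def s2 (o : Option (Al ts2)) : GG := ⟨val2 o, val2_mem o⟩

section
variable {Γ T : Type} [Group Γ] {G : Subgroup Γ}

theorem LetH_sub {val : T → Γ} (H : LetH val) (h : ∀ t, val t ∈ G) :
    LetH (fun t => (⟨val t, h t⟩ : G)) where
  inj := fun _ _ hst => H.inj (congrArg Subtype.val hst)
  inv := fun t => Subtype.ext (H.inv t)
  ne := fun t ht => H.ne t (congrArg Subtype.val ht)

theorem Rig_sub {val : T → Γ} (H : Rig val) (h : ∀ t, val t ∈ G) :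
    Rig (fun t => (⟨val t, h t⟩ : G)) := by
  have hlk : ∀ s t, lk (fun t => (⟨val t, h t⟩ : G)) s t ↔ lk val s t := by
    intro s t
    unfold lk
    apply exists_congr
    intro u
    rw [Subtype.ext_iff]; rfl
  intro θ hθ h2
  apply H θ hθ
  intro s t
  rw [← hlk, ← hlk]
  exact h2 s t

theorem closure_sub {val : T → Γ} (h : ∀ t, val t ∈ G) (hG : Subgroup.closure (Set.range val) = G) :
    Subgroup.closure (Set.range (fun t => (⟨val t, h t⟩ : G))) = ⊤ := by
  apply Subgroup.map_injective (f := G.subtype) G.subtype_injective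
  rw [MonoidHom.map_closure, ← Set.range_comp]
  have : (G.subtype ∘ fun t => (⟨val t, h t⟩ : G)) = val := rfl
  rw [this, hG, ← MonoidHom.range_eq_map, Subgroup.range_subtype]

theorem Lcl_sub {val : T → Γ} {X : Type} (h : ∀ t, val t ∈ G) {Λ : ℕ} (π : T → Equiv.Perm X) :
    Lcl (fun t => (⟨val t, h t⟩ : G)) Λ π ↔ Lcl val Λ π :=
  Lcl_map G.subtype G.subtype_injective π

theorem vv_sub {val : T → Γ} (h : ∀ t, val t ∈ G) (w : List T) :
    ((vv (fun t => (⟨val t, h t⟩ : G)) w : G) : Γ) = vv val w := by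
  induction w with
  | nil => rfl
  | cons t w ih => rw [vv_cons, vv_cons, ← ih]; rfl

theorem exists_word {val : T → Γ} (H : LetH val) {g : Γ} (hg : g ∈ Subgroup.closure (Set.range val)) :
    ∃ w : List T, vv val w = g := by
  induction hg using Subgroup.closure_induction with
  | mem x hx =>
    obtain ⟨t, rfl⟩ := hx
    exact ⟨[t], by simp⟩
  | one => exact ⟨[], rfl⟩
  | mul x y _ _ hx hy =>
    obtain ⟨u, rfl⟩ := hx
    obtain ⟨w, rfl⟩ := hy
    exact ⟨u ++ w, vv_append _ _ _⟩
  | inv x _ hx =>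
    obtain ⟨u, rfl⟩ := hx
    exact ⟨u.reverse, vv_reverse H u⟩

end

theorem rf_GG : Group.ResiduallyFinite GG := by
  apply Group.residuallyFinite_of_forall_exists_finite_monoidHom.{0}
  rintro ⟨g, hg⟩ hne
  obtain ⟨w, rfl⟩ := exists_word letH2 hg
  obtain ⟨R, _, hR, ρ, _, hρ⟩ := E_lemma w.length 15 (dvd_refl 15) (by norm_num)
  refine ⟨Equiv.Perm R, inferInstance, inferInstance, ρ.comp GG.subtype, ?_⟩
  intro h1
  have h2 : ρ (vt (hh gb2) w) = 1 := h1
  have hev : evp (fun a => ρ (val2 a)) w = ρ (vt (hh gb2) w) := by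
    clear hne h1 h2 hρ hg
    induction w with
    | nil => simp [vt_nil]
    | cons b w ih => rw [evp_cons, ih, vt_cons, map_mul ρ]
  obtain ⟨r⟩ := hR
  obtain ⟨⟨x1, x2, x3⟩, ⟨g1, g2, g3⟩, h4⟩ := hρ w (le_refl _) r (by rw [hev, h2]; rfl)
  apply hne
  apply Subtype.ext
  show (vt (hh gb2) w : TG HH CC) = 1
  rw [h4]
  have hc : ∀ y : ZMod 15, ZMod.castHom (dvd_refl 15) (ZMod 15) y = 0 → y = 0 := by
    intro y hy
    rwa [ZMod.castHom_self] at hy
  have hx : ((x1, x2, x3) : MV × MV × QQ) = 1 := by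
    rw [Prod.ext_iff]
    refine ⟨funext fun j => hc _ (g1 j), ?_⟩
    rw [Prod.ext_iff]
    exact ⟨funext fun j => hc _ (g2 j), g3⟩
  rw [hx, map_one, map_one]

theorem inf_GG : Infinite GG := by
  have hmem : ∀ n : ℕ, j1 ((lt (false, 0) * lt (true, 0)) ^ n) ∈ GG := by
    intro n
    rw [map_pow, map_mul]
    exact pow_mem (mul_mem (good2.a1 _) (good2.a1 _)) n
  have hp : ∀ n : ℕ, ((lt (false, 0) * lt (true, 0)) ^ n).p = 2 * (n : ℤ) := by
    intro n
    induction n with
    | zero => simp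
    | succ n ih =>
      rw [pow_succ]
      show Da.ac ((lt (false, 0) * lt (true, 0)) ^ n).p (lt (false, 0) * lt (true, 0)).p = _
      rw [ih, ac_even (by omega)]
      have : (lt (false, 0) * lt (true, 0)).p = 2 := by
        show Da.ac 1 (-1) = 2
        rw [ac_odd (by norm_num)]; norm_num
      rw [this]; push_cast; ring
  apply Infinite.of_injective (fun n : ℕ => (⟨_, hmem n⟩ : GG))
  intro n m h
  have h1 : j1 ((lt (false, 0) * lt (true, 0)) ^ n) = j1 ((lt (false, 0) * lt (true, 0)) ^ m) :=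
    congrArg Subtype.val h
  have h2 : ((lt (false, 0) * lt (true, 0)) ^ n) = ((lt (false, 0) * lt (true, 0)) ^ m) :=
    congrArg (fun x : TG HH CC => x.right.1.1) h1
  have h3 := congrArg LG.p h2
  rw [hp, hp] at h3
  omega

theorem lcl_g1 {X : Type} {Λ : ℕ} (π : Option (Al ts1) → Equiv.Perm X) :
    Lcl s1 Λ π ↔ Lcl val1 Λ π := Lcl_sub val1_mem π

theorem lcl_g2 {X : Type} {Λ : ℕ} (π : Option (Al ts2) → Equiv.Perm X) :
    Lcl s2 Λ π ↔ Lcl val2 Λ π := Lcl_sub val2_mem π

theorem odd1 {r : ℕ} (hr : 2 ≤ r) (X : Type) (π : Option (Al ts1) → Equiv.Perm X)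
    (h : Lcl s1 (2 * r) π) (w : List (Option (Al ts1))) (hw : w.length = 2 * r + 1)
    (hv : vv s1 w = 1) : evp π w = 1 := by
  refine odd_lemma (ts := ts1) gbH1 π hr ((lcl_g1 π).1 h) w hw ?_
  have h1 : ((vv s1 w : GG) : TG HH CC) = vv val1 w := vv_sub val1_mem w
  rw [hv] at h1
  exact h1.symm

theorem odd2 {r : ℕ} (hr : 2 ≤ r) (X : Type) (π : Option (Al ts2) → Equiv.Perm X)
    (h : Lcl s2 (2 * r) π) (w : List (Option (Al ts2))) (hw : w.length = 2 * r + 1)
    (hv : vv s2 w = 1) : evp π w = 1 := by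
  refine odd_lemma (ts := ts2) gbH2 π hr ((lcl_g2 π).1 h) w hw ?_
  have h1 : ((vv s2 w : GG) : TG HH CC) = vv val2 w := vv_sub val2_mem w
  rw [hv] at h1
  exact h1.symm

theorem letG1 : LetH s1 := LetH_sub letH1 val1_mem
theorem letG2 : LetH s2 := LetH_sub letH2 val2_mem
theorem rigG1 : Rig s1 := Rig_sub rig1 val1_mem
theorem rigG2 : Rig s2 := Rig_sub rig2 val2_mem
theorem clG1 : Subgroup.closure (Set.range s1) = ⊤ := closure_sub val1_mem closure_eq
theorem clG2 : Subgroup.closure (Set.range s2) = ⊤ := closure_sub val2_mem rfl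

end Run7.h459
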