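import Pool.Agent.Run7.h459.PL2

set_option linter.unusedSectionVars false

/-! Product formula for words in a group with involutive letters. -/

namespace Run7.h459

variable {G : Type*} [Group G] (Θ : Lt → G)

theorem tp_succ (p : ℤ) : tp (p + 1) = !tp p := by
  unfold tp
  rcases Int.emod_two_eq_zero_or_one p with h | h
  · have : (p + 1) % 2 = 1 := by omega
    simp [h, this]
  · have : (p + 1) % 2 = 0 := by omega
    simp [h, this]

theorem tp_pred (p : ℤ) : tp (p - 1) = !tp p := by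
  have := tp_succ (p - 1)
  rw [sub_add_cancel] at this
  rw [this]; simp

def xi (b : Bool) : G := Θ (b, 1) * Θ (b, 0)

def Pp (p : ℤ) : G := (Θ (false, 0) * Θ (true, 0)) ^ (p / 2) * (if tp p then Θ (false, 0) else 1)

def Lk (k : ℤ) : G := Pp Θ k * xi Θ (tp k) * (Pp Θ k)⁻¹

structure OkSys (ok : Lt → Prop) : Prop where
  z : ∀ b, ok (b, 0)
  o : ∀ b, ok (b, 1)
  inv : ∀ t, ok t → Θ t * Θ t = 1
  form : ∀ t, ok t → Θ t = xi Θ t.1 ^ t.2 * Θ (t.1, 0)

theorem Pp_zero : Pp Θ 0 = 1 := by simp [Pp, tp]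

variable {Θ}
theorem Pp_succ (_h : ∀ b, Θ (b, 0) * Θ (b, 0) = 1) (p : ℤ) :
    Pp Θ (p + 1) = Pp Θ p * Θ (tp p, 0) := by
  unfold Pp
  rcases Int.emod_two_eq_zero_or_one p with hp | hp
  · have h1 : tp p = false := by simp [tp, hp]
    have h2 : (p + 1) / 2 = p / 2 := by omega
    rw [tp_succ, h1, h2]; simp
  · have h1 : tp p = true := by simp [tp, hp]
    have h2 : (p + 1) / 2 = p / 2 + 1 := by omega
    rw [tp_succ, h1, h2, zpow_add_one]; simp [mul_assoc]

theorem Pp_pred (h : ∀ b, Θ (b, 0) * Θ (b, 0) = 1) (p : ℤ) :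
    Pp Θ (p - 1) = Pp Θ p * Θ (!tp p, 0) := by
  have h1 := Pp_succ h (p - 1)
  rw [sub_add_cancel, tp_pred] at h1
  rw [h1, mul_assoc, h, mul_one]

theorem step_formula {ok : Lt → Prop} (hs : OkSys Θ ok) (p : ℤ) (t : Lt) (ht : ok t) :
    Pp Θ p * Θ t = Lk Θ (eg p t) ^ am p t * Pp Θ (nx p t) := by
  have h0 : ∀ b, Θ (b, 0) * Θ (b, 0) = 1 := fun b => hs.inv _ (hs.z b)
  have h1 : ∀ b, Θ (b, 1) * Θ (b, 1) = 1 := fun b => hs.inv _ (hs.o b)
  have hxi : ∀ b, Θ (b, 0) * xi Θ b * (Θ (b, 0))⁻¹ = (xi Θ b)⁻¹ := by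
    intro b
    unfold xi
    rw [mul_inv_rev, inv_eq_of_mul_eq_one_right (h0 b), inv_eq_of_mul_eq_one_right (h1 b)]
    calc Θ (b, 0) * (Θ (b, 1) * Θ (b, 0)) * Θ (b, 0)
        = Θ (b, 0) * Θ (b, 1) * (Θ (b, 0) * Θ (b, 0)) := by group
      _ = Θ (b, 0) * Θ (b, 1) := by rw [h0, mul_one]
  rw [hs.form t ht]
  by_cases htp : t.1 = tp p
  · have e1 : eg p t = p := if_pos htp
    have e2 : am p t = t.2 := if_pos htp
    have e3 : nx p t = p + 1 := if_pos htp
    rw [e1, e2, e3, Pp_succ h0]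
    unfold Lk
    rw [conj_zpow, htp]
    group
  · have htp' : t.1 = !tp p := by
      cases h : t.1 <;> cases h' : tp p <;> simp_all
    have e1 : eg p t = p - 1 := if_neg htp
    have e2 : am p t = - t.2 := if_neg htp
    have e3 : nx p t = p - 1 := if_neg htp
    rw [e1, e2, e3]
    unfold Lk
    rw [conj_zpow, tp_pred, ← htp', Pp_pred h0, ← htp']
    have h2 : Θ (t.1, 0) * xi Θ t.1 ^ (-t.2) * (Θ (t.1, 0))⁻¹ = xi Θ t.1 ^ t.2 := by
      rw [← conj_zpow, hxi, inv_zpow', neg_neg]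
    have h3 : (Θ (t.1, 0))⁻¹ = Θ (t.1, 0) := inv_eq_of_mul_eq_one_right (h0 _)
    calc Pp Θ p * (xi Θ t.1 ^ t.2 * Θ (t.1, 0))
        = Pp Θ p * (Θ (t.1, 0) * xi Θ t.1 ^ (-t.2) * (Θ (t.1, 0))⁻¹) * Θ (t.1, 0) := by
          rw [h2]; group
      _ = _ := by group

theorem product_formula {ok : Lt → Prop} (hs : OkSys Θ ok) (p : ℤ) (w : List Lt)
    (hw : ∀ t ∈ w, ok t) :
    Pp Θ p * (w.map Θ).prod = pr (Lk Θ) (tog p w) * Pp Θ (endp p w) := by
  induction w generalizing p with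
  | nil => simp [tog, endp]
  | cons t w ih =>
    rw [List.map_cons, List.prod_cons, ← mul_assoc, step_formula hs p t (hw t (by simp)),
      mul_assoc, ih (nx p t) (fun s hs => hw s (by simp [hs]))]
    simp [tog, endp, mul_assoc]

/-- reversed words -/
theorem prod_reverse_inv {α : Type*} (f : α → G) (w : List α) (h : ∀ t ∈ w, f t * f t = 1) :
    (w.reverse.map f).prod = ((w.map f).prod)⁻¹ := by
  induction w with
  | nil => simp
  | cons t w ih =>
    rw [List.reverse_cons, List.map_append, List.prod_append, ih (fun s hs => h s (by simp [hs]))]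
    simp only [List.map_cons, List.prod_cons, List.map_nil, List.prod_nil, mul_one, mul_inv_rev]
    rw [inv_eq_of_mul_eq_one_right (h t (by simp))]

/-! Passes. -/

/-- right pass from position `p` -/
def rp (f : ℤ → ℤ) : ℤ → ℕ → List Lt
  | _, 0 => []
  | p, n + 1 => (tp p, f p) :: rp f (p + 1) n

/-- left pass from position `p` -/
def lp (f : ℤ → ℤ) : ℤ → ℕ → List Lt
  | _, 0 => []
  | p, n + 1 => (tp (p - 1), f (p - 1)) :: lp f (p - 1) n

@[simp] theorem rp_length (f : ℤ → ℤ) (p : ℤ) (n : ℕ) : (rp f p n).length = n := by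
  induction n generalizing p with
  | zero => rfl
  | succ n ih => simp [rp, ih]

@[simp] theorem lp_length (f : ℤ → ℤ) (p : ℤ) (n : ℕ) : (lp f p n).length = n := by
  induction n generalizing p with
  | zero => rfl
  | succ n ih => simp [lp, ih]

theorem rp_add (f : ℤ → ℤ) (p : ℤ) (m n : ℕ) : rp f p (m + n) = rp f p m ++ rp f (p + m) n := by
  induction m generalizing p with
  | zero => simp [rp]
  | succ m ih =>
    rw [show m + 1 + n = (m + n) + 1 by ring, rp, ih]
    simp [rp]; ring_nf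

theorem lp_add (f : ℤ → ℤ) (p : ℤ) (m n : ℕ) : lp f p (m + n) = lp f p m ++ lp f (p - m) n := by
  induction m generalizing p with
  | zero => simp [lp]
  | succ m ih =>
    rw [show m + 1 + n = (m + n) + 1 by ring, lp, ih]
    simp [lp]; ring_nf

theorem nx_rp (p a : ℤ) : nx p (tp p, a) = p + 1 := if_pos rfl
theorem eg_rp (p a : ℤ) : eg p (tp p, a) = p := if_pos rfl
theorem am_rp (p a : ℤ) : am p (tp p, a) = a := if_pos rfl
theorem tp_pred_ne (p : ℤ) : ¬ tp (p - 1) = tp p := by rw [tp_pred]; cases tp p <;> simp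
theorem nx_lp (p a : ℤ) : nx p (tp (p - 1), a) = p - 1 := if_neg (tp_pred_ne p)
theorem eg_lp (p a : ℤ) : eg p (tp (p - 1), a) = p - 1 := if_neg (tp_pred_ne p)
theorem am_lp (p a : ℤ) : am p (tp (p - 1), a) = -a := if_neg (tp_pred_ne p)

@[simp] theorem endp_rp (f : ℤ → ℤ) (p : ℤ) (n : ℕ) : endp p (rp f p n) = p + n := by
  induction n generalizing p with
  | zero => simp [rp, endp]
  | succ n ih => rw [rp, endp, nx_rp, ih]; push_cast; ring

@[simp] theorem endp_lp (f : ℤ → ℤ) (p : ℤ) (n : ℕ) : endp p (lp f p n) = p - n := by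
  induction n generalizing p with
  | zero => simp [lp, endp]
  | succ n ih => rw [lp, endp, nx_lp, ih]; push_cast; ring

theorem mem_tog_rp {f : ℤ → ℤ} {p : ℤ} {n : ℕ} {x : ℤ × ℤ} (h : x ∈ tog p (rp f p n)) :
    p ≤ x.1 ∧ x.1 < p + n ∧ x.2 = f x.1 := by
  induction n generalizing p with
  | zero => simp [rp, tog] at h
  | succ n ih =>
    rw [rp, tog, nx_rp, eg_rp, am_rp, List.mem_cons] at h
    rcases h with h | h
    · subst h; refine ⟨le_refl _, ?_, rfl⟩; push_cast; omega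
    · obtain ⟨h1, h2, h3⟩ := ih h
      exact ⟨by omega, by push_cast; omega, h3⟩

theorem mem_tog_lp {f : ℤ → ℤ} {p : ℤ} {n : ℕ} {x : ℤ × ℤ} (h : x ∈ tog p (lp f p n)) :
    p - n ≤ x.1 ∧ x.1 < p ∧ x.2 = - f x.1 := by
  induction n generalizing p with
  | zero => simp [lp, tog] at h
  | succ n ih =>
    rw [lp, tog, nx_lp, eg_lp, am_lp, List.mem_cons] at h
    rcases h with h | h
    · subst h; refine ⟨?_, by simp, rfl⟩; push_cast; omega
    · obtain ⟨h1, h2, h3⟩ := ih h
      exact ⟨by push_cast; omega, by omega, h3⟩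

theorem pr_one_of {L : ℤ → G} {l : List (ℤ × ℤ)} (h : ∀ x ∈ l, x.2 = 0) : pr L l = 1 := by
  induction l with
  | nil => rfl
  | cons x l ih => rw [pr_cons, h x (by simp), ih (fun y hy => h y (by simp [hy]))]; simp

/-- a right pass with at most one toggle -/
theorem pr_rp_single (L : ℤ → G) (f : ℤ → ℤ) (p k : ℤ) (n : ℕ) (h1 : p ≤ k) (h2 : k < p + n)
    (h : ∀ j, j ≠ k → p ≤ j → j < p + n → f j = 0) : pr L (tog p (rp f p n)) = L k ^ f k := by
  induction n generalizing p with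
  | zero => simp at h2; omega
  | succ n ih =>
    rw [rp, tog, nx_rp, eg_rp, am_rp, pr_cons]
    by_cases hk : p = k
    · subst hk
      rw [pr_one_of, mul_one]
      intro x hx
      obtain ⟨j1, j2, j3⟩ := mem_tog_rp hx
      rw [j3]; exact h _ (by omega) (by omega) (by push_cast; omega)
    · rw [ih (p + 1) (by omega) (by push_cast at h2; omega)
        (fun j hj hj1 hj2 => h j hj (by omega) (by push_cast; omega)), h p hk (le_refl _)
        (by push_cast; omega)]
      simp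

theorem pr_rp_zero (L : ℤ → G) (f : ℤ → ℤ) (p : ℤ) (n : ℕ)
    (h : ∀ j, p ≤ j → j < p + n → f j = 0) : pr L (tog p (rp f p n)) = 1 := by
  apply pr_one_of
  intro x hx
  obtain ⟨j1, j2, j3⟩ := mem_tog_rp hx
  rw [j3]; exact h _ (by omega) (by omega)

theorem pr_lp_zero (L : ℤ → G) (f : ℤ → ℤ) (p : ℤ) (n : ℕ)
    (h : ∀ j, p - n ≤ j → j < p → f j = 0) : pr L (tog p (lp f p n)) = 1 := by
  apply pr_one_of
  intro x hx
  obtain ⟨j1, j2, j3⟩ := mem_tog_lp hx
  rw [j3, h _ (by omega) (by omega), neg_zero]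

/-- a left pass with at most one toggle -/
theorem pr_lp_single (L : ℤ → G) (f : ℤ → ℤ) (p k : ℤ) (n : ℕ) (h1 : p - n ≤ k) (h2 : k < p)
    (h : ∀ j, j ≠ k → p - n ≤ j → j < p → f j = 0) :
    pr L (tog p (lp f p n)) = L k ^ (- f k) := by
  induction n generalizing p with
  | zero => simp at h1; omega
  | succ n ih =>
    rw [lp, tog, nx_lp, eg_lp, am_lp, pr_cons]
    by_cases hk : p - 1 = k
    · subst hk
      rw [pr_one_of, mul_one]
      intro x hx
      obtain ⟨j1, j2, j3⟩ := mem_tog_lp hx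
      rw [j3, h _ (by omega) (by push_cast; omega) (by omega), neg_zero]
    · rw [ih (p - 1) (by push_cast at h1; omega) (by omega)
        (fun j hj hj1 hj2 => h j hj (by push_cast; omega) (by omega)), h (p - 1) hk
        (by push_cast; omega) (by omega)]
      simp

end Run7.h459
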