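import Pool.Agent.Run7.h459.LG
import Pool.Agent.Run7.h459.WG

set_option linter.unusedSectionVars false

/-! The concrete group. -/

namespace Run7.h459

open scoped commutatorElement

abbrev VV := ℕ → ZMod 15

/-- `11`-adic valuation indicator -/
def zet (m : ℕ) (k : ℤ) : ℕ → ZMod m :=
  fun j => if (11 : ℤ) ^ j ∣ k ∧ ¬ (11 : ℤ) ^ (j + 1) ∣ k then 1 else 0

def Da : Dat ℤ VV where
  ε := Int.castRingHom (ZMod 2)
  ζ := zet 15
  hζ := fun x => by funext j; simp [zet]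

abbrev Ga := LG Da ℤ

theorem eps_even {p : ℤ} (h : p % 2 = 0) : Da.ε p = 0 := by
  show ((p : ℤ) : ZMod 2) = 0
  rw [ZMod.intCast_zmod_eq_zero_iff_dvd]
  omega

theorem eps_odd {p : ℤ} (h : p % 2 = 1) : Da.ε p = 1 := by
  obtain ⟨k, hk⟩ : ∃ k, p = 2 * k + 1 := ⟨p / 2, by omega⟩
  show ((p : ℤ) : ZMod 2) = 1
  rw [hk]; push_cast
  rw [show (2 : ZMod 2) = 0 from rfl]; simp

theorem eps_odd' {p : ℤ} (h : p % 2 = 1) : ¬ Da.ε p = 0 := by rw [eps_odd h]; decide

theorem ac_even {p : ℤ} (h : p % 2 = 0) (q : ℤ) : Da.ac p q = p + q := if_pos (eps_even h)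
theorem ac_odd {p : ℤ} (h : p % 2 = 1) (q : ℤ) : Da.ac p q = p - q := if_neg (eps_odd' h)
theorem pm_even {p : ℤ} (h : p % 2 = 0) (q : ℤ) : Da.pm p q = q + p := if_pos (eps_even h)
theorem pm_odd {p : ℤ} (h : p % 2 = 1) (q : ℤ) : Da.pm p q = p - 1 - q := if_neg (eps_odd' h)
theorem sg_even {p : ℤ} (h : p % 2 = 0) : Da.sg ℤ p = 1 := if_pos (eps_even h)
theorem sg_odd {p : ℤ} (h : p % 2 = 1) : Da.sg ℤ p = -1 := if_neg (eps_odd' h)

theorem kap_self (k : ℤ) : Da.κ k k = 0 := by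
  unfold Dat.κ
  rw [if_neg]
  rintro ⟨h1, h2⟩
  rw [h1] at h2
  exact absurd h2 (by decide)

/-- the letters -/
noncomputable def lt (t : Lt) : Ga :=
  if t.1 then ⟨Finsupp.single (-1) (-t.2), 0, -1⟩ else ⟨Finsupp.single 0 t.2, 0, 1⟩

theorem lt_f (a : ℤ) : lt (false, a) = ⟨Finsupp.single 0 a, 0, 1⟩ := rfl
theorem lt_t (a : ℤ) : lt (true, a) = ⟨Finsupp.single (-1) (-a), 0, -1⟩ := rfl

theorem mul_mk (h h' : ℤ →₀ ℤ) (c c' : VV) (p p' : ℤ) :
    (⟨h, c, p⟩ * ⟨h', c', p'⟩ : Ga) =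
      ⟨h + Da.A ℤ p h', c + c' + Da.B ℤ h (Da.A ℤ p h'), Da.ac p p'⟩ := rfl

theorem one_mk : (1 : Ga) = ⟨0, 0, 0⟩ := rfl

/-- the lamp generator -/
noncomputable def lam (k a : ℤ) : Ga := ⟨Finsupp.single k a, 0, 0⟩
noncomputable def pos (p : ℤ) : Ga := ⟨0, 0, p⟩
/-- central elements -/
def zc (c : VV) : Ga := ⟨0, c, 0⟩

theorem lam_mul (k a b : ℤ) : lam k a * lam k b = lam k (a + b) := by
  unfold lam
  rw [mul_mk, Da.A_zero, Da.B_single, kap_self, ac_even (by norm_num)]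
  simp [Finsupp.single_add]

theorem lam_zero (k : ℤ) : lam k 0 = 1 := by unfold lam; rw [one_mk]; simp

theorem lam_zpow (k a n : ℤ) : lam k a ^ n = lam k (a * n) := by
  induction n using Int.induction_on with
  | zero => rw [zpow_zero, mul_zero, lam_zero]
  | succ n ih => rw [zpow_add_one, ih, lam_mul]; congr 1; ring
  | pred n ih =>
    rw [zpow_sub_one, ih, mul_inv_eq_iff_eq_mul, lam_mul]; congr 1; ring

theorem zc_add (c c' : VV) : zc (c + c') = zc c * zc c' := by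
  unfold zc
  rw [mul_mk, ac_even (by norm_num)]; simp

theorem zc_zero : zc 0 = 1 := rfl

theorem zc_inj {c c' : VV} (h : zc c = zc c') : c = c' := congrArg LG.c h

theorem zc_neg (c : VV) : zc (-c) = (zc c)⁻¹ := by
  rw [eq_inv_iff_mul_eq_one, ← zc_add, neg_add_cancel, zc_zero]

theorem zc_comm (c : VV) (g : Ga) : zc c * g = g * zc c := by
  apply LG.ext'
  · simp [zc, Da.A_zero]
  · simp [zc, Da.A_zero]; abel
  · show Da.ac 0 g.p = Da.ac g.p 0
    rw [ac_even (by norm_num)]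
    rcases Int.emod_two_eq_zero_or_one g.p with h | h
    · rw [ac_even h]; ring
    · rw [ac_odd h]; ring

theorem lt_inv (t : Lt) : lt t * lt t = 1 := by
  rcases t with ⟨b, a⟩
  cases b
  · rw [lt_f, mul_mk, Da.A_single, pm_odd (by norm_num), sg_odd (by norm_num), ac_odd (by norm_num),
      one_mk]
    have : Da.B ℤ (Finsupp.single (0:ℤ) a) (Finsupp.single (1 - 1 - 0 : ℤ) (-1 * a)) = 0 := by
      rw [Da.B_single]; norm_num [kap_self]
    rw [this]
    simp
  · rw [lt_t, mul_mk, Da.A_single, pm_odd (by norm_num), sg_odd (by norm_num), ac_odd (by norm_num),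
      one_mk]
    have : Da.B ℤ (Finsupp.single (-1:ℤ) (-a)) (Finsupp.single (-1 - 1 - -1 : ℤ) (-1 * -a)) = 0 := by
      rw [Da.B_single]; norm_num [kap_self]
    rw [this]
    simp

theorem xi_f : xi lt false = lam 0 1 := by
  unfold xi lam
  rw [lt_f, lt_f, mul_mk, ac_odd (by norm_num)]
  simp

theorem xi_t : xi lt true = lam (-1) (-1) := by
  unfold xi lam
  rw [lt_t, lt_t, mul_mk, ac_odd (by norm_num)]
  simp

theorem lt_form (t : Lt) : lt t = xi lt t.1 ^ t.2 * lt (t.1, 0) := by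
  rcases t with ⟨b, a⟩
  cases b
  · simp only
    rw [xi_f, lam_zpow, lt_f, lt_f]
    unfold lam
    rw [mul_mk, ac_even (by norm_num)]
    simp
  · simp only
    rw [xi_t, lam_zpow, lt_t, lt_t]
    unfold lam
    rw [mul_mk, ac_even (by norm_num)]
    simp

theorem okGa (ok : Lt → Prop) (hz : ∀ b, ok (b, 0)) (ho : ∀ b, ok (b, 1)) : OkSys lt ok :=
  ⟨hz, ho, fun t _ => lt_inv t, fun t _ => lt_form t⟩

theorem Pp_lt (p : ℤ) : Pp lt p = pos p := by
  have h0 : ∀ b, lt (b, 0) * lt (b, 0) = 1 := fun b => lt_inv _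
  have key : ∀ p : ℤ, pos p * lt (tp p, 0) = pos (p + 1) := by
    intro p
    rcases Int.emod_two_eq_zero_or_one p with h | h
    · rw [show tp p = false by simp [tp, h], lt_f]
      unfold pos
      rw [mul_mk, ac_even h]; simp
    · rw [show tp p = true by simp [tp, h], lt_t]
      unfold pos
      rw [mul_mk, ac_odd h]; simp
  induction p using Int.induction_on with
  | zero => rw [Pp_zero]; rfl
  | succ n ih => rw [Pp_succ h0, ih, key]
  | pred n ih =>
    have := Pp_succ h0 (-(n:ℤ) - 1)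
    rw [sub_add_cancel, ih] at this
    have h2 := key (-(n:ℤ) - 1)
    rw [sub_add_cancel] at h2
    rw [← h2] at this
    exact (mul_right_cancel this).symm

theorem Lk_lt (k : ℤ) : Lk lt k = lam k 1 := by
  unfold Lk
  rw [mul_inv_eq_iff_eq_mul, Pp_lt]
  rcases Int.emod_two_eq_zero_or_one k with h | h
  · rw [show tp k = false by simp [tp, h], xi_f]
    unfold pos lam
    rw [mul_mk, mul_mk, Da.A_single, Da.A_zero, pm_even h, sg_even h, ac_even h,
      ac_even (by norm_num)]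
    simp
  · rw [show tp k = true by simp [tp, h], xi_t]
    unfold pos lam
    rw [mul_mk, mul_mk, Da.A_single, Da.A_zero, pm_odd h, sg_odd h, ac_odd h,
      ac_even (by norm_num)]
    simp

noncomputable def vl (w : List Lt) : Ga := (w.map lt).prod

@[simp] theorem vl_nil : vl [] = 1 := rfl
@[simp] theorem vl_cons (t : Lt) (w : List Lt) : vl (t :: w) = lt t * vl w := by simp [vl]
@[simp] theorem vl_append (u w : List Lt) : vl (u ++ w) = vl u * vl w := by simp [vl]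
theorem vl_reverse (w : List Lt) : vl w.reverse = (vl w)⁻¹ := by
  unfold vl; exact prod_reverse_inv lt w (fun t _ => lt_inv t)

theorem vl_formula (p : ℤ) (w : List Lt) :
    pos p * vl w = pr (Lk lt) (tog p w) * pos (endp p w) := by
  have := product_formula (okGa (fun _ => True) (fun _ => trivial) (fun _ => trivial)) p w
    (fun _ _ => trivial)
  rw [Pp_lt, Pp_lt] at this
  exact this

theorem vl_eq (w : List Lt) : vl w = pr (Lk lt) (tog 0 w) * pos (endp 0 w) := by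
  have := vl_formula 0 w
  rwa [show pos 0 = 1 from rfl, one_mul] at this

theorem pr_p (l : List (ℤ × ℤ)) : (pr (Lk lt) l).p = 0 := by
  induction l with
  | nil => rfl
  | cons x l ih =>
    rw [pr_cons, LG.mul_p, ih, Lk_lt, lam_zpow]
    show Da.ac 0 0 = 0
    rw [ac_even (by norm_num)]; norm_num

theorem pr_h (l : List (ℤ × ℤ)) (k : ℤ) : (pr (Lk lt) l).h k = net k l := by
  induction l with
  | nil => rfl
  | cons x l ih =>
    rw [pr_cons, LG.mul_h, Lk_lt, lam_zpow, net_cons]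
    show (Finsupp.single x.1 (1 * x.2) + Da.A ℤ 0 _) k = _
    rw [Da.A_zero, Finsupp.add_apply, ih, Finsupp.single_apply, one_mul]

theorem vl_p (w : List Lt) : (vl w).p = endp 0 w := by
  rw [vl_eq, LG.mul_p, pr_p]
  show Da.ac 0 (endp 0 w) = _
  rw [ac_even (by norm_num)]; ring

theorem vl_h (w : List Lt) (k : ℤ) : (vl w).h k = net k (tog 0 w) := by
  rw [vl_eq, LG.mul_h, Finsupp.add_apply, pr_h]
  show _ + (Da.A ℤ _ 0) k = _
  simp

theorem comm_lam (k l a b : ℤ) : lam k a * lam l b * (lam k a)⁻¹ * (lam l b)⁻¹ = zc ((a * b) • (Da.κ k l - Da.κ l k : VV)) := by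
  rw [mul_inv_eq_iff_eq_mul, mul_inv_eq_iff_eq_mul, mul_assoc]
  unfold lam zc
  simp only [mul_mk, Da.A_zero, Da.B_single]
  have : Da.ac 0 0 = 0 := by rw [ac_even (by norm_num)]; norm_num
  apply LG.ext'
  · simp only [this, Da.A_zero]; abel
  · simp only [this, Da.A_zero, Da.B_single, map_zero, LinearMap.zero_apply]
    simp only [smul_sub, smul_smul]
    rw [mul_comm b a]; abel
  · simp only [this]

/-- if `k - l` is even the commutator vanishes -/
theorem comm_same {k l : ℤ} (h : (k - l) % 2 = 0) (a b : ℤ) : lam k a * lam l b * (lam k a)⁻¹ * (lam l b)⁻¹ = 1 := by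
  rw [comm_lam]
  have h1 : Da.κ k l = 0 := by
    unfold Dat.κ; rw [if_neg]
    rintro ⟨h1, h2⟩
    have : Da.ε (k - l) = 1 := by rw [map_sub, h1, h2]; simp
    rw [eps_even h] at this; exact absurd this (by decide)
  have h2 : Da.κ l k = 0 := by
    unfold Dat.κ; rw [if_neg]
    rintro ⟨h1, h2⟩
    have : Da.ε (l - k) = 1 := by rw [map_sub, h1, h2]; simp
    rw [eps_even (by omega)] at this; exact absurd this (by decide)
  rw [h1, h2]; simp [zc_zero]

theorem comm_odd {k l : ℤ} (hk : k % 2 = 1) (hl : l % 2 = 0) (a b : ℤ) :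
    lam k a * lam l b * (lam k a)⁻¹ * (lam l b)⁻¹ = zc ((a * b) • zet 15 (k - l)) := by
  rw [comm_lam]
  have h1 : Da.κ k l = zet 15 (k - l) := if_pos ⟨eps_odd hk, eps_even hl⟩
  have h2 : Da.κ l k = 0 := by
    unfold Dat.κ; rw [if_neg]
    rintro ⟨h1, h2⟩
    exact eps_odd' hk h2
  rw [h1, h2, sub_zero]

theorem comm_even {k l : ℤ} (hk : k % 2 = 0) (hl : l % 2 = 1) (a b : ℤ) :
    lam k a * lam l b * (lam k a)⁻¹ * (lam l b)⁻¹ = zc (-((a * b) • zet 15 (k - l))) := by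
  rw [comm_lam]
  have h1 : Da.κ l k = zet 15 (l - k) := if_pos ⟨eps_odd hl, eps_even hk⟩
  have h2 : Da.κ k l = 0 := by
    unfold Dat.κ; rw [if_neg]
    rintro ⟨h1, h2⟩
    exact eps_odd' hl h2
  rw [h1, h2, zero_sub, smul_neg]
  have : zet 15 (l - k) = zet 15 (k - l) := by rw [← neg_sub]; exact Da.hζ _
  rw [this]

/-- valuation indicator vector -/
def ev1 (j : ℕ) : VV := Pi.single j 1

theorem zet_eq {k : ℤ} {j : ℕ} (h1 : (11 : ℤ) ^ j ∣ k) (h2 : ¬ (11 : ℤ) ^ (j + 1) ∣ k) :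
    zet 15 k = ev1 j := by
  funext i
  unfold zet ev1
  by_cases hij : i = j
  · subst hij; rw [if_pos ⟨h1, h2⟩, Pi.single_eq_same]
  · rw [Pi.single_eq_of_ne hij, if_neg]
    rintro ⟨h3, h4⟩
    rcases lt_or_gt_of_ne hij with h | h
    · exact h4 ((pow_dvd_pow 11 h).trans h1)
    · exact h2 ((pow_dvd_pow 11 h).trans h3)

theorem exists_val {k : ℤ} (hk : k ≠ 0) :
    ∃ j : ℕ, (11 : ℤ) ^ j ∣ k ∧ ¬ (11 : ℤ) ^ (j + 1) ∣ k ∧ (11 : ℤ) ^ j ≤ |k| := by
  have hfin : FiniteMultiplicity (11 : ℤ) k := by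
    rw [Int.finiteMultiplicity_iff]; exact ⟨by decide, hk⟩
  refine ⟨multiplicity (11:ℤ) k, pow_multiplicity_dvd _ _, ?_, ?_⟩
  · exact hfin.not_pow_dvd_of_multiplicity_lt (Nat.lt_succ_self _)
  · exact Int.le_of_dvd (abs_pos.2 hk) ((dvd_abs _ _).2 (pow_multiplicity_dvd _ _))

end Run7.h459
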