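import Pool.Agent.Run7.h459.Am

set_option linter.unusedSectionVars false

/-! The gadget making labels recognisable. -/

namespace Run7.h459

abbrev QQ := Multiplicative (Fin 7 → ZMod 2)

def el (l : Fin 7) : QQ := Multiplicative.ofAdd (Pi.single l 1)

theorem el_sq (l : Fin 7) : el l * el l = 1 := by revert l; decide
theorem el_ne (l : Fin 7) : el l ≠ 1 := by revert l; decide
theorem el_inj {l l' : Fin 7} (h : el l = el l') : l = l' := by revert l l'; decide
theorem el_mul_ne (l l' l'' : Fin 7) : el l * el l' ≠ el l'' := by revert l l' l''; decide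
theorem el_mul_one {l l' : Fin 7} (h : el l * el l' = 1) : l = l' := by revert l l'; decide

variable {B : Type} [Fintype B] [DecidableEq B]

abbrev Al (ts : B → Fin 7 → Bool) := Fin 7 ⊕ (B ⊕ {x : B × Fin 7 // ts x.1 x.2 = true})

variable {ts : B → Fin 7 → Bool}

abbrev pu (l : Fin 7) : Al ts := Sum.inl l
abbrev ba (b : B) : Al ts := Sum.inr (Sum.inl b)
abbrev de (b : B) (l : Fin 7) (h : ts b l = true) : Al ts := Sum.inr (Sum.inr ⟨(b, l), h⟩)

theorem al_cases (a : Al ts) : (∃ l, a = pu l) ∨ (∃ b, a = ba b) ∨ ∃ b l h, a = de b l h := by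
  rcases a with l | b | ⟨⟨b, l⟩, h⟩
  · exact Or.inl ⟨l, rfl⟩
  · exact Or.inr (Or.inl ⟨b, rfl⟩)
  · exact Or.inr (Or.inr ⟨b, l, h, rfl⟩)

variable {P : Type} [Group P]

def hh (gb : B → P) : Al ts → P × QQ
  | Sum.inl l => (1, el l)
  | Sum.inr (Sum.inl b) => (gb b, 1)
  | Sum.inr (Sum.inr x) => (gb x.1.1, el x.1.2)

@[simp] theorem hh_pu (gb : B → P) (l : Fin 7) : hh gb (pu l : Al ts) = (1, el l) := rfl
@[simp] theorem hh_ba (gb : B → P) (b : B) : hh gb (ba b : Al ts) = (gb b, 1) := rfl
@[simp] theorem hh_de (gb : B → P) (b : B) (l : Fin 7) (h : ts b l = true) :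
    hh gb (de b l h : Al ts) = (gb b, el l) := rfl

/-- hypotheses on the base letters -/
structure GbH (gb : B → P) (C : Subgroup (P × QQ)) (e : P →* Z2) : Prop where
  inj : Function.Injective gb
  sq : ∀ b, gb b * gb b = 1
  par : ∀ b, e (gb b) = Multiplicative.ofAdd 1
  hC : C ≤ Subgroup.center (P × QQ)
  hq : ∀ q : QQ, (1, q) ∈ C

/-- hypotheses on the table -/
structure TsH (ts : B → Fin 7 → Bool) : Prop where
  g1 : ∀ b b', (∀ l, ts b l = ts b' l) → b = b'
  g2 : ∀ b, 2 ≤ (Finset.univ.filter fun l => ts b l = true).card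
  g3 : ∀ l, 2 ≤ (Finset.univ.filter fun b => ts b l = true).card
  g4 : ∀ l l', (Finset.univ.filter fun b => ts b l = true).card =
    (Finset.univ.filter fun b => ts b l' = true).card → l = l'
  g5 : ∀ l b, (Finset.univ.filter fun b => ts b l = true).card ≠
    (Finset.univ.filter fun l => ts b l = true).card

variable {gb : B → P} {C : Subgroup (P × QQ)} {e : P →* Z2}

theorem GbH.ne1 (H : GbH gb C e) (b : B) : gb b ≠ 1 := by
  intro h
  have := H.par b
  rw [h, map_one] at this
  exact absurd this (by decide)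

theorem GbH.ne2 (H : GbH gb C e) (b b' b'' : B) : gb b * gb b' ≠ gb b'' := by
  intro h
  have := congrArg e h
  rw [map_mul, H.par, H.par, H.par] at this
  exact absurd this (by decide)

theorem GbH.eq1 (H : GbH gb C e) {b b' : B} (h : gb b * gb b' = 1) : b = b' := by
  apply H.inj
  rw [← inv_eq_of_mul_eq_one_right (H.sq b)]
  exact (inv_eq_of_mul_eq_one_right h)

theorem hh_sq (H : GbH gb C e) (a : Al ts) : hh gb a * hh gb a = 1 := by
  rcases al_cases a with ⟨l, rfl⟩ | ⟨b, rfl⟩ | ⟨b, l, h, rfl⟩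
  · simp [el_sq]
  · simp [H.sq]
  · simp [H.sq, el_sq]

theorem hh_ne (H : GbH gb C e) (a : Al ts) : hh gb a ≠ 1 := by
  rcases al_cases a with ⟨l, rfl⟩ | ⟨b, rfl⟩ | ⟨b, l, h, rfl⟩
  · simp [Prod.ext_iff, el_ne]
  · simp [Prod.ext_iff, H.ne1]
  · simp [Prod.ext_iff, H.ne1]

theorem hh_inj (H : GbH gb C e) : Function.Injective (hh gb : Al ts → P × QQ) := by
  intro a a' haa
  rcases al_cases a with ⟨l, rfl⟩ | ⟨b, rfl⟩ | ⟨b, l, h, rfl⟩ <;>
  rcases al_cases a' with ⟨l', rfl⟩ | ⟨b', rfl⟩ | ⟨b', l', h', rfl⟩ <;>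
  simp only [hh_pu, hh_ba, hh_de, Prod.mk.injEq] at haa
  · rw [el_inj haa.2]
  · exact absurd haa.1.symm (H.ne1 _)
  · exact absurd haa.1.symm (H.ne1 _)
  · exact absurd haa.1 (H.ne1 _)
  · rw [H.inj haa.1]
  · exact absurd haa.2.symm (el_ne _)
  · exact absurd haa.1 (H.ne1 _)
  · exact absurd haa.2 (el_ne _)
  · have h1 := H.inj haa.1
    have h2 := el_inj haa.2
    subst h1; subst h2; rfl

theorem letH (H : GbH gb C e) : LetH (v1 (hh gb) : Option (Al ts) → TG (P × QQ) C) where
  inj := by
    intro a a' h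
    cases a with
    | none =>
      cases a' with
      | none => rfl
      | some a' => exact absurd h (tau_ne_inr _)
    | some a =>
      cases a' with
      | none => exact absurd h.symm (tau_ne_inr _)
      | some a' =>
        have h1 : hh gb a = hh gb a' := SemidirectProduct.inr_injective h
        rw [hh_inj H h1]
  inv := by
    intro a
    cases a with
    | none => exact tau_mul_self
    | some a =>
      show (SemidirectProduct.inr (hh gb a) * SemidirectProduct.inr (hh gb a) : TG (P × QQ) C) = 1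
      rw [← map_mul, hh_sq H, map_one]
  ne := by
    intro a
    cases a with
    | none =>
      intro h
      exact tau_ne_inr (C := C) 1 (by rw [map_one]; exact h)
    | some a =>
      intro h
      apply hh_ne H a
      exact SemidirectProduct.inr_injective (by rw [map_one]; exact h)

abbrev vl2 (gb : B → P) (C : Subgroup (P × QQ)) : Option (Al ts) → TG (P × QQ) C := v1 (hh gb)

theorem lk_some (a b : Al ts) : lk (vl2 gb C) (some a) (some b) ↔ ∃ c : Al ts, hh gb c = hh gb a * hh gb b := by
  unfold lk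
  constructor
  · rintro ⟨u, hu⟩
    have hu' : v1 (hh gb) u = (SemidirectProduct.inr (hh gb a * hh gb b) : TG (P × QQ) C) := by
      rw [map_mul]; exact hu
    cases u with
    | none => exact absurd hu' (tau_ne_inr _)
    | some u => exact ⟨u, SemidirectProduct.inr_injective hu'⟩
  · rintro ⟨c, hc⟩
    refine ⟨some c, ?_⟩
    show (SemidirectProduct.inr (hh gb c) : TG (P × QQ) C) =
      SemidirectProduct.inr (hh gb a) * SemidirectProduct.inr (hh gb b)
    rw [hc, map_mul]

theorem lk_none (H : GbH gb C e) (t : Option (Al ts)) : ¬ lk (vl2 gb C) none t ∧ ¬ lk (vl2 gb C) t none := by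
  have hL := letH (ts := ts) H
  constructor
  · rintro ⟨u, hu⟩
    cases t with
    | none => rw [hL.inv none] at hu; exact hL.ne u hu
    | some a =>
      cases u with
      | none =>
        have : vl2 gb C (some a) = 1 := by
          have h2 : vl2 gb C (none : Option (Al ts)) * 1 = vl2 gb C (none : Option (Al ts)) * vl2 gb C (some a) := by
            rw [mul_one]; exact hu
          exact (mul_left_cancel h2).symm
        exact hL.ne _ this
      | some u =>
        have h2 : (tau : TG (P × QQ) C) = SemidirectProduct.inr (hh gb u * (hh gb a)⁻¹) := by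
          rw [map_mul, map_inv, eq_mul_inv_iff_mul_eq]; exact hu.symm
        exact tau_ne_inr _ h2
  · rintro ⟨u, hu⟩
    cases t with
    | none => rw [hL.inv none] at hu; exact hL.ne u hu
    | some a =>
      cases u with
      | none =>
        have : vl2 gb C (some a) = 1 := by
          have h2 : 1 * vl2 gb C (none : Option (Al ts)) = vl2 gb C (some a) * vl2 gb C (none : Option (Al ts)) := by
            rw [one_mul]; exact hu
          exact (mul_right_cancel h2).symm
        exact hL.ne _ this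
      | some u =>
        have h2 : (tau : TG (P × QQ) C) = SemidirectProduct.inr ((hh gb a)⁻¹ * hh gb u) := by
          rw [map_mul, map_inv, eq_inv_mul_iff_mul_eq]; exact hu.symm
        exact tau_ne_inr _ h2

theorem lk_pu (H : GbH gb C e) (l : Fin 7) (u : Option (Al ts)) :
    lk (vl2 gb C) (some (pu l)) u ↔ ∃ b, ∃ h : ts b l = true, u = some (ba b) ∨ u = some (de b l h) := by
  cases u with
  | none => exact ⟨fun h => absurd h (lk_none H _).2, fun ⟨b, h, h1⟩ => by simp at h1⟩
  | some u =>
    rw [lk_some]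
    rcases al_cases u with ⟨l', rfl⟩ | ⟨b', rfl⟩ | ⟨b', l', h', rfl⟩
    · constructor
      · rintro ⟨c, hc⟩
        rcases al_cases c with ⟨l'', rfl⟩ | ⟨b'', rfl⟩ | ⟨b'', l'', h'', rfl⟩ <;>
          simp only [hh_pu, hh_ba, hh_de, Prod.mk_mul_mk, Prod.mk.injEq, mul_one] at hc
        · exact absurd hc.2.symm (el_mul_ne _ _ _)
        · exact absurd hc.1 (H.ne1 _)
        · exact absurd hc.1 (H.ne1 _)
      · rintro ⟨b, h, h1 | h1⟩ <;> simp at h1
    · constructor
      · rintro ⟨c, hc⟩
        rcases al_cases c with ⟨l'', rfl⟩ | ⟨b'', rfl⟩ | ⟨b'', l'', h'', rfl⟩ <;>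
          simp only [hh_pu, hh_ba, hh_de, Prod.mk_mul_mk, Prod.mk.injEq, mul_one, one_mul] at hc
        · exact absurd hc.1.symm (H.ne1 _)
        · exact absurd hc.2.symm (el_ne _)
        · have h1 := H.inj hc.1
          have h2 := el_inj hc.2
          subst h1; subst h2
          exact ⟨b'', h'', Or.inl rfl⟩
      · rintro ⟨b, h, h1 | h1⟩
        · simp only [Option.some.injEq, Sum.inr.injEq, Sum.inl.injEq] at h1
          subst h1
          exact ⟨de b' l h, by simp⟩
        · simp at h1
    · constructor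
      · rintro ⟨c, hc⟩
        rcases al_cases c with ⟨l'', rfl⟩ | ⟨b'', rfl⟩ | ⟨b'', l'', h'', rfl⟩ <;>
          simp only [hh_pu, hh_ba, hh_de, Prod.mk_mul_mk, Prod.mk.injEq, mul_one, one_mul] at hc
        · exact absurd hc.1.symm (H.ne1 _)
        · have h2 := el_mul_one hc.2.symm
          subst h2
          exact ⟨b', h', Or.inr rfl⟩
        · exact absurd hc.2.symm (el_mul_ne _ _ _)
      · rintro ⟨b, h, h1 | h1⟩
        · simp at h1
        · simp only [Option.some.injEq, Sum.inr.injEq, Subtype.mk.injEq, Prod.mk.injEq] at h1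
          obtain ⟨h2, h3⟩ := h1
          subst h2; subst h3
          exact ⟨ba b', by simp [el_sq]⟩

theorem lk_ba (H : GbH gb C e) (b : B) (u : Option (Al ts)) :
    lk (vl2 gb C) (some (ba b)) u ↔ ∃ l, ∃ h : ts b l = true, u = some (pu l) ∨ u = some (de b l h) := by
  cases u with
  | none => exact ⟨fun h => absurd h (lk_none H _).2, fun ⟨b, h, h1⟩ => by simp at h1⟩
  | some u =>
    rw [lk_some]
    rcases al_cases u with ⟨l', rfl⟩ | ⟨b', rfl⟩ | ⟨b', l', h', rfl⟩
    · constructor
      · rintro ⟨c, hc⟩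
        rcases al_cases c with ⟨l'', rfl⟩ | ⟨b'', rfl⟩ | ⟨b'', l'', h'', rfl⟩ <;>
          simp only [hh_pu, hh_ba, hh_de, Prod.mk_mul_mk, Prod.mk.injEq, mul_one, one_mul] at hc
        · exact absurd hc.1.symm (H.ne1 _)
        · exact absurd hc.2.symm (el_ne _)
        · have h1 := H.inj hc.1
          have h2 := el_inj hc.2
          subst h1; subst h2
          exact ⟨l'', h'', Or.inl rfl⟩
      · rintro ⟨l, h, h1 | h1⟩
        · simp only [Option.some.injEq, Sum.inl.injEq] at h1
          subst h1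
          exact ⟨de b l' h, by simp⟩
        · simp at h1
    · constructor
      · rintro ⟨c, hc⟩
        rcases al_cases c with ⟨l'', rfl⟩ | ⟨b'', rfl⟩ | ⟨b'', l'', h'', rfl⟩ <;>
          simp only [hh_pu, hh_ba, hh_de, Prod.mk_mul_mk, Prod.mk.injEq, mul_one, one_mul] at hc
        · exact absurd hc.2 (el_ne _)
        · exact absurd hc.1.symm (H.ne2 _ _ _)
        · exact absurd hc.1.symm (H.ne2 _ _ _)
      · rintro ⟨l, h, h1 | h1⟩ <;> simp at h1
    · constructor
      · rintro ⟨c, hc⟩
        rcases al_cases c with ⟨l'', rfl⟩ | ⟨b'', rfl⟩ | ⟨b'', l'', h'', rfl⟩ <;>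
          simp only [hh_pu, hh_ba, hh_de, Prod.mk_mul_mk, Prod.mk.injEq, mul_one, one_mul] at hc
        · have h1 := H.eq1 hc.1.symm
          subst h1
          exact ⟨l', h', Or.inr rfl⟩
        · exact absurd hc.1.symm (H.ne2 _ _ _)
        · exact absurd hc.1.symm (H.ne2 _ _ _)
      · rintro ⟨l, h, h1 | h1⟩
        · simp at h1
        · simp only [Option.some.injEq, Sum.inr.injEq, Subtype.mk.injEq, Prod.mk.injEq] at h1
          obtain ⟨h2, h3⟩ := h1
          subst h2; subst h3
          exact ⟨pu l', by simp [H.sq]⟩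

theorem lk_de (H : GbH gb C e) (b : B) (l : Fin 7) (hbl : ts b l = true) (u : Option (Al ts)) :
    lk (vl2 gb C) (some (de b l hbl)) u ↔ u = some (pu l) ∨ u = some (ba b) := by
  cases u with
  | none => exact ⟨fun h => absurd h (lk_none H _).2, fun h1 => by simp at h1⟩
  | some u =>
    rw [lk_some]
    rcases al_cases u with ⟨l', rfl⟩ | ⟨b', rfl⟩ | ⟨b', l', h', rfl⟩
    · constructor
      · rintro ⟨c, hc⟩
        rcases al_cases c with ⟨l'', rfl⟩ | ⟨b'', rfl⟩ | ⟨b'', l'', h'', rfl⟩ <;>
          simp only [hh_pu, hh_ba, hh_de, Prod.mk_mul_mk, Prod.mk.injEq, mul_one, one_mul] at hc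
        · exact absurd hc.1.symm (H.ne1 _)
        · have h2 := el_mul_one hc.2.symm
          subst h2; exact Or.inl rfl
        · exact absurd hc.2.symm (el_mul_ne _ _ _)
      · rintro (h1 | h1)
        · simp only [Option.some.injEq, Sum.inl.injEq] at h1
          subst h1
          exact ⟨ba b, by simp [el_sq]⟩
        · simp at h1
    · constructor
      · rintro ⟨c, hc⟩
        rcases al_cases c with ⟨l'', rfl⟩ | ⟨b'', rfl⟩ | ⟨b'', l'', h'', rfl⟩ <;>
          simp only [hh_pu, hh_ba, hh_de, Prod.mk_mul_mk, Prod.mk.injEq, mul_one, one_mul] at hc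
        · have h1 := H.eq1 hc.1.symm
          subst h1; exact Or.inr rfl
        · exact absurd hc.1.symm (H.ne2 _ _ _)
        · exact absurd hc.1.symm (H.ne2 _ _ _)
      · rintro (h1 | h1)
        · simp at h1
        · simp only [Option.some.injEq, Sum.inr.injEq, Sum.inl.injEq] at h1
          subst h1
          exact ⟨pu l, by simp [H.sq]⟩
    · constructor
      · rintro ⟨c, hc⟩
        rcases al_cases c with ⟨l'', rfl⟩ | ⟨b'', rfl⟩ | ⟨b'', l'', h'', rfl⟩ <;>
          simp only [hh_pu, hh_ba, hh_de, Prod.mk_mul_mk, Prod.mk.injEq, mul_one, one_mul] at hc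
        · exact absurd hc.2.symm (el_mul_ne _ _ _)
        · exact absurd hc.1.symm (H.ne2 _ _ _)
        · exact absurd hc.1.symm (H.ne2 _ _ _)
      · rintro (h1 | h1) <;> simp at h1

/-- degree in the link graph -/
noncomputable def dg (gb : B → P) (C : Subgroup (P × QQ)) (t : Option (Al ts)) : ℕ :=
  Nat.card {u // lk (vl2 gb C) t u}

theorem dg_none (H : GbH gb C e) : dg gb C (none : Option (Al ts)) = 0 := by
  unfold dg
  have : IsEmpty {u // lk (vl2 gb C) (none : Option (Al ts)) u} := ⟨fun u => (lk_none H u.1).1 u.2⟩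
  exact Nat.card_of_isEmpty

theorem dg_pu (H : GbH gb C e) (l : Fin 7) : dg gb C (some (pu l) : Option (Al ts)) =
    2 * (Finset.univ.filter fun b => ts b l = true).card := by
  unfold dg
  let f : {b // ts b l = true} ⊕ {b // ts b l = true} → {u // lk (vl2 gb C) (some (pu l)) u} :=
    fun x => match x with
    | Sum.inl b => ⟨some (ba b.1), (lk_pu H l _).2 ⟨b.1, b.2, Or.inl rfl⟩⟩
    | Sum.inr b => ⟨some (de b.1 l b.2), (lk_pu H l _).2 ⟨b.1, b.2, Or.inr rfl⟩⟩
  have hf : Function.Bijective f := by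
    constructor
    · rintro (⟨b, hb⟩ | ⟨b, hb⟩) (⟨b', hb'⟩ | ⟨b', hb'⟩) h <;> simp [f] at h
      · subst h; rfl
      · subst h; rfl
    · rintro ⟨u, hu⟩
      obtain ⟨b, hb, h1 | h1⟩ := (lk_pu H l _).1 hu
      · exact ⟨Sum.inl ⟨b, hb⟩, by simp [f, h1]⟩
      · exact ⟨Sum.inr ⟨b, hb⟩, by simp [f, h1]⟩
  rw [← Nat.card_congr (Equiv.ofBijective f hf), Nat.card_eq_fintype_card, Fintype.card_sum,
    Fintype.card_subtype]
  ring

theorem dg_ba (H : GbH gb C e) (b : B) : dg gb C (some (ba b) : Option (Al ts)) =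
    2 * (Finset.univ.filter fun l => ts b l = true).card := by
  unfold dg
  let f : {l // ts b l = true} ⊕ {l // ts b l = true} → {u // lk (vl2 gb C) (some (ba b)) u} :=
    fun x => match x with
    | Sum.inl l => ⟨some (pu l.1), (lk_ba H b _).2 ⟨l.1, l.2, Or.inl rfl⟩⟩
    | Sum.inr l => ⟨some (de b l.1 l.2), (lk_ba H b _).2 ⟨l.1, l.2, Or.inr rfl⟩⟩
  have hf : Function.Bijective f := by
    constructor
    · rintro (⟨b, hb⟩ | ⟨b, hb⟩) (⟨b', hb'⟩ | ⟨b', hb'⟩) h <;> simp [f] at h
      · subst h; rfl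
      · subst h; rfl
    · rintro ⟨u, hu⟩
      obtain ⟨l, hl, h1 | h1⟩ := (lk_ba H b _).1 hu
      · exact ⟨Sum.inl ⟨l, hl⟩, by simp [f, h1]⟩
      · exact ⟨Sum.inr ⟨l, hl⟩, by simp [f, h1]⟩
  rw [← Nat.card_congr (Equiv.ofBijective f hf), Nat.card_eq_fintype_card, Fintype.card_sum,
    Fintype.card_subtype]
  ring

theorem dg_de (H : GbH gb C e) (b : B) (l : Fin 7) (hbl : ts b l = true) :
    dg gb C (some (de b l hbl) : Option (Al ts)) = 2 := by
  unfold dg
  let f : Bool → {u // lk (vl2 gb C) (some (de b l hbl)) u} :=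
    fun x => match x with
    | true => ⟨some (pu l), (lk_de H b l hbl _).2 (Or.inl rfl)⟩
    | false => ⟨some (ba b), (lk_de H b l hbl _).2 (Or.inr rfl)⟩
  have hf : Function.Bijective f := by
    constructor
    · rintro (_ | _) (_ | _) h <;> simp [f] at h <;> rfl
    · rintro ⟨u, hu⟩
      rcases (lk_de H b l hbl _).1 hu with h1 | h1
      · exact ⟨true, by simp [f, h1]⟩
      · exact ⟨false, by simp [f, h1]⟩
  rw [← Nat.card_congr (Equiv.ofBijective f hf)]
  simp

theorem rig (H : GbH gb C e) (hT : TsH ts) : Rig (vl2 gb C : Option (Al ts) → TG (P × QQ) C) := by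
  intro θ hbij hlk
  have hdg : ∀ t, dg gb C (θ t) = dg gb C t := by
    intro t
    unfold dg
    symm
    apply Nat.card_congr
    exact Equiv.ofBijective (fun u => ⟨θ u.1, (hlk t u.1).1 u.2⟩) ⟨by
      rintro ⟨u, hu⟩ ⟨v, hv⟩ h
      simp only [Subtype.mk.injEq] at h ⊢
      exact hbij.1 h, by
      rintro ⟨u, hu⟩
      obtain ⟨v, rfl⟩ := hbij.2 u
      exact ⟨⟨v, (hlk t v).2 hu⟩, rfl⟩⟩
  have c1 := dg_none (ts := ts) H
  -- pure letters are fixed
  have hpu : ∀ l, θ (some (pu l)) = some (pu l) := by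
    intro l
    have h1 := hdg (some (pu l))
    rw [dg_pu H] at h1
    have h2 := hT.g3 l
    rcases h : θ (some (pu l)) with _ | a
    · rw [h, c1] at h1; omega
    · rw [h] at h1
      rcases al_cases a with ⟨l', rfl⟩ | ⟨b', rfl⟩ | ⟨b', l', h', rfl⟩
      · rw [dg_pu H] at h1
        rw [hT.g4 l' l (by omega)]
      · rw [dg_ba H] at h1
        exact absurd (by omega) (hT.g5 l b')
      · rw [dg_de H] at h1; omega
  have hba : ∀ b, θ (some (ba b)) = some (ba b) := by
    intro b
    have h1 := hdg (some (ba b))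
    rw [dg_ba H] at h1
    have h2 := hT.g2 b
    rcases h : θ (some (ba b)) with _ | a
    · rw [h, c1] at h1; omega
    · rw [h] at h1
      rcases al_cases a with ⟨l', rfl⟩ | ⟨b', rfl⟩ | ⟨b', l', h', rfl⟩
      · rw [dg_pu H] at h1
        exact absurd (by omega) (hT.g5 l' b)
      · congr 2
        congr 1
        apply hT.g1
        intro l
        have h3 := hlk (some (ba b)) (some (pu l))
        rw [h, hpu, lk_ba H, lk_ba H] at h3
        have k1 : ∀ b, (∃ l_1, ∃ h : ts b l_1 = true, (some (pu l) : Option (Al ts)) = some (pu l_1) ∨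
            (some (pu l) : Option (Al ts)) = some (de b l_1 h)) ↔ ts b l = true := by
          intro b
          constructor
          · rintro ⟨l1, h4, h5 | h5⟩
            · simp only [Option.some.injEq, Sum.inl.injEq] at h5
              rw [h5]; exact h4
            · simp at h5
          · intro h4; exact ⟨l, h4, Or.inl rfl⟩
        rw [k1, k1] at h3
        exact Bool.eq_iff_iff.2 h3.symm
      · rw [dg_de H] at h1; omega
  intro t
  rcases t with _ | a
  · have h1 := hdg none
    rw [c1] at h1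
    rcases h : θ none with _ | a
    · rfl
    · rw [h] at h1
      rcases al_cases a with ⟨l', rfl⟩ | ⟨b', rfl⟩ | ⟨b', l', h', rfl⟩
      · rw [dg_pu H] at h1
        have := hT.g3 l'; omega
      · rw [dg_ba H] at h1
        have := hT.g2 b'; omega
      · rw [dg_de H] at h1; omega
  · rcases al_cases a with ⟨l, rfl⟩ | ⟨b, rfl⟩ | ⟨b, l, hbl, rfl⟩
    · exact hpu l
    · exact hba b
    · have h1 := (hlk (some (de b l hbl)) (some (pu l))).1 ((lk_de H b l hbl _).2 (Or.inl rfl))
      have h2 := (hlk (some (de b l hbl)) (some (ba b))).1 ((lk_de H b l hbl _).2 (Or.inr rfl))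
      rw [hpu] at h1
      rw [hba] at h2
      rcases h : θ (some (de b l hbl)) with _ | a
      · rw [h] at h1; exact absurd h1 (lk_none H _).1
      · rw [h] at h1 h2
        rcases al_cases a with ⟨l', rfl⟩ | ⟨b', rfl⟩ | ⟨b', l', h', rfl⟩
        · obtain ⟨b1, h3, h4 | h4⟩ := (lk_pu H l' _).1 h1 <;> simp at h4
        · obtain ⟨b1, h3, h4 | h4⟩ := (lk_ba H b' _).1 h2 <;> simp at h4
        · rcases (lk_de H b' l' h' _).1 h1 with h3 | h3
          · rcases (lk_de H b' l' h' _).1 h2 with h4 | h4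
            · simp at h4
            · simp only [Option.some.injEq, Sum.inl.injEq, Sum.inr.injEq] at h3 h4
              subst h3; subst h4; rfl
          · simp at h3

end Run7.h459
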