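import Mathlib

set_option linter.unusedSectionVars false

/-! A class-two-by-dihedral group, over a general index ring. -/

namespace Run7.h459

/-- parity and form data -/
structure Dat (R V : Type*) [CommRing R] where
  ε : R →+* ZMod 2
  ζ : R → V
  hζ : ∀ x, ζ (-x) = ζ x

theorem zmod2_cases (x : ZMod 2) : x = 0 ∨ x = 1 := by revert x; decide

section basic
variable {R V : Type*} [CommRing R] (D : Dat R V)

def Dat.sg (L : Type*) [CommRing L] (p : R) : L := if D.ε p = 0 then 1 else -1
def Dat.pm (p k : R) : R := if D.ε p = 0 then k + p else p - 1 - k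
def Dat.ac (p q : R) : R := if D.ε p = 0 then p + q else p - q

theorem Dat.sg_mul_self {L : Type*} [CommRing L] (p : R) : D.sg L p * D.sg L p = 1 := by
  unfold Dat.sg; split_ifs <;> simp

theorem Dat.ε_ac (p q : R) : D.ε (D.ac p q) = D.ε p + D.ε q := by
  unfold Dat.ac
  rcases zmod2_cases (D.ε p) with h | h <;> rcases zmod2_cases (D.ε q) with h' | h' <;>
    simp [h, h'] <;> rfl

theorem Dat.ε_pm (p k : R) : D.ε (D.pm p k) = D.ε k := by
  unfold Dat.pm
  rcases zmod2_cases (D.ε p) with h | h
  · simp [h]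
  · rcases zmod2_cases (D.ε k) with h' | h' <;> simp [h, h']

theorem Dat.pm_pm (p q k : R) : D.pm p (D.pm q k) = D.pm (D.ac p q) k := by
  unfold Dat.pm Dat.ac
  rcases zmod2_cases (D.ε p) with h | h <;> rcases zmod2_cases (D.ε q) with h' | h' <;>
    simp [h, h'] <;> ring

theorem Dat.sg_ac {L : Type*} [CommRing L] (p q : R) : D.sg L (D.ac p q) = D.sg L p * D.sg L q := by
  unfold Dat.sg
  rw [D.ε_ac]
  rcases zmod2_cases (D.ε p) with h | h <;> rcases zmod2_cases (D.ε q) with h' | h' <;>
    simp [h, h', show ((1 : ZMod 2) + 1) = 0 from rfl]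

theorem Dat.ac_ac (p q r : R) : D.ac p (D.ac q r) = D.ac (D.ac p q) r := by
  unfold Dat.ac
  rcases zmod2_cases (D.ε p) with h | h <;> rcases zmod2_cases (D.ε q) with h' | h' <;>
    simp [h, h'] <;> ring

end basic

section
variable {R L V : Type*} [CommRing R] [CommRing L] [AddCommGroup V] [Module L V] (D : Dat R V)

/-- the action on lamp configurations -/
noncomputable def Dat.A (L : Type*) [CommRing L] (p : R) : (R →₀ L) →ₗ[L] (R →₀ L) :=
  D.sg L p • Finsupp.lmapDomain L L (D.pm p)

theorem Dat.A_single (p k : R) (a : L) :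
    D.A L p (Finsupp.single k a) = Finsupp.single (D.pm p k) (D.sg L p * a) := by
  simp [Dat.A]

theorem Dat.A_A (p q : R) (h : R →₀ L) : D.A L p (D.A L q h) = D.A L (D.ac p q) h := by
  induction h using Finsupp.induction_linear with
  | zero => simp
  | add f g hf hg => simp only [map_add, hf, hg]
  | single k a => rw [D.A_single, D.A_single, D.A_single, D.pm_pm, D.sg_ac, mul_assoc]

theorem Dat.A_zero (h : R →₀ L) : D.A L 0 h = h := by
  induction h using Finsupp.induction_linear with
  | zero => simp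
  | add f g hf hg => simp only [map_add, hf, hg]
  | single k a => rw [D.A_single]; simp [Dat.pm, Dat.sg]

def Dat.κ (k l : R) : V := if D.ε k = 1 ∧ D.ε l = 0 then D.ζ (k - l) else 0

theorem Dat.κ_pm (p k l : R) : D.κ (D.pm p k) (D.pm p l) = D.κ k l := by
  unfold Dat.κ
  rw [D.ε_pm, D.ε_pm]
  by_cases hc : D.ε k = 1 ∧ D.ε l = 0
  · rw [if_pos hc, if_pos hc]
    unfold Dat.pm
    rcases zmod2_cases (D.ε p) with h | h
    · simp [h]
    · have h' : ¬ D.ε p = 0 := by rw [h]; decide
      rw [if_neg h', if_neg h']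
      have : (p - 1 - k) - (p - 1 - l) = -(k - l) := by ring
      rw [this, D.hζ]
  · rw [if_neg hc, if_neg hc]

/-- the bilinear form -/
noncomputable def Dat.B (L : Type*) [CommRing L] [Module L V] :
    (R →₀ L) →ₗ[L] (R →₀ L) →ₗ[L] V :=
  Finsupp.linearCombination L (fun k : R => Finsupp.linearCombination L (fun l => D.κ k l))

theorem Dat.B_single (k l : R) (a b : L) :
    D.B L (Finsupp.single k a) (Finsupp.single l b) = a • b • D.κ k l := by
  simp [Dat.B]

theorem Dat.B_A (p : R) (h h' : R →₀ L) : D.B L (D.A L p h) (D.A L p h') = D.B L h h' := by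
  induction h using Finsupp.induction_linear with
  | zero => simp
  | add f g hf hg => simp only [map_add, LinearMap.add_apply, hf, hg]
  | single k a =>
    induction h' using Finsupp.induction_linear with
    | zero => simp
    | add f g hf hg => simp only [map_add, hf, hg]
    | single l b =>
      rw [D.A_single, D.A_single, D.B_single, D.B_single, D.κ_pm, smul_smul, smul_smul]
      congr 1
      linear_combination (a * b) * D.sg_mul_self (L := L) p

end

/-- The group. -/
@[ext] structure LG {R V : Type*} [CommRing R] (D : Dat R V) (L : Type*) [Zero L] where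
  h : R →₀ L
  c : V
  p : R

section
variable {R L V : Type*} [CommRing R] [CommRing L] [AddCommGroup V] [Module L V] {D : Dat R V}

noncomputable instance : Mul (LG D L) :=
  ⟨fun x y => ⟨x.h + D.A L x.p y.h, x.c + y.c + D.B L x.h (D.A L x.p y.h), D.ac x.p y.p⟩⟩
noncomputable instance : One (LG D L) := ⟨⟨0, 0, 0⟩⟩
noncomputable instance : Inv (LG D L) :=
  ⟨fun x => ⟨-(D.A L (if D.ε x.p = 0 then - x.p else x.p) x.h), -x.c + D.B L x.h x.h,
    if D.ε x.p = 0 then - x.p else x.p⟩⟩

@[simp] theorem LG.mul_h (x y : LG D L) : (x * y).h = x.h + D.A L x.p y.h := rfl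
@[simp] theorem LG.mul_c (x y : LG D L) :
    (x * y).c = x.c + y.c + D.B L x.h (D.A L x.p y.h) := rfl
@[simp] theorem LG.mul_p (x y : LG D L) : (x * y).p = D.ac x.p y.p := rfl
@[simp] theorem LG.one_h : (1 : LG D L).h = 0 := rfl
@[simp] theorem LG.one_c : (1 : LG D L).c = 0 := rfl
@[simp] theorem LG.one_p : (1 : LG D L).p = 0 := rfl

theorem LG.inv_ax (x : LG D L) : x⁻¹ * x = 1 := by
  have hp : D.ac (if D.ε x.p = 0 then - x.p else x.p) x.p = 0 := by
    rcases zmod2_cases (D.ε x.p) with h | h
    · simp [h, Dat.ac]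
    · simp [h, Dat.ac]
  apply LG.ext
  · show -(D.A L (if D.ε x.p = 0 then - x.p else x.p) x.h) +
      D.A L (if D.ε x.p = 0 then - x.p else x.p) x.h = 0
    exact neg_add_cancel _
  · show (-x.c + D.B L x.h x.h) + x.c + D.B L (-(D.A L (if D.ε x.p = 0 then - x.p else x.p) x.h))
      (D.A L (if D.ε x.p = 0 then - x.p else x.p) x.h) = 0
    rw [map_neg, LinearMap.neg_apply, D.B_A]; abel
  · exact hp

noncomputable instance : Group (LG D L) :=
  Group.ofLeftAxioms
    (by
      intro x y z
      apply LG.ext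
      · simp only [LG.mul_h, LG.mul_p, map_add, D.A_A, add_assoc]
      · simp only [LG.mul_c, LG.mul_h, LG.mul_p, map_add, LinearMap.add_apply, D.A_A]
        rw [← D.B_A x.p y.h, D.A_A]
        abel
      · simp only [LG.mul_p, D.ac_ac])
    (by
      intro x
      apply LG.ext
      · simp [D.A_zero]
      · simp [D.A_zero]
      · simp [Dat.ac])
    LG.inv_ax

theorem LG.ext' {x y : LG D L} (h1 : x.h = y.h) (h2 : x.c = y.c) (h3 : x.p = y.p) : x = y :=
  LG.ext h1 h2 h3

end

end Run7.h459
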