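import Mathlib

set_option linter.unusedSectionVars false

/-! Locally prescribed graphs and labelled systems. -/

namespace Run7.h459

/-- the set of vertices at distance at most `r` -/
def ball {V : Type*} (G : SimpleGraph V) (v : V) (r : ℕ) : Set V := {u | ∃ p : G.Walk v u, p.length ≤ r}

theorem self_mem_ball {V : Type*} (G : SimpleGraph V) (v : V) (r : ℕ) : v ∈ ball G v r :=
  ⟨SimpleGraph.Walk.nil, Nat.zero_le _⟩

/-- `G` is `r`-locally `F` (with root `o` of `F`) -/
def RLocal {V W : Type*} (G : SimpleGraph V) (F : SimpleGraph W) (o : W) (r : ℕ) : Prop :=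
  ∀ v : V, ∃ φ : G.induce (ball G v r) ≃g F.induce (ball F o r),
    φ ⟨v, self_mem_ball G v r⟩ = ⟨o, self_mem_ball F o r⟩

/-- Cayley graph -/
def cayG {Γ : Type*} [Group Γ] (S : Set Γ) : SimpleGraph Γ :=
  SimpleGraph.fromRel fun g h => ∃ s ∈ S, h = g * s

variable {Γ : Type*} [Group Γ] {T : Type*} {X : Type*}

def evp (π : T → Equiv.Perm X) (w : List T) : Equiv.Perm X := (w.map π).prod
def vv (val : T → Γ) (w : List T) : Γ := (w.map val).prod

@[simp] theorem evp_nil (π : T → Equiv.Perm X) : evp π [] = 1 := rfl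
@[simp] theorem evp_cons (π : T → Equiv.Perm X) (t : T) (w : List T) :
    evp π (t :: w) = π t * evp π w := by simp [evp]
@[simp] theorem evp_append (π : T → Equiv.Perm X) (u w : List T) :
    evp π (u ++ w) = evp π u * evp π w := by simp [evp]
@[simp] theorem vv_nil (val : T → Γ) : vv val [] = 1 := rfl
@[simp] theorem vv_cons (val : T → Γ) (t : T) (w : List T) :
    vv val (t :: w) = val t * vv val w := by simp [vv]
@[simp] theorem vv_append (val : T → Γ) (u w : List T) :
    vv val (u ++ w) = vv val u * vv val w := by simp [vv]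

/-- a labelled system which is `Λ`-local -/
def Lcl (val : T → Γ) (Λ : ℕ) (π : T → Equiv.Perm X) : Prop :=
  ∀ w : List T, w.length ≤ Λ → ∀ x, evp π w x = x ↔ vv val w = 1

structure LetH (val : T → Γ) : Prop where
  inj : Function.Injective val
  inv : ∀ t, val t * val t = 1
  ne : ∀ t, val t ≠ 1

def lk (val : T → Γ) (s t : T) : Prop := ∃ u, val u = val s * val t

def Rig (val : T → Γ) : Prop :=
  ∀ θ : T → T, Function.Bijective θ → (∀ s t, lk val s t ↔ lk val (θ s) (θ t)) → ∀ t, θ t = t

/-- graph of a system -/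
def gr (π : T → Equiv.Perm X) : SimpleGraph X := SimpleGraph.fromRel fun x y => ∃ t, π t x = y

variable {val : T → Γ}

theorem val_inv (H : LetH val) (t : T) : (val t)⁻¹ = val t := inv_eq_of_mul_eq_one_right (H.inv t)

theorem vv_reverse (H : LetH val) (w : List T) : vv val w.reverse = (vv val w)⁻¹ := by
  induction w with
  | nil => simp
  | cons t w ih => simp [ih, val_inv H]

theorem cay_adj (H : LetH val) (g h : Γ) :
    (cayG (Set.range val)).Adj g h ↔ ∃ t, h = g * val t := by
  unfold cayG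
  rw [SimpleGraph.fromRel_adj]
  constructor
  · rintro ⟨_, ⟨s, ⟨t, rfl⟩, h1⟩ | ⟨s, ⟨t, rfl⟩, h1⟩⟩
    · exact ⟨t, h1⟩
    · exact ⟨t, by rw [h1, mul_assoc, H.inv, mul_one]⟩
  · rintro ⟨t, ht⟩
    refine ⟨fun h1 => ?_, Or.inl ⟨val t, ⟨t, rfl⟩, ht⟩⟩
    rw [← h1] at ht
    exact H.ne t (mul_left_cancel (a := g) (by rw [mul_one]; exact ht.symm))

theorem cay_ball (H : LetH val) (r : ℕ) (g : Γ) :
    g ∈ ball (cayG (Set.range val)) 1 r ↔ ∃ w : List T, w.length ≤ r ∧ vv val w = g := by
  constructor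
  · rintro ⟨p, hp⟩
    have key : ∀ (a b : Γ) (p : (cayG (Set.range val)).Walk a b),
        ∃ w : List T, w.length = p.length ∧ a * vv val w = b := by
      intro a b p
      induction p with
      | nil => exact ⟨[], rfl, by simp⟩
      | cons h p ih =>
        obtain ⟨w, h1, h2⟩ := ih
        obtain ⟨t, ht⟩ := (cay_adj H _ _).1 h
        refine ⟨t :: w, by simp [h1], ?_⟩
        rw [vv_cons, ← mul_assoc, ← ht, h2]
    obtain ⟨w, h1, h2⟩ := key _ _ p
    exact ⟨w, by omega, by simpa using h2⟩
  · rintro ⟨w, hw, rfl⟩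
    have key : ∀ (w : List T) (a : Γ), ∃ p : (cayG (Set.range val)).Walk a (a * vv val w),
        p.length = w.length := by
      intro w
      induction w with
      | nil => intro a; exact ⟨SimpleGraph.Walk.nil.copy rfl (by simp), by simp⟩
      | cons t w ih =>
        intro a
        obtain ⟨p, hp⟩ := ih (a * val t)
        have hadj : (cayG (Set.range val)).Adj a (a * val t) := (cay_adj H _ _).2 ⟨t, rfl⟩
        refine ⟨(SimpleGraph.Walk.cons hadj p).copy rfl (by rw [vv_cons, mul_assoc]), by simp [hp]⟩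
    obtain ⟨p, hp⟩ := key w 1
    exact ⟨p.copy rfl (by simp), by simpa [hp] using hw⟩

variable {π : T → Equiv.Perm X} {r Λ : ℕ}

theorem Lcl.mono {Λ' : ℕ} (h : Lcl val Λ π) (hle : Λ' ≤ Λ) : Lcl val Λ' π :=
  fun w hw => h w (hw.trans hle)

theorem Lcl.sq (H : LetH val) (h : Lcl val Λ π) (hΛ : 2 ≤ Λ) (t : T) (x : X) : π t (π t x) = x := by
  have := (h [t, t] (by simpa using hΛ) x).2 (by simp [H.inv])
  simpa using this

theorem Lcl.reverse (H : LetH val) (h : Lcl val Λ π) (hΛ : 2 ≤ Λ) (w : List T) :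
    evp π w.reverse = (evp π w)⁻¹ := by
  have hsq : ∀ t, (π t)⁻¹ = π t := fun t => by
    apply inv_eq_of_mul_eq_one_right
    ext x; simpa using h.sq H hΛ t x
  induction w with
  | nil => simp
  | cons t w ih => simp [ih, hsq]

theorem Lcl.eq_iff (H : LetH val) (h : Lcl val Λ π) (hΛ : 2 ≤ Λ) (u w : List T)
    (hl : u.length + w.length ≤ Λ) (x : X) : evp π u x = evp π w x ↔ vv val u = vv val w := by
  have := h (w.reverse ++ u) (by simp; omega) x
  rw [evp_append, h.reverse H hΛ, vv_append, vv_reverse H] at this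
  rw [Equiv.Perm.mul_apply, Equiv.Perm.inv_def, Equiv.symm_apply_eq, inv_mul_eq_one] at this
  rw [this]
  exact eq_comm

theorem gr_adj (H : LetH val) (h : Lcl val Λ π) (hΛ : 2 ≤ Λ) (x y : X) :
    (gr π).Adj x y ↔ ∃ t, π t x = y := by
  unfold gr
  rw [SimpleGraph.fromRel_adj]
  constructor
  · rintro ⟨_, ⟨t, h1⟩ | ⟨t, h1⟩⟩
    · exact ⟨t, h1⟩
    · exact ⟨t, by rw [← h1, h.sq H hΛ]⟩
  · rintro ⟨t, ht⟩
    refine ⟨fun h1 => ?_, Or.inl ⟨t, ht⟩⟩
    have := (h [t] (by simp; omega) x).1 (by simpa [h1] using ht)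
    exact H.ne t (by simpa using this)

theorem gr_ball (H : LetH val) (h : Lcl val Λ π) (hΛ : 2 ≤ Λ) (v u : X) (r : ℕ) :
    u ∈ ball (gr π) v r ↔ ∃ w : List T, w.length ≤ r ∧ evp π w v = u := by
  constructor
  · rintro ⟨p, hp⟩
    have key : ∀ (a b : X) (p : (gr π).Walk a b),
        ∃ w : List T, w.length = p.length ∧ evp π w a = b := by
      intro a b p
      induction p with
      | nil => exact ⟨[], rfl, rfl⟩
      | cons hadj p ih =>
        obtain ⟨w, h1, h2⟩ := ih
        obtain ⟨t, ht⟩ := (gr_adj H h hΛ _ _).1 hadj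
        refine ⟨w ++ [t], by simp [h1], ?_⟩
        rw [evp_append, Equiv.Perm.mul_apply]
        simp [ht, h2]
    obtain ⟨w, h1, h2⟩ := key _ _ p
    exact ⟨w, by omega, h2⟩
  · rintro ⟨w, hw, rfl⟩
    have key : ∀ (w : List T), ∃ p : (gr π).Walk v (evp π w v), p.length = w.length := by
      intro w
      induction w with
      | nil => exact ⟨SimpleGraph.Walk.nil, rfl⟩
      | cons t w ih =>
        obtain ⟨p, hp⟩ := ih
        have hadj : (gr π).Adj (evp π w v) (evp π (t :: w) v) :=
          (gr_adj H h hΛ _ _).2 ⟨t, by simp⟩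
        exact ⟨p.append (SimpleGraph.Walk.cons hadj SimpleGraph.Walk.nil), by simp [hp]⟩
    obtain ⟨p, hp⟩ := key w
    exact ⟨p, by omega⟩

theorem gr_reach (H : LetH val) (h : Lcl val Λ π) (hΛ : 2 ≤ Λ) (v u : X) :
    (gr π).Reachable v u ↔ ∃ w : List T, evp π w v = u := by
  constructor
  · rintro ⟨p⟩
    obtain ⟨w, _, hw⟩ := (gr_ball H h hΛ v u p.length).1 ⟨p, le_refl _⟩
    exact ⟨w, hw⟩
  · rintro ⟨w, hw⟩
    obtain ⟨p, _⟩ := (gr_ball H h hΛ v u w.length).2 ⟨w, le_refl _, hw⟩
    exact ⟨p⟩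

/-- local systems give locally prescribed graphs -/
theorem local_of_system (H : LetH val) (hr : 1 ≤ r) (h : Lcl val (2 * r + 1) π) :
    RLocal (gr π) (cayG (Set.range val)) 1 r := by
  intro v
  have hΛ : 2 ≤ 2 * r + 1 := by omega
  -- word for each element
  have hw : ∀ g : ball (cayG (Set.range val)) 1 r, ∃ w : List T, w.length ≤ r ∧ vv val w = g.1⁻¹ := by
    rintro ⟨g, hg⟩
    obtain ⟨w, h1, h2⟩ := (cay_ball H r g).1 hg
    exact ⟨w.reverse, by simpa using h1, by rw [vv_reverse H, h2]⟩
  choose wd hwd1 hwd2 using hw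
  let Ψ : ball (cayG (Set.range val)) 1 r → ball (gr π) v r := fun g =>
    ⟨evp π (wd g) v, (gr_ball H h hΛ _ _ _).2 ⟨wd g, hwd1 g, rfl⟩⟩
  have hinj : Function.Injective Ψ := by
    intro g g' hgg
    have h1 : evp π (wd g) v = evp π (wd g') v := congrArg Subtype.val hgg
    rw [h.eq_iff H hΛ _ _ (by have := hwd1 g; have := hwd1 g'; omega)] at h1
    rw [hwd2, hwd2, inv_inj] at h1
    exact Subtype.ext h1
  have hsurj : Function.Surjective Ψ := by
    rintro ⟨u, hu⟩
    obtain ⟨w, h1, h2⟩ := (gr_ball H h hΛ _ _ _).1 hu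
    have hmem : (vv val w)⁻¹ ∈ ball (cayG (Set.range val)) 1 r :=
      (cay_ball H r _).2 ⟨w.reverse, by simpa using h1, vv_reverse H w⟩
    refine ⟨⟨(vv val w)⁻¹, hmem⟩, ?_⟩
    apply Subtype.ext
    show evp π (wd _) v = u
    rw [← h2, h.eq_iff H hΛ _ _ (by have := hwd1 ⟨(vv val w)⁻¹, hmem⟩; omega), hwd2, inv_inv]
  let e := Equiv.ofBijective Ψ ⟨hinj, hsurj⟩
  have hadj : ∀ g g' : ball (cayG (Set.range val)) 1 r,
      (gr π).Adj (Ψ g).1 (Ψ g').1 ↔ (cayG (Set.range val)).Adj g.1 g'.1 := by
    intro g g'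
    rw [gr_adj H h hΛ, cay_adj H]
    apply exists_congr
    intro t
    show π t (evp π (wd g) v) = evp π (wd g') v ↔ _
    have h1 := h.eq_iff H hΛ (t :: wd g) (wd g') (by
      have := hwd1 g; have := hwd1 g'; simp; omega) v
    rw [evp_cons, Equiv.Perm.mul_apply] at h1
    rw [h1, vv_cons, hwd2, hwd2]
    constructor
    · intro h2
      rw [← inv_inv (g' : Γ), ← h2, mul_inv_rev, inv_inv, val_inv H]
    · intro h2
      rw [h2, mul_inv_rev, val_inv H]
  refine ⟨RelIso.symm ⟨e, fun {a b} => hadj a b⟩, ?_⟩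
  show e.symm ⟨v, self_mem_ball _ _ _⟩ = ⟨1, self_mem_ball _ _ _⟩
  rw [Equiv.symm_apply_eq]
  apply Subtype.ext
  show v = evp π (wd _) v
  symm
  rw [h _ (by have := hwd1 ⟨1, self_mem_ball (cayG (Set.range val)) 1 r⟩; omega), hwd2, inv_one]

/-- uniqueness of labels -/
theorem label_unique (H : LetH val) (hR : Rig val) (hΛ : 3 ≤ Λ) {π' : T → Equiv.Perm X}
    (h : Lcl val Λ π) (h' : Lcl val Λ π') (hg : gr π = gr π') : π = π' := by
  have link : ∀ (π : T → Equiv.Perm X), Lcl val Λ π → ∀ (s t : T) (v : X),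
      (gr π).Adj (π s v) (π t v) ↔ lk val s t := by
    intro π h s t v
    rw [gr_adj H h (by omega)]
    unfold lk
    have h1 : ∀ u, π u (π s v) = π t v ↔ val u = val t * val s := by
      intro u
      have := h.eq_iff H (by omega) [u, s] [t] (by simpa using hΛ) v
      simp only [evp_cons, evp_nil, mul_one, Equiv.Perm.mul_apply, vv_cons, vv_nil] at this
      rw [this]
      constructor
      · intro h2; rw [← h2, mul_assoc, H.inv, mul_one]
      · intro h2; rw [h2, mul_assoc, H.inv, mul_one]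
    simp only [h1]
    constructor
    · rintro ⟨u, hu⟩
      exact ⟨u, by rw [← val_inv H u, hu, mul_inv_rev, val_inv H, val_inv H]⟩
    · rintro ⟨u, hu⟩
      exact ⟨u, by rw [← val_inv H u, hu, mul_inv_rev, val_inv H, val_inv H]⟩
  funext t
  ext v
  -- the transition map at v
  have hex : ∀ t, ∃ t', π' t' v = π t v := by
    intro t
    have : (gr π).Adj v (π t v) := (gr_adj H h (by omega) _ _).2 ⟨t, rfl⟩
    rw [hg] at this
    exact (gr_adj H h' (by omega) _ _).1 this
  have hex' : ∀ t, ∃ t', π t' v = π' t v := by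
    intro t
    have : (gr π').Adj v (π' t v) := (gr_adj H h' (by omega) _ _).2 ⟨t, rfl⟩
    rw [← hg] at this
    exact (gr_adj H h (by omega) _ _).1 this
  choose θ hθ using hex
  choose θ' hθ' using hex'
  have one_inj : ∀ (π : T → Equiv.Perm X), Lcl val Λ π → ∀ s t, π s v = π t v → s = t := by
    intro π h s t hst
    have := (h.eq_iff H (by omega) [s] [t] (by simp; omega) v).1 (by simpa using hst)
    exact H.inj (by simpa using this)
  have hbij : Function.Bijective θ := by
    constructor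
    · intro s t hst
      apply one_inj π h
      rw [← hθ, ← hθ, hst]
    · intro t
      refine ⟨θ' t, ?_⟩
      apply one_inj π' h'
      rw [hθ, hθ']
  have := hR θ hbij (by
    intro s t
    rw [← link π h s t v, ← link π' h' (θ s) (θ t) v, hθ, hθ, hg]) t
  rw [← hθ t, this]

/-- locally prescribed graphs come from local systems -/
theorem system_of_local (H : LetH val) (hR : Rig val) (hr : 2 ≤ r) (G : SimpleGraph X)
    (hodd : ∀ π : T → Equiv.Perm X, Lcl val (2 * r) π → ∀ w : List T, w.length = 2 * r + 1 →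
      vv val w = 1 → evp π w = 1)
    (hG : RLocal G (cayG (Set.range val)) 1 r) :
    ∃ π : T → Equiv.Perm X, Lcl val (2 * r + 1) π ∧ gr π = G := by
  classical
  set F := cayG (Set.range val) with hF
  choose φ hφ using hG
  let Br := ball F 1 r
  -- inverse map
  let ψ : X → Γ → X := fun v g => if hg : g ∈ ball F 1 r then ((φ v).symm ⟨g, hg⟩).1 else v
  have hψ : ∀ v g (hg : g ∈ ball F 1 r), ψ v g = ((φ v).symm ⟨g, hg⟩).1 := by
    intro v g hg; simp only [ψ]; rw [dif_pos hg]
  have hψ1 : ∀ v, ψ v 1 = v := by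
    intro v
    rw [hψ v 1 (self_mem_ball _ _ _)]
    have := (RelIso.symm_apply_apply (φ v) ⟨v, self_mem_ball G v r⟩)
    rw [hφ] at this
    rw [this]
  have hadj : ∀ v g h, g ∈ ball F 1 r → h ∈ ball F 1 r →
      (G.Adj (ψ v g) (ψ v h) ↔ ∃ t, h = g * val t) := by
    intro v g h hg hh
    rw [hψ v g hg, hψ v h hh, ← cay_adj H]
    have := (φ v).symm.map_rel_iff (a := ⟨g, hg⟩) (b := ⟨h, hh⟩)
    exact this
  have hinj : ∀ v g h, g ∈ ball F 1 r → h ∈ ball F 1 r → ψ v g = ψ v h → g = h := by
    intro v g h hg hh he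
    rw [hψ v g hg, hψ v h hh] at he
    have := (φ v).symm.injective (Subtype.ext he)
    exact congrArg Subtype.val this
  have hsurj : ∀ v u, u ∈ ball G v r → ∃ g, g ∈ ball F 1 r ∧ ψ v g = u := by
    intro v u hu
    refine ⟨(φ v ⟨u, hu⟩).1, (φ v ⟨u, hu⟩).2, ?_⟩
    rw [hψ v _ (φ v ⟨u, hu⟩).2]
    simp
  have hbw : ∀ (w : List T) (k : ℕ), w.length ≤ k → vv val w ∈ ball F 1 k :=
    fun w k hw => (cay_ball H k _).2 ⟨w, hw, rfl⟩
  have hbmono : ∀ (v : X) (k l : ℕ), k ≤ l → ball G v k ⊆ ball G v l :=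
    fun v k l hkl u ⟨p, hp⟩ => ⟨p, hp.trans hkl⟩
  -- distances
  have hdist : ∀ (v : X) (w : List T), w.length ≤ r → ψ v (vv val w) ∈ ball G v w.length := by
    intro v w
    induction w using List.reverseRecOn with
    | nil => intro _; rw [vv_nil, hψ1]; exact self_mem_ball _ _ _
    | append_singleton w t ih =>
      intro hw
      rw [List.length_append, List.length_singleton] at hw ⊢
      obtain ⟨p, hp⟩ := ih (by omega)
      have hA : G.Adj (ψ v (vv val w)) (ψ v (vv val (w ++ [t]))) :=
        (hadj v _ _ (hbw w r (by omega)) (hbw _ r (by simp; omega))).2 ⟨t, by simp⟩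
      exact ⟨p.append (SimpleGraph.Walk.cons hA SimpleGraph.Walk.nil), by
        rw [SimpleGraph.Walk.length_append]; simp; omega⟩
  -- neighbours
  have hnb : ∀ (v : X) (w : List T), w.length + 1 ≤ r → ∀ y, G.Adj (ψ v (vv val w)) y →
      ∃ t, y = ψ v (vv val (w ++ [t])) := by
    intro v w hw y hy
    obtain ⟨p, hp⟩ := hdist v w (by omega)
    have hyb : y ∈ ball G v r := ⟨p.append (SimpleGraph.Walk.cons hy SimpleGraph.Walk.nil), by
        rw [SimpleGraph.Walk.length_append]; simp; omega⟩
    obtain ⟨g, hg, rfl⟩ := hsurj v y hyb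
    obtain ⟨t, ht⟩ := (hadj v _ _ (hbw w r (by omega)) hg).1 hy
    exact ⟨t, by rw [ht]; simp⟩
  have hone : ∀ t : T, val t = vv val [t] := fun t => by simp
  -- labels agree
  have hstar : ∀ (v : X) (w : List T), w.length + 1 ≤ r → ∀ t,
      ψ (ψ v (vv val w)) (val t) = ψ v (vv val (w ++ [t])) := by
    intro v w hw
    set u := ψ v (vv val w) with hu
    have hex : ∀ t, ∃ t', ψ u (val t) = ψ v (vv val (w ++ [t'])) := by
      intro t
      apply hnb v w hw
      have := (hadj u 1 (val t) (self_mem_ball _ _ _) (by rw [hone]; exact hbw _ _ (by simp; omega))).2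
        ⟨t, by simp⟩
      rwa [hψ1] at this
    have hex' : ∀ t, ∃ t', ψ v (vv val (w ++ [t])) = ψ u (val t') := by
      intro t
      have h1 : G.Adj u (ψ v (vv val (w ++ [t]))) :=
        (hadj v _ _ (hbw w r (by omega)) (hbw _ r (by simp; omega))).2 ⟨t, by simp⟩
      have h2 : G.Adj (ψ u (vv val ([] : List T))) (ψ v (vv val (w ++ [t]))) := by
        rw [vv_nil, hψ1]; exact h1
      obtain ⟨t', ht'⟩ := hnb u [] (by simp; omega) _ h2
      exact ⟨t', by rw [ht']; simp⟩
    choose θ hθ using hex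
    choose θ' hθ' using hex'
    have hb1 : ∀ t, val t ∈ ball F 1 r := fun t => by rw [hone]; exact hbw _ _ (by simp; omega)
    have hb2 : ∀ t, vv val (w ++ [t]) ∈ ball F 1 r := fun t => hbw _ _ (by simp; omega)
    have hbij : Function.Bijective θ := by
      constructor
      · intro s t hst
        apply H.inj
        apply hinj u _ _ (hb1 s) (hb1 t)
        rw [hθ, hθ, hst]
      · intro t
        refine ⟨θ' t, ?_⟩
        have h1 := hinj v _ _ (hb2 (θ (θ' t))) (hb2 t) (by rw [← hθ, ← hθ'])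
        rw [vv_append, vv_append] at h1
        have h2 := mul_left_cancel h1
        exact H.inj (by simpa using h2)
    have hlk1 : ∀ s t, G.Adj (ψ u (val s)) (ψ u (val t)) ↔ lk val s t := by
      intro s t
      rw [hadj u _ _ (hb1 s) (hb1 t)]
      unfold lk
      apply exists_congr
      intro a
      constructor
      · intro h1; rw [h1, ← mul_assoc, H.inv, one_mul]
      · intro h1; rw [h1, ← mul_assoc, H.inv, one_mul]
    have hlk2 : ∀ s t, G.Adj (ψ v (vv val (w ++ [s]))) (ψ v (vv val (w ++ [t]))) ↔ lk val s t := by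
      intro s t
      rw [hadj v _ _ (hb2 s) (hb2 t)]
      unfold lk
      apply exists_congr
      intro a
      simp only [vv_append, vv_cons, vv_nil, mul_one]
      rw [mul_assoc, mul_left_cancel_iff]
      constructor
      · intro h1; rw [h1, ← mul_assoc, H.inv, one_mul]
      · intro h1; rw [h1, ← mul_assoc, H.inv, one_mul]
    intro t
    have := hR θ hbij (by
      intro s t
      rw [← hlk1, hθ, hθ, hlk2]) t
    rw [hθ, this]
  -- the permutations
  have hinvol : ∀ t, Function.Involutive fun v => ψ v (val t) := by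
    intro t v
    have := hstar v [t] (by simp; omega) t
    rw [← hone] at this
    show ψ (ψ v (val t)) (val t) = v
    rw [this]
    have : vv val ([t] ++ [t]) = 1 := by simp [H.inv]
    rw [this, hψ1]
  let π : T → Equiv.Perm X := fun t => (hinvol t).toPerm
  have hπ : ∀ t v, π t v = ψ v (val t) := fun t v => rfl
  have hev : ∀ (w : List T) (v : X), w.length ≤ r → evp π w v = ψ v ((vv val w)⁻¹) := by
    intro w
    induction w with
    | nil => intro v _; simp [hψ1]
    | cons t w ih =>
      intro v hw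
      rw [List.length_cons] at hw
      rw [evp_cons, Equiv.Perm.mul_apply, ih v (by omega), hπ, ← vv_reverse H,
        hstar v w.reverse (by simp; omega), ← vv_reverse H]
      simp
  have hr2 : ∀ t, (π t)⁻¹ = π t := by
    intro t
    apply inv_eq_of_mul_eq_one_right
    ext v
    exact hinvol t v
  have hrev : ∀ w : List T, evp π w.reverse = (evp π w)⁻¹ := by
    intro w
    induction w with
    | nil => simp
    | cons t w ih => simp [ih, hr2]
  have hinvb : ∀ w : List T, w.length ≤ r → (vv val w)⁻¹ ∈ ball F 1 r := fun w hw => by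
    rw [← vv_reverse H]; exact hbw _ _ (by simpa using hw)
  have hloc : Lcl val (2 * r) π := by
    intro w hw v
    obtain ⟨w1, w2, rfl, h1, h2⟩ : ∃ w1 w2, w = w1 ++ w2 ∧ w1.length ≤ r ∧ w2.length ≤ r :=
      ⟨w.take r, w.drop r, (List.take_append_drop r w).symm, by simp, by simp; omega⟩
    rw [evp_append, Equiv.Perm.mul_apply]
    have e1 : evp π w1 (evp π w2 v) = v ↔ evp π w2 v = evp π w1.reverse v := by
      rw [hrev, Equiv.Perm.inv_def, Equiv.eq_symm_apply]
    rw [e1, hev w2 v h2, hev w1.reverse v (by simpa using h1), vv_reverse H, inv_inv, vv_append]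
    constructor
    · intro h3
      have := hinj v _ _ (hinvb w2 h2) (hbw w1 r h1) h3
      rw [← this]; simp
    · intro h3
      rw [inv_eq_of_mul_eq_one_left h3]
  have hloc' : Lcl val (2 * r + 1) π := by
    intro w hw v
    rcases Nat.lt_or_ge w.length (2 * r + 1) with hlt | hge
    · exact hloc w (by omega) v
    have hlen : w.length = 2 * r + 1 := by omega
    constructor
    · intro hfix
      obtain ⟨w1, s, w2, rfl, h1, h2⟩ : ∃ w1 s w2, w = w1 ++ s :: w2 ∧ w1.length = r ∧
          w2.length = r := by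
        have hlt : r < w.length := by omega
        refine ⟨w.take r, w[r], w.drop (r + 1), ?_, by simp; omega, by simp; omega⟩
        rw [List.cons_getElem_drop_succ, List.take_append_drop]
      have hA : π s (evp π w2 v) = evp π w1.reverse v := by
        rw [hrev, Equiv.Perm.inv_def, Equiv.eq_symm_apply]
        simpa using hfix
      have hadj1 : G.Adj (evp π w2 v) (π s (evp π w2 v)) := by
        rw [hπ]
        have := (hadj (evp π w2 v) 1 (val s) (self_mem_ball _ _ _)
          (by rw [hone]; exact hbw _ _ (by simp; omega))).2 ⟨s, by simp⟩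
        rwa [hψ1] at this
      rw [hA, hev w2 v (by omega), hev w1.reverse v (by simp; omega), vv_reverse H, inv_inv,
        hadj v _ _ (hinvb w2 (by omega)) (hbw w1 r (by omega))] at hadj1
      obtain ⟨s', hs'⟩ := hadj1
      have hv : vv val (w1 ++ s' :: w2) = 1 := by
        rw [vv_append, vv_cons, hs', mul_assoc, ← mul_assoc (val s'), H.inv, one_mul,
          inv_mul_cancel]
      have hev1 := hodd π hloc (w1 ++ s' :: w2) (by simp; omega) hv
      have hB : π s' (evp π w2 v) = evp π w1.reverse v := by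
        rw [hrev, Equiv.Perm.inv_def, Equiv.eq_symm_apply]
        have := congrArg (fun f : Equiv.Perm X => f v) hev1
        simpa using this
      have hss : val s = val s' := by
        have := (hloc.eq_iff H (by omega) [s] [s'] (by simp; omega) (evp π w2 v)).1
          (by simpa using hA.trans hB.symm)
        simpa using this
      rw [← hv]
      simp [hss]
    · intro hv
      have := hodd π hloc w hlen hv
      rw [this]; rfl
  refine ⟨π, hloc', ?_⟩
  ext u y
  rw [gr_adj H hloc' (by omega)]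
  constructor
  · rintro ⟨t, rfl⟩
    rw [hπ]
    have := (hadj u 1 (val t) (self_mem_ball _ _ _)
      (by rw [hone]; exact hbw _ _ (by simp; omega))).2 ⟨t, by simp⟩
    rwa [hψ1] at this
  · intro hA
    have h2 : G.Adj (ψ u (vv val ([] : List T))) y := by
      rw [vv_nil, hψ1]; exact hA
    obtain ⟨t, ht⟩ := hnb u [] (by simp; omega) _ h2
    exact ⟨t, by rw [hπ, ht]; simp⟩

end Run7.h459
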