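import Pool.Agent.Run7.h459.PM

set_option linter.unusedSectionVars false

/-! Tight sets and the existence of many good matchings. -/

namespace Run7.h459

open Finset

variable {O : Type*} [Fintype O] [DecidableEq O]

/-- a set in which each element has a near partner -/
def Tight (nr : O → Finset O) (U : Finset O) : Prop := ∀ x ∈ U, ∃ y ∈ U, y ≠ x ∧ y ∈ nr x

theorem exists_dom (nr : O → Finset O) (hsym : ∀ x y, y ∈ nr x → x ∈ nr y) (U : Finset O)
    (hU : Tight nr U) :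
    ∃ D ⊆ U, 2 * D.card ≤ U.card ∧ ∀ x ∈ U, ∃ d ∈ D, x = d ∨ x ∈ nr d := by
  classical
  let Dom : Finset (Finset O) := U.powerset.filter fun D => ∀ x ∈ U, ∃ d ∈ D, x = d ∨ x ∈ nr d
  have hne : Dom.Nonempty := ⟨U, by
    rw [mem_filter, mem_powerset]
    exact ⟨Subset.refl _, fun x hx => ⟨x, hx, Or.inl rfl⟩⟩⟩
  obtain ⟨D, hD, hmin⟩ := exists_min_image Dom card hne
  obtain ⟨hDU, hdom⟩ := mem_filter.1 hD
  rw [mem_powerset] at hDU
  have hco : U \ D ∈ Dom := by
    rw [mem_filter, mem_powerset]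
    refine ⟨sdiff_subset, fun x hx => ?_⟩
    by_cases hxD : x ∈ D
    · -- minimality
      have h1 : D.erase x ∉ Dom := by
        intro h
        have := hmin _ h
        rw [card_erase_of_mem hxD] at this
        have := card_pos.2 ⟨x, hxD⟩
        omega
      rw [mem_filter, mem_powerset] at h1
      push Not at h1
      obtain ⟨u, hu, hu2⟩ := h1 ((erase_subset _ _).trans hDU)
      by_cases hux : u = x
      · subst hux
        obtain ⟨y, hy, hyu, hyn⟩ := hU u hu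
        refine ⟨y, ?_, Or.inr (hsym _ _ hyn)⟩
        rw [mem_sdiff]
        refine ⟨hy, fun hyD => ?_⟩
        exact (hu2 y (mem_erase.2 ⟨hyu, hyD⟩)).2 (hsym _ _ hyn)
      · obtain ⟨d, hd, hd2⟩ := hdom u hu
        have hdx : d = x := by
          by_contra hdx
          have := hu2 d (mem_erase.2 ⟨hdx, hd⟩)
          rcases hd2 with h | h
          · exact this.1 h
          · exact this.2 h
        subst hdx
        rcases hd2 with h | h
        · exact absurd h hux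
        · refine ⟨u, ?_, Or.inr (hsym _ _ h)⟩
          rw [mem_sdiff]
          refine ⟨hu, fun huD => ?_⟩
          exact (hu2 u (mem_erase.2 ⟨hux, huD⟩)).1 rfl
    · exact ⟨x, mem_sdiff.2 ⟨hx, hxD⟩, Or.inl rfl⟩
  have h2 := hmin _ hco
  rw [card_sdiff_of_subset hDU] at h2
  exact ⟨D, hDU, by omega, hdom⟩

/-- counting tight sets through a point -/
theorem count_tight (nr : O → Finset O) (hsym : ∀ x y, y ∈ nr x → x ∈ nr y) (Δ : ℕ)
    (hΔ : ∀ x, (insert x (nr x)).card ≤ Δ) (o : O) (j : ℕ) (hj : 1 ≤ j) (𝒱 : Finset (Finset O))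
    (h𝒱 : ∀ U ∈ 𝒱, Tight nr U ∧ o ∈ U ∧ U.card = 2 * j) :
    𝒱.card ≤ Δ * (Fintype.card O ^ (j - 1) * 2 ^ (j * Δ)) := by
  classical
  let W : O → (Fin (j - 1) → O) → Finset O := fun d g =>
    (insert d (nr d)) ∪ univ.biUnion fun k => insert (g k) (nr (g k))
  have hW : ∀ d g, (W d g).card ≤ j * Δ := by
    intro d g
    refine (card_union_le _ _).trans ?_
    have h1 : (univ.biUnion fun k => insert (g k) (nr (g k))).card ≤ (j - 1) * Δ := by
      refine card_biUnion_le.trans ?_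
      calc ∑ k : Fin (j - 1), (insert (g k) (nr (g k))).card ≤ ∑ k : Fin (j - 1), Δ :=
            sum_le_sum fun k _ => hΔ _
        _ = _ := by simp
    have h2 := hΔ d
    have h3 : j * Δ = Δ + (j - 1) * Δ := by
      obtain ⟨j', rfl⟩ := Nat.exists_eq_add_of_le hj
      rw [Nat.add_sub_cancel_left]; ring
    omega
  have hcov : 𝒱 ⊆ (insert o (nr o)).biUnion fun d =>
      (univ : Finset (Fin (j - 1) → O)).biUnion fun g => (W d g).powerset := by
    intro U hU
    obtain ⟨h1, h2, h3⟩ := h𝒱 U hU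
    obtain ⟨D, hDU, hD2, hdom⟩ := exists_dom nr hsym U h1
    obtain ⟨d, hd, hod⟩ := hdom o h2
    have hdo : d ∈ insert o (nr o) := by
      rw [mem_insert]
      rcases hod with h | h
      · left; exact h.symm
      · right; exact hsym _ _ h
    -- enumerate the rest
    have hcard : (D.erase d).card ≤ j - 1 := by
      rw [card_erase_of_mem hd]; omega
    let L := (D.erase d).toList
    have hL : L.length ≤ j - 1 := by rw [length_toList]; exact hcard
    rw [mem_biUnion]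
    refine ⟨d, hdo, ?_⟩
    rw [mem_biUnion]
    refine ⟨fun k => L.getD k.val d, mem_univ _, ?_⟩
    rw [mem_powerset]
    intro x hx
    obtain ⟨d', hd', hxd⟩ := hdom x hx
    rw [mem_union]
    by_cases hdd : d' = d
    · left; rw [mem_insert, ← hdd]; exact hxd
    · right
      have hm : d' ∈ L := mem_toList.2 (mem_erase.2 ⟨hdd, hd'⟩)
      obtain ⟨k, hk, hk2⟩ := List.getElem_of_mem hm
      rw [mem_biUnion]
      refine ⟨⟨k, by omega⟩, mem_univ _, ?_⟩
      have : L.getD k d = d' := by rw [← hk2]; exact List.getD_eq_getElem _ _ hk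
      rw [mem_insert]
      simp only [this]
      exact hxd
  refine (card_le_card hcov).trans ?_
  refine card_biUnion_le.trans ?_
  calc ∑ d ∈ insert o (nr o), ((univ : Finset (Fin (j - 1) → O)).biUnion
        fun g => (W d g).powerset).card
      ≤ ∑ d ∈ insert o (nr o), Fintype.card O ^ (j - 1) * 2 ^ (j * Δ) := by
        apply sum_le_sum
        intro d _
        refine card_biUnion_le.trans ?_
        calc ∑ g : Fin (j - 1) → O, ((W d g).powerset).card
            ≤ ∑ g : Fin (j - 1) → O, 2 ^ (j * Δ) := by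
              apply sum_le_sum
              intro g _
              rw [card_powerset]
              exact Nat.pow_le_pow_right (by norm_num) (hW d g)
          _ = _ := by simp
    _ = (insert o (nr o)).card * (Fintype.card O ^ (j - 1) * 2 ^ (j * Δ)) := by
        rw [sum_const, smul_eq_mul]
    _ ≤ _ := Nat.mul_le_mul_right _ (hΔ o)

/-- the constant -/
noncomputable def cst (Λ Δ : ℕ) : ℝ :=
  ∑ j ∈ Icc 1 Λ, (Δ : ℝ) * 2 ^ (j * Δ) * (2 * ((2 * j : ℕ) : ℝ) ^ (2 * j)) * 2 ^ j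

theorem cst_nonneg (Λ Δ : ℕ) : 0 ≤ cst Λ Δ := by unfold cst; positivity

open Classical in
/-- bad sets -/
noncomputable def Bad (nr : O → Finset O) (Λ : ℕ) : Finset (Finset O) :=
  univ.filter fun U => U.Nonempty ∧ Tight nr U ∧ U.card ≤ 2 * Λ ∧ U.card % 2 = 0

theorem mem_Bad {nr : O → Finset O} {Λ : ℕ} {U : Finset O} :
    U ∈ Bad nr Λ ↔ U.Nonempty ∧ Tight nr U ∧ U.card ≤ 2 * Λ ∧ U.card % 2 = 0 := by
  classical
  unfold Bad
  rw [mem_filter]
  exact ⟨fun h => h.2, fun h => ⟨mem_univ _, h⟩⟩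

theorem weight_bound (nr : O → Finset O) (hsym : ∀ x y, y ∈ nr x → x ∈ nr y) (Δ Λ K : ℕ)
    (hΔ : ∀ x, (insert x (nr x)).card ≤ Δ) (hK : 0 < K) (hKN : Fintype.card O ≤ 2 * K) (o : O) :
    ∑ U ∈ (Bad nr Λ).filter (fun U => o ∈ U), wt K U ≤ cst Λ Δ / Fintype.card O := by
  classical
  have hN : 0 < Fintype.card O := Fintype.card_pos_iff.2 ⟨o⟩
  set S := (Bad nr Λ).filter (fun U => o ∈ U) with hS
  have hS' : ∀ U ∈ S, o ∈ U ∧ Tight nr U ∧ U.card ≤ 2 * Λ ∧ U.card % 2 = 0 := by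
    intro U hU
    rw [hS, mem_filter] at hU
    obtain ⟨h1, h2⟩ := hU
    rw [mem_Bad] at h1
    exact ⟨h2, h1.2⟩
  have hmap : ∀ U ∈ S, U.card / 2 ∈ Icc 1 Λ := by
    intro U hU
    obtain ⟨h1, h2, h3, h4⟩ := hS' U hU
    have := card_pos.2 ⟨o, h1⟩
    rw [mem_Icc]; omega
  rw [← sum_fiberwise_of_maps_to hmap, cst, sum_div]
  apply sum_le_sum
  intro j hj
  rw [mem_Icc] at hj
  have hc : ∀ U ∈ S.filter (fun U => U.card / 2 = j), U.card = 2 * j := by
    intro U hU
    obtain ⟨h1, h2⟩ := mem_filter.1 hU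
    have := (hS' U h1).2.2.2
    omega
  have hcount := count_tight nr hsym Δ hΔ o j hj.1 (S.filter (fun U => U.card / 2 = j)) (by
    intro U hU
    have h1 := hS' U (mem_filter.1 hU).1
    exact ⟨h1.2.1, h1.1, hc U hU⟩)
  have hK0 : (0:ℝ) < K := by exact_mod_cast hK
  have hN0 : (0:ℝ) < Fintype.card O := by exact_mod_cast hN
  have hKN' : (Fintype.card O : ℝ) ≤ 2 * K := by exact_mod_cast hKN
  calc ∑ U ∈ S.filter (fun U => U.card / 2 = j), wt K U
      = ∑ U ∈ S.filter (fun U => U.card / 2 = j),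
          2 * ((2 * j : ℕ) : ℝ) ^ (2 * j) / (K : ℝ) ^ j := by
        apply sum_congr rfl
        intro U hU
        unfold wt
        rw [hc U hU]
        congr 2
        omega
    _ = (S.filter (fun U => U.card / 2 = j)).card *
          (2 * ((2 * j : ℕ) : ℝ) ^ (2 * j) / (K : ℝ) ^ j) := by rw [sum_const, nsmul_eq_mul]
    _ ≤ ((Δ : ℝ) * ((Fintype.card O : ℝ) ^ (j - 1) * 2 ^ (j * Δ))) *
          (2 * ((2 * j : ℕ) : ℝ) ^ (2 * j) / (K : ℝ) ^ j) := by
        apply mul_le_mul_of_nonneg_right _ (by positivity)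
        exact_mod_cast hcount
    _ ≤ _ := by
        obtain ⟨j', rfl⟩ := Nat.exists_eq_add_of_le hj.1
        rw [Nat.add_sub_cancel_left, div_eq_mul_inv, le_div_iff₀ hN0]
        have e1 : (Fintype.card O : ℝ) ^ (1 + j') * ((K : ℝ) ^ (1 + j'))⁻¹ ≤ 2 ^ (1 + j') := by
          rw [← div_eq_mul_inv, div_le_iff₀ (by positivity), ← mul_pow]
          gcongr
        calc (Δ : ℝ) * ((Fintype.card O : ℝ) ^ j' * 2 ^ ((1 + j') * Δ)) *
              (2 * ((2 * (1 + j') : ℕ) : ℝ) ^ (2 * (1 + j')) * ((K : ℝ) ^ (1 + j'))⁻¹) *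
              (Fintype.card O : ℝ)
            = (Δ : ℝ) * 2 ^ ((1 + j') * Δ) * (2 * ((2 * (1 + j') : ℕ) : ℝ) ^ (2 * (1 + j'))) *
              ((Fintype.card O : ℝ) ^ (1 + j') * ((K : ℝ) ^ (1 + j'))⁻¹) := by
              rw [add_comm 1 j', pow_succ (Fintype.card O : ℝ) j']; ring
          _ ≤ (Δ : ℝ) * 2 ^ ((1 + j') * Δ) * (2 * ((2 * (1 + j') : ℕ) : ℝ) ^ (2 * (1 + j'))) *
              2 ^ (1 + j') := by gcongr

theorem one_sub_pow_bound {a : ℝ} (ha : 0 ≤ a) {N : ℕ} (hN : 2 * a ≤ N) (hN0 : 0 < N) :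
    Real.exp (-(2 * a)) ≤ (1 - a / N) ^ N := by
  have hN' : (0:ℝ) < N := by exact_mod_cast hN0
  set x := a / N with hx
  have hx0 : 0 ≤ x := by positivity
  have hx1 : x ≤ 1 / 2 := by
    rw [hx, div_le_iff₀ hN']; linarith
  have h1 : Real.exp (-(2 * x)) ≤ 1 - x := by
    -- exp (2x) >= 1 + 2x and (1+2x)(1-x) >= 1
    have h2 : 1 + 2 * x ≤ Real.exp (2 * x) := by
      have := Real.add_one_le_exp (2 * x); linarith
    have h3 : 1 ≤ (1 - x) * (1 + 2 * x) := by nlinarith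
    have h4 : 1 ≤ (1 - x) * Real.exp (2 * x) := by
      calc 1 ≤ (1 - x) * (1 + 2 * x) := h3
        _ ≤ _ := by
          apply mul_le_mul_of_nonneg_left h2; linarith
    rw [Real.exp_neg]
    rw [inv_le_iff_one_le_mul₀ (Real.exp_pos _)]
    exact h4
  calc Real.exp (-(2 * a)) = (Real.exp (-(2 * x))) ^ N := by
        rw [← Real.exp_nat_mul]
        congr 1
        rw [hx]; field_simp
    _ ≤ (1 - x) ^ N := by
        gcongr

/-- the existence of many good matchings -/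
theorem many_good (Λ Δ : ℕ) : ∃ (c : ℝ) (N0 : ℕ), 0 < c ∧ ∀ (O : Type) [Fintype O] [DecidableEq O]
    (nr : O → Finset O), (∀ x y, y ∈ nr x → x ∈ nr y) → (∀ x, (insert x (nr x)).card ≤ Δ) →
    N0 ≤ Fintype.card O → c * ((PMs O).card : ℝ) ≤ ((Gd (Bad nr Λ)).card : ℝ) := by
  refine ⟨Real.exp (-(2 * cst Λ Δ)), 4 * Λ + 4 + ⌈4 * (Λ + 1) * cst Λ Δ⌉₊, Real.exp_pos _, ?_⟩
  intro O _ _ nr hsym hΔ hN
  have hc := cst_nonneg Λ Δ
  have hN1 : 4 * (Λ + 1) * cst Λ Δ ≤ Fintype.card O := by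
    have h1 := Nat.le_ceil (4 * (Λ + 1) * cst Λ Δ)
    have h2 : ⌈4 * (Λ + 1) * cst Λ Δ⌉₊ ≤ Fintype.card O := by omega
    have h3 : ((⌈4 * (Λ + 1) * cst Λ Δ⌉₊ : ℕ) : ℝ) ≤ Fintype.card O := by exact_mod_cast h2
    linarith
  have hN0 : 0 < Fintype.card O := by omega
  have hN0' : (0:ℝ) < Fintype.card O := by exact_mod_cast hN0
  have hFam : FamH (Bad nr Λ) Λ (Fintype.card O - 2 * Λ) (cst Λ Δ / Fintype.card O) := by
    refine ⟨?_, ?_, by omega, by omega, by positivity, ?_, ?_⟩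
    · intro U hU; exact (mem_Bad.1 hU).1
    · intro U hU; exact (mem_Bad.1 hU).2.2.1
    · rw [mul_div_assoc', div_le_iff₀ hN0']
      nlinarith
    · intro o
      exact weight_bound nr hsym Δ Λ _ hΔ (by omega) (by omega) o
  have hδ1 : cst Λ Δ / Fintype.card O ≤ 1 := by
    rw [div_le_one hN0']
    have : (0:ℝ) ≤ Λ := Nat.cast_nonneg _
    nlinarith
  refine le_trans ?_ (lll_main hFam hδ1)
  apply mul_le_mul_of_nonneg_right _ (Nat.cast_nonneg _)
  apply one_sub_pow_bound hc _ hN0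
  have : (0:ℝ) ≤ Λ := Nat.cast_nonneg _
  nlinarith

end Run7.h459
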