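import Mathlib

set_option linter.unusedSectionVars false

/-! The amalgam of `H` with `C × Z/2` over a central subgroup `C`, as a semidirect product. -/

namespace Run7.h459

open Monoid

variable {I : Type} 

abbrev Z2 := Multiplicative (ZMod 2)
abbrev NN (I : Type) := Monoid.CoprodI (fun _ : I => Z2)

/-- the generator of index `i` -/
def tt (i : I) : NN I := CoprodI.of (M := fun _ : I => Z2) (i := i) (Multiplicative.ofAdd 1)

def pmap (σ : I → I) : NN I →* NN I :=
  CoprodI.lift fun i => (CoprodI.of (M := fun _ : I => Z2) (i := σ i))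

theorem pmap_tt (σ : I → I) (i : I) : pmap σ (tt i) = tt (σ i) := by
  unfold pmap tt
  rw [CoprodI.lift_of]

theorem pmap_comp (σ τ : I → I) : (pmap σ).comp (pmap τ) = pmap (σ ∘ τ) := by
  apply CoprodI.ext_hom
  intro i
  ext
  simp [pmap]

theorem pmap_id : pmap (id : I → I) = MonoidHom.id (NN I) := by
  apply CoprodI.ext_hom
  intro i
  ext
  simp [pmap]

def pequiv (σ : Equiv.Perm I) : MulAut (NN I) where
  toFun := pmap σ
  invFun := pmap σ.symm
  left_inv := fun x => by
    have := pmap_comp (σ.symm : I → I) σ
    rw [← MonoidHom.comp_apply, this, Equiv.symm_comp_self, pmap_id]; rfl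
  right_inv := fun x => by
    have := pmap_comp (σ : I → I) σ.symm
    rw [← MonoidHom.comp_apply, this, Equiv.self_comp_symm, pmap_id]; rfl
  map_mul' := map_mul _

def pequivHom : Equiv.Perm I →* MulAut (NN I) where
  toFun := pequiv
  map_one' := by
    ext x
    show pmap _ x = x
    rw [show ((1 : Equiv.Perm I) : I → I) = id from rfl, pmap_id]; rfl
  map_mul' := fun σ τ => by
    ext x
    show pmap _ x = pmap _ (pmap _ x)
    rw [← MonoidHom.comp_apply, pmap_comp]; rfl

theorem tt_mul_self (i : I) : tt i * tt i = 1 := by
  unfold tt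
  rw [← map_mul, ← ofAdd_add]
  have : (1 + 1 : ZMod 2) = 0 := rfl
  rw [this]; simp

/-- reduced words are nontrivial -/
theorem tt_prod_ne_one (l : List I) (hl : l ≠ []) (hc : l.IsChain (· ≠ ·)) :
    (l.map tt).prod ≠ 1 := by
  classical
  let w : CoprodI.Word (fun _ : I => Z2) :=
    { toList := l.map (fun i => ⟨i, Multiplicative.ofAdd 1⟩)
      ne_one := by
        intro x hx
        rw [List.mem_map] at hx
        obtain ⟨i, _, rfl⟩ := hx
        show Multiplicative.ofAdd (1 : ZMod 2) ≠ 1
        decide
      chain_ne := by
        rw [List.isChain_map]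
        exact hc }
  have h1 : w.prod = (l.map tt).prod := by
    show ((l.map (fun i => (⟨i, Multiplicative.ofAdd 1⟩ : Σ _ : I, Z2))).map
      (fun x => (CoprodI.of (M := fun _ : I => Z2) (i := x.1)) x.2)).prod = _
    rw [List.map_map]; rfl
  intro h
  rw [← h1, ← CoprodI.Word.prod_empty] at h
  have h2 : w = CoprodI.Word.empty :=
    (CoprodI.Word.equiv (M := fun _ : I => Z2)).symm.injective h
  have h3 := congrArg CoprodI.Word.toList h2
  have h4 : l.map (fun i => (⟨i, Multiplicative.ofAdd 1⟩ : Σ _ : I, Z2)) = [] := h3
  rw [List.map_eq_nil_iff] at h4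
  exact hl h4

section
variable (H : Type) [Group H] (C : Subgroup H)

abbrev act : H →* MulAut (NN (H ⧸ C)) := pequivHom.comp (MulAction.toPermHom H (H ⧸ C))

abbrev TG := NN (H ⧸ C) ⋊[act H C] H

variable {H C}

theorem act_tt (g : H) (i : H ⧸ C) : act H C g (tt i) = tt (g • i) := pmap_tt _ _

def tau : TG H C := SemidirectProduct.inl (tt ((1 : H) : H ⧸ C))

theorem tau_mul_self : (tau : TG H C) * tau = 1 := by
  unfold tau; rw [← map_mul, tt_mul_self, map_one]

variable {α : Type} (f : α → H)

def v1 : Option α → TG H C
  | none => tau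
  | some a => SemidirectProduct.inr (f a)

def vt (w : List (Option α)) : TG H C := (w.map (v1 f)).prod

@[simp] theorem vt_nil : vt f [] = (1 : TG H C) := rfl
@[simp] theorem vt_cons (a : Option α) (w : List (Option α)) :
    (vt f (a :: w) : TG H C) = v1 f a * vt f w := by simp [vt]
@[simp] theorem vt_append (u w : List (Option α)) :
    (vt f (u ++ w) : TG H C) = vt f u * vt f w := by simp [vt]

/-- trace of coset positions -/
def tr (C : Subgroup H) (f : α → H) : H → List (Option α) → List (H ⧸ C)
  | _, [] => []
  | g, some a :: w => tr C f (g * f a) w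
  | g, none :: w => (g : H ⧸ C) :: tr C f g w

theorem left_formula (g : H) (w : List (Option α)) :
    (SemidirectProduct.inr g * vt f w : TG H C).left = ((tr C f g w).map tt).prod := by
  induction w generalizing g with
  | nil => simp [tr]
  | cons a w ih =>
    cases a with
    | some a =>
      rw [vt_cons, ← mul_assoc]
      show (SemidirectProduct.inr g * SemidirectProduct.inr (f a) * vt f w : TG H C).left = _
      rw [← map_mul, ih]; rfl
    | none =>
      rw [vt_cons, ← mul_assoc]
      show (SemidirectProduct.inr g * tau * vt f w : TG H C).left = _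
      have h1 : (SemidirectProduct.inr g * tau : TG H C) =
          SemidirectProduct.inl (tt (g : H ⧸ C)) * SemidirectProduct.inr g := by
        unfold tau
        rw [← mul_inv_eq_iff_eq_mul, ← map_inv, ← SemidirectProduct.inl_aut, act_tt,
          MulAction.Quotient.smul_coe, smul_eq_mul, mul_one]
      rw [h1, mul_assoc, SemidirectProduct.mul_left, ih, SemidirectProduct.right_inl, map_one,
        MulAut.one_apply, SemidirectProduct.left_inl]
      simp [tr]

theorem vt_left (w : List (Option α)) :
    (vt f w : TG H C).left = ((tr C f 1 w).map tt).prod := by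
  rw [← left_formula]; simp

theorem vt_right (w : List (Option α)) :
    (vt f w : TG H C).right = (w.map fun a => (a.elim 1 f)).prod := by
  induction w with
  | nil => rfl
  | cons a w ih =>
    rw [vt_cons, SemidirectProduct.mul_right, ih]
    cases a with
    | none => simp [v1, tau]
    | some a => simp [v1]

theorem vt_some (w : List α) : (vt f (w.map some) : TG H C) = SemidirectProduct.inr (w.map f).prod := by
  induction w with
  | nil => simp
  | cons a w ih => simp [v1, ih]

theorem tr_first (g : H) (y : H ⧸ C) (l : List (H ⧸ C)) (w : List (Option α))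
    (h : tr C f g w = y :: l) :
    ∃ (u : List α) (b : List (Option α)), w = u.map some ++ none :: b ∧
      ((g * (u.map f).prod : H) : H ⧸ C) = y := by
  induction w generalizing g with
  | nil => simp [tr] at h
  | cons a w ih =>
    cases a with
    | some a =>
      obtain ⟨u, b, h1, h2⟩ := ih (g * f a) h
      refine ⟨a :: u, b, by rw [h1]; rfl, ?_⟩
      rw [← h2]; simp [mul_assoc]
    | none =>
      simp only [tr, List.cons.injEq] at h
      exact ⟨[], w, rfl, by simpa using h.1⟩

theorem tr_repeat (g : H) (l1 l2 : List (H ⧸ C)) (i : H ⧸ C) (w : List (Option α))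
    (h : tr C f g w = l1 ++ i :: i :: l2) :
    ∃ (a : List (Option α)) (u : List α) (b : List (Option α)),
      w = a ++ none :: (u.map some ++ none :: b) ∧ (u.map f).prod ∈ C := by
  induction w generalizing g l1 with
  | nil => simp [tr] at h
  | cons x w ih =>
    cases x with
    | some x =>
      obtain ⟨a, u, b, h1, h2⟩ := ih (g * f x) l1 h
      exact ⟨some x :: a, u, b, by rw [h1]; rfl, h2⟩
    | none =>
      cases l1 with
      | nil =>
        simp only [tr, List.nil_append, List.cons.injEq] at h
        obtain ⟨u, b, h1, h2⟩ := tr_first f g i l2 w h.2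
        refine ⟨[], u, b, by rw [h1]; rfl, ?_⟩
        rw [← h.1] at h2
        have := QuotientGroup.eq.1 h2.symm
        simpa using this
      | cons y l1 =>
        simp only [tr, List.cons_append, List.cons.injEq] at h
        obtain ⟨a, u, b, h1, h2⟩ := ih g l1 h.2
        exact ⟨none :: a, u, b, by rw [h1]; rfl, h2⟩

theorem tr_ne_nil (g : H) (w : List (Option α)) (h : none ∈ w) : tr C f g w ≠ [] := by
  induction w generalizing g with
  | nil => simp at h
  | cons x w ih =>
    cases x with
    | some x =>
      simp only [List.mem_cons, reduceCtorEq, false_or] at h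
      exact ih _ h
    | none => simp [tr]

theorem not_chain_ne {β : Type*} (l : List β) (h : ¬ l.IsChain (· ≠ ·)) :
    ∃ l1 i l2, l = l1 ++ i :: i :: l2 := by
  induction l with
  | nil => exact absurd List.IsChain.nil h
  | cons a l ih =>
    cases l with
    | nil => exact absurd (List.IsChain.singleton a) h
    | cons b l =>
      by_cases hab : a = b
      · exact ⟨[], a, l, by rw [hab]; rfl⟩
      · have : ¬ (b :: l).IsChain (· ≠ ·) := by
          intro h1
          apply h
          rw [List.isChain_cons_cons]
          exact ⟨hab, h1⟩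
        obtain ⟨l1, i, l2, h2⟩ := ih this
        exact ⟨a :: l1, i, l2, by rw [h2]; rfl⟩

/-- the normal form lemma -/
theorem PN (w : List (Option α)) (hw : none ∈ w) (h : (vt f w : TG H C).left = 1) :
    ∃ (a : List (Option α)) (u : List α) (b : List (Option α)),
      w = a ++ none :: (u.map some ++ none :: b) ∧ (u.map f).prod ∈ C := by
  rw [vt_left] at h
  have h1 : ¬ (tr C f 1 w).IsChain (· ≠ ·) := by
    intro hc
    exact tt_prod_ne_one _ (tr_ne_nil f 1 w hw) hc h
  obtain ⟨l1, i, l2, h2⟩ := not_chain_ne _ h1
  exact tr_repeat f 1 l1 l2 i w h2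

/-- elements of `C` stay central -/
theorem tau_comm {c : H} (hc : c ∈ C) : (SemidirectProduct.inr c * tau : TG H C) =
    tau * SemidirectProduct.inr c := by
  unfold tau
  rw [← mul_inv_eq_iff_eq_mul, ← map_inv, ← SemidirectProduct.inl_aut, act_tt,
    MulAction.Quotient.smul_coe, smul_eq_mul, mul_one]
  congr 2
  rw [QuotientGroup.eq]
  simpa using hc

theorem inr_central (hC : C ≤ Subgroup.center H) {c : H} (hc : c ∈ C) (a : Option α) :
    (SemidirectProduct.inr c * v1 f a : TG H C) = v1 f a * SemidirectProduct.inr c := by
  cases a with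
  | none => exact tau_comm hc
  | some a =>
    show (SemidirectProduct.inr c * SemidirectProduct.inr (f a) : TG H C) = _ * _
    rw [← map_mul, ← Subgroup.mem_center_iff.1 (hC hc) (f a), map_mul]; rfl

theorem inr_central' (hC : C ≤ Subgroup.center H) {c : H} (hc : c ∈ C) (w : List (Option α)) :
    (SemidirectProduct.inr c * vt f w : TG H C) = vt f w * SemidirectProduct.inr c := by
  induction w with
  | nil => simp
  | cons a w ih =>
    rw [vt_cons, ← mul_assoc, inr_central f hC hc, mul_assoc, ih, mul_assoc]

/-- parity -/
def parHom (e : H →* Z2) : TG H C →* Z2 :=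
  SemidirectProduct.lift (CoprodI.lift fun _ => MonoidHom.id Z2) e (by
    intro g
    apply CoprodI.ext_hom
    intro i
    ext
    simp [pequivHom, pequiv, pmap])

theorem parHom_inr (e : H →* Z2) (g : H) : parHom e (SemidirectProduct.inr g : TG H C) = e g := by
  simp [parHom]

theorem parHom_tau (e : H →* Z2) : parHom e (tau : TG H C) = Multiplicative.ofAdd 1 := by
  simp [parHom, tau, tt]

theorem tau_ne_inr (g : H) : (tau : TG H C) ≠ SemidirectProduct.inr g := by
  intro h
  have := congrArg SemidirectProduct.left h
  simp only [tau, SemidirectProduct.left_inl, SemidirectProduct.left_inr] at this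
  exact tt_prod_ne_one [((1:H) : H ⧸ C)] (by simp) (List.IsChain.singleton _) (by simpa using this)

end

end Run7.h459
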