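import Pool.Agent.Run7.h459.Loc
import Pool.Agent.Run7.h459.TG
import Pool.Agent.Run7.h459.PM2

set_option linter.unusedSectionVars false

/-! Non-backtracking lemma. -/

namespace Run7.h459

open Finset

/-- the full labelled system -/
def pf {α X : Type*} (τ : Equiv.Perm X) (π0 : α → Equiv.Perm X) : Option α → Equiv.Perm X :=
  fun o => o.elim τ π0

section
variable {α X O : Type} [Fintype O] [DecidableEq O]

/-- an orbit system -/
structure OS (π0 : α → Equiv.Perm X) (p : X → O) : Prop where
  sur : Function.Surjective p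
  inv : ∀ t x, π0 t (π0 t x) = x
  hp : ∀ t x y, p x = p y → p (π0 t x) = p (π0 t y)

open Classical in
noncomputable def nr (π0 : α → Equiv.Perm X) (p : X → O) (Λ : ℕ) (o : O) : Finset O :=
  univ.filter fun o' => ∃ x u, u.length ≤ Λ ∧ p x = o ∧ p (evp π0 u x) = o'

theorem mem_nr {π0 : α → Equiv.Perm X} {p : X → O} {Λ : ℕ} {o o' : O} :
    o' ∈ nr π0 p Λ o ↔ ∃ x u, u.length ≤ Λ ∧ p x = o ∧ p (evp π0 u x) = o' := by
  unfold nr; simp

variable {π0 : α → Equiv.Perm X} {p : X → O} {Λ : ℕ}

theorem OS.word (h : OS π0 p) (u : List α) (x y : X) (hxy : p x = p y) :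
    p (evp π0 u x) = p (evp π0 u y) := by
  induction u with
  | nil => simpa using hxy
  | cons t u ih => simp only [evp_cons, Equiv.Perm.mul_apply]; exact h.hp t _ _ ih

theorem OS.reverse (h : OS π0 p) (w : List α) : evp π0 w.reverse = (evp π0 w)⁻¹ := by
  have hsq : ∀ t, (π0 t)⁻¹ = π0 t := fun t => by
    apply inv_eq_of_mul_eq_one_right
    ext x; exact h.inv t x
  induction w with
  | nil => simp
  | cons t w ih => simp [ih, hsq]

theorem nr_symm (h : OS π0 p) (x y : O) (hy : y ∈ nr π0 p Λ x) : x ∈ nr π0 p Λ y := by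
  rw [mem_nr] at hy ⊢
  obtain ⟨z, u, h1, h2, h3⟩ := hy
  refine ⟨evp π0 u z, u.reverse, by simpa using h1, h3, ?_⟩
  rw [h.reverse]; simpa using h2

/-- number of words -/
noncomputable def nwords (a Λ : ℕ) : ℕ := 1 + ∑ k ∈ range (Λ + 1), a ^ k

theorem nr_card [Fintype α] (h : OS π0 p) (o : O) :
    (insert o (nr π0 p Λ o)).card ≤ nwords (Fintype.card α) Λ := by
  classical
  obtain ⟨x, hx⟩ := h.sur o
  have hcov : nr π0 p Λ o ⊆ (range (Λ + 1)).biUnion fun k =>
      (univ : Finset (Fin k → α)).image fun v => p (evp π0 (List.ofFn v) x) := by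
    intro o' ho'
    rw [mem_nr] at ho'
    obtain ⟨z, u, h1, h2, h3⟩ := ho'
    rw [mem_biUnion]
    refine ⟨u.length, mem_range.2 (by omega), ?_⟩
    rw [mem_image]
    refine ⟨u.get, mem_univ _, ?_⟩
    rw [List.ofFn_get, ← h3]
    exact h.word u _ _ (by rw [hx, h2])
  have h1 : (nr π0 p Λ o).card ≤ ∑ k ∈ range (Λ + 1), Fintype.card α ^ k := by
    refine (card_le_card hcov).trans (card_biUnion_le.trans ?_)
    apply sum_le_sum
    intro k _
    refine card_image_le.trans ?_
    simp
  have h2 := card_insert_le o (nr π0 p Λ o)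
  unfold nwords
  omega

/-- word made of blocks each followed by `none` -/
def Wd (us : List (List α)) : List (Option α) := us.flatMap fun u => u.map some ++ [none]

@[simp] theorem Wd_nil : Wd ([] : List (List α)) = [] := rfl
@[simp] theorem Wd_cons (u : List α) (us : List (List α)) :
    Wd (u :: us) = u.map some ++ none :: Wd us := by simp [Wd]
@[simp] theorem Wd_append (us us' : List (List α)) : Wd (us ++ us') = Wd us ++ Wd us' := by
  simp [Wd]

theorem Wd_len (us : List (List α)) : us.length ≤ (Wd us).length := by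
  induction us with
  | nil => simp
  | cons u us ih => simp; omega

theorem mem_len (us : List (List α)) : ∀ u ∈ us, u.length < (Wd us).length := by
  induction us with
  | nil => simp
  | cons u us ih =>
    intro v hv
    rcases List.mem_cons.1 hv with h | h
    · rw [h]; simp
    · have := ih v h; simp; omega

theorem Wd_end (us : List (List α)) : Wd us = [] ∨ ∃ V, Wd us = V ++ [none] := by
  induction us using List.reverseRecOn with
  | nil => left; rfl
  | append_singleton us u _ =>
    right
    exact ⟨Wd us ++ u.map some, by simp⟩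

/-- every word is a product of blocks and a tail -/
theorem exists_blocks (w : List (Option α)) : ∃ (us : List (List α)) (tl : List α), w = Wd us ++ tl.map some ∧
    (none ∈ w → us ≠ []) := by
  induction w with
  | nil => exact ⟨[], [], rfl, by simp⟩
  | cons a w ih =>
    obtain ⟨us, tl, h, hne⟩ := ih
    cases a with
    | none => exact ⟨[] :: us, tl, by simp [h], by simp⟩
    | some a =>
      cases us with
      | nil =>
        refine ⟨[], a :: tl, by simp [h], ?_⟩
        intro hm
        simp only [List.mem_cons, reduceCtorEq, false_or] at hm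
        exact hne hm
      | cons u us => exact ⟨(a :: u) :: us, tl, by simp [h], by simp⟩

variable {τ : Equiv.Perm X}

theorem evp_some (w : List α) : evp (pf τ π0) (w.map some) = evp π0 w := by
  induction w with
  | nil => rfl
  | cons t w ih => rw [List.map_cons, evp_cons, evp_cons, ih]; rfl

theorem pf_none : pf τ π0 none = τ := rfl
theorem pf_some (a : α) : pf τ π0 (some a) = π0 a := rfl

variable {H : Type} [Group H] {C : Subgroup H} {h : α → H}

theorem NBlem (hos : OS π0 p) (σ : Equiv.Perm O) (hσ : σ ∈ Gd (Bad (nr π0 p Λ) Λ))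
    (hτ : ∀ x, p (τ x) = σ (p x)) (hτ2 : ∀ x, τ (τ x) = x) (w : List (Option α))
    (hw : none ∈ w) (hlen : w.length ≤ Λ) (x : X) (hx : evp (pf τ π0) w x = x) :
    ∃ (u : List α) (V : List (Option α)) (y : X), u.length + 1 + V.length = w.length ∧
      (∃ g : TG H C, vt h (u.map some ++ none :: V) = g * vt h w * g⁻¹) ∧
      τ (evp (pf τ π0) V (evp π0 u y)) = y ∧ p (evp π0 u y) = p y ∧
      (V = [] ∨ ∃ V', V = V' ++ [none]) := by
  classical
  -- rotate to block form
  obtain ⟨us0, tl, hw1, hne⟩ := exists_blocks w
  obtain ⟨u0, us1, rfl⟩ := List.exists_cons_of_ne_nil (hne hw)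
  set us := (tl ++ u0) :: us1 with hus
  have hlenW : (Wd us).length = w.length := by
    rw [hw1, hus]; simp; omega
  set x0 := evp π0 tl x with hx0
  have hfix : evp (pf τ π0) (Wd us) x0 = x0 := by
    have h1 : Wd us = tl.map some ++ Wd (u0 :: us1) := by rw [hus]; simp
    have h2 : evp (pf τ π0) w x = evp (pf τ π0) (Wd (u0 :: us1)) x0 := by
      rw [hw1, evp_append, Equiv.Perm.mul_apply, evp_some]
    rw [h1, evp_append, Equiv.Perm.mul_apply, evp_some, ← h2, hx]
  have hconj : (vt h (Wd us) : TG H C) = vt h (tl.map some) * vt h w * (vt h (tl.map some))⁻¹ := by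
    have h1 : Wd us = tl.map some ++ Wd (u0 :: us1) := by rw [hus]; simp
    rw [h1, hw1, vt_append, vt_append]; group
  -- points
  let Xp : ℕ → X := fun j => evp (pf τ π0) (Wd (us.drop j)) x0
  have hX0 : Xp 0 = x0 := hfix
  have hXm : Xp us.length = x0 := by simp [Xp]
  have hstep : ∀ j (hj : j < us.length), Xp j = evp π0 us[j] (τ (Xp (j + 1))) := by
    intro j hj
    simp only [Xp]
    rw [List.drop_eq_getElem_cons hj, Wd_cons, evp_append, Equiv.Perm.mul_apply, evp_some, evp_cons,
      Equiv.Perm.mul_apply, pf_none]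
  by_cases hgood : ∀ j, j < us.length → p (Xp j) ≠ p (τ (Xp (j + 1)))
  · -- a bad set
    exfalso
    obtain ⟨hPM, hno⟩ := mem_Gd.1 hσ
    rw [mem_PMs] at hPM
    let U : Finset O := (range us.length).image (fun j => p (Xp j)) ∪
      (range us.length).image (fun j => p (τ (Xp (j + 1))))
    have hm : 0 < us.length := by rw [hus]; simp
    have hin1 : ∀ j, j ≤ us.length → p (Xp j) ∈ U := by
      intro j hj
      rw [mem_union]; left
      rw [mem_image]
      rcases Nat.lt_or_ge j us.length with h | h
      · exact ⟨j, mem_range.2 h, rfl⟩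
      · have : j = us.length := le_antisymm hj h
        exact ⟨0, mem_range.2 hm, by rw [this, hX0, hXm]⟩
    have hin2 : ∀ j, j ≤ us.length → p (τ (Xp j)) ∈ U := by
      intro j hj
      rw [mem_union]; right
      rw [mem_image]
      rcases Nat.eq_zero_or_pos j with h | h
      · refine ⟨us.length - 1, mem_range.2 (by omega), ?_⟩
        rw [show us.length - 1 + 1 = us.length by omega, hXm, h, hX0]
      · refine ⟨j - 1, mem_range.2 (by omega), ?_⟩
        rw [show j - 1 + 1 = j by omega]
    have hclo : Clo σ U := by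
      intro o ho
      rw [mem_union, mem_image, mem_image] at ho
      rcases ho with ⟨j, hj, rfl⟩ | ⟨j, hj, rfl⟩
      · rw [← hτ]; exact hin2 j (by have := mem_range.1 hj; omega)
      · rw [← hτ, hτ2]; exact hin1 (j + 1) (by have := mem_range.1 hj; omega)
    apply hno U _ hclo
    rw [mem_Bad]
    refine ⟨⟨_, hin1 0 (by omega)⟩, ?_, ?_, ?_⟩
    · intro o ho
      rw [mem_union, mem_image, mem_image] at ho
      rcases ho with ⟨j, hj, rfl⟩ | ⟨j, hj, rfl⟩
      · have hj := mem_range.1 hj
        refine ⟨p (τ (Xp (j + 1))), hin2 _ (by omega), (hgood j hj).symm, ?_⟩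
        apply nr_symm hos
        rw [mem_nr]
        refine ⟨τ (Xp (j + 1)), us[j], ?_, rfl, by rw [← hstep j hj]⟩
        have := mem_len us us[j] (List.getElem_mem hj)
        omega
      · have hj := mem_range.1 hj
        refine ⟨p (Xp j), hin1 _ (by omega), hgood j hj, ?_⟩
        rw [mem_nr]
        refine ⟨τ (Xp (j + 1)), us[j], ?_, rfl, by rw [← hstep j hj]⟩
        have := mem_len us us[j] (List.getElem_mem hj)
        omega
    · have h1 := Wd_len us
      have h2 : U.card ≤ us.length + us.length := by
        refine (card_union_le _ _).trans ?_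
        have h3 : ((range us.length).image (fun j => p (Xp j))).card ≤ us.length :=
          card_image_le.trans (by simp)
        have h4 : ((range us.length).image (fun j => p (τ (Xp (j + 1))))).card ≤ us.length :=
          card_image_le.trans (by simp)
        omega
      omega
    · obtain ⟨l, _, _, h3, _⟩ := exists_list hPM.1 hPM.2 _ U rfl hclo
      omega
  · push Not at hgood
    obtain ⟨j, hj, hpj⟩ := hgood
    refine ⟨us[j], Wd (us.drop (j + 1)) ++ Wd (us.take j), τ (Xp (j + 1)), ?_, ?_, ?_, ?_, ?_⟩
    · have h1 : us = us.take j ++ us[j] :: us.drop (j + 1) := by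
        rw [List.cons_getElem_drop_succ, List.take_append_drop]
      have h2 := congrArg (fun l => (Wd l).length) h1
      simp only [Wd_append, Wd_cons, List.length_append, List.length_cons, List.length_map] at h2
      rw [List.length_append]
      omega
    · refine ⟨(vt h (Wd (us.take j)))⁻¹ * vt h (tl.map some), ?_⟩
      have h1 : us = us.take j ++ us[j] :: us.drop (j + 1) := by
        rw [List.cons_getElem_drop_succ, List.take_append_drop]
      have h2 : (vt h (Wd us) : TG H C) = vt h (Wd (us.take j)) *
          (vt h (us[j].map some) * (v1 h none * vt h (Wd (us.drop (j + 1))))) := by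
        conv_lhs => rw [h1]
        rw [Wd_append, Wd_cons, vt_append, vt_append, vt_cons]
      have h3 : (vt h (us[j].map some ++ none :: (Wd (us.drop (j + 1)) ++ Wd (us.take j))) : TG H C)
          = (vt h (Wd (us.take j)))⁻¹ * vt h (Wd us) * vt h (Wd (us.take j)) := by
        rw [vt_append, vt_cons, vt_append, h2]; group
      rw [h3, hconj]; group
    · rw [← hstep j hj, evp_append, Equiv.Perm.mul_apply]
      have h1 : evp (pf τ π0) (Wd (us.take j)) (Xp j) = x0 := by
        simp only [Xp]
        rw [← Equiv.Perm.mul_apply, ← evp_append, ← Wd_append, List.take_append_drop]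
        exact hfix
      rw [h1]
    · rw [← hstep j hj]; exact hpj
    · rw [← Wd_append]
      exact Wd_end _

end

end Run7.h459
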