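import Mathlib

/-! Walks on the integers crossing coloured edges, and the path lemma. -/

namespace Run7.h459

/-- A letter: the type of the edge it crosses, and the toggle amount. -/
abbrev Lt := Bool × ℤ

/-- type of the edge `k` (joining positions `k` and `k+1`) -/
def tp (k : ℤ) : Bool := decide (k % 2 = 1)

def nx (p : ℤ) (t : Lt) : ℤ := if t.1 = tp p then p + 1 else p - 1
def eg (p : ℤ) (t : Lt) : ℤ := if t.1 = tp p then p else p - 1
def am (p : ℤ) (t : Lt) : ℤ := if t.1 = tp p then t.2 else - t.2

def endp : ℤ → List Lt → ℤ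
  | p, [] => p
  | p, t :: w => endp (nx p t) w

def tog : ℤ → List Lt → List (ℤ × ℤ)
  | _, [] => []
  | p, t :: w => (eg p t, am p t) :: tog (nx p t) w

theorem endp_append (p : ℤ) (u v : List Lt) : endp p (u ++ v) = endp (endp p u) v := by
  induction u generalizing p with
  | nil => rfl
  | cons t u ih => simp [endp, ih]

theorem tog_append (p : ℤ) (u v : List Lt) :
    tog p (u ++ v) = tog p u ++ tog (endp p u) v := by
  induction u generalizing p with
  | nil => rfl
  | cons t u ih => simp [endp, tog, ih]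

theorem tog_length (p : ℤ) (u : List Lt) : (tog p u).length = u.length := by
  induction u generalizing p with
  | nil => rfl
  | cons t u ih => simp [tog, ih]

/-- net toggle at `k` -/
def net (k : ℤ) (l : List (ℤ × ℤ)) : ℤ := (l.map fun x => if x.1 = k then x.2 else 0).sum

/-- number of entries at edge `k` -/
def cn (k : ℤ) (l : List (ℤ × ℤ)) : ℕ := l.countP fun x => x.1 = k

@[simp] theorem net_nil (k : ℤ) : net k [] = 0 := rfl
@[simp] theorem net_cons (k : ℤ) (x : ℤ × ℤ) (l : List (ℤ × ℤ)) :
    net k (x :: l) = (if x.1 = k then x.2 else 0) + net k l := by simp [net]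
@[simp] theorem net_append (k : ℤ) (l l' : List (ℤ × ℤ)) :
    net k (l ++ l') = net k l + net k l' := by simp [net]
@[simp] theorem cn_nil (k : ℤ) : cn k [] = 0 := rfl
@[simp] theorem cn_cons (k : ℤ) (x : ℤ × ℤ) (l : List (ℤ × ℤ)) :
    cn k (x :: l) = (if x.1 = k then 1 else 0) + cn k l := by
  unfold cn; rw [List.countP_cons]; by_cases h : x.1 = k <;> simp [h, add_comm]
@[simp] theorem cn_append (k : ℤ) (l l' : List (ℤ × ℤ)) :
    cn k (l ++ l') = cn k l + cn k l' := by simp [cn]

theorem net_eq_zero_of {k : ℤ} {l : List (ℤ × ℤ)} (h : ∀ x ∈ l, x.1 ≠ k) : net k l = 0 := by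
  induction l with
  | nil => rfl
  | cons x l ih =>
    rw [net_cons, if_neg (h x (by simp)), ih (fun y hy => h y (by simp [hy])), add_zero]

theorem cn_eq_zero_iff {k : ℤ} {l : List (ℤ × ℤ)} : cn k l = 0 ↔ ∀ x ∈ l, x.1 ≠ k := by
  unfold cn; rw [List.countP_eq_zero]; simp

variable {G : Type*} [Group G]

/-- the product of the toggles -/
def pr (L : ℤ → G) (l : List (ℤ × ℤ)) : G := (l.map fun x => L x.1 ^ x.2).prod

@[simp] theorem pr_nil (L : ℤ → G) : pr L [] = 1 := rfl
@[simp] theorem pr_cons (L : ℤ → G) (x : ℤ × ℤ) (l : List (ℤ × ℤ)) :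
    pr L (x :: l) = L x.1 ^ x.2 * pr L l := by simp [pr]
@[simp] theorem pr_append (L : ℤ → G) (l l' : List (ℤ × ℤ)) :
    pr L (l ++ l') = pr L l * pr L l' := by simp [pr]

theorem pr_commute {L : ℤ → G} {g : G} {l : List (ℤ × ℤ)}
    (h : ∀ x ∈ l, Commute g (L x.1)) : Commute g (pr L l) := by
  induction l with
  | nil => simp
  | cons x l ih =>
    rw [pr_cons]
    exact ((h x (by simp)).zpow_right _).mul_right (ih fun y hy => h y (by simp [hy]))

theorem pr_pull {L : ℤ → G} {k : ℤ} {l : List (ℤ × ℤ)}
    (h : ∀ x ∈ l, Commute (L k) (L x.1)) :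
    pr L l = L k ^ net k l * pr L (l.filter fun x => x.1 ≠ k) := by
  induction l with
  | nil => simp
  | cons x l ih =>
    have ih' := ih (fun y hy => h y (by simp [hy]))
    by_cases hx : x.1 = k
    · rw [pr_cons, net_cons, if_pos hx, ih', List.filter_cons_of_neg (by simp [hx]), zpow_add, hx,
        mul_assoc]
    · rw [pr_cons, net_cons, if_neg hx, ih', List.filter_cons_of_pos (by simp [hx]), pr_cons,
        zero_add, ← mul_assoc, ← mul_assoc]
      congr 1
      exact (((h x (by simp)).zpow_left _).zpow_right _).eq.symm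

theorem net_filter_ne {j k : ℤ} (hjk : j ≠ k) (l : List (ℤ × ℤ)) :
    net j (l.filter fun x => x.1 ≠ k) = net j l := by
  induction l with
  | nil => simp
  | cons x l ih =>
    by_cases hx : x.1 = k
    · rw [List.filter_cons_of_neg (by simp [hx]), ih, net_cons,
        if_neg (by rw [hx]; exact hjk.symm), zero_add]
    · rw [List.filter_cons_of_pos (by simp [hx]), net_cons, net_cons, ih]

/-- product of a list all of whose edges pairwise commute, with zero net toggles -/
theorem pr_eq_one_of_commute {L : ℤ → G} (l : List (ℤ × ℤ))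
    (hc : ∀ x ∈ l, ∀ y ∈ l, Commute (L x.1) (L y.1)) (h0 : ∀ k, net k l = 0) :
    pr L l = 1 := by
  induction hn : l.length using Nat.strong_induction_on generalizing l with
  | _ n ih =>
    match l, hn with
    | [], _ => rfl
    | x :: l, hn =>
      rw [pr_pull (k := x.1) (fun y hy => hc x (by simp) y hy), h0, zpow_zero, one_mul]
      refine ih _ ?_ _ ?_ ?_ rfl
      · rw [← hn, List.filter_cons_of_neg (by simp)]
        exact lt_of_le_of_lt (List.length_filter_le _ _) (by simp)
      · intro y hy z hz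
        exact hc y (List.mem_of_mem_filter hy) z (List.mem_of_mem_filter hz)
      · intro k
        by_cases hk : k = x.1
        · subst hk
          apply net_eq_zero_of
          intro y hy
          have := (List.mem_filter.1 hy).2
          simpa using this
        · rw [net_filter_ne hk, h0]

/-! ### sides -/

theorem eg_nx_cases (p : ℤ) (t : Lt) :
    (eg p t = p ∧ nx p t = p + 1 ∧ am p t = t.2) ∨
    (eg p t = p - 1 ∧ nx p t = p - 1 ∧ am p t = - t.2) := by
  unfold eg nx am
  by_cases h : t.1 = tp p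
  · left; simp [h]
  · right; simp [h]

theorem side_left {e : ℤ} (w : List Lt) (p : ℤ) (h : cn e (tog p w) = 0) (hp : p ≤ e) :
    endp p w ≤ e ∧ ∀ x ∈ tog p w, x.1 < e := by
  induction w generalizing p with
  | nil => exact ⟨hp, by simp [tog]⟩
  | cons t w ih =>
    simp only [tog, cn_cons] at h
    have h1 : eg p t ≠ e := by
      intro h'; simp [h'] at h
    have h2 : cn e (tog (nx p t) w) = 0 := by omega
    have h3 : nx p t ≤ e := by
      rcases eg_nx_cases p t with ⟨a, b, _⟩ | ⟨a, b, _⟩ <;> omega
    obtain ⟨h4, h5⟩ := ih _ h2 h3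
    refine ⟨h4, ?_⟩
    intro x hx
    simp only [tog, List.mem_cons] at hx
    rcases hx with rfl | hx
    · rcases eg_nx_cases p t with ⟨a, b, _⟩ | ⟨a, b, _⟩ <;> simp only <;> omega
    · exact h5 x hx

theorem side_right {e : ℤ} (w : List Lt) (p : ℤ) (h : cn e (tog p w) = 0) (hp : e < p) :
    e < endp p w ∧ ∀ x ∈ tog p w, e < x.1 := by
  induction w generalizing p with
  | nil => exact ⟨hp, by simp [tog]⟩
  | cons t w ih =>
    simp only [tog, cn_cons] at h
    have h1 : eg p t ≠ e := by
      intro h'; simp [h'] at h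
    have h2 : cn e (tog (nx p t) w) = 0 := by omega
    have h3 : e < nx p t := by
      rcases eg_nx_cases p t with ⟨a, b, _⟩ | ⟨a, b, _⟩ <;> omega
    obtain ⟨h4, h5⟩ := ih _ h2 h3
    refine ⟨h4, ?_⟩
    intro x hx
    simp only [tog, List.mem_cons] at hx
    rcases hx with rfl | hx
    · rcases eg_nx_cases p t with ⟨a, b, _⟩ | ⟨a, b, _⟩ <;> simp only <;> omega
    · exact h5 x hx

/-- parity of the number of crossings -/
theorem cn_parity (e : ℤ) (w : List Lt) (p : ℤ) :
    (cn e (tog p w) % 2 = 1) ↔ ¬ (p ≤ e ↔ endp p w ≤ e) := by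
  induction w generalizing p with
  | nil => simp [tog, endp]
  | cons t w ih =>
    have ih' := ih (nx p t)
    simp only [tog, cn_cons, endp]
    rcases eg_nx_cases p t with ⟨a, b, _⟩ | ⟨a, b, _⟩
    · by_cases h : eg p t = e
      · rw [if_pos h]
        have : p ≤ e := by omega
        have : ¬ nx p t ≤ e := by omega
        have h2 : ((1 + cn e (tog (nx p t) w)) % 2 = 1) ↔ ¬ (cn e (tog (nx p t) w) % 2 = 1) := by
          omega
        rw [h2, ih']
        tauto
      · rw [if_neg h, zero_add, ih']
        have : (p ≤ e) ↔ (nx p t ≤ e) := by omega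
        rw [this]
    · by_cases h : eg p t = e
      · rw [if_pos h]
        have : ¬ p ≤ e := by omega
        have : nx p t ≤ e := by omega
        have h2 : ((1 + cn e (tog (nx p t) w)) % 2 = 1) ↔ ¬ (cn e (tog (nx p t) w) % 2 = 1) := by
          omega
        rw [h2, ih']
        tauto
      · rw [if_neg h, zero_add, ih']
        have : (p ≤ e) ↔ (nx p t ≤ e) := by omega
        rw [this]

/-- split at the first crossing of `e` -/
theorem split_first (e : ℤ) (w : List Lt) (p : ℤ) (h : cn e (tog p w) ≠ 0) :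
    ∃ u t v, w = u ++ t :: v ∧ cn e (tog p u) = 0 ∧ eg (endp p u) t = e := by
  induction w generalizing p with
  | nil => simp [tog] at h
  | cons t w ih =>
    by_cases h1 : eg p t = e
    · exact ⟨[], t, w, rfl, rfl, h1⟩
    · simp only [tog, cn_cons, h1, if_false, zero_add] at h
      obtain ⟨u, t', v, h2, h3, h4⟩ := ih _ h
      refine ⟨t :: u, t', v, by simp [h2], ?_, ?_⟩
      · simp [tog, h1, h3]
      · simpa [endp] using h4

/-- crossing counts over an interval are bounded by the length -/
theorem sum_cn_le (s : Finset ℤ) (l : List (ℤ × ℤ)) : ∑ e ∈ s, cn e l ≤ l.length := by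
  induction l with
  | nil => simp
  | cons x l ih =>
    simp only [cn_cons, Finset.sum_add_distrib, List.length_cons]
    have : ∑ e ∈ s, (if x.1 = e then 1 else 0) ≤ 1 := by
      rw [Finset.sum_ite_eq]; split_ifs <;> simp
    omega


/-- decomposition of a closed walk crossing `e` exactly twice -/
theorem split_two {e : ℤ} {w : List Lt} {p : ℤ} (h : cn e (tog p w) = 2) :
    ∃ u₁ t₁ u₂ t₂ u₃, w = u₁ ++ t₁ :: (u₂ ++ t₂ :: u₃) ∧
      cn e (tog p u₁) = 0 ∧ eg (endp p u₁) t₁ = e ∧
      cn e (tog (nx (endp p u₁) t₁) u₂) = 0 ∧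
      eg (endp (nx (endp p u₁) t₁) u₂) t₂ = e ∧
      cn e (tog (nx (endp (nx (endp p u₁) t₁) u₂) t₂) u₃) = 0 := by
  obtain ⟨u₁, t₁, v, h1, h2, h3⟩ := split_first e w p (by omega)
  subst h1
  rw [tog_append, cn_append, h2] at h
  simp only [tog, cn_cons, h3, if_true] at h
  obtain ⟨u₂, t₂, u₃, h4, h5, h6⟩ := split_first e v _ (show cn e (tog (nx (endp p u₁) t₁) v) ≠ 0 by omega)
  subst h4
  refine ⟨u₁, t₁, u₂, t₂, u₃, rfl, h2, h3, h5, h6, ?_⟩
  rw [tog_append, cn_append, h5] at h
  simp only [tog, cn_cons, h6, if_true] at h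
  omega

theorem exists_low {σ : ℤ} {D : ℕ} {l : List (ℤ × ℤ)} {m : ℕ} (hm : l.length < m * (D + 2)) :
    ∃ e, σ - D - 1 ≤ e ∧ e ≤ σ ∧ cn e l < m := by
  by_contra hcon
  push Not at hcon
  have h1 : ∑ e ∈ Finset.Icc (σ - D - 1) σ, m ≤ ∑ e ∈ Finset.Icc (σ - D - 1) σ, cn e l :=
    Finset.sum_le_sum fun e he => hcon e (Finset.mem_Icc.1 he).1 (Finset.mem_Icc.1 he).2
  have h2 := sum_cn_le (Finset.Icc (σ - D - 1) σ) l
  rw [Finset.sum_const, Int.card_Icc] at h1
  have h3 : (σ + 1 - (σ - D - 1)).toNat = D + 2 := by omega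
  rw [h3, smul_eq_mul] at h1
  have h4 : (D + 2) * m = m * (D + 2) := Nat.mul_comm _ _
  omega

theorem exists_max_edge {l : List (ℤ × ℤ)} (hl : l ≠ []) :
    ∃ σ, (∃ x ∈ l, x.1 = σ) ∧ ∀ x ∈ l, x.1 ≤ σ := by
  obtain ⟨y, hy⟩ := List.exists_mem_of_ne_nil l hl
  obtain ⟨x, hx, hmax⟩ := Finset.exists_max_image l.toFinset (fun x => x.1) ⟨y, by simpa using hy⟩
  exact ⟨x.1, ⟨x, by simpa using hx, rfl⟩, fun z hz => hmax z (by simpa using hz)⟩

/-- One cutting step in the path lemma. -/
theorem cut_step (L : ℤ → G) (D : ℕ)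
    (hL : ∀ k l : ℤ, |k - l| ≤ D → Commute (L k) (L l))
    (w : List Lt) (p : ℤ) (hcl : endp p w = p)
    (h0 : ∀ k, net k (tog p w) = 0)
    (ih : ∀ (w' : List Lt) (p' : ℤ), w'.length < w.length → endp p' w' = p' →
      (∀ k, net k (tog p' w') = 0) → pr L (tog p' w') = 1)
    (σ : ℤ) (hxσ : ∃ x ∈ tog p w, x.1 = σ) (hmax : ∀ x ∈ tog p w, x.1 ≤ σ)
    (e : ℤ) (he1 : σ - D - 1 ≤ e) (he2 : e ≤ σ) (he3 : cn e (tog p w) < 4) :
    pr L (tog p w) = 1 := by
  obtain ⟨xσ, hxσ, hxσ1⟩ := hxσ
  have hpar := cn_parity e w p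
  rw [hcl] at hpar
  have heven : cn e (tog p w) % 2 ≠ 1 := by rw [Ne, hpar]; tauto
  -- commutation inside the window
  have hwin : ∀ l : List (ℤ × ℤ), (∀ x ∈ l, e < x.1 ∧ x.1 ≤ σ) → (∀ k, net k l = 0) → pr L l = 1 := by
    intro l hl hnet
    apply pr_eq_one_of_commute l _ hnet
    intro x hx y hy
    apply hL
    have := hl x hx
    have := hl y hy
    rw [abs_le]; constructor <;> omega
  have hcases : cn e (tog p w) = 0 ∨ cn e (tog p w) = 2 := by omega
  rcases hcases with hc | hc
  · -- never crosses e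
    have hside : e < p := by
      by_contra hcon
      have := (side_left w p hc (by omega)).2 xσ hxσ
      omega
    exact hwin _ (fun x hx => ⟨(side_right w p hc hside).2 x hx, hmax x hx⟩) h0
  · obtain ⟨u₁, t₁, u₂, t₂, u₃, hwe, c1, e1, c2, e2, c3⟩ := split_two hc
    subst hwe
    rw [tog_append, tog, tog_append, tog] at h0 hmax ⊢
    rw [endp_append, endp, endp_append, endp] at hcl
    simp only [List.length_append, List.length_cons] at ih
    set p₁ := endp p u₁ with hp₁
    set q₁ := nx p₁ t₁ with hq₁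
    set p₂ := endp q₁ u₂ with hp₂
    set q₂ := nx p₂ t₂ with hq₂
    have hz1 := fun x hx => cn_eq_zero_iff.1 c1 x hx
    have hz2 := fun x hx => cn_eq_zero_iff.1 c2 x hx
    have hz3 := fun x hx => cn_eq_zero_iff.1 c3 x hx
    have hamt : am p₁ t₁ + am p₂ t₂ = 0 := by
      have := h0 e
      simp only [net_append, net_cons, e1, e2, if_true, net_eq_zero_of hz1, net_eq_zero_of hz2,
        net_eq_zero_of hz3] at this
      linarith
    have hLe : ∀ g : G, L (eg p₁ t₁) ^ am p₁ t₁ * (L (eg p₂ t₂) ^ am p₂ t₂ * g) = g := by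
      intro g
      rw [e1, e2, ← mul_assoc, ← zpow_add, hamt, zpow_zero, one_mul]
    by_cases hside : p ≤ e
    · -- base on the left
      have s1 := side_left u₁ p c1 hside
      have hq1e : q₁ = e + 1 := by
        rcases eg_nx_cases p₁ t₁ with ⟨a, b, _⟩ | ⟨a, b, _⟩ <;> omega
      have s2 := side_right u₂ q₁ c2 (by omega)
      have hq2e : q₂ = e := by
        rcases eg_nx_cases p₂ t₂ with ⟨a, b, _⟩ | ⟨a, b, _⟩ <;> omega
      have hp1e : p₁ = e := by
        rcases eg_nx_cases p₁ t₁ with ⟨a, b, _⟩ | ⟨a, b, _⟩ <;> omega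
      have s3 := side_left u₃ q₂ c3 (by omega)
      have hnet2 : ∀ k, net k (tog q₁ u₂) = 0 := by
        intro k
        by_cases hk : e < k
        · have := h0 k
          have n1 : net k (tog p u₁) = 0 := net_eq_zero_of fun x hx => by
            have := s1.2 x hx; omega
          have n3 : net k (tog q₂ u₃) = 0 := net_eq_zero_of fun x hx => by
            have := s3.2 x hx; omega
          simp only [net_append, net_cons, e1, e2, n1, n3] at this
          rw [if_neg (by omega), if_neg (by omega)] at this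
          linarith
        · exact net_eq_zero_of fun x hx => by have := s2.2 x hx; omega
      have hpr2 : pr L (tog q₁ u₂) = 1 := by
        apply hwin _ _ hnet2
        intro x hx
        exact ⟨s2.2 x hx, hmax x (by simp [hx])⟩
      have hred : pr L (tog p (u₁ ++ u₃)) = 1 := by
        apply ih (u₁ ++ u₃) p (by simp only [List.length_append]; omega)
        · rw [endp_append, ← hp₁, hp1e, ← hq2e, hcl]
        · intro k
          rw [tog_append, ← hp₁, hp1e, ← hq2e, net_append]
          have := h0 k
          simp only [net_append, net_cons, e1, e2, hnet2] at this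
          by_cases hk : e = k
          · rw [if_pos hk, if_pos hk] at this; linarith
          · rw [if_neg hk, if_neg hk] at this; linarith
      rw [tog_append, ← hp₁, hp1e, ← hq2e, pr_append] at hred
      simp only [pr_append, pr_cons]
      rw [hpr2, one_mul, hLe]
      exact hred
    · -- base on the right
      have s1 := side_right u₁ p c1 (by omega)
      have hq1e : q₁ = e := by
        rcases eg_nx_cases p₁ t₁ with ⟨a, b, _⟩ | ⟨a, b, _⟩ <;> omega
      have s2 := side_left u₂ q₁ c2 (by omega)
      have hq2e : q₂ = e + 1 := by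
        rcases eg_nx_cases p₂ t₂ with ⟨a, b, _⟩ | ⟨a, b, _⟩ <;> omega
      have hp1e : p₁ = e + 1 := by
        rcases eg_nx_cases p₁ t₁ with ⟨a, b, _⟩ | ⟨a, b, _⟩ <;> omega
      have hp2e : p₂ = e := by
        rcases eg_nx_cases p₂ t₂ with ⟨a, b, _⟩ | ⟨a, b, _⟩ <;> omega
      have s3 := side_right u₃ q₂ c3 (by omega)
      have hnet2 : ∀ k, net k (tog q₁ u₂) = 0 := by
        intro k
        by_cases hk : k < e
        · have := h0 k
          have n1 : net k (tog p u₁) = 0 := net_eq_zero_of fun x hx => by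
            have := s1.2 x hx; omega
          have n3 : net k (tog q₂ u₃) = 0 := net_eq_zero_of fun x hx => by
            have := s3.2 x hx; omega
          simp only [net_append, net_cons, e1, e2, n1, n3] at this
          rw [if_neg (by omega), if_neg (by omega)] at this
          linarith
        · exact net_eq_zero_of fun x hx => by have := s2.2 x hx; omega
      have hpr2 : pr L (tog q₁ u₂) = 1 := by
        apply ih u₂ q₁ (by omega) (by rw [← hp₂, hp2e, hq1e]) hnet2
      simp only [pr_append, pr_cons]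
      rw [hpr2, one_mul, hLe, ← pr_append]
      apply hwin
      · intro x hx
        rcases List.mem_append.1 hx with hx | hx
        · exact ⟨s1.2 x hx, hmax x (by simp [hx])⟩
        · exact ⟨s3.2 x hx, hmax x (by simp [hx])⟩
      · intro k
        have := h0 k
        simp only [net_append, net_cons, e1, e2, hnet2] at this
        rw [net_append]
        by_cases hk : e = k
        · rw [if_pos hk, if_pos hk] at this; linarith
        · rw [if_neg hk, if_neg hk] at this; linarith


/-- The path lemma. -/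
theorem path_lemma (L : ℤ → G) (D : ℕ)
    (hL : ∀ k l : ℤ, |k - l| ≤ D → Commute (L k) (L l))
    (w : List Lt) (p : ℤ) (hcl : endp p w = p) (hlen : w.length < 4 * (D + 2))
    (h0 : ∀ k, net k (tog p w) = 0) : pr L (tog p w) = 1 := by
  induction hn : w.length using Nat.strong_induction_on generalizing w p with
  | _ n ih =>
  by_cases hw : w = []
  · subst hw; rfl
  have htne : tog p w ≠ [] := by
    intro h; apply hw; have := tog_length p w; rw [h] at this
    exact List.length_eq_zero_iff.1 this.symm
  obtain ⟨σ, hxσ, hmax⟩ := exists_max_edge htne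
  obtain ⟨e, he1, he2, he3⟩ := exists_low (σ := σ) (D := D) (l := tog p w) (m := 4)
    (by rw [tog_length]; exact hlen)
  refine cut_step L D hL w p hcl h0 ?_ σ hxσ hmax e he1 he2 he3
  intro w' p' hw' hc' hn'
  exact ih w'.length (by omega) w' p' hc' (by omega) hn' rfl

/-- bound for the net toggle at an edge crossed few times -/
theorem net_bound {k A : ℤ} (w : List Lt) (p : ℤ) (hA : ∀ t ∈ w, 0 ≤ t.2 ∧ t.2 ≤ A) :
    (k < p → k < endp p w → |2 * net k (tog p w)| ≤ A * cn k (tog p w)) ∧
    (p ≤ k → endp p w ≤ k → |2 * net k (tog p w)| ≤ A * cn k (tog p w)) ∧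
    (k < p → endp p w ≤ k → -(A * (cn k (tog p w) + 1)) ≤ 2 * net k (tog p w) ∧
      2 * net k (tog p w) ≤ A * (cn k (tog p w) - 1)) ∧
    (p ≤ k → k < endp p w → -(A * (cn k (tog p w) - 1)) ≤ 2 * net k (tog p w) ∧
      2 * net k (tog p w) ≤ A * (cn k (tog p w) + 1)) := by
  induction w generalizing p with
  | nil =>
    simp only [tog, endp, net_nil, cn_nil]
    refine ⟨fun _ _ => by simp, fun _ _ => by simp, fun h1 h2 => by omega, fun h1 h2 => by omega⟩
  | cons t w ih =>
    obtain ⟨i1, i2, i3, i4⟩ := ih (nx p t) (fun s hs => hA s (by simp [hs]))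
    have ht := hA t (by simp)
    simp only [tog, endp, net_cons, cn_cons]
    rcases eg_nx_cases p t with ⟨a, b, c⟩ | ⟨a, b, c⟩
    · by_cases h : eg p t = k
      · rw [if_pos h, if_pos h]
        have hp : p = k := by omega
        rw [abs_le] at i1
        push_cast
        refine ⟨fun h1 => by omega, fun _ h2 => ?_, fun h1 => by omega, fun _ h2 => ?_⟩
        · obtain ⟨j1, j2⟩ := i3 (by omega) h2
          rw [abs_le]; constructor <;> nlinarith
        · obtain ⟨j1, j2⟩ := i1 (by omega) h2
          constructor <;> nlinarith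
      · rw [if_neg h, if_neg h]
        simp only [zero_add]
        refine ⟨fun h1 h2 => i1 (by omega) h2, fun h1 h2 => i2 (by omega) h2,
          fun h1 h2 => i3 (by omega) h2, fun h1 h2 => i4 (by omega) h2⟩
    · by_cases h : eg p t = k
      · rw [if_pos h, if_pos h]
        have hp : p = k + 1 := by omega
        rw [abs_le] at i2
        push_cast
        refine ⟨fun _ h2 => ?_, fun h1 => by omega, fun _ h2 => ?_, fun h1 => by omega⟩
        · obtain ⟨j1, j2⟩ := i4 (by omega) h2
          rw [abs_le]; constructor <;> nlinarith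
        · obtain ⟨j1, j2⟩ := i2 (by omega) h2
          constructor <;> nlinarith
      · rw [if_neg h, if_neg h]
        simp only [zero_add]
        refine ⟨fun h1 h2 => i1 (by omega) h2, fun h1 h2 => i2 (by omega) h2,
          fun h1 h2 => i3 (by omega) h2, fun h1 h2 => i4 (by omega) h2⟩

/-- pull out all the edges which commute with everything -/
theorem pr_filter2 {L : ℤ → G} {k m : ℤ} (l : List (ℤ × ℤ))
    (hc : ∀ x ∈ l, x.1 ≠ k → x.1 ≠ m → ∀ y ∈ l, Commute (L x.1) (L y.1))
    (h0 : ∀ j, j ≠ k → j ≠ m → net j l = 0) :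
    pr L l = pr L (l.filter fun x => x.1 = k ∨ x.1 = m) := by
  induction hn : l.length using Nat.strong_induction_on generalizing l with
  | _ n ih =>
    by_cases hall : ∀ x ∈ l, x.1 = k ∨ x.1 = m
    · rw [List.filter_eq_self.2 (fun x hx => by simpa using hall x hx)]
    · push Not at hall
      obtain ⟨x, hx, hxk, hxm⟩ := hall
      rw [pr_pull (k := x.1) (fun y hy => hc x hx hxk hxm y hy), h0 _ hxk hxm, zpow_zero, one_mul]
      rw [ih (l.filter fun y => y.1 ≠ x.1).length _ _ _ _ rfl]
      · congr 1
        rw [List.filter_filter]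
        apply List.filter_congr
        intro y _
        by_cases hy1 : y.1 = k
        · simp [hy1]; exact Ne.symm hxk
        · by_cases hy2 : y.1 = m
          · simp [hy2]; exact Ne.symm hxm
          · simp [hy1, hy2]
      · rw [← hn]
        exact List.length_filter_lt_length_iff_exists.2 ⟨x, hx, by simp⟩
      · intro y hy h1 h2 z hz
        exact hc y (List.mem_of_mem_filter hy) h1 h2 z (List.mem_of_mem_filter hz)
      · intro j h1 h2
        by_cases hj : j = x.1
        · subst hj
          apply net_eq_zero_of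
          intro y hy
          have := (List.mem_filter.1 hy).2
          simpa using this
        · rw [net_filter_ne hj, h0 j h1 h2]

theorem pr_single {L : ℤ → G} {k : ℤ} {l : List (ℤ × ℤ)} (h : ∀ x ∈ l, x.1 = k) :
    pr L l = L k ^ net k l := by
  induction l with
  | nil => simp
  | cons x l ih =>
    rw [pr_cons, ih (fun y hy => h y (by simp [hy])), net_cons, if_pos (h x (by simp)), zpow_add,
      h x (by simp)]

theorem net_filter_of {j : ℤ} {P : ℤ × ℤ → Bool} (l : List (ℤ × ℤ)) (h : ∀ x, x.1 = j → P x = true) :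
    net j (l.filter P) = net j l := by
  induction l with
  | nil => simp
  | cons x l ih =>
    by_cases hx : P x = true
    · rw [List.filter_cons_of_pos hx, net_cons, net_cons, ih]
    · rw [List.filter_cons_of_neg hx, ih, net_cons, if_neg (fun h' => hx (h x h')), zero_add]

end Run7.h459
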