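import Pool.Agent.Run7.h459.PL

/-! The tight case of the path lemma. -/

namespace Run7.h459

open scoped commutatorElement

variable {G : Type*} [Group G]

/-- decomposition of a walk crossing `e` exactly four times -/
theorem split_four {e : ℤ} {w : List Lt} {p : ℤ} (h : cn e (tog p w) = 4) :
    ∃ u₁ t₁ u₂ t₂ u₃ t₃ u₄ t₄ u₅,
      w = u₁ ++ t₁ :: (u₂ ++ t₂ :: (u₃ ++ t₃ :: (u₄ ++ t₄ :: u₅))) ∧
      cn e (tog p u₁) = 0 ∧ eg (endp p u₁) t₁ = e ∧
      cn e (tog (nx (endp p u₁) t₁) u₂) = 0 ∧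
      eg (endp (nx (endp p u₁) t₁) u₂) t₂ = e ∧
      cn e (tog (nx (endp (nx (endp p u₁) t₁) u₂) t₂) u₃) = 0 ∧
      eg (endp (nx (endp (nx (endp p u₁) t₁) u₂) t₂) u₃) t₃ = e ∧
      cn e (tog (nx (endp (nx (endp (nx (endp p u₁) t₁) u₂) t₂) u₃) t₃) u₄) = 0 ∧
      eg (endp (nx (endp (nx (endp (nx (endp p u₁) t₁) u₂) t₂) u₃) t₃) u₄) t₄ = e ∧
      cn e (tog (nx (endp (nx (endp (nx (endp (nx (endp p u₁) t₁) u₂) t₂) u₃) t₃) u₄) t₄) u₅) = 0 := by
  obtain ⟨u₁, t₁, v, h1, h2, h3⟩ := split_first e w p (by omega)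
  subst h1
  rw [tog_append, cn_append, h2] at h
  simp only [tog, cn_cons, h3, if_true] at h
  obtain ⟨u₂, t₂, v₂, h4, h5, h6⟩ := split_first e v _ (show cn e (tog (nx (endp p u₁) t₁) v) ≠ 0 by omega)
  subst h4
  rw [tog_append, cn_append, h5] at h
  simp only [tog, cn_cons, h6, if_true] at h
  have hv : cn e (tog (nx (endp (nx (endp p u₁) t₁) u₂) t₂) v₂) = 2 := by omega
  obtain ⟨u₃, t₃, u₄, t₄, u₅, h7, c3, e3, c4, e4, c5⟩ := split_two hv
  subst h7
  exact ⟨u₁, t₁, u₂, t₂, u₃, t₃, u₄, t₄, u₅, rfl, h2, h3, h5, h6, c3, e3, c4, e4, c5⟩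

theorem filter_single {k : ℤ} {P : ℤ × ℤ → Bool} {l : List (ℤ × ℤ)}
    (h : ∀ x ∈ l, P x = true → x.1 = k) (L : ℤ → G) (hP : ∀ x : ℤ × ℤ, x.1 = k → P x = true) :
    pr L (l.filter P) = L k ^ net k l := by
  rw [pr_single (k := k), net_filter_of l hP]
  intro x hx
  exact h x (List.mem_of_mem_filter hx) (List.mem_filter.1 hx).2

/-- The tight case. -/
theorem path_lemma_tight (L : ℤ → G) (D : ℕ) (hD : 1 ≤ D)
    (hL : ∀ k l : ℤ, |k - l| ≤ D → Commute (L k) (L l))
    (w : List Lt) (p : ℤ) (hcl : endp p w = p) (hlen : w.length ≤ 4 * (D + 2))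
    (h0 : ∀ k, net k (tog p w) = 0) (A : ℤ) (hA0 : 0 ≤ A) (hA : ∀ t ∈ w, 0 ≤ t.2 ∧ t.2 ≤ A) :
    pr L (tog p w) = 1 ∨ ∃ (k α β : ℤ) (g : G), |α| ≤ A ∧ |β| ≤ A ∧
      (pr L (tog p w) = g * ⁅L (k + D + 1) ^ β, L k ^ α⁆ * g⁻¹ ∨
       pr L (tog p w) = g * ⁅L k ^ α, L (k + D + 1) ^ β⁆ * g⁻¹) := by
  by_cases hlt : w.length < 4 * (D + 2)
  · left; exact path_lemma L D hL w p hcl hlt h0
  have hlen' : w.length = 4 * (D + 2) := by omega
  have htne : tog p w ≠ [] := by
    intro h
    have := tog_length p w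
    rw [h] at this
    simp at this
    omega
  obtain ⟨σ, hxσ, hmax⟩ := exists_max_edge htne
  by_cases hlow : ∃ e, σ - D - 1 ≤ e ∧ e ≤ σ ∧ cn e (tog p w) < 4
  · left
    obtain ⟨e, he1, he2, he3⟩ := hlow
    refine cut_step L D hL w p hcl h0 ?_ σ hxσ hmax e he1 he2 he3
    intro w' p' hw' hc' hn'
    exact path_lemma L D hL w' p' hc' (by omega) hn'
  push Not at hlow
  right
  set k := σ - D - 1 with hk
  have hsum : ∀ s : Finset ℤ, Finset.Icc k σ ⊆ s → ∑ e ∈ s, cn e (tog p w) = 4 * (D + 2) ∧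
      ∑ e ∈ Finset.Icc k σ, cn e (tog p w) = 4 * (D + 2) := by
    intro s hs
    have h1 := sum_cn_le s (tog p w)
    rw [tog_length, hlen'] at h1
    have h2 : ∑ e ∈ Finset.Icc k σ, cn e (tog p w) ≤ ∑ e ∈ s, cn e (tog p w) :=
      Finset.sum_le_sum_of_subset hs
    have h3 : ∑ e ∈ Finset.Icc k σ, 4 ≤ ∑ e ∈ Finset.Icc k σ, cn e (tog p w) :=
      Finset.sum_le_sum fun e he => hlow e (Finset.mem_Icc.1 he).1 (Finset.mem_Icc.1 he).2
    rw [Finset.sum_const, Int.card_Icc] at h3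
    have h4 : (σ + 1 - k).toNat = D + 2 := by omega
    rw [h4, smul_eq_mul] at h3
    omega
  have hcn4 : ∀ e, k ≤ e → e ≤ σ → cn e (tog p w) = 4 := by
    intro e he1 he2
    by_contra hne
    have h5 : 5 ≤ cn e (tog p w) := by
      have := hlow e he1 he2
      omega
    have h1 := (hsum _ (Finset.Subset.refl _)).2
    have h3 : ∑ x ∈ Finset.Icc k σ, 4 < ∑ x ∈ Finset.Icc k σ, cn x (tog p w) := by
      apply Finset.sum_lt_sum
      · intro x hx
        exact hlow x (Finset.mem_Icc.1 hx).1 (Finset.mem_Icc.1 hx).2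
      · exact ⟨e, Finset.mem_Icc.2 ⟨he1, he2⟩, by omega⟩
    rw [Finset.sum_const, Int.card_Icc] at h3
    have h4 : (σ + 1 - k).toNat = D + 2 := by omega
    rw [h4, smul_eq_mul] at h3
    omega
  have hin : ∀ x ∈ tog p w, k ≤ x.1 ∧ x.1 ≤ σ := by
    intro x hx
    refine ⟨?_, hmax x hx⟩
    by_contra hcon
    have hnot : x.1 ∉ Finset.Icc k σ := by
      rw [Finset.mem_Icc]; omega
    obtain ⟨h1, h2⟩ := hsum (insert x.1 (Finset.Icc k σ)) (Finset.subset_insert _ _)
    rw [Finset.sum_insert hnot, h2] at h1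
    have h3 : cn x.1 (tog p w) = 0 := by omega
    exact (cn_eq_zero_iff.1 h3) x hx rfl
  have hσk : σ = k + D + 1 := by omega
  -- reduce to the two extreme edges
  have hred := pr_filter2 (L := L) (k := k) (m := σ) (tog p w)
    (by
      intro x hx h1 h2 y hy
      have a := hin x hx
      have b := hin y hy
      apply hL
      rw [abs_le]; constructor <;> omega)
    (fun j _ _ => h0 j)
  rw [hred]
  -- split at the cut edge
  obtain ⟨u₁, t₁, u₂, t₂, u₃, t₃, u₄, t₄, u₅, hwe, c1, e1, c2, e2, c3, e3, c4, e4, c5⟩ :=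
    split_four (hcn4 (k + 1) (by omega) (by omega))
  have hn_k := h0 k
  have hn_s := h0 σ
  have hc_k := hcn4 k (by omega) (by omega)
  have hc_s := hcn4 σ (by omega) (by omega)
  subst hwe
  rw [tog_append, tog, tog_append, tog, tog_append, tog, tog_append, tog] at hn_k hn_s hc_k hc_s hin ⊢
  rw [endp_append, endp, endp_append, endp, endp_append, endp, endp_append, endp] at hcl
  set p₁ := endp p u₁ with hp₁
  set q₁ := nx p₁ t₁ with hq₁
  set p₂ := endp q₁ u₂ with hp₂
  set q₂ := nx p₂ t₂ with hq₂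
  set p₃ := endp q₂ u₃ with hp₃
  set q₃ := nx p₃ t₃ with hq₃
  set p₄ := endp q₃ u₄ with hp₄
  set q₄ := nx p₄ t₄ with hq₄
  have hAu : ∀ u : List Lt, (∀ t ∈ u, t ∈ u₁ ++ t₁ :: (u₂ ++ t₂ :: (u₃ ++ t₃ :: (u₄ ++ t₄ :: u₅)))) →
      ∀ t ∈ u, 0 ≤ t.2 ∧ t.2 ≤ A := fun u hu t ht => hA t (hu t ht)
  simp only [net_append, net_cons, e1, e2, e3, e4] at hn_k hn_s
  simp only [cn_append, cn_cons, e1, e2, e3, e4] at hc_k hc_s
  simp only [if_neg (by omega : ¬ (k + 1 = k)), zero_add] at hn_k hc_k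
  simp only [if_neg (by omega : ¬ (k + 1 = σ)), zero_add] at hn_s hc_s
  have hPk : ∀ x : ℤ × ℤ, x.1 = k → (decide (x.1 = k ∨ x.1 = σ)) = true := by
    intro x hx; simp [hx]
  have hPs : ∀ x : ℤ × ℤ, x.1 = σ → (decide (x.1 = k ∨ x.1 = σ)) = true := by
    intro x hx; simp [hx]
  have hskip : ∀ (t : Lt) (q : ℤ) (l : List (ℤ × ℤ)), eg q t = k + 1 →
      List.filter (fun x : ℤ × ℤ => decide (x.1 = k ∨ x.1 = σ)) ((eg q t, am q t) :: l) =
      List.filter (fun x : ℤ × ℤ => decide (x.1 = k ∨ x.1 = σ)) l := by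
    intro t q l h
    apply List.filter_cons_of_neg
    simp only [h, decide_eq_true_eq]; omega
  rw [List.filter_append, hskip _ _ _ e1, List.filter_append, hskip _ _ _ e2, List.filter_append,
    hskip _ _ _ e3, List.filter_append, hskip _ _ _ e4, pr_append, pr_append, pr_append, pr_append]
  have par := fun (u : List Lt) (q : ℤ) (j : ℤ) => cn_parity j u q
  by_cases hside : p ≤ k + 1
  · -- base on the left
    have s1 := side_left u₁ p c1 hside
    have hq1e : q₁ = k + 2 := by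
      rcases eg_nx_cases p₁ t₁ with ⟨a, b, _⟩ | ⟨a, b, _⟩ <;> omega
    have s2 := side_right u₂ q₁ c2 (by omega)
    have hp2e : p₂ = k + 2 := by
      rcases eg_nx_cases p₂ t₂ with ⟨a, b, _⟩ | ⟨a, b, _⟩ <;> omega
    have hq2e : q₂ = k + 1 := by
      rcases eg_nx_cases p₂ t₂ with ⟨a, b, _⟩ | ⟨a, b, _⟩ <;> omega
    have s3 := side_left u₃ q₂ c3 (by omega)
    have hp3e : p₃ = k + 1 := by
      rcases eg_nx_cases p₃ t₃ with ⟨a, b, _⟩ | ⟨a, b, _⟩ <;> omega
    have hq3e : q₃ = k + 2 := by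
      rcases eg_nx_cases p₃ t₃ with ⟨a, b, _⟩ | ⟨a, b, _⟩ <;> omega
    have s4 := side_right u₄ q₃ c4 (by omega)
    have hq4e : q₄ = k + 1 := by
      rcases eg_nx_cases p₄ t₄ with ⟨a, b, _⟩ | ⟨a, b, _⟩ <;> omega
    have s5 := side_left u₅ q₄ c5 (by omega)
    have f1 : pr L ((tog p u₁).filter fun x => decide (x.1 = k ∨ x.1 = σ)) = L k ^ net k (tog p u₁) :=
      filter_single (fun x hx hP => by have := s1.2 x hx; have := hin x (by simp [hx]); omega) L hPk
    have f2 : pr L ((tog q₁ u₂).filter fun x => decide (x.1 = k ∨ x.1 = σ)) = L σ ^ net σ (tog q₁ u₂) :=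
      filter_single (fun x hx hP => by
        have := s2.2 x hx; simp only [decide_eq_true_eq] at hP; omega) L hPs
    have f3 : pr L ((tog q₂ u₃).filter fun x => decide (x.1 = k ∨ x.1 = σ)) = L k ^ net k (tog q₂ u₃) :=
      filter_single (fun x hx hP => by have := s3.2 x hx; have := hin x (by simp [hx]); omega) L hPk
    have f4 : pr L ((tog q₃ u₄).filter fun x => decide (x.1 = k ∨ x.1 = σ)) = L σ ^ net σ (tog q₃ u₄) :=
      filter_single (fun x hx hP => by
        have := s4.2 x hx; simp only [decide_eq_true_eq] at hP; omega) L hPs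
    have f5 : pr L ((tog q₄ u₅).filter fun x => decide (x.1 = k ∨ x.1 = σ)) = L k ^ net k (tog q₄ u₅) :=
      filter_single (fun x hx hP => by have := s5.2 x hx; have := hin x (by simp [hx]); omega) L hPk
    rw [f1, f2, f3, f4, f5]
    have z2 : net k (tog q₁ u₂) = 0 := net_eq_zero_of fun x hx => by have := s2.2 x hx; omega
    have z4 : net k (tog q₃ u₄) = 0 := net_eq_zero_of fun x hx => by have := s4.2 x hx; omega
    have z1 : net σ (tog p u₁) = 0 := net_eq_zero_of fun x hx => by have := s1.2 x hx; omega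
    have z3 : net σ (tog q₂ u₃) = 0 := net_eq_zero_of fun x hx => by have := s3.2 x hx; omega
    have z5 : net σ (tog q₄ u₅) = 0 := net_eq_zero_of fun x hx => by have := s5.2 x hx; omega
    -- bounds
    have hα : |net k (tog q₂ u₃)| ≤ A := by
      have b := (net_bound (k := k) (A := A) u₃ q₂ (hAu u₃ (fun t ht => by simp [ht]))).1
        (by omega) (by omega)
      have pp := par u₃ q₂ k
      by_cases hbig : cn k (tog q₂ u₃) ≤ 2
      · have : A * (cn k (tog q₂ u₃) : ℤ) ≤ A * 2 := by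
          apply mul_le_mul_of_nonneg_left _ hA0; exact_mod_cast hbig
        rw [abs_mul] at b
        simp only [abs_two] at b
        linarith
      · have h4' : cn k (tog q₂ u₃) = 4 := by omega
        have y1 : net k (tog p u₁) = 0 := net_eq_zero_of (cn_eq_zero_iff.1 (by omega))
        have y5 : net k (tog q₄ u₅) = 0 := net_eq_zero_of (cn_eq_zero_iff.1 (by omega))
        rw [y1, y5, z2, z4] at hn_k
        have : net k (tog q₂ u₃) = 0 := by linarith
        rw [this]; simpa using hA0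
    have hβ : |net σ (tog q₁ u₂)| ≤ A := by
      have b := (net_bound (k := σ) (A := A) u₂ q₁ (hAu u₂ (fun t ht => by simp [ht]))).2.1
        (by omega) (by omega)
      have pp := par u₂ q₁ σ
      by_cases hbig : cn σ (tog q₁ u₂) ≤ 2
      · have : A * (cn σ (tog q₁ u₂) : ℤ) ≤ A * 2 := by
          apply mul_le_mul_of_nonneg_left _ hA0; exact_mod_cast hbig
        rw [abs_mul] at b
        simp only [abs_two] at b
        linarith
      · have h4' : cn σ (tog q₁ u₂) = 4 := by omega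
        have y4 : net σ (tog q₃ u₄) = 0 := net_eq_zero_of (cn_eq_zero_iff.1 (by omega))
        rw [y4, z1, z3, z5] at hn_s
        have : net σ (tog q₁ u₂) = 0 := by linarith
        rw [this]; simpa using hA0
    refine ⟨k, net k (tog q₂ u₃), net σ (tog q₁ u₂), L k ^ net k (tog p u₁), hα, hβ, Or.inl ?_⟩
    have a1 : net σ (tog q₃ u₄) = - net σ (tog q₁ u₂) := by linarith
    have a2 : net k (tog q₄ u₅) = - net k (tog q₂ u₃) - net k (tog p u₁) := by linarith
    rw [a1, a2, ← hσk, commutatorElement_def, zpow_neg, zpow_sub, zpow_neg]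
    group
  · -- base on the right
    have s1 := side_right u₁ p c1 (by omega)
    have hq1e : q₁ = k + 1 := by
      rcases eg_nx_cases p₁ t₁ with ⟨a, b, _⟩ | ⟨a, b, _⟩ <;> omega
    have s2 := side_left u₂ q₁ c2 (by omega)
    have hp2e : p₂ = k + 1 := by
      rcases eg_nx_cases p₂ t₂ with ⟨a, b, _⟩ | ⟨a, b, _⟩ <;> omega
    have hq2e : q₂ = k + 2 := by
      rcases eg_nx_cases p₂ t₂ with ⟨a, b, _⟩ | ⟨a, b, _⟩ <;> omega
    have s3 := side_right u₃ q₂ c3 (by omega)
    have hp3e : p₃ = k + 2 := by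
      rcases eg_nx_cases p₃ t₃ with ⟨a, b, _⟩ | ⟨a, b, _⟩ <;> omega
    have hq3e : q₃ = k + 1 := by
      rcases eg_nx_cases p₃ t₃ with ⟨a, b, _⟩ | ⟨a, b, _⟩ <;> omega
    have s4 := side_left u₄ q₃ c4 (by omega)
    have hq4e : q₄ = k + 2 := by
      rcases eg_nx_cases p₄ t₄ with ⟨a, b, _⟩ | ⟨a, b, _⟩ <;> omega
    have s5 := side_right u₅ q₄ c5 (by omega)
    have f1 : pr L ((tog p u₁).filter fun x => decide (x.1 = k ∨ x.1 = σ)) = L σ ^ net σ (tog p u₁) :=
      filter_single (fun x hx hP => by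
        have := s1.2 x hx; simp only [decide_eq_true_eq] at hP; omega) L hPs
    have f2 : pr L ((tog q₁ u₂).filter fun x => decide (x.1 = k ∨ x.1 = σ)) = L k ^ net k (tog q₁ u₂) :=
      filter_single (fun x hx hP => by have := s2.2 x hx; have := hin x (by simp [hx]); omega) L hPk
    have f3 : pr L ((tog q₂ u₃).filter fun x => decide (x.1 = k ∨ x.1 = σ)) = L σ ^ net σ (tog q₂ u₃) :=
      filter_single (fun x hx hP => by
        have := s3.2 x hx; simp only [decide_eq_true_eq] at hP; omega) L hPs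
    have f4 : pr L ((tog q₃ u₄).filter fun x => decide (x.1 = k ∨ x.1 = σ)) = L k ^ net k (tog q₃ u₄) :=
      filter_single (fun x hx hP => by have := s4.2 x hx; have := hin x (by simp [hx]); omega) L hPk
    have f5 : pr L ((tog q₄ u₅).filter fun x => decide (x.1 = k ∨ x.1 = σ)) = L σ ^ net σ (tog q₄ u₅) :=
      filter_single (fun x hx hP => by
        have := s5.2 x hx; simp only [decide_eq_true_eq] at hP; omega) L hPs
    rw [f1, f2, f3, f4, f5]
    have z2 : net σ (tog q₁ u₂) = 0 := net_eq_zero_of fun x hx => by have := s2.2 x hx; omega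
    have z4 : net σ (tog q₃ u₄) = 0 := net_eq_zero_of fun x hx => by have := s4.2 x hx; omega
    have z1 : net k (tog p u₁) = 0 := net_eq_zero_of fun x hx => by have := s1.2 x hx; omega
    have z3 : net k (tog q₂ u₃) = 0 := net_eq_zero_of fun x hx => by have := s3.2 x hx; omega
    have z5 : net k (tog q₄ u₅) = 0 := net_eq_zero_of fun x hx => by have := s5.2 x hx; omega
    have hβ : |net σ (tog q₂ u₃)| ≤ A := by
      have b := (net_bound (k := σ) (A := A) u₃ q₂ (hAu u₃ (fun t ht => by simp [ht]))).2.1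
        (by omega) (by omega)
      have pp := par u₃ q₂ σ
      by_cases hbig : cn σ (tog q₂ u₃) ≤ 2
      · have : A * (cn σ (tog q₂ u₃) : ℤ) ≤ A * 2 := by
          apply mul_le_mul_of_nonneg_left _ hA0; exact_mod_cast hbig
        rw [abs_mul] at b
        simp only [abs_two] at b
        linarith
      · have h4' : cn σ (tog q₂ u₃) = 4 := by omega
        have y1 : net σ (tog p u₁) = 0 := net_eq_zero_of (cn_eq_zero_iff.1 (by omega))
        have y5 : net σ (tog q₄ u₅) = 0 := net_eq_zero_of (cn_eq_zero_iff.1 (by omega))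
        rw [y1, y5, z2, z4] at hn_s
        have : net σ (tog q₂ u₃) = 0 := by linarith
        rw [this]; simpa using hA0
    have hα : |net k (tog q₁ u₂)| ≤ A := by
      have b := (net_bound (k := k) (A := A) u₂ q₁ (hAu u₂ (fun t ht => by simp [ht]))).1
        (by omega) (by omega)
      have pp := par u₂ q₁ k
      by_cases hbig : cn k (tog q₁ u₂) ≤ 2
      · have : A * (cn k (tog q₁ u₂) : ℤ) ≤ A * 2 := by
          apply mul_le_mul_of_nonneg_left _ hA0; exact_mod_cast hbig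
        rw [abs_mul] at b
        simp only [abs_two] at b
        linarith
      · have h4' : cn k (tog q₁ u₂) = 4 := by omega
        have y4 : net k (tog q₃ u₄) = 0 := net_eq_zero_of (cn_eq_zero_iff.1 (by omega))
        rw [y4, z1, z3, z5] at hn_k
        have : net k (tog q₁ u₂) = 0 := by linarith
        rw [this]; simpa using hA0
    refine ⟨k, net k (tog q₁ u₂), net σ (tog q₂ u₃), L σ ^ net σ (tog p u₁), hα, hβ, Or.inr ?_⟩
    have a1 : net k (tog q₃ u₄) = - net k (tog q₁ u₂) := by linarith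
    have a2 : net σ (tog q₄ u₅) = - net σ (tog q₂ u₃) - net σ (tog p u₁) := by linarith
    rw [a1, a2, ← hσk, commutatorElement_def, zpow_neg, zpow_sub, zpow_neg]
    group

end Run7.h459
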