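import Mathlib

set_option linter.unusedSectionVars false

/-! Perfect matchings avoiding small closed sets. -/

namespace Run7.h459

open Finset

variable {O : Type*} [Fintype O] [DecidableEq O]

/-- perfect matchings, as fixed point free involutions -/
def PMs (O : Type*) [Fintype O] [DecidableEq O] : Finset (Equiv.Perm O) :=
  univ.filter fun π => (∀ x, π (π x) = x) ∧ ∀ x, π x ≠ x

theorem mem_PMs {π : Equiv.Perm O} : π ∈ PMs O ↔ (∀ x, π (π x) = x) ∧ ∀ x, π x ≠ x := by
  simp [PMs]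

def Clo (π : Equiv.Perm O) (U : Finset O) : Prop := ∀ x ∈ U, π x ∈ U

instance (π : Equiv.Perm O) (U : Finset O) : Decidable (Clo π U) := by unfold Clo; infer_instance

def Gd (𝒢 : Finset (Finset O)) : Finset (Equiv.Perm O) :=
  (PMs O).filter fun π => ∀ U ∈ 𝒢, ¬ Clo π U

theorem mem_Gd {𝒢 : Finset (Finset O)} {π : Equiv.Perm O} :
    π ∈ Gd 𝒢 ↔ π ∈ PMs O ∧ ∀ U ∈ 𝒢, ¬ Clo π U := by simp [Gd]

/-- matchings containing the listed pairs -/
def El (l : List (O × O)) : Finset (Equiv.Perm O) := univ.filter fun π => ∀ x ∈ l, π x.1 = x.2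

theorem mem_El {l : List (O × O)} {π : Equiv.Perm O} : π ∈ El l ↔ ∀ x ∈ l, π x.1 = x.2 := by
  simp [El]

def ent (l : List (O × O)) : List O := l.flatMap fun x => [x.1, x.2]

@[simp] theorem ent_nil : ent ([] : List (O × O)) = [] := rfl
@[simp] theorem ent_cons (x : O × O) (l : List (O × O)) : ent (x :: l) = x.1 :: x.2 :: ent l := rfl

theorem ent_length (l : List (O × O)) : (ent l).length = 2 * l.length := by
  induction l with
  | nil => rfl
  | cons x l ih => simp [ih]; ring

theorem fst_mem_ent {l : List (O × O)} {x : O × O} (h : x ∈ l) : x.1 ∈ ent l :=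
  List.mem_flatMap.2 ⟨x, h, by simp⟩
theorem snd_mem_ent {l : List (O × O)} {x : O × O} (h : x ∈ l) : x.2 ∈ ent l :=
  List.mem_flatMap.2 ⟨x, h, by simp⟩

/-- one forcing step -/
theorem force_step (𝒢 : Finset (Finset O)) (x y : O) (l : List (O × O))
    (hnd : (ent ((x, y) :: l)).Nodup) (hdis : ∀ U ∈ 𝒢, ∀ z ∈ ent ((x, y) :: l), z ∉ U) :
    (El ((x, y) :: l) ∩ Gd 𝒢).card * (Fintype.card O - 1 - 2 * l.length) ≤
      (El l ∩ Gd 𝒢).card := by
  classical
  set Zs : Finset O := univ \ (insert x (ent l).toFinset) with hZs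
  have hcard : Fintype.card O - 1 - 2 * l.length ≤ Zs.card := by
    have h1 : (insert x (ent l).toFinset).card ≤ 2 * l.length + 1 := by
      refine (card_insert_le _ _).trans ?_
      have := List.toFinset_card_le (ent l)
      rw [ent_length] at this
      omega
    have h2 := le_card_sdiff (insert x (ent l).toFinset) univ
    rw [card_univ] at h2
    rw [hZs]
    omega
  refine (Nat.mul_le_mul_left _ hcard).trans ?_
  rw [← card_product]
  have hxy : x ≠ y := by
    simp only [ent_cons, List.nodup_cons, List.mem_cons, not_or] at hnd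
    exact hnd.1.1
  have hyl : y ∉ ent l := by
    simp only [ent_cons, List.nodup_cons] at hnd
    exact hnd.2.1
  have hxl : x ∉ ent l := by
    simp only [ent_cons, List.nodup_cons, List.mem_cons, not_or] at hnd
    exact hnd.1.2
  have hxU : ∀ U ∈ 𝒢, x ∉ U := fun U hU => hdis U hU x (by simp)
  have hyU : ∀ U ∈ 𝒢, y ∉ U := fun U hU => hdis U hU y (by simp)
  apply card_le_card_of_injOn (fun q => Equiv.swap y q.2 * q.1 * Equiv.swap y q.2)
  · rintro ⟨π, z⟩ hq
    rw [mem_coe, mem_product, mem_inter, mem_El, mem_Gd, mem_PMs] at hq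
    obtain ⟨⟨hE, ⟨⟨hinv, hfp⟩, hG⟩⟩, hz⟩ := hq
    simp only at hE hinv hfp hG hz
    rw [hZs, mem_sdiff, mem_insert, List.mem_toFinset, not_or] at hz
    obtain ⟨_, hzx, hzl⟩ := hz
    have hπx : π x = y := hE (x, y) (by simp)
    have hπy : π y = x := by rw [← hπx]; exact hinv x
    rw [mem_coe, mem_inter, mem_El, mem_Gd, mem_PMs]
    refine ⟨?_, ⟨?_, ?_⟩, ?_⟩
    · intro q hq
      have h1 : q.1 ∈ ent l := fst_mem_ent hq
      have h2 : q.2 ∈ ent l := snd_mem_ent hq
      have h3 : π q.1 = q.2 := hE q (by simp [hq])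
      have n1 : q.1 ≠ y := fun h => hyl (h ▸ h1)
      have n2 : q.1 ≠ z := fun h => hzl (h ▸ h1)
      have n3 : q.2 ≠ y := fun h => hyl (h ▸ h2)
      have n4 : q.2 ≠ z := fun h => hzl (h ▸ h2)
      simp only [Equiv.Perm.mul_apply]
      rw [Equiv.swap_apply_of_ne_of_ne n1 n2, h3, Equiv.swap_apply_of_ne_of_ne n3 n4]
    · intro w
      simp only [Equiv.Perm.mul_apply, Equiv.swap_apply_self, hinv]
    · intro w h
      simp only [Equiv.Perm.mul_apply] at h
      have := congrArg (Equiv.swap y z) h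
      rw [Equiv.swap_apply_self] at this
      exact hfp _ this
    · intro U hU hclo
      apply hG U hU
      have hσx : Equiv.swap y z x = x := Equiv.swap_apply_of_ne_of_ne hxy (Ne.symm hzx)
      -- z and π z are not in U
      have hzU : z ∉ U := by
        intro hzU
        have := hclo z hzU
        simp only [Equiv.Perm.mul_apply, Equiv.swap_apply_right, hπy, hσx] at this
        exact hxU U hU this
      intro w hw
      have hwy : w ≠ y := fun h => hyU U hU (h ▸ hw)
      have hwz : w ≠ z := fun h => hzU (h ▸ hw)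
      have h1 := hclo w hw
      simp only [Equiv.Perm.mul_apply] at h1
      rw [Equiv.swap_apply_of_ne_of_ne hwy hwz] at h1
      by_cases e1 : π w = y
      · rw [e1, Equiv.swap_apply_left] at h1; exact absurd h1 hzU
      · by_cases e2 : π w = z
        · rw [e2, Equiv.swap_apply_right] at h1; exact absurd h1 (hyU U hU)
        · rwa [Equiv.swap_apply_of_ne_of_ne e1 e2] at h1
  · rintro ⟨π, z⟩ hq ⟨π', z'⟩ hq' heq
    rw [mem_coe, mem_product, mem_inter, mem_El, mem_Gd, mem_PMs] at hq hq'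
    obtain ⟨⟨hE, ⟨⟨hinv, hfp⟩, hG⟩⟩, hz⟩ := hq
    obtain ⟨⟨hE', ⟨⟨hinv', hfp'⟩, hG'⟩⟩, hz'⟩ := hq'
    simp only at hE hE' hz hz' heq
    rw [hZs, mem_sdiff, mem_insert, List.mem_toFinset, not_or] at hz hz'
    have hπx : π x = y := hE (x, y) (by simp)
    have hπx' : π' x = y := hE' (x, y) (by simp)
    have h1 := congrArg (fun f : Equiv.Perm O => f x) heq
    simp only [Equiv.Perm.mul_apply] at h1
    rw [Equiv.swap_apply_of_ne_of_ne hxy (Ne.symm hz.2.1),
      Equiv.swap_apply_of_ne_of_ne hxy (Ne.symm hz'.2.1), hπx, hπx', Equiv.swap_apply_left,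
      Equiv.swap_apply_left] at h1
    subst h1
    have h2 : π = π' := by
      have := mul_left_cancel (mul_right_cancel heq)
      exact this
    rw [h2]

theorem force_all (𝒢 : Finset (Finset O)) (l : List (O × O)) (K : ℕ)
    (hnd : (ent l).Nodup) (hdis : ∀ U ∈ 𝒢, ∀ z ∈ ent l, z ∉ U)
    (hK : K + 2 * l.length ≤ Fintype.card O) :
    (El l ∩ Gd 𝒢).card * K ^ l.length ≤ (Gd 𝒢).card := by
  induction l with
  | nil => simpa using card_le_card inter_subset_right
  | cons q l ih =>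
    rcases q with ⟨x, y⟩
    have h1 := force_step 𝒢 x y l hnd hdis
    have h2 := ih (by simp only [ent_cons, List.nodup_cons] at hnd; exact hnd.2.2)
      (fun U hU z hz => hdis U hU z (by simp [hz])) (by simp only [List.length_cons] at hK; omega)
    simp only [List.length_cons] at hK ⊢
    calc (El ((x, y) :: l) ∩ Gd 𝒢).card * K ^ (l.length + 1)
        = ((El ((x, y) :: l) ∩ Gd 𝒢).card * K) * K ^ l.length := by ring
      _ ≤ ((El ((x, y) :: l) ∩ Gd 𝒢).card * (Fintype.card O - 1 - 2 * l.length)) * K ^ l.length := by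
          apply Nat.mul_le_mul_right
          apply Nat.mul_le_mul_left
          omega
      _ ≤ (El l ∩ Gd 𝒢).card * K ^ l.length := Nat.mul_le_mul_right _ h1
      _ ≤ _ := h2

/-- a closed set splits into pairs -/
theorem exists_list {π : Equiv.Perm O} (hinv : ∀ x, π (π x) = x) (hfp : ∀ x, π x ≠ x) :
    ∀ (n : ℕ) (U : Finset O), U.card = n → Clo π U →
    ∃ l : List (O × O), (ent l).Nodup ∧ (ent l).toFinset = U ∧ 2 * l.length = U.card ∧
      (∀ x ∈ l, π x.1 = x.2) := by
  intro n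
  induction n using Nat.strong_induction_on with
  | _ n ih =>
    intro U hn hU
    by_cases hU0 : U = ∅
    · subst hU0
      exact ⟨[], by simp, by simp, by simp, by simp⟩
    · obtain ⟨x, hx⟩ := nonempty_iff_ne_empty.2 hU0
      have hy := hU x hx
      have hyx : π x ≠ x := hfp x
      set U' := (U.erase x).erase (π x) with hU'
      have h1 : (π x) ∈ U.erase x := mem_erase.2 ⟨hyx, hy⟩
      have hc1 : U'.card + 2 = U.card := by
        rw [hU', card_erase_of_mem h1, card_erase_of_mem hx]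
        have := card_pos.2 ⟨_, h1⟩
        rw [card_erase_of_mem hx] at this
        omega
      have hclo : Clo π U' := by
        intro z hz
        rw [hU', mem_erase, mem_erase] at hz ⊢
        refine ⟨fun h => hz.2.1 (π.injective h), fun h => hz.1 ?_, hU z hz.2.2⟩
        rw [← h, hinv]
      obtain ⟨l, h2, h3, h4, h5⟩ := ih U'.card (by omega) U' rfl hclo
      refine ⟨(x, π x) :: l, ?_, ?_, ?_, ?_⟩
      · rw [ent_cons, List.nodup_cons, List.nodup_cons, List.mem_cons, not_or]
        have a1 : x ∉ ent l := by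
          intro h
          have : x ∈ U' := by rw [← h3]; simpa using h
          rw [hU', mem_erase, mem_erase] at this
          exact this.2.1 rfl
        have a2 : π x ∉ ent l := by
          intro h
          have : π x ∈ U' := by rw [← h3]; simpa using h
          rw [hU', mem_erase] at this
          exact this.1 rfl
        exact ⟨⟨Ne.symm hyx, a1⟩, a2, h2⟩
      · rw [ent_cons, List.toFinset_cons, List.toFinset_cons, h3, hU', insert_erase h1,
          insert_erase hx]
      · simp only [List.length_cons]; omega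
      · intro q hq
        rcases List.mem_cons.1 hq with h | h
        · rw [h]
        · exact h5 q h

theorem sum_biUnion_le' {α β : Type*} [DecidableEq α] [DecidableEq β] (s : Finset α)
    (t : α → Finset β) (f : β → ℝ) (hf : ∀ b, 0 ≤ f b) :
    ∑ b ∈ s.biUnion t, f b ≤ ∑ a ∈ s, ∑ b ∈ t a, f b := by
  induction s using Finset.induction_on with
  | empty => simp
  | insert a s ha ih =>
    rw [biUnion_insert, sum_insert ha]
    have := sum_union_inter (s₁ := t a) (s₂ := s.biUnion t) (f := f)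
    have h2 : 0 ≤ ∑ i ∈ t a ∩ s.biUnion t, f i := sum_nonneg (fun i _ => hf i)
    linarith

/-- weight of a set -/
noncomputable def wt (K : ℕ) (U : Finset O) : ℝ := 2 * (U.card : ℝ) ^ U.card / (K : ℝ) ^ (U.card / 2)

theorem wt_nonneg (K : ℕ) (U : Finset O) : 0 ≤ wt K U := by unfold wt; positivity

/-- the list bound gives the set bound -/
theorem set_bound (𝒢 : Finset (Finset O)) (U : Finset O) (K : ℕ) (hK : 0 < K)
    (hl : ∀ l : List (O × O), (ent l).Nodup → (ent l).toFinset = U → 2 * l.length = U.card →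
      ((El l ∩ Gd 𝒢).card : ℝ) * (K : ℝ) ^ l.length ≤ 2 * (Gd 𝒢).card) :
    (((Gd 𝒢).filter fun π => Clo π U).card : ℝ) ≤ wt K U * (Gd 𝒢).card := by
  classical
  obtain ⟨j, hj⟩ : ∃ j, j = U.card / 2 := ⟨_, rfl⟩
  -- cover by vectors
  set T : Finset (Fin j → O × O) := Fintype.piFinset fun _ => U ×ˢ U with hT
  set T' := T.filter fun v => (ent (List.ofFn v)).Nodup ∧ (ent (List.ofFn v)).toFinset = U ∧
    2 * (List.ofFn v).length = U.card with hT'
  have hcov : ((Gd 𝒢).filter fun π => Clo π U) ⊆ T'.biUnion fun v => El (List.ofFn v) ∩ Gd 𝒢 := by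
    intro π hπ
    rw [mem_filter] at hπ
    obtain ⟨h1, h2⟩ := hπ
    have h3 := (mem_Gd.1 h1).1
    rw [mem_PMs] at h3
    obtain ⟨l, a1, a2, a3, a4⟩ := exists_list h3.1 h3.2 _ U rfl h2
    have hlen : l.length = j := by omega
    subst hlen
    rw [mem_biUnion]
    refine ⟨l.get, ?_, ?_⟩
    · rw [hT', mem_filter, List.ofFn_get]
      refine ⟨?_, a1, a2, a3⟩
      rw [hT, Fintype.mem_piFinset]
      intro i
      rw [mem_product, ← a2, List.mem_toFinset, List.mem_toFinset]
      exact ⟨fst_mem_ent (List.get_mem _ _), snd_mem_ent (List.get_mem _ _)⟩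
    · rw [List.ofFn_get, mem_inter, mem_El]
      exact ⟨a4, h1⟩
  have hb : ∀ v ∈ T', ((El (List.ofFn v) ∩ Gd 𝒢).card : ℝ) ≤ 2 * (Gd 𝒢).card / (K:ℝ) ^ j := by
    intro v hv
    rw [hT', mem_filter] at hv
    obtain ⟨_, a1, a2, a3⟩ := hv
    have := hl _ a1 a2 a3
    rw [List.length_ofFn] at this
    rw [le_div_iff₀ (by positivity)]
    exact this
  calc (((Gd 𝒢).filter fun π => Clo π U).card : ℝ)
      ≤ ((T'.biUnion fun v => El (List.ofFn v) ∩ Gd 𝒢).card : ℝ) := by
        exact_mod_cast card_le_card hcov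
    _ ≤ ∑ v ∈ T', ((El (List.ofFn v) ∩ Gd 𝒢).card : ℝ) := by
        exact_mod_cast card_biUnion_le
    _ ≤ ∑ v ∈ T', 2 * ((Gd 𝒢).card : ℝ) / (K:ℝ) ^ j := sum_le_sum hb
    _ = T'.card * (2 * ((Gd 𝒢).card : ℝ) / (K:ℝ) ^ j) := by rw [sum_const, nsmul_eq_mul]
    _ ≤ (U.card : ℝ) ^ U.card * (2 * ((Gd 𝒢).card : ℝ) / (K:ℝ) ^ j) := by
        apply mul_le_mul_of_nonneg_right _ (by positivity)
        by_cases hT0 : T' = ∅
        · rw [hT0]; simp
        · obtain ⟨v, hv⟩ := nonempty_iff_ne_empty.2 hT0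
          rw [hT', mem_filter] at hv
          have h3 := hv.2.2.2
          rw [List.length_ofFn] at h3
          have h1 : T'.card ≤ T.card := card_filter_le _ _
          have h2 : T.card = U.card ^ U.card := by
            rw [hT, Fintype.card_piFinset]
            simp only [card_product, prod_const, card_univ, Fintype.card_fin]
            rw [← pow_two, ← pow_mul, h3]
          calc (T'.card : ℝ) ≤ T.card := by exact_mod_cast h1
            _ = _ := by rw [h2]; push_cast; rfl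
    _ = wt K U * (Gd 𝒢).card := by
        unfold wt; rw [← hj]; ring

/-- main hypotheses on the family -/
structure FamH (𝒰 : Finset (Finset O)) (Λ K : ℕ) (δ : ℝ) : Prop where
  ne : ∀ U ∈ 𝒰, U.Nonempty
  sz : ∀ U ∈ 𝒰, U.card ≤ 2 * Λ
  hK : 0 < K
  hKN : K + 2 * Λ ≤ Fintype.card O
  hδ0 : 0 ≤ δ
  hδ : 2 * Λ * δ ≤ 1 / 2
  hw : ∀ o : O, ∑ U ∈ 𝒰.filter (fun U => o ∈ U), wt K U ≤ δ

theorem Gd_split (𝒢 𝒢1 𝒢2 : Finset (Finset O)) (h : 𝒢 ⊆ 𝒢1 ∪ 𝒢2) :
    ((Gd 𝒢2).card : ℝ) ≤ (Gd 𝒢).card + ∑ U ∈ 𝒢1, (((Gd 𝒢2).filter fun π => Clo π U).card : ℝ) := by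
  classical
  have hsub : Gd 𝒢2 ⊆ Gd 𝒢 ∪ 𝒢1.biUnion (fun U => (Gd 𝒢2).filter fun π => Clo π U) := by
    intro π hπ
    rw [mem_union]
    by_cases hg : π ∈ Gd 𝒢
    · exact Or.inl hg
    · right
      have h1 := mem_Gd.1 hπ
      rw [mem_Gd] at hg
      push Not at hg
      obtain ⟨U, hU, hc⟩ := hg h1.1
      rcases mem_union.1 (h hU) with h2 | h2
      · rw [mem_biUnion]; exact ⟨U, h2, mem_filter.2 ⟨hπ, hc⟩⟩
      · exact absurd hc (h1.2 U h2)
  calc ((Gd 𝒢2).card : ℝ) ≤ ((Gd 𝒢 ∪ 𝒢1.biUnion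
          (fun U => (Gd 𝒢2).filter fun π => Clo π U)).card : ℝ) := by
        exact_mod_cast card_le_card hsub
    _ ≤ ((Gd 𝒢).card + (𝒢1.biUnion (fun U => (Gd 𝒢2).filter fun π => Clo π U)).card : ℝ) := by
        exact_mod_cast card_union_le _ _
    _ ≤ _ := by
        gcongr
        exact_mod_cast card_biUnion_le

theorem Gd_mono {𝒢 𝒢' : Finset (Finset O)} (h : 𝒢 ⊆ 𝒢') : Gd 𝒢' ⊆ Gd 𝒢 := by
  intro π hπ
  rw [mem_Gd] at hπ ⊢
  exact ⟨hπ.1, fun U hU => hπ.2 U (h hU)⟩

theorem lll_claim {𝒰 : Finset (Finset O)} {Λ K : ℕ} {δ : ℝ} (H : FamH 𝒰 Λ K δ) :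
    ∀ (n : ℕ) (𝒢 : Finset (Finset O)), 𝒢.card = n → 𝒢 ⊆ 𝒰 → ∀ l : List (O × O), (ent l).Nodup →
      2 * l.length ≤ 2 * Λ →
      ((El l ∩ Gd 𝒢).card : ℝ) * (K : ℝ) ^ l.length ≤ 2 * (Gd 𝒢).card := by
  classical
  intro n
  induction n using Nat.strong_induction_on with
  | _ n ih =>
    intro 𝒢 hn hsub l hnd hlen
    set 𝒢1 := 𝒢.filter (fun U => ∃ z ∈ ent l, z ∈ U) with h1
    set 𝒢2 := 𝒢.filter (fun U => ¬ ∃ z ∈ ent l, z ∈ U) with h2
    have hdis : ∀ U ∈ 𝒢2, ∀ z ∈ ent l, z ∉ U := by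
      intro U hU z hz hzU
      exact (mem_filter.1 hU).2 ⟨z, hz, hzU⟩
    have hA := force_all 𝒢2 l K hnd hdis (by have := H.hKN; omega)
    have hA' : ((El l ∩ Gd 𝒢2).card : ℝ) * (K : ℝ) ^ l.length ≤ (Gd 𝒢2).card := by
      exact_mod_cast hA
    have hsub2 : 𝒢2 ⊆ 𝒢 := filter_subset _ _
    have hB : ((El l ∩ Gd 𝒢).card : ℝ) ≤ (El l ∩ Gd 𝒢2).card := by
      exact_mod_cast card_le_card (inter_subset_inter_left (Gd_mono hsub2))
    have hC : ((Gd 𝒢2).card : ℝ) ≤ 2 * (Gd 𝒢).card := by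
      by_cases h10 : 𝒢1 = ∅
      · have : 𝒢 = 𝒢2 := by
          rw [h2, eq_comm, filter_eq_self]
          rintro U hU hz
          have : U ∈ 𝒢1 := mem_filter.2 ⟨hU, hz⟩
          exact (Finset.notMem_empty U) (h10 ▸ this)
        rw [← this]
        have h0 : (0:ℝ) ≤ ((Gd 𝒢).card : ℝ) := Nat.cast_nonneg _
        linarith
      · have hlt : 𝒢2.card < n := by
          rw [← hn]
          apply card_lt_card
          refine ⟨hsub2, fun hh => ?_⟩
          obtain ⟨U, hU⟩ := nonempty_iff_ne_empty.2 h10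
          have h3 := mem_filter.1 hU
          exact (mem_filter.1 (hh h3.1)).2 h3.2
        have hsp := Gd_split 𝒢 𝒢1 𝒢2 (by
          rw [h1, h2, filter_union_filter_not_eq])
        have hsum : ∑ U ∈ 𝒢1, (((Gd 𝒢2).filter fun π => Clo π U).card : ℝ) ≤
            (1 / 2) * (Gd 𝒢2).card := by
          have step1 : ∀ U ∈ 𝒢1, (((Gd 𝒢2).filter fun π => Clo π U).card : ℝ) ≤
              wt K U * (Gd 𝒢2).card := by
            intro U hU
            have hUU : U ∈ 𝒰 := hsub (mem_filter.1 hU).1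
            apply set_bound _ _ _ H.hK
            intro l' b1 b2 b3
            exact ih _ hlt 𝒢2 rfl (hsub2.trans hsub) l' b1 (by rw [b3]; exact H.sz U hUU)
          refine (sum_le_sum step1).trans ?_
          rw [← sum_mul]
          apply mul_le_mul_of_nonneg_right _ (by positivity)
          have step2 : ∑ U ∈ 𝒢1, wt K U ≤
              ∑ o ∈ (ent l).toFinset, ∑ U ∈ 𝒰.filter (fun U => o ∈ U), wt K U := by
            calc ∑ U ∈ 𝒢1, wt K U ≤ ∑ U ∈ (ent l).toFinset.biUnion
                  (fun o => 𝒰.filter (fun U => o ∈ U)), wt K U := by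
                  apply sum_le_sum_of_subset_of_nonneg
                  · intro U hU
                    obtain ⟨hU1, z, hz, hzU⟩ := mem_filter.1 hU
                    rw [mem_biUnion]
                    exact ⟨z, by simpa using hz, mem_filter.2 ⟨hsub hU1, hzU⟩⟩
                  · intro U _ _; exact wt_nonneg _ _
              _ ≤ _ := sum_biUnion_le' _ _ _ (fun U => wt_nonneg _ _)
          refine step2.trans ?_
          calc ∑ o ∈ (ent l).toFinset, ∑ U ∈ 𝒰.filter (fun U => o ∈ U), wt K U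
              ≤ ∑ o ∈ (ent l).toFinset, δ := sum_le_sum (fun o _ => H.hw o)
            _ = (ent l).toFinset.card * δ := by rw [sum_const, nsmul_eq_mul]
            _ ≤ (2 * Λ) * δ := by
                apply mul_le_mul_of_nonneg_right _ H.hδ0
                have := List.toFinset_card_le (ent l)
                rw [ent_length] at this
                exact_mod_cast this.trans hlen
            _ ≤ 1 / 2 := H.hδ
        linarith
    calc ((El l ∩ Gd 𝒢).card : ℝ) * (K : ℝ) ^ l.length
        ≤ (El l ∩ Gd 𝒢2).card * (K : ℝ) ^ l.length := by gcongr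
      _ ≤ (Gd 𝒢2).card := hA'
      _ ≤ _ := hC

theorem lll_main {𝒰 : Finset (Finset O)} {Λ K : ℕ} {δ : ℝ} (H : FamH 𝒰 Λ K δ) (hδ1 : δ ≤ 1) :
    (1 - δ) ^ (Fintype.card O) * ((PMs O).card : ℝ) ≤ (Gd 𝒰).card := by
  classical
  have key : ∀ s : Finset O, (1 - δ) ^ s.card * ((PMs O).card : ℝ) ≤
      (Gd (𝒰.filter fun U => ∃ z ∈ s, z ∈ U)).card := by
    intro s
    induction s using Finset.induction_on with
    | empty =>
      have : (𝒰.filter fun U => ∃ z ∈ (∅ : Finset O), z ∈ U) = ∅ := by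
        rw [filter_eq_empty_iff]; simp
      rw [this]
      have : Gd (∅ : Finset (Finset O)) = PMs O := by
        unfold Gd; simp
      rw [this]; simp
    | insert o s ho ih =>
      set 𝒢2 := 𝒰.filter fun U => ∃ z ∈ s, z ∈ U with h2
      set 𝒢 := 𝒰.filter fun U => ∃ z ∈ insert o s, z ∈ U with h
      set 𝒢1 := 𝒰.filter fun U => o ∈ U with h1
      have hsp := Gd_split 𝒢 𝒢1 𝒢2 (by
        intro U hU
        obtain ⟨hU1, z, hz, hzU⟩ := mem_filter.1 hU
        rw [mem_union]
        rcases mem_insert.1 hz with h3 | h3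
        · left; exact mem_filter.2 ⟨hU1, h3 ▸ hzU⟩
        · right; exact mem_filter.2 ⟨hU1, z, h3, hzU⟩)
      have hsum : ∑ U ∈ 𝒢1, (((Gd 𝒢2).filter fun π => Clo π U).card : ℝ) ≤
          δ * (Gd 𝒢2).card := by
        have step1 : ∀ U ∈ 𝒢1, (((Gd 𝒢2).filter fun π => Clo π U).card : ℝ) ≤
            wt K U * (Gd 𝒢2).card := by
          intro U hU
          have hUU : U ∈ 𝒰 := (mem_filter.1 hU).1
          apply set_bound _ _ _ H.hK
          intro l' b1 b2 b3
          exact lll_claim H _ 𝒢2 rfl (filter_subset _ _) l' b1 (by rw [b3]; exact H.sz U hUU)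
        refine (sum_le_sum step1).trans ?_
        rw [← sum_mul]
        apply mul_le_mul_of_nonneg_right _ (by positivity)
        exact H.hw o
      rw [card_insert_of_notMem ho, pow_succ]
      have h3 : (1 - δ) * ((Gd 𝒢2).card : ℝ) ≤ (Gd 𝒢).card := by linarith
      have h4 : 0 ≤ 1 - δ := by linarith
      calc (1 - δ) ^ s.card * (1 - δ) * ((PMs O).card : ℝ)
          = (1 - δ) * ((1 - δ) ^ s.card * ((PMs O).card : ℝ)) := by ring
        _ ≤ (1 - δ) * (Gd 𝒢2).card := by gcongr
        _ ≤ _ := h3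
  have := key univ
  rw [card_univ] at this
  refine this.trans ?_
  have heq : (𝒰.filter fun U => ∃ z ∈ (univ : Finset O), z ∈ U) = 𝒰 := by
    rw [filter_eq_self]
    intro U hU
    obtain ⟨z, hz⟩ := H.ne U hU
    exact ⟨z, mem_univ _, hz⟩
  rw [heq]

end Run7.h459
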