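import Pool.Agent.Run7.h459.Gam

set_option linter.unusedSectionVars false

/-! Words realising commutators, and the central homomorphism of an approximate action. -/

namespace Run7.h459

variable {G : Type*} [Group G]

/-- indicator of one or two edges -/
def id1 (k : ℤ) : ℤ → ℤ := fun j => if j = k then 1 else 0
def id2 (k l : ℤ) : ℤ → ℤ := fun j => if j = k ∨ j = l then 1 else 0

def cw (k : ℤ) (d : ℕ) (f1 f2 f3 f4 : ℤ → ℤ) : List Lt :=
  rp f1 k (d + 1) ++ (lp f2 (k + d + 1) (d + 1) ++ (rp f3 k (d + 1) ++ lp f4 (k + d + 1) (d + 1)))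

theorem cw_length (k : ℤ) (d : ℕ) (f1 f2 f3 f4 : ℤ → ℤ) : (cw k d f1 f2 f3 f4).length = 4 * (d + 1) := by
  simp [cw]; ring

theorem endp_R (f : ℤ → ℤ) (k : ℤ) (d : ℕ) : endp k (rp f k (d + 1)) = k + d + 1 := by
  rw [endp_rp]; push_cast; ring

theorem endp_L (f : ℤ → ℤ) (k : ℤ) (d : ℕ) : endp (k + d + 1) (lp f (k + d + 1) (d + 1)) = k := by
  rw [endp_lp]; push_cast; ring

theorem endp_cw (k : ℤ) (d : ℕ) (f1 f2 f3 f4 : ℤ → ℤ) : endp k (cw k d f1 f2 f3 f4) = k := by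
  simp only [cw, endp_append, endp_R, endp_L]

theorem pr_cw (L : ℤ → G) (k : ℤ) (d : ℕ) (f1 f2 f3 f4 : ℤ → ℤ) :
    pr L (tog k (cw k d f1 f2 f3 f4)) =
      pr L (tog k (rp f1 k (d + 1))) * (pr L (tog (k + d + 1) (lp f2 (k + d + 1) (d + 1))) *
      (pr L (tog k (rp f3 k (d + 1))) * pr L (tog (k + d + 1) (lp f4 (k + d + 1) (d + 1))))) := by
  simp only [cw, tog_append, pr_append, endp_R, endp_L]

theorem mem_rp_amt {f : ℤ → ℤ} {p : ℤ} {n : ℕ} {t : Lt} (h : t ∈ rp f p n) : ∃ j, t.2 = f j := by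
  induction n generalizing p with
  | zero => simp [rp] at h
  | succ n ih =>
    rw [rp, List.mem_cons] at h
    rcases h with h | h
    · exact ⟨p, by rw [h]⟩
    · exact ih h

theorem mem_lp_amt {f : ℤ → ℤ} {p : ℤ} {n : ℕ} {t : Lt} (h : t ∈ lp f p n) : ∃ j, t.2 = f j := by
  induction n generalizing p with
  | zero => simp [lp] at h
  | succ n ih =>
    rw [lp, List.mem_cons] at h
    rcases h with h | h
    · exact ⟨p - 1, by rw [h]⟩
    · exact ih h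

theorem cw_amt {k : ℤ} {d : ℕ} {f1 f2 f3 f4 : ℤ → ℤ} (P : ℤ → Prop) (h1 : ∀ j, P (f1 j))
    (h2 : ∀ j, P (f2 j)) (h3 : ∀ j, P (f3 j)) (h4 : ∀ j, P (f4 j)) :
    ∀ t ∈ cw k d f1 f2 f3 f4, P t.2 := by
  intro t ht
  simp only [cw, List.mem_append] at ht
  rcases ht with ht | ht | ht | ht
  · obtain ⟨j, hj⟩ := mem_rp_amt ht; rw [hj]; exact h1 j
  · obtain ⟨j, hj⟩ := mem_lp_amt ht; rw [hj]; exact h2 j
  · obtain ⟨j, hj⟩ := mem_rp_amt ht; rw [hj]; exact h3 j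
  · obtain ⟨j, hj⟩ := mem_lp_amt ht; rw [hj]; exact h4 j

/-- commutator word -/
def W1 (k : ℤ) (d : ℕ) : List Lt := cw k d (id2 k (k + d)) (id1 k) (fun _ => 0) (id1 (k + d))

/-- comparison word -/
def W2 (k : ℤ) (e d : ℕ) : List Lt :=
  cw k d (id2 k (k + d)) (id1 k) (id1 (k + e)) (id2 (k + d) (k + e))

theorem rp_two (L : ℤ → G) (f : ℤ → ℤ) (k : ℤ) (d : ℕ) (hd : 1 ≤ d)
    (hf : ∀ j, j ≠ k → j ≠ k + d → f j = 0) :
    pr L (tog k (rp f k (d + 1))) = L k ^ f k * L (k + d) ^ f (k + d) := by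
  rw [show d + 1 = 1 + d by ring, rp_add, tog_append, pr_append, endp_rp]
  rw [pr_rp_single L f k k 1 (le_refl _) (by norm_num) (fun j hj h1 h2 => by
    push_cast at h2; omega)]
  rw [pr_rp_single L f (k + (1:ℕ)) (k + d) d (by push_cast; omega) (by push_cast; omega)
    (fun j hj h1 h2 => hf j (by push_cast at h1; omega) hj)]

theorem lp_two (L : ℤ → G) (f : ℤ → ℤ) (k l : ℤ) (d : ℕ) (hl : k ≤ l) (hl2 : l < k + d)
    (hf : ∀ j, j ≠ k + d → j ≠ l → f j = 0) :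
    pr L (tog (k + d + 1) (lp f (k + d + 1) (d + 1))) =
      L (k + d) ^ (- f (k + d)) * L l ^ (- f l) := by
  rw [show d + 1 = 1 + d by ring, lp_add, tog_append, pr_append, endp_lp]
  rw [pr_lp_single L f (k + d + 1) (k + d) 1 (by push_cast; omega) (by omega) (fun j hj h1 h2 => by
    push_cast at h1; omega)]
  rw [pr_lp_single L f _ l d (by push_cast; omega) (by push_cast; omega)
    (fun j hj h1 h2 => hf j (by push_cast at h2; omega) hj)]

theorem pr_W1 (L : ℤ → G) (k : ℤ) (d : ℕ) (hd : 1 ≤ d) :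
    pr L (tog k (W1 k d)) = L k * L (k + d) * (L k)⁻¹ * (L (k + d))⁻¹ := by
  unfold W1
  rw [pr_cw, rp_two L _ k d hd, pr_lp_single L (id1 k) _ k, pr_rp_zero L (fun _ => 0),
    pr_lp_single L (id1 (k + d)) _ (k + d)]
  · simp [id1, id2, mul_assoc]
  · push_cast; omega
  · omega
  · intro j hj _ _; simp [id1, hj]
  · intro j _ _; rfl
  · push_cast; omega
  · omega
  · intro j hj _ _; simp [id1, hj]
  · intro j h1 h2; simp [id2, h1, h2]

theorem pr_W2 (L : ℤ → G) (k : ℤ) (e d : ℕ) (he : 1 ≤ e) (hed : e < d) :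
    pr L (tog k (W2 k e d)) = L k * L (k + d) * (L k)⁻¹ *
      (L (k + e) * (L (k + d))⁻¹ * (L (k + e))⁻¹) := by
  unfold W2
  rw [pr_cw, rp_two L _ k d (by omega), pr_lp_single L (id1 k) _ k,
    pr_rp_single L (id1 (k + e)) k (k + e), lp_two L _ k (k + e)]
  · have : (k:ℤ) + e ≠ k + d := by omega
    simp [id1, id2, mul_assoc]
  · omega
  · omega
  · intro j h1 h2; simp [id2, h1, h2]
  · omega
  · push_cast; omega
  · intro j hj _ _; simp [id1, hj]
  · push_cast; omega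
  · omega
  · intro j hj _ _; simp [id1, hj]
  · intro j h1 h2; simp [id2, h1, h2]

/-- back and forth block at the edge `k`, started at position `k` -/
def blk (k a b : ℤ) : ℕ → List Lt
  | 0 => []
  | m + 1 => (tp k, a) :: (tp k, b) :: blk k a b m

theorem blk_length (k a b : ℤ) (m : ℕ) : (blk k a b m).length = 2 * m := by
  induction m with
  | zero => rfl
  | succ m ih => simp [blk, ih]; ring

theorem blk_tog (k a b : ℤ) (m : ℕ) : endp k (blk k a b m) = k ∧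
    ∀ L : ℤ → G, pr L (tog k (blk k a b m)) = L k ^ (m * (a - b)) := by
  induction m with
  | zero => exact ⟨rfl, fun L => by simp [blk, tog]⟩
  | succ m ih =>
    have h1 : nx k (tp k, a) = k + 1 := nx_rp _ _
    have e0 : tp k = tp (k + 1 - 1) := by rw [add_sub_cancel_right]
    have h2 : nx (k + 1) (tp k, b) = k := by rw [e0, nx_lp]; ring
    have h3 : eg (k + 1) (tp k, b) = k := by rw [e0, eg_lp]; ring
    have h4 : am (k + 1) (tp k, b) = -b := by rw [e0, am_lp]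
    refine ⟨by rw [blk, endp, endp, h1, h2]; exact ih.1, fun L => ?_⟩
    rw [blk, tog, tog, h1, h2, h3, h4, eg_rp, am_rp, pr_cons, pr_cons, ih.2]
    simp only
    rw [← zpow_add, ← zpow_add]
    congr 1; push_cast; ring

theorem blk_amt {k a b : ℤ} {m : ℕ} {t : Lt} (h : t ∈ blk k a b m) : t.2 = a ∨ t.2 = b := by
  induction m with
  | zero => simp [blk] at h
  | succ m ih =>
    rw [blk, List.mem_cons, List.mem_cons] at h
    rcases h with h | h | h
    · left; rw [h]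
    · right; rw [h]
    · exact ih h

/-- order word -/
def W3 (k : ℤ) (d : ℕ) : List Lt :=
  blk k 1 0 14 ++ (rp (id2 k (k + d)) k (d + 1) ++ (lp (id1 k) (k + d + 1) (d + 1) ++
    (blk k 0 1 14 ++ (rp (fun _ => 0) k (d + 1) ++ lp (id1 (k + d)) (k + d + 1) (d + 1)))))

theorem W3_length (k : ℤ) (d : ℕ) : (W3 k d).length = 4 * (d + 1) + 56 := by
  simp [W3, blk_length]; ring

theorem endp_W3 (k : ℤ) (d : ℕ) : endp k (W3 k d) = k := by
  have h1 := fun a b m => (blk_tog (G := Unit) k a b m).1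
  simp only [W3, endp_append, endp_R, endp_L, h1]

theorem pr_W3 (L : ℤ → G) (k : ℤ) (d : ℕ) (hd : 1 ≤ d) :
    pr L (tog k (W3 k d)) = L k ^ (15:ℤ) * L (k + d) * (L k ^ (15:ℤ))⁻¹ * (L (k + d))⁻¹ := by
  have h1 := fun a b m => (blk_tog (G := Unit) k a b m).1
  have h2 := fun a b m => (blk_tog (G := G) k a b m).2
  simp only [W3, tog_append, pr_append, endp_R, endp_L, h1, h2]
  rw [rp_two L _ k d hd, pr_lp_single L (id1 k) _ k, pr_rp_zero L (fun _ => 0),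
    pr_lp_single L (id1 (k + d)) _ (k + d)]
  · have e3 : L k ^ (15:ℤ) = L k ^ (14:ℤ) * L k := by
      rw [← zpow_add_one]; norm_num
    rw [e3]
    simp [id1, id2, mul_assoc]
  · push_cast; omega
  · omega
  · intro j hj _ _; simp [id1, hj]
  · intro j _ _; rfl
  · push_cast; omega
  · omega
  · intro j hj _ _; simp [id1, hj]
  · intro j h1 h2; simp [id2, h1, h2]

theorem id1_amt (k j : ℤ) : id1 k j = 0 ∨ id1 k j = 1 := by unfold id1; split_ifs <;> simp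
theorem id2_amt (k l j : ℤ) : id2 k l j = 0 ∨ id2 k l j = 1 := by unfold id2; split_ifs <;> simp

theorem W1_amt (k : ℤ) (d : ℕ) : ∀ t ∈ W1 k d, t.2 = 0 ∨ t.2 = 1 :=
  cw_amt (fun a => a = 0 ∨ a = 1) (id2_amt _ _) (id1_amt _) (fun _ => Or.inl rfl) (id1_amt _)
theorem W2_amt (k : ℤ) (e d : ℕ) : ∀ t ∈ W2 k e d, t.2 = 0 ∨ t.2 = 1 :=
  cw_amt (fun a => a = 0 ∨ a = 1) (id2_amt _ _) (id1_amt _) (id1_amt _) (id2_amt _ _)
theorem W3_amt (k : ℤ) (d : ℕ) : ∀ t ∈ W3 k d, t.2 = 0 ∨ t.2 = 1 := by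
  intro t ht
  simp only [W3, List.mem_append] at ht
  rcases ht with ht | ht | ht | ht | ht | ht
  · exact (blk_amt ht).symm
  · obtain ⟨j, hj⟩ := mem_rp_amt ht; rw [hj]; exact id2_amt _ _ _
  · obtain ⟨j, hj⟩ := mem_lp_amt ht; rw [hj]; exact id1_amt _ _
  · exact blk_amt ht
  · obtain ⟨j, hj⟩ := mem_rp_amt ht; rw [hj]; left; rfl
  · obtain ⟨j, hj⟩ := mem_lp_amt ht; rw [hj]; exact id1_amt _ _

/-- the value of a word closed at `k` -/
theorem vl_closed {k : ℤ} {w : List Lt} (h : endp k w = k) :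
    vl w = (pos k)⁻¹ * pr (Lk lt) (tog k w) * pos k := by
  have := vl_formula k w
  rw [h] at this
  rw [mul_assoc, ← this]; group

theorem vl_central {k : ℤ} {w : List Lt} (h : endp k w = k) {c : VV}
    (hc : pr (Lk lt) (tog k w) = zc c) : vl w = zc c := by
  rw [vl_closed h, hc, mul_assoc, zc_comm]; group

theorem Lam_comm (k l : ℤ) : Lk lt k * Lk lt l * (Lk lt k)⁻¹ * (Lk lt l)⁻¹ =
    zc (Da.κ k l - Da.κ l k) := by
  rw [Lk_lt, Lk_lt, comm_lam]; simp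

theorem kk_same {k l : ℤ} (h : (k - l) % 2 = 0) : (Da.κ k l - Da.κ l k : VV) = 0 := by
  have h1 : Da.κ k l = 0 := by
    unfold Dat.κ; rw [if_neg]
    rintro ⟨h1, h2⟩
    have : Da.ε (k - l) = 1 := by rw [map_sub, h1, h2]; simp
    rw [eps_even h] at this; exact absurd this (by decide)
  have h2 : Da.κ l k = 0 := by
    unfold Dat.κ; rw [if_neg]
    rintro ⟨h1, h2⟩
    have : Da.ε (l - k) = 1 := by rw [map_sub, h1, h2]; simp
    rw [eps_even (by omega)] at this; exact absurd this (by decide)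
  rw [h1, h2]; simp

theorem kk_odd {k l : ℤ} (hk : k % 2 = 1) (hl : l % 2 = 0) :
    (Da.κ k l - Da.κ l k : VV) = zet 15 (k - l) := by
  have h1 : Da.κ k l = zet 15 (k - l) := if_pos ⟨eps_odd hk, eps_even hl⟩
  have h2 : Da.κ l k = 0 := by
    unfold Dat.κ; rw [if_neg]
    rintro ⟨h1, h2⟩
    exact eps_odd' hk h2
  rw [h1, h2, sub_zero]

theorem zet_neg (k : ℤ) : zet 15 (-k) = zet 15 k := Da.hζ k

theorem kk_even {k l : ℤ} (hk : k % 2 = 0) (hl : l % 2 = 1) :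
    (Da.κ k l - Da.κ l k : VV) = - zet 15 (k - l) := by
  rw [← neg_sub, kk_odd hl hk, ← zet_neg, neg_sub]

theorem vl_W1 (k : ℤ) (d : ℕ) (hd : 1 ≤ d) :
    vl (W1 k d) = zc (Da.κ k (k + d) - Da.κ (k + d) k) :=
  vl_central (w := W1 k d) (endp_cw _ _ _ _ _ _) (by rw [pr_W1 _ _ _ hd, Lam_comm])

theorem conj_comm_eq {x y z : G} : x * y * x⁻¹ * (z * y⁻¹ * z⁻¹) =
    (x * y * x⁻¹ * y⁻¹) * (z * y * z⁻¹ * y⁻¹)⁻¹ := by group

theorem vl_W2 (k : ℤ) (e d : ℕ) (he : 1 ≤ e) (hed : e < d) :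
    vl (W2 k e d) = zc ((Da.κ k (k + d) - Da.κ (k + d) k) -
      (Da.κ (k + e) (k + d) - Da.κ (k + d) (k + e))) :=
  vl_central (w := W2 k e d) (endp_cw _ _ _ _ _ _) (by
    rw [pr_W2 _ _ _ _ he hed, conj_comm_eq, Lam_comm, Lam_comm, sub_eq_add_neg
      (Da.κ k (k + d) - Da.κ (k + d) k), zc_add, zc_neg])

theorem zc_nsmul (n : ℕ) (c : VV) : zc (n • c) = zc c ^ n := by
  induction n with
  | zero => simp [zc_zero]
  | succ n ih => rw [succ_nsmul, zc_add, ih, pow_succ]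

theorem comm_pow_of_central {x y : G} (hc : ∀ g : G, Commute (x * y * x⁻¹ * y⁻¹) g) (n : ℕ) :
    x ^ n * y * (x ^ n)⁻¹ * y⁻¹ = (x * y * x⁻¹ * y⁻¹) ^ n := by
  rw [mul_inv_eq_iff_eq_mul]
  have hx : x * y * x⁻¹ = (x * y * x⁻¹ * y⁻¹) * y := by group
  induction n with
  | zero => simp
  | succ n ih =>
    calc x ^ (n + 1) * y * (x ^ (n + 1))⁻¹ = x * (x ^ n * y * (x ^ n)⁻¹) * x⁻¹ := by
          rw [pow_succ' x n]; group
      _ = x * ((x * y * x⁻¹ * y⁻¹) ^ n * y) * x⁻¹ := by rw [ih]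
      _ = (x * y * x⁻¹ * y⁻¹) ^ n * (x * y * x⁻¹) := by
          rw [← mul_assoc x, ← ((hc x).pow_left n).eq]; simp only [mul_assoc]
      _ = (x * y * x⁻¹ * y⁻¹) ^ n * ((x * y * x⁻¹ * y⁻¹) * y) := by rw [← hx]
      _ = (x * y * x⁻¹ * y⁻¹) ^ (n + 1) * y := by
          rw [pow_succ (x * y * x⁻¹ * y⁻¹) n, mul_assoc ((x * y * x⁻¹ * y⁻¹) ^ n)]

end Run7.h459
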