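import Pool.Agent.Run7.h459.QP

set_option linter.unusedSectionVars false

/-! The central homomorphism of an approximate action. -/

namespace Run7.h459

variable {G : Type*} [Group G]

theorem pr_map {G H : Type*} [Group G] [Group H] (φ : G →* H) (L : ℤ → G) (l : List (ℤ × ℤ)) :
    φ (pr L l) = pr (fun k => φ (L k)) l := by
  induction l with
  | nil => simp
  | cons x l ih => simp [pr_cons, ih]

/-- an approximate representation: all relators of length at most `Λ` hold -/
structure AR (Θ : Lt → G) (ok : Lt → Prop) (Λ : ℕ) : Prop where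
  z : ∀ b, ok (b, 0)
  o : ∀ b, ok (b, 1)
  bd : ∀ t, ok t → 0 ≤ t.2 ∧ t.2 ≤ 7
  rel : ∀ w : List Lt, (∀ t ∈ w, ok t) → w.length ≤ Λ → vl w = 1 → (w.map Θ).prod = 1

variable {Θ : Lt → G} {ok : Lt → Prop} {Λ : ℕ}

theorem vl_replicate (a : Lt) (b : Lt) (n : ℕ) :
    ((List.replicate n [a, b]).flatten.map Θ).prod = (Θ a * Θ b) ^ n := by
  induction n with
  | zero => simp
  | succ n ih =>
    rw [List.replicate_succ, List.flatten_cons, List.map_append, List.prod_append, ih, pow_succ']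
    simp

theorem AR.okSys (h : AR Θ ok Λ) (hΛ : 16 ≤ Λ) : OkSys Θ ok where
  z := h.z
  o := h.o
  inv := fun t ht => by
    have := h.rel [t, t] (by simpa using ht) (by simp; omega) (by simp [vl, lt_inv])
    simpa using this
  form := fun t ht => by
    obtain ⟨h0, h7⟩ := h.bd t ht
    obtain ⟨n, hn⟩ := Int.eq_ofNat_of_zero_le h0
    have hzz : Θ (t.1, 0) * Θ (t.1, 0) = 1 := by
      have := h.rel [(t.1, 0), (t.1, 0)] (by simpa using h.z t.1) (by simp; omega)
        (by simp [vl, lt_inv])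
      simpa using this
    have hoo : Θ (t.1, 1) * Θ (t.1, 1) = 1 := by
      have := h.rel [(t.1, 1), (t.1, 1)] (by simpa using h.o t.1) (by simp; omega)
        (by simp [vl, lt_inv])
      simpa using this
    have h1 := h.rel ((List.replicate n [(t.1, 0), (t.1, 1)]).flatten ++ [t, (t.1, 0)])
      (by
        intro s hs
        rw [List.mem_append, List.mem_flatten] at hs
        rcases hs with ⟨l, hl, hs⟩ | hs
        · rw [List.eq_of_mem_replicate hl] at hs
          simp only [List.mem_cons, List.not_mem_nil, or_false] at hs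
          rcases hs with hs | hs
          · rw [hs]; exact h.z _
          · rw [hs]; exact h.o _
        · simp only [List.mem_cons, List.not_mem_nil, or_false] at hs
          rcases hs with hs | hs
          · rw [hs]; exact ht
          · rw [hs]; exact h.z _)
      (by
        rw [List.length_append, List.length_flatten]
        simp only [List.map_replicate, List.length_cons, List.length_nil, List.sum_replicate,
          smul_eq_mul]
        omega)
      (by
        rw [vl_append]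
        unfold vl
        rw [vl_replicate]
        have h3 : (lt (t.1, 0) * lt (t.1, 1)) = (xi lt t.1)⁻¹ := by
          unfold xi; rw [mul_inv_rev, inv_eq_of_mul_eq_one_right (lt_inv _),
            inv_eq_of_mul_eq_one_right (lt_inv _)]
        rw [h3]
        have h4 := lt_form t
        rw [hn] at h4
        rw [zpow_natCast] at h4
        simp only [List.map_cons, List.prod_cons, List.map_nil, List.prod_nil, mul_one]
        rw [h4, mul_assoc (xi lt t.1 ^ n), lt_inv, mul_one, inv_pow, inv_mul_cancel])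
    rw [List.map_append, List.prod_append, vl_replicate] at h1
    have h3 : (Θ (t.1, 0) * Θ (t.1, 1)) = (xi Θ t.1)⁻¹ := by
      unfold xi; rw [mul_inv_rev, inv_eq_of_mul_eq_one_right hzz,
        inv_eq_of_mul_eq_one_right hoo]
    rw [h3] at h1
    simp only [List.map_cons, List.prod_cons, List.map_nil, List.prod_nil, mul_one] at h1
    rw [inv_pow, inv_mul_eq_one] at h1
    rw [hn, zpow_natCast, h1, mul_assoc, hzz, mul_one]

theorem ok_of_amt (h : AR Θ ok Λ) {w : List Lt} (hw : ∀ t ∈ w, t.2 = 0 ∨ t.2 = 1) :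
    ∀ t ∈ w, ok t := by
  intro t ht
  rcases t with ⟨b, a⟩
  rcases hw _ ht with h1 | h1
  · simp only at h1; rw [h1]; exact h.z b
  · simp only at h1; rw [h1]; exact h.o b

/-- a relator closed at `k` -/
theorem pr_one_of_rel (h : AR Θ ok Λ) (hΛ : 16 ≤ Λ) {w : List Lt} {k : ℤ} (hw : ∀ t ∈ w, ok t)
    (hc : endp k w = k) (hl : w.length ≤ Λ) (hv : vl w = 1) : pr (Lk Θ) (tog k w) = 1 := by
  have h1 := product_formula (h.okSys hΛ) k w hw
  rw [h.rel w hw hl hv, hc, mul_one] at h1
  have h2 : 1 * Pp Θ k = pr (Lk Θ) (tog k w) * Pp Θ k := by rw [one_mul]; exact h1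
  exact (mul_right_cancel h2).symm

/-- main hypotheses -/
structure QH (Θ : Lt → G) (ok : Lt → Prop) (Λ i D : ℕ) : Prop where
  ar : AR Θ ok Λ
  gen : Subgroup.closure {g | ∃ t, ok t ∧ Θ t = g} = ⊤
  hi : 2 ≤ i
  hΛ : 8 * (11 ^ i + 1) + 2 ≤ Λ
  hD1 : 4 * (D + 1) ≤ Λ
  hD2 : D < 11 ^ (i + 1)

variable {i D : ℕ}

theorem pow_i (hi : 2 ≤ i) : 121 ≤ 11 ^ i :=
  calc 121 = 11 ^ 2 := by norm_num
    _ ≤ 11 ^ i := Nat.pow_le_pow_right (by norm_num) hi

theorem QH.big (h : QH Θ ok Λ i D) : 976 ≤ Λ := by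
  have := pow_i h.hi; have := h.hΛ; omega

theorem central_of_gen (h : QH Θ ok Λ i D) {z : G} (hz : ∀ t, ok t → Commute z (Θ t)) :
    z ∈ Subgroup.center G := by
  rw [Subgroup.mem_center_iff]
  have : Subgroup.closure {g | ∃ t, ok t ∧ Θ t = g} ≤ Subgroup.centralizer {z} := by
    rw [Subgroup.closure_le]
    rintro g ⟨t, ht, rfl⟩
    rw [SetLike.mem_coe, Subgroup.mem_centralizer_singleton_iff]
    exact (hz t ht).eq.symm
  rw [h.gen] at this
  intro g
  have := this (Subgroup.mem_top g)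
  rw [Subgroup.mem_centralizer_singleton_iff] at this
  exact this

/-- the central elements -/
def zz (Θ : Lt → G) (j : ℕ) : G := ((W1 1 (11 ^ j)).map Θ).prod

theorem pow11_odd (j : ℕ) : ((11 ^ j : ℕ) : ℤ) % 2 = 1 := by
  have : (11 ^ j) % 2 = 1 := by
    rw [Nat.pow_mod]; simp
  omega

theorem zet_pow (j : ℕ) : zet 15 ((11 ^ j : ℕ) : ℤ) = ev1 j := by
  apply zet_eq
  · push_cast; exact dvd_refl _
  · push_cast
    rw [pow_succ]
    intro h
    have h1 : (11:ℤ) ^ j * 11 ∣ 11 ^ j * 1 := by simpa using h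
    rw [mul_dvd_mul_iff_left (pow_ne_zero _ (by norm_num))] at h1
    omega

theorem vl_W1_odd {k : ℤ} (hk : k % 2 = 1) (j : ℕ) : vl (W1 k (11 ^ j)) = zc (ev1 j) := by
  have := pow11_odd j
  rw [vl_W1 _ _ (Nat.one_le_pow _ _ (by norm_num)), kk_odd hk (by omega)]
  rw [show k - (k + ((11 ^ j : ℕ) : ℤ)) = -((11 ^ j : ℕ) : ℤ) by ring, zet_neg, zet_pow]

theorem vl_W1_even {k : ℤ} (hk : k % 2 = 0) (j : ℕ) : vl (W1 k (11 ^ j)) = zc (-ev1 j) := by
  have := pow11_odd j
  rw [vl_W1 _ _ (Nat.one_le_pow _ _ (by norm_num)), kk_even hk (by omega)]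
  rw [show k - (k + ((11 ^ j : ℕ) : ℤ)) = -((11 ^ j : ℕ) : ℤ) by ring, zet_neg, zet_pow]

theorem W1_ok (h : AR Θ ok Λ) (k : ℤ) (d : ℕ) : ∀ t ∈ W1 k d, ok t := ok_of_amt h (W1_amt k d)

theorem pow_mono' {i j : ℕ} (h : j ≤ i) : 11 ^ j ≤ 11 ^ i := Nat.pow_le_pow_right (by norm_num) h

theorem zz_central (h : QH Θ ok Λ i D) {j : ℕ} (hj : j ≤ i) : zz Θ j ∈ Subgroup.center G := by
  have hΛ := h.big
  apply central_of_gen h
  intro t ht
  have hs := h.ar.okSys (by omega)
  have := h.ar.rel (W1 1 (11 ^ j) ++ ([t] ++ ((W1 1 (11 ^ j)).reverse ++ [t])))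
    (by
      intro s hs
      simp only [List.mem_append, List.mem_reverse, List.mem_cons, List.not_mem_nil, or_false] at hs
      rcases hs with hs | hs | hs | hs
      · exact W1_ok h.ar _ _ s hs
      · rw [hs]; exact ht
      · exact W1_ok h.ar _ _ s hs
      · rw [hs]; exact ht)
    (by
      simp only [List.length_append, List.length_reverse, List.length_cons, List.length_nil]
      have h1 : (W1 1 (11 ^ j)).length = 4 * (11 ^ j + 1) := cw_length _ _ _ _ _ _
      have h2 := pow_mono' hj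
      have h3 := h.hΛ
      omega)
    (by
      rw [vl_append, vl_append, vl_append, vl_reverse, vl_W1_odd (by norm_num)]
      rw [← mul_assoc, ← mul_assoc, zc_comm, mul_inv_cancel_right]
      simp [lt_inv])
  simp only [List.map_append, List.prod_append, List.map_cons, List.map_nil, List.prod_cons,
    List.prod_nil, mul_one] at this
  rw [prod_reverse_inv Θ _ (fun s hs' => hs.inv s (W1_ok h.ar _ _ s hs'))] at this
  show zz Θ j * Θ t = Θ t * zz Θ j
  unfold zz
  have h4 := hs.inv t ht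
  have h5 : (Θ t)⁻¹ = Θ t := inv_eq_of_mul_eq_one_right h4
  rw [← mul_assoc, ← mul_assoc, mul_eq_one_iff_eq_inv, h5, mul_inv_eq_iff_eq_mul] at this
  exact this

theorem W1_even_eq (h : QH Θ ok Λ i D) {j : ℕ} (hj : j ≤ i) {k : ℤ} (hk : k % 2 = 0) :
    ((W1 k (11 ^ j)).map Θ).prod = (zz Θ j)⁻¹ := by
  have := h.ar.rel (W1 k (11 ^ j) ++ W1 1 (11 ^ j))
    (by
      intro s hs
      rw [List.mem_append] at hs
      rcases hs with hs | hs
      · exact W1_ok h.ar _ _ s hs
      · exact W1_ok h.ar _ _ s hs)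
    (by
      have h1 : ∀ k, (W1 k (11 ^ j)).length = 4 * (11 ^ j + 1) := fun k => cw_length _ _ _ _ _ _
      rw [List.length_append, h1, h1]
      have h2 := pow_mono' hj
      have h3 := h.hΛ
      omega)
    (by rw [vl_append, vl_W1_odd (k := 1) (by norm_num), vl_W1_even hk, ← zc_add]; simp [zc_zero])
  rw [List.map_append, List.prod_append] at this
  exact eq_inv_of_mul_eq_one_left this

theorem W1_odd_eq (h : QH Θ ok Λ i D) {j : ℕ} (hj : j ≤ i) {k : ℤ} (hk : k % 2 = 1) :
    ((W1 k (11 ^ j)).map Θ).prod = zz Θ j := by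
  have hΛ := h.big
  have hs := h.ar.okSys (by omega)
  have := h.ar.rel (W1 k (11 ^ j) ++ (W1 1 (11 ^ j)).reverse)
    (by
      intro s hs
      rw [List.mem_append, List.mem_reverse] at hs
      rcases hs with hs | hs
      · exact W1_ok h.ar _ _ s hs
      · exact W1_ok h.ar _ _ s hs)
    (by
      have h1 : ∀ k, (W1 k (11 ^ j)).length = 4 * (11 ^ j + 1) := fun k => cw_length _ _ _ _ _ _
      rw [List.length_append, List.length_reverse, h1, h1]
      have h2 := pow_mono' hj
      have h3 := h.hΛ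
      omega)
    (by rw [vl_append, vl_reverse, vl_W1_odd (k := 1) (by norm_num), vl_W1_odd hk, mul_inv_cancel])
  rw [List.map_append, List.prod_append,
    prod_reverse_inv Θ _ (fun s hs' => hs.inv s (W1_ok h.ar _ _ s hs'))] at this
  exact mul_inv_eq_one.1 this

/-- pairs at distance `11 ^ j` -/
theorem pair_pow (h : QH Θ ok Λ i D) {j : ℕ} (hj : j ≤ i) (k : ℤ) :
    Lk Θ k * Lk Θ (k + (11 ^ j : ℕ)) * (Lk Θ k)⁻¹ * (Lk Θ (k + (11 ^ j : ℕ)))⁻¹ =
      if k % 2 = 1 then zz Θ j else (zz Θ j)⁻¹ := by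
  have hΛ := h.big
  have hs := h.ar.okSys (by omega)
  have hz := zz_central h hj
  have h1 := product_formula hs k (W1 k (11 ^ j)) (W1_ok h.ar _ _)
  rw [show endp k (W1 k (11 ^ j)) = k from endp_cw _ _ _ _ _ _,
    pr_W1 _ _ _ (Nat.one_le_pow _ _ (by norm_num))] at h1
  split_ifs with hk
  · rw [W1_odd_eq h hj hk, Subgroup.mem_center_iff.1 hz] at h1
    exact (mul_right_cancel h1).symm
  · have hz' := inv_mem hz
    rw [W1_even_eq h hj (by omega), Subgroup.mem_center_iff.1 hz'] at h1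
    exact (mul_right_cancel h1).symm

theorem pair_same (h : QH Θ ok Λ i D) (k : ℤ) {d : ℕ} (hd : 1 ≤ d) (hdD : d ≤ D)
    (hev : d % 2 = 0) :
    Lk Θ k * Lk Θ (k + d) * (Lk Θ k)⁻¹ * (Lk Θ (k + d))⁻¹ = 1 := by
  have hΛ := h.big
  rw [← pr_W1 _ _ _ hd]
  apply pr_one_of_rel h.ar (by omega) (W1_ok h.ar _ _) (endp_cw _ _ _ _ _ _)
  · have : (W1 k d).length = 4 * (d + 1) := cw_length _ _ _ _ _ _
    have := h.hD1
    omega
  · rw [vl_W1 _ _ hd, kk_same (by omega)]; rfl

theorem pair_odd (h : QH Θ ok Λ i D) (k : ℤ) {d j : ℕ} (hdD : d ≤ D)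
    (hodd : d % 2 = 1) (h1 : 11 ^ j ∣ d) (h2 : ¬ 11 ^ (j + 1) ∣ d) :
    Lk Θ k * Lk Θ (k + d) * (Lk Θ k)⁻¹ * (Lk Θ (k + d))⁻¹ =
      if k % 2 = 1 then zz Θ j else (zz Θ j)⁻¹ := by
  have hΛ := h.big
  have hji : j ≤ i := by
    by_contra hcon
    have h3 := Nat.le_of_dvd (by omega) h1
    have h4 := pow_mono' (show i + 1 ≤ j by omega)
    have := h.hD2
    omega
  rcases Nat.lt_or_ge (11 ^ j) d with hlt | hge
  · -- reduce
    set e := d - 11 ^ j with he
    have hpo := pow11_odd j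
    have hrel : pr (Lk Θ) (tog k (W2 k e d)) = 1 := by
      apply pr_one_of_rel h.ar (by omega) (ok_of_amt h.ar (W2_amt _ _ _)) (endp_cw _ _ _ _ _ _)
      · have : (W2 k e d).length = 4 * (d + 1) := cw_length _ _ _ _ _ _
        have := h.hD1
        omega
      · have hpos : 0 < 11 ^ j := pow_pos (by norm_num) _
        rw [vl_W2 _ _ _ (by omega) (by omega)]
        have hz1 : zet 15 (k - (k + (d:ℤ))) = ev1 j := by
          rw [show k - (k + (d:ℤ)) = -(d:ℤ) by ring, zet_neg]
          apply zet_eq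
          · exact_mod_cast h1
          · exact_mod_cast h2
        have hz2 : zet 15 (k + (e:ℤ) - (k + (d:ℤ))) = ev1 j := by
          rw [show k + (e:ℤ) - (k + (d:ℤ)) = -((11 ^ j : ℕ) : ℤ) by omega, zet_neg, zet_pow]
        rcases Int.emod_two_eq_zero_or_one k with hk | hk
        · rw [kk_even hk (by omega), kk_even (by omega) (by omega), hz1, hz2, sub_self]; rfl
        · rw [kk_odd hk (by omega), kk_odd (by omega) (by omega), hz1, hz2, sub_self]; rfl
    have hpos : 0 < 11 ^ j := pow_pos (by norm_num) _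
    rw [pr_W2 _ _ _ _ (by omega) (by omega), conj_comm_eq, mul_inv_eq_one] at hrel
    rw [hrel]
    have := pair_pow h hji (k + e)
    rw [show k + (e:ℤ) + ((11 ^ j : ℕ) : ℤ) = k + d by omega] at this
    rw [this]
    have h3 : (k + (e:ℤ)) % 2 = 1 ↔ k % 2 = 1 := by omega
    by_cases hk : k % 2 = 1
    · rw [if_pos hk, if_pos (h3.2 hk)]
    · rw [if_neg hk, if_neg (fun h => hk (h3.1 h))]
  · have : d = 11 ^ j := le_antisymm hge (Nat.le_of_dvd (by omega) h1)
    rw [this]
    exact pair_pow h hji k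

theorem zz_pow (h : QH Θ ok Λ i D) {j : ℕ} (hj : j ≤ i) : zz Θ j ^ 15 = 1 := by
  have hΛ := h.big
  have hz := zz_central h hj
  have hpos : 1 ≤ 11 ^ j := Nat.one_le_pow _ _ (by norm_num)
  have h1 := pair_pow h hj 1
  rw [if_pos (by norm_num)] at h1
  have h2 := comm_pow_of_central (x := Lk Θ 1) (y := Lk Θ (1 + (11 ^ j : ℕ)))
    (fun g => by rw [h1]; exact (Subgroup.mem_center_iff.1 hz g).symm) 15
  rw [h1] at h2
  rw [← h2]
  have h3 := pr_W3 (Lk Θ) 1 (11 ^ j) hpos
  have h4 : pr (Lk Θ) (tog 1 (W3 1 (11 ^ j))) = 1 := by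
    apply pr_one_of_rel h.ar (by omega) (ok_of_amt h.ar (W3_amt _ _)) (endp_W3 _ _)
    · rw [W3_length]
      have := h.hΛ
      have := pow_mono' hj
      have := pow_i h.hi
      omega
    · have h5 := vl_central (w := W3 1 (11 ^ j)) (k := 1) (c := 0) (endp_W3 _ _) (by
        rw [pr_W3 _ _ _ hpos]
        have h6 := Lam_comm 1 (1 + (11 ^ j : ℕ))
        have h7 := comm_pow_of_central (x := Lk lt 1) (y := Lk lt (1 + (11 ^ j : ℕ)))
          (fun g => by rw [h6]; exact zc_comm _ _) 15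
        rw [show (15:ℤ) = ((15:ℕ):ℤ) from rfl, zpow_natCast, h7, h6, ← zc_nsmul]
        congr 1
        funext n
        rw [Pi.smul_apply, nsmul_eq_mul]
        have : ((15 : ℕ) : ZMod 15) = 0 := rfl
        rw [this, zero_mul]; rfl)
      rw [h5, zc_zero]
  rw [h4] at h3
  rw [show (15:ℤ) = ((15:ℕ):ℤ) from rfl, zpow_natCast] at h3
  exact h3.symm

end Run7.h459
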