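import Pool.Agent.Run7.h459.QP2

set_option linter.unusedSectionVars false

/-! The central homomorphism of an approximate action. -/

namespace Run7.h459

variable {G : Type*} [Group G] {Θ : Lt → G} {ok : Lt → Prop} {Λ i D : ℕ}

open Additive in
/-- the homomorphism on central vectors -/
theorem exists_kap (h : QH Θ ok Λ i D) :
    ∃ κ : Multiplicative VV →* G, (∀ c g, κ c * g = g * κ c) ∧
      (∀ j, j ≤ i → κ (Multiplicative.ofAdd (ev1 j)) = zz Θ j) ∧
      (∀ c : VV, (∀ j, j ≤ i → c j = 0) → κ (Multiplicative.ofAdd c) = 1) := by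
  classical
  letI : CommGroup (Subgroup.center G) :=
    { (inferInstance : Group (Subgroup.center G)) with
      mul_comm := fun a b => Subtype.ext (Subgroup.mem_center_iff.1 b.2 a.1) }
  let zt : ℕ → Additive (Subgroup.center G) := fun j =>
    if hj : j ≤ i then ofMul ⟨zz Θ j, zz_central h hj⟩ else 0
  have hzt : ∀ j, 15 • zt j = 0 := by
    intro j
    by_cases hj : j ≤ i
    · simp only [zt, dif_pos hj]
      rw [← ofMul_pow]
      have : (⟨zz Θ j, zz_central h hj⟩ : Subgroup.center G) ^ 15 = 1 := by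
        ext; simpa using zz_pow h hj
      rw [this]; rfl
    · simp only [zt, dif_neg hj]; simp
  let hm : ℕ → ZMod 15 →+ Additive (Subgroup.center G) := fun j =>
    ZMod.lift 15 ⟨zmultiplesHom (Additive (Subgroup.center G)) (zt j), by
      rw [zmultiplesHom_apply, natCast_zsmul]; exact hzt j⟩
  have hm1 : ∀ j, hm j 1 = zt j := by
    intro j
    have : hm j ((1:ℤ) : ZMod 15) = zt j := by
      simp only [hm]
      rw [ZMod.lift_coe]; simp
    simpa using this
  let kp : VV →+ Additive (Subgroup.center G) :=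
    ∑ j ∈ Finset.range (i + 1), (hm j).comp (Pi.evalAddMonoidHom (fun _ => ZMod 15) j)
  have hkp : ∀ c, kp c = ∑ j ∈ Finset.range (i + 1), hm j (c j) := by
    intro c; simp [kp, AddMonoidHom.finsetSum_apply]
  refine ⟨(Subgroup.subtype _).comp (AddMonoidHom.toMultiplicativeLeft kp), ?_, ?_, ?_⟩
  · intro c g
    exact (Subgroup.mem_center_iff.1 (Subtype.mem _) g).symm
  · intro j hj
    show ((toMul (kp (ev1 j)) : Subgroup.center G) : G) = _
    rw [hkp, Finset.sum_eq_single j]
    · simp only [ev1, Pi.single_eq_same, hm1, zt, dif_pos hj]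
      rfl
    · intro b _ hb
      rw [ev1, Pi.single_eq_of_ne hb, map_zero]
    · intro hj2; exact absurd (Finset.mem_range.2 (by omega)) hj2
  · intro c hc
    show ((toMul (kp c) : Subgroup.center G) : G) = _
    rw [hkp, Finset.sum_eq_zero]
    · rfl
    · intro j hj
      rw [hc j (by have := Finset.mem_range.1 hj; omega), map_zero]

/-- short words with central value act through the central homomorphism -/
theorem kap_word (h : QH Θ ok Λ i D) (κ : Multiplicative VV →* G)
    (hκ : ∀ c g, κ c * g = g * κ c)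
    (hκ1 : ∀ j, j ≤ i → κ (Multiplicative.ofAdd (ev1 j)) = zz Θ j)
    (w : List Lt) (hw : ∀ t ∈ w, ok t) (hlen : w.length < 4 * (D + 2)) (c : VV)
    (hc : vl w = zc c) : (w.map Θ).prod = κ (Multiplicative.ofAdd c) := by
  have hΛ := h.big
  have hs := h.ar.okSys (by omega)
  let Z : Subgroup (G × Ga) :=
    { carrier := {x | ∃ c : VV, x = (κ (Multiplicative.ofAdd c), zc c)}
      mul_mem' := by
        rintro a b ⟨c, rfl⟩ ⟨c', rfl⟩
        exact ⟨c + c', by rw [ofAdd_add, map_mul, zc_add]; rfl⟩
      one_mem' := ⟨0, by rw [ofAdd_zero, map_one, zc_zero]; rfl⟩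
      inv_mem' := by
        rintro a ⟨c, rfl⟩
        exact ⟨-c, by rw [ofAdd_neg, map_inv, zc_neg]; rfl⟩ }
  have hZ : Z.Normal := by
    constructor
    rintro _ ⟨c, rfl⟩ g
    refine ⟨c, ?_⟩
    ext1
    · show g.1 * κ _ * g.1⁻¹ = κ _
      rw [← hκ, mul_inv_cancel_right]
    · show g.2 * zc c * g.2⁻¹ = zc c
      rw [← zc_comm, mul_inv_cancel_right]
  let q : G × Ga →* (G × Ga) ⧸ Z := QuotientGroup.mk' Z
  let Lh : ℤ → G × Ga := fun k => (Lk Θ k, Lk lt k)
  have key : ∀ (k : ℤ) (d : ℕ), 1 ≤ d → d ≤ D →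
      q (Lh k) * q (Lh (k + d)) * (q (Lh k))⁻¹ * (q (Lh (k + d)))⁻¹ = 1 := by
    intro k d hd hdD
    have h1 : Lh k * Lh (k + d) * (Lh k)⁻¹ * (Lh (k + d))⁻¹ ∈ Z := by
      by_cases hev : d % 2 = 0
      · refine ⟨0, ?_⟩
        ext1
        · show _ = κ _
          rw [ofAdd_zero, map_one]; exact pair_same h k hd hdD hev
        · show _ = zc 0
          have := Lam_comm k (k + d)
          rw [kk_same (by omega)] at this
          exact this
      · obtain ⟨j, hj1, hj2, hj3⟩ := exists_val (k := (d : ℤ)) (by omega)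
        have hj1' : 11 ^ j ∣ d := by exact_mod_cast hj1
        have hj2' : ¬ 11 ^ (j + 1) ∣ d := by exact_mod_cast hj2
        have hji : j ≤ i := by
          by_contra hcon
          have h3 := Nat.le_of_dvd (by omega) hj1'
          have h4 := pow_mono' (show i + 1 ≤ j by omega)
          have := h.hD2
          omega
        have hz : zet 15 (k - (k + (d:ℤ))) = ev1 j := by
          rw [show k - (k + (d:ℤ)) = -(d:ℤ) by ring, zet_neg]
          exact zet_eq hj1 hj2
        have hp := pair_odd h k hdD (by omega) hj1' hj2'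
        by_cases hk : k % 2 = 1
        · refine ⟨ev1 j, ?_⟩
          rw [if_pos hk] at hp
          ext1
          · show _ = κ _
            rw [hκ1 j hji]; exact hp
          · show _ = zc _
            have := Lam_comm k (k + d)
            rw [kk_odd hk (by omega), hz] at this
            exact this
        · refine ⟨-ev1 j, ?_⟩
          rw [if_neg hk] at hp
          ext1
          · show _ = κ _
            rw [ofAdd_neg, map_inv, hκ1 j hji]; exact hp
          · show _ = zc _
            have := Lam_comm k (k + d)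
            rw [kk_even (by omega) (by omega), hz] at this
            exact this
    have h2 : q (Lh k * Lh (k + d) * (Lh k)⁻¹ * (Lh (k + d))⁻¹) = 1 :=
      (QuotientGroup.eq_one_iff (N := Z) _).2 h1
    rwa [map_mul, map_mul, map_mul, map_inv, map_inv] at h2
  have hcomm : ∀ k l : ℤ, |k - l| ≤ D → Commute (q (Lh k)) (q (Lh l)) := by
    have hlt : ∀ k l : ℤ, k < l → |k - l| ≤ D → Commute (q (Lh k)) (q (Lh l)) := by
      intro k l hkl hD
      obtain ⟨d, hd⟩ := Int.eq_ofNat_of_zero_le (show 0 ≤ l - k by omega)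
      rw [abs_le] at hD
      have := key k d (by omega) (by omega)
      rw [show k + (d:ℤ) = l by omega] at this
      rw [mul_inv_eq_one, mul_inv_eq_iff_eq_mul] at this
      exact this
    intro k l hkl
    rcases lt_trichotomy k l with h1 | h1 | h1
    · exact hlt k l h1 hkl
    · rw [h1]
    · exact (hlt l k h1 (by rw [abs_sub_comm]; exact hkl)).symm
  have hend : endp 0 w = 0 := by rw [← vl_p, hc]; rfl
  have hnet : ∀ k, net k (tog 0 w) = 0 := by intro k; rw [← vl_h, hc]; rfl
  have h1 := path_lemma (fun k => q (Lh k)) D hcomm w 0 hend hlen hnet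
  rw [← pr_map q Lh] at h1
  have h2 := (QuotientGroup.eq_one_iff (N := Z) _).1 h1
  obtain ⟨c', hc'⟩ := h2
  have e1 : (pr Lh (tog 0 w)).1 = pr (Lk Θ) (tog 0 w) := pr_map (MonoidHom.fst G Ga) Lh _
  have e2 : (pr Lh (tog 0 w)).2 = pr (Lk lt) (tog 0 w) := pr_map (MonoidHom.snd G Ga) Lh _
  rw [hc'] at e1 e2
  have e3 := vl_eq w
  rw [hend, ← e2, hc] at e3
  have e4 : c = c' := by
    apply zc_inj
    rw [e3]
    show zc c' * 1 = zc c'
    rw [mul_one]
  have e5 := product_formula hs 0 w hw
  rw [hend, Pp_zero, one_mul, mul_one, ← e1, ← e4] at e5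
  exact e5

end Run7.h459
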