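import Pool.Agent.Run7.h459.QP3

set_option linter.unusedSectionVars false

/-! The central homomorphism, without the generation hypothesis. -/

namespace Run7.h459

variable {G : Type*} [Group G] {Θ : Lt → G} {ok : Lt → Prop} {Λ i D : ℕ}

theorem Qp (ar : AR Θ ok Λ) (hi : 2 ≤ i) (hΛ : 8 * (11 ^ i + 1) + 2 ≤ Λ) (hD1 : 4 * (D + 1) ≤ Λ)
    (hD2 : D < 11 ^ (i + 1)) :
    ∃ κ : Multiplicative VV →* G, (∀ c t, ok t → κ c * Θ t = Θ t * κ c) ∧
      (∀ j, j ≤ i → κ (Multiplicative.ofAdd (ev1 j)) = zz Θ j) ∧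
      (∀ c : VV, (∀ j, j ≤ i → c j = 0) → κ (Multiplicative.ofAdd c) = 1) ∧
      (∀ w : List Lt, (∀ t ∈ w, ok t) → w.length < 4 * (D + 2) → ∀ c, vl w = zc c →
        (w.map Θ).prod = κ (Multiplicative.ofAdd c)) ∧
      (∀ c, κ c ∈ Subgroup.closure {g | ∃ t, ok t ∧ Θ t = g}) := by
  classical
  set S : Set G := {g | ∃ t, ok t ∧ Θ t = g} with hS
  let K := Subgroup.closure S
  let Θ' : Lt → K := fun t => if h : ok t then ⟨Θ t, Subgroup.subset_closure ⟨t, h, rfl⟩⟩ else 1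
  have hΘ' : ∀ t, ok t → (Θ' t : G) = Θ t := by
    intro t ht; simp only [Θ']; rw [dif_pos ht]
  have hprod : ∀ w : List Lt, (∀ t ∈ w, ok t) → (((w.map Θ').prod : K) : G) = (w.map Θ).prod := by
    intro w
    induction w with
    | nil => intro _; simp
    | cons t w ih =>
      intro hw
      rw [List.map_cons, List.prod_cons, List.map_cons, List.prod_cons, Subgroup.coe_mul,
        hΘ' t (hw t (by simp)), ih (fun s hs => hw s (by simp [hs]))]
  have ar' : AR Θ' ok Λ := by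
    refine ⟨ar.z, ar.o, ar.bd, fun w hw hl hv => ?_⟩
    apply Subtype.ext
    rw [hprod w hw, ar.rel w hw hl hv]; rfl
  have gen : Subgroup.closure {g : K | ∃ t, ok t ∧ Θ' t = g} = ⊤ := by
    have h1 : {g : K | ∃ t, ok t ∧ Θ' t = g} = ((↑) : K → G) ⁻¹' S := by
      ext g
      constructor
      · rintro ⟨t, ht, rfl⟩
        exact ⟨t, ht, (hΘ' t ht).symm⟩
      · rintro ⟨t, ht, h2⟩
        exact ⟨t, ht, Subtype.ext (by rw [hΘ' t ht, h2])⟩
    rw [h1]
    exact Subgroup.closure_closure_coe_preimage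
  have qh : QH Θ' ok Λ i D := ⟨ar', gen, hi, hΛ, hD1, hD2⟩
  obtain ⟨κ, k1, k2, k3⟩ := exists_kap qh
  refine ⟨K.subtype.comp κ, ?_, ?_, ?_, ?_, ?_⟩
  · intro c t ht
    have := congrArg (fun g : K => (g : G)) (k1 c (Θ' t))
    simp only [Subgroup.coe_mul, hΘ' t ht] at this
    exact this
  · intro j hj
    show ((κ (Multiplicative.ofAdd (ev1 j)) : K) : G) = _
    rw [k2 j hj]
    unfold zz
    exact hprod _ (W1_ok ar' _ _)
  · intro c hc
    show ((κ (Multiplicative.ofAdd c) : K) : G) = _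
    rw [k3 c hc]; rfl
  · intro w hw hl c hc
    rw [← hprod w hw, kap_word qh κ k1 k2 w hw hl c hc]; rfl
  · intro c
    exact (κ c).2

end Run7.h459
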