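import Pool.Agent.Run7.h459.Gg

set_option linter.unusedSectionVars false

/-! Tables for the gadget. -/

namespace Run7.h459

abbrev B1 := Fin 7 × Option (Fin 7)
abbrev B2 := Bool × Fin 6

def tab1 : List ℕ := [73, 127, 51, 116, 81, 52, 66, 41, 92, 78, 85, 101, 3, 56, 108, 102, 126, 22,
  74, 107, 79, 33, 61, 12, 69, 53, 80, 118, 31, 72, 59, 70, 122, 60, 125, 115, 76, 77, 87, 86, 49,
  121, 84, 7, 36, 28, 100, 29, 17, 123, 39, 9, 14, 15, 6, 65]

def tab2 : List ℕ := [71, 89, 83, 59, 75, 79, 15, 91, 93, 45, 94, 77]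

def code1 (b : B1) : ℕ := b.1.val * 8 + (match b.2 with | none => 0 | some s => s.val + 1)
def code2 (b : B2) : ℕ := (if b.1 then 6 else 0) + b.2.val

def ts1 (b : B1) (l : Fin 7) : Bool := Nat.testBit (tab1.getD (code1 b) 0) l.val
def ts2 (b : B2) (l : Fin 7) : Bool := Nat.testBit (tab2.getD (code2 b) 0) l.val

theorem ts1_top : ∀ l, ts1 (0, some 0) l = true := by decide

theorem tsH2 : TsH ts2 where
  g1 := by decide +kernel
  g2 := by decide +kernel
  g3 := by decide +kernel
  g4 := by decide +kernel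
  g5 := by decide +kernel

theorem tsH1 : TsH ts1 where
  g1 := by decide +kernel
  g2 := by decide +kernel
  g3 := by decide +kernel
  g4 := by decide +kernel
  g5 := by decide +kernel

end Run7.h459
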