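import Pool.Agent.Run7.h459.Crd
import Pool.Agent.Run7.h459.Tb

set_option linter.unusedSectionVars false

/-! The first generating set. -/

namespace Run7.h459

section gen
variable {B : Type} [Fintype B] [DecidableEq B] {ts : B → Fin 7 → Bool} {gb : B → PP}
  {e : PP →* Z2}

theorem letHh (H : GbH gb CC e) : LetH (hh gb : Al ts → HH) :=
  ⟨hh_inj H, hh_sq H, hh_ne H⟩

theorem Lcl.eqv {X T Γ : Type} [Group Γ] {val : T → Γ} {Λ : ℕ} {π : T → Equiv.Perm X}
    (hL : LetH val) (h : Lcl val Λ π) (hΛ : 2 ≤ Λ) (u w : List T) (hl : u.length + w.length ≤ Λ)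
    (hv : vv val u = vv val w) : evp π u = evp π w := by
  ext x; exact (h.eq_iff hL hΛ u w hl x).2 hv

variable {X : Type} {π0 : Al ts → Equiv.Perm X} {Λ : ℕ}

theorem exists_E (H : GbH gb CC e) (h : Lcl (hh gb) Λ π0) (hΛ : 30 ≤ Λ) :
    ∃ E : QQ →* Equiv.Perm X, ∀ q, E q = evp π0 (wq q) := by
  have hL := letHh (ts := ts) H
  refine ⟨⟨⟨fun q => evp π0 (wq q), ?_⟩, ?_⟩, fun q => rfl⟩
  · have := h.eqv hL (by omega) (wq 1) [] (by have := wq_len (ts := ts) 1; simp; omega)
      (by rw [vv_wq]; rfl)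
    simpa using this
  · intro q q'
    have := h.eqv hL (by omega) (wq (q * q')) (wq q ++ wq q')
      (by
        have := wq_len (ts := ts) (q * q')
        have := wq_len (ts := ts) q
        have := wq_len (ts := ts) q'
        rw [List.length_append]; omega)
      (by rw [vv_append, vv_wq, vv_wq, vv_wq]; simp)
    simpa using this

theorem E_comm (H : GbH gb CC e) (h : Lcl (hh gb) Λ π0) (hΛ : 60 ≤ Λ) (E : QQ →* Equiv.Perm X)
    (hE : ∀ q, E q = evp π0 (wq q)) (w : List (Al ts)) (hw : w.length ≤ 2) (q : QQ) :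
    evp π0 w * E q = E q * evp π0 w := by
  have hL := letHh (ts := ts) H
  rw [hE, ← evp_append, ← evp_append]
  apply h.eqv hL (by omega)
  · have := wq_len (ts := ts) q
    simp only [List.length_append]; omega
  · rw [vv_append, vv_append, vv_wq]
    exact (Subgroup.mem_center_iff.1 (CC_center (CC_q q)) _)

end gen

def tl1 (s : Fin 7) : Lt :=
  match s with
  | 0 => (false, 0) | 1 => (false, 1) | 2 => (true, 0) | 3 => (true, 1) | 4 => (true, 3)
  | 5 => (true, 5) | 6 => (true, 7)

theorem tl1_inj : Function.Injective tl1 := by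
  intro a b; revert a b; decide

theorem ok1_iff (t : Lt) : ok1 t ↔ ∃ s, tl1 s = t := by
  constructor
  · rintro (⟨h1, h2⟩ | ⟨h1, h2⟩)
    · rcases h2 with h | h
      · exact ⟨0, Prod.ext h1.symm h.symm⟩
      · exact ⟨1, Prod.ext h1.symm h.symm⟩
    · rcases h2 with h | h | h | h | h
      · exact ⟨2, Prod.ext h1.symm h.symm⟩
      · exact ⟨3, Prod.ext h1.symm h.symm⟩
      · exact ⟨4, Prod.ext h1.symm h.symm⟩
      · exact ⟨5, Prod.ext h1.symm h.symm⟩
      · exact ⟨6, Prod.ext h1.symm h.symm⟩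
  · rintro ⟨s, rfl⟩
    fin_cases s <;> simp [ok1, tl1]

theorem exists_pre1 (w : List Lt) (hw : ∀ t ∈ w, ok1 t) : ∃ w' : List (Fin 7), w = w'.map tl1 := by
  induction w with
  | nil => exact ⟨[], rfl⟩
  | cons t w ih =>
    obtain ⟨w', rfl⟩ := ih (fun s hs => hw s (by simp [hs]))
    obtain ⟨s, rfl⟩ := (ok1_iff t).1 (hw t (by simp))
    exact ⟨s :: w', rfl⟩

def c11 (b : B1) : List Lt := [tl1 b.1]
def c12 (b : B1) : List Lt := match b.2 with | none => [] | some s => [tl1 s]

noncomputable def gb1 (b : B1) : PP := (vl (c11 b), vl (c12 b))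

noncomputable def e1 : PP →* Z2 := pg.comp (MonoidHom.fst Ga Ga)

theorem gbH1 : GbH gb1 CC e1 where
  inj := by
    rintro ⟨s, o⟩ ⟨s', o'⟩ h
    have h1 : vl [tl1 s] = vl [tl1 s'] := congrArg Prod.fst h
    have h2 : vl (c12 (s, o)) = vl (c12 (s', o')) := congrArg Prod.snd h
    have h3 : s = s' := tl1_inj (lt_inj (by simpa using h1))
    subst h3
    rcases o with _ | t <;> rcases o' with _ | t'
    · rfl
    · simp only [c12, vl_nil, vl_cons, mul_one] at h2
      exact absurd h2.symm (lt_ne _)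
    · simp only [c12, vl_nil, vl_cons, mul_one] at h2
      exact absurd h2 (lt_ne _)
    · simp only [c12, vl_nil, vl_cons, mul_one] at h2
      rw [tl1_inj (lt_inj h2)]
  sq := by
    rintro ⟨s, o⟩
    rw [Prod.ext_iff]
    refine ⟨by simp [gb1, c11, lt_inv], ?_⟩
    rcases o with _ | t
    · simp [gb1, c12]
    · simp [gb1, c12, lt_inv]
  par := by
    rintro ⟨s, o⟩
    show pg (vl [tl1 s]) = _
    rw [vl_cons, vl_nil, mul_one, pg_lt]
  hC := CC_center
  hq := CC_q

section sys
variable {X : Type} {π0 : Al ts1 → Equiv.Perm X} {Λ : ℕ}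

noncomputable def T11 (π0 : Al ts1 → Equiv.Perm X) : Lt → Equiv.Perm X :=
  Function.extend tl1 (fun s => π0 (ba (s, none))) (fun _ => 1)
noncomputable def T12 (π0 : Al ts1 → Equiv.Perm X) : Lt → Equiv.Perm X :=
  Function.extend tl1 (fun s => π0 (ba (0, some s)) * π0 (ba (0, none))) (fun _ => 1)

theorem T11_tl (s : Fin 7) : T11 π0 (tl1 s) = π0 (ba (s, none)) := tl1_inj.extend_apply _ _ _
theorem T12_tl (s : Fin 7) : T12 π0 (tl1 s) = π0 (ba (0, some s)) * π0 (ba (0, none)) :=
  tl1_inj.extend_apply _ _ _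

theorem ar_base (b : Bool) : ok1 (b, 0) ∧ ok1 (b, 1) := by cases b <;> simp [ok1]

theorem ok1_bd (t : Lt) (h : ok1 t) : 0 ≤ t.2 ∧ t.2 ≤ 7 := by
  rcases h with ⟨_, h | h⟩ | ⟨_, h | h | h | h | h⟩ <;> rw [h] <;> norm_num

theorem pow_invol {G : Type*} [Group G] {a : G} (ha : a * a = 1) (n : ℕ) (hn : n % 2 = 0) : a ^ n = 1 := by
  obtain ⟨k, rfl⟩ : ∃ k, n = 2 * k := ⟨n / 2, by omega⟩
  rw [pow_mul, pow_two, ha, one_pow]

theorem vv_s1 (w : List (Fin 7)) : vv (hh gb1) (w.map fun s => (ba (s, none) : Al ts1)) =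
    ((vl (w.map tl1), 1), 1) := by
  induction w with
  | nil => rfl
  | cons s w ih =>
    rw [List.map_cons, vv_cons, ih, hh_ba]
    simp [gb1, c11, c12]

theorem vv_s2 (w : List (Fin 7)) : vv (hh gb1) (w.map fun s => (ba (0, some s) : Al ts1)) =
    ((lt (tl1 0) ^ w.length, vl (w.map tl1)), 1) := by
  induction w with
  | nil => rfl
  | cons s w ih =>
    rw [List.map_cons, vv_cons, ih, hh_ba]
    simp [gb1, c11, c12, pow_succ']

theorem ar11 (h : Lcl (hh gb1) Λ π0) : AR (T11 π0) ok1 Λ where
  z := fun b => (ar_base b).1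
  o := fun b => (ar_base b).2
  bd := ok1_bd
  rel := by
    intro w hw hl hv
    obtain ⟨w', rfl⟩ := exists_pre1 w hw
    rw [List.map_map]
    have h1 : T11 π0 ∘ tl1 = π0 ∘ (fun s => ba (s, none)) := by funext s; exact T11_tl s
    rw [h1, ← List.map_map]
    have h2 : vv (hh gb1) (w'.map fun s => (ba (s, none) : Al ts1)) = 1 := by
      rw [vv_s1, hv]; rfl
    ext x
    exact (h _ (by simpa using hl) x).2 h2

theorem ar12 (h : Lcl (hh gb1) Λ π0) (hΛ : 4 ≤ Λ) : AR (T12 π0) ok1 Λ where
  z := fun b => (ar_base b).1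
  o := fun b => (ar_base b).2
  bd := ok1_bd
  rel := by
    intro w hw hl hv
    have hL := letHh (ts := ts1) gbH1
    obtain ⟨w', rfl⟩ := exists_pre1 w hw
    have heven : w'.length % 2 = 0 := by
      have := even_of_closed (w'.map tl1) (by rw [hv]; rfl)
      simpa using this
    set A := π0 (ba (0, none)) with hA
    have hcomm : ∀ s, A * π0 (ba (0, some s)) = π0 (ba (0, some s)) * A := by
      intro s
      have := h.eqv hL (by omega) [ba (0, none), ba (0, some s)] [ba (0, some s), ba (0, none)]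
        (by simpa using hΛ) (by simp [gb1, c11, c12])
      simpa using this
    have hAA : A * A = 1 := by
      ext x
      have := h.sq hL (by omega) (ba (0, none)) x
      simpa using this
    have hprod : ∀ w' : List (Fin 7), ((w'.map tl1).map (T12 π0)).prod =
        evp π0 (w'.map fun s => ba (0, some s)) * A ^ w'.length := by
      intro w'
      induction w' with
      | nil => simp
      | cons s w' ih =>
        rw [List.map_cons, List.map_cons, List.prod_cons, ih, T12_tl, List.map_cons, evp_cons,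
          List.length_cons, pow_succ']
        have hc : A * evp π0 (w'.map fun s => ba (0, some s)) =
            evp π0 (w'.map fun s => ba (0, some s)) * A := by
          unfold evp
          rw [List.map_map]
          exact comm_prod _ _ _ (fun s _ => hcomm s)
        rw [← hA]
        calc π0 (ba (0, some s)) * A * (evp π0 (w'.map fun s => ba (0, some s)) * A ^ w'.length)
            = π0 (ba (0, some s)) * (A * evp π0 (w'.map fun s => ba (0, some s))) * A ^ w'.length := by
              simp only [mul_assoc]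
          _ = _ := by rw [hc]; simp only [mul_assoc]
    rw [hprod, pow_invol hAA _ heven, mul_one]
    have h2 : vv (hh gb1) (w'.map fun s => (ba (0, some s) : Al ts1)) = 1 := by
      rw [vv_s2, hv, pow_invol (lt_inv _) _ heven]; rfl
    ext x
    exact (h _ (by simpa using hl) x).2 h2

theorem crd1 (h : Lcl (hh gb1) Λ π0) (hΛ : 60 ≤ Λ) (E : QQ →* Equiv.Perm X)
    (hE : ∀ q, E q = evp π0 (wq q)) : CrdH gb1 c11 c12 ok1 π0 (T11 π0) (T12 π0) E where
  hgb := fun b => rfl
  l1 := fun b => by simp [c11]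
  l2 := fun b => by rcases b with ⟨s, _ | t⟩ <;> simp [c12]
  o1 := fun b t ht => by
    simp only [c11, List.mem_cons, List.not_mem_nil, or_false] at ht
    rw [ht, ok1_iff]; exact ⟨_, rfl⟩
  o2 := fun b t ht => by
    rcases b with ⟨s, _ | u⟩
    · simp [c12] at ht
    · simp only [c12, List.mem_cons, List.not_mem_nil, or_false] at ht
      rw [ht, ok1_iff]; exact ⟨_, rfl⟩
  dec := by
    have hL := letHh (ts := ts1) gbH1
    have hb : ∀ b : B1, π0 (ba b) = ((c11 b).map (T11 π0)).prod * ((c12 b).map (T12 π0)).prod := by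
      rintro ⟨s, _ | t⟩
      · simp [c11, c12, T11_tl]
      · have := h.eqv hL (by omega) [ba (s, some t)] [ba (s, none), ba (0, some t), ba (0, none)]
          (by simp; omega) (by simp [gb1, c11, c12, mul_assoc, lt_inv])
        simpa [c11, c12, T11_tl, T12_tl] using this
    intro a
    rcases al_cases a with ⟨l, rfl⟩ | ⟨b, rfl⟩ | ⟨b, l, hbl, rfl⟩
    · show π0 (pu l) = 1 * (1 * E (el l))
      rw [one_mul, one_mul, hE]
      have := h.eqv hL (by omega) [pu l] (wq (el l)) (by
        have := wq_len (ts := ts1) (el l); simp; omega) (by rw [vv_wq]; simp)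
      simpa using this
    · show π0 (ba b) = ((c11 b).map (T11 π0)).prod * (((c12 b).map (T12 π0)).prod * E 1)
      rw [map_one, mul_one]; exact hb b
    · show π0 (de b l hbl) = ((c11 b).map (T11 π0)).prod * (((c12 b).map (T12 π0)).prod * E (el l))
      rw [← mul_assoc, ← hb b, hE]
      have := h.eqv hL (by omega) [de b l hbl] (ba b :: wq (el l)) (by
        have := wq_len (ts := ts1) (el l); simp; omega) (by rw [vv_cons, vv_nil, vv_cons, vv_wq]; simp)
      simpa using this
  c12 := by
    have hL := letHh (ts := ts1) gbH1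
    intro t t' ht ht'
    obtain ⟨s, rfl⟩ := (ok1_iff t).1 ht
    obtain ⟨s', rfl⟩ := (ok1_iff t').1 ht'
    have := h.eqv hL (by omega) [ba (s, none), ba (0, some s'), ba (0, none)]
      [ba (0, some s'), ba (0, none), ba (s, none)]
      (by simp; omega) (by simp [gb1, c11, c12, mul_assoc, lt_inv]; rw [← mul_assoc, lt_inv, one_mul])
    rw [T11_tl, T12_tl]
    simpa [mul_assoc] using this
  cE1 := by
    intro t q ht
    obtain ⟨s, rfl⟩ := (ok1_iff t).1 ht
    have := E_comm gbH1 h hΛ E hE [ba (s, none)] (by simp) q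
    rw [T11_tl]
    simpa using this
  cE2 := by
    intro t q ht
    obtain ⟨s, rfl⟩ := (ok1_iff t).1 ht
    have := E_comm gbH1 h hΛ E hE [ba (0, some s), ba (0, none)] (by simp) q
    rw [T12_tl]
    simpa using this

end sys

end Run7.h459
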