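import Pool.Agent.Run7.h459.S1
import Pool.Agent.Run7.h459.Ct

set_option linter.unusedSectionVars false

/-! The first generating set: the abstract hypotheses. -/

namespace Run7.h459

/-! restriction and extension of vectors -/

abbrev FV (i : ℕ) := Multiplicative (Fin (i + 1) → ZMod 15)

def exH (i : ℕ) : FV i →* MV where
  toFun c := Multiplicative.ofAdd (fun j => if h : j < i + 1 then c.toAdd ⟨j, h⟩ else 0)
  map_one' := by
    apply congrArg Multiplicative.ofAdd
    funext j; split_ifs <;> rfl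
  map_mul' x y := by
    rw [← ofAdd_add]
    apply congrArg Multiplicative.ofAdd
    funext j
    rw [Pi.add_apply]
    split_ifs
    · rfl
    · simp

theorem exH_inj (i : ℕ) : Function.Injective (exH i) := by
  intro x y h
  have h1 := congrArg Multiplicative.toAdd h
  apply Multiplicative.toAdd.injective
  funext j
  have := congrFun h1 j.val
  simp only [exH, MonoidHom.coe_mk, OneHom.coe_mk, toAdd_ofAdd, dif_pos j.2] at this
  exact this

theorem exH_vanish (i : ℕ) (x : FV i) (j : ℕ) (hj : i < j) : (exH i x).toAdd j = 0 := by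
  simp only [exH, MonoidHom.coe_mk, OneHom.coe_mk, toAdd_ofAdd]
  rw [dif_neg (by omega)]

theorem exH_surj (i : ℕ) (c : MV) (hc : ∀ j, i < j → c.toAdd j = 0) : ∃ x : FV i, exH i x = c := by
  refine ⟨Multiplicative.ofAdd (fun j => c.toAdd j.val), ?_⟩
  apply Multiplicative.toAdd.injective
  funext j
  simp only [exH, MonoidHom.coe_mk, OneHom.coe_mk, toAdd_ofAdd]
  split_ifs with h
  · rfl
  · exact (hc j (by omega)).symm

abbrev AA (i : ℕ) := FV i × FV i × QQ

def exA (i : ℕ) : AA i →* MV × MV × QQ where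
  toFun x := (exH i x.1, exH i x.2.1, x.2.2)
  map_one' := by simp
  map_mul' x y := by simp

theorem exA_inj (i : ℕ) : Function.Injective (exA i) := by
  rintro ⟨a, b, q⟩ ⟨a', b', q'⟩ h
  have h1 : exH i a = exH i a' := congrArg Prod.fst h
  have h2 : exH i b = exH i b' := congrArg (fun x => x.2.1) h
  have h3 : q = q' := congrArg (fun x : MV × MV × QQ => x.2.2) h
  rw [exH_inj i h1, exH_inj i h2, h3]

theorem exA_surj (i : ℕ) (x : MV × MV × QQ) (h1 : ∀ j, i < j → x.1.toAdd j = 0)
    (h2 : ∀ j, i < j → x.2.1.toAdd j = 0) : ∃ y : AA i, exA i y = x := by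
  obtain ⟨a, ha⟩ := exH_surj i x.1 h1
  obtain ⟨b, hb⟩ := exH_surj i x.2.1 h2
  exact ⟨(a, b, x.2.2), by rw [Prod.ext_iff, Prod.ext_iff]; exact ⟨ha, hb, rfl⟩⟩

/-! decorated words -/

noncomputable def idx (t : Lt) : Fin 7 := Function.invFun tl1 t

theorem idx_tl (s : Fin 7) : idx (tl1 s) = s := Function.leftInverse_invFun tl1_inj s

theorem tl_idx (t : Lt) (h : ok1 t) : tl1 (idx t) = t := by
  obtain ⟨s, rfl⟩ := (ok1_iff t).1 h
  rw [idx_tl]

noncomputable def gz (x : Lt × Lt) : Al ts1 := ba (idx x.1, some (idx x.2))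

theorem vv_gz (w1 w2 : List Lt) (hl : w1.length = w2.length) (h1 : ∀ t ∈ w1, ok1 t)
    (h2 : ∀ t ∈ w2, ok1 t) : vv (hh gb1) ((List.zip w1 w2).map gz) = ((vl w1, vl w2), 1) := by
  induction w1 generalizing w2 with
  | nil =>
    cases w2 with
    | nil => rfl
    | cons t w2 => simp at hl
  | cons t w1 ih =>
    cases w2 with
    | nil => simp at hl
    | cons t' w2 =>
      rw [List.zip_cons_cons, List.map_cons, vv_cons, ih w2 (by simpa using hl)
        (fun s hs => h1 s (by simp [hs])) (fun s hs => h2 s (by simp [hs]))]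
      simp only [gz, hh_ba, gb1, c11, c12]
      rw [tl_idx t (h1 t (by simp)), tl_idx t' (h2 t' (by simp))]
      simp

abbrev P0 : Al ts1 := ba (0, some 0)

def cP (w : List (Al ts1)) : ℕ := w.countP (fun a => decide (a = P0))

theorem decorate (L : List (Fin 7)) (w : List (Al ts1)) (h : L.length ≤ cP w) :
    ∃ w' : List (Al ts1), w'.length = w.length ∧ vv (hh gb1) w' = vv (hh gb1) w * (1, (L.map el).prod) ∧
      cP w' + L.length = cP w := by
  induction L with
  | nil => exact ⟨w, rfl, by simp, rfl⟩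
  | cons l L ih =>
    rw [List.length_cons] at h
    obtain ⟨w', h1, h2, h3⟩ := ih (by omega)
    have hmem : P0 ∈ w' := by
      have h4 : 0 < cP w' := by omega
      unfold cP at h4
      rw [List.countP_pos_iff] at h4
      obtain ⟨a, ha, hP⟩ := h4
      have h5 : a = P0 := of_decide_eq_true hP
      rw [← h5]; exact ha
    obtain ⟨x, y, rfl⟩ := List.append_of_mem hmem
    refine ⟨x ++ de (0, some 0) l (ts1_top l) :: y, by simpa using h1, ?_, ?_⟩
    · have hce : ∀ g : HH, g * ((1 : PP), el l) = ((1 : PP), el l) * g := fun g =>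
        Subgroup.mem_center_iff.1 (CC_center (CC_q (el l))) g
      have hde : hh gb1 (de (0, some 0) l (ts1_top l) : Al ts1) = (1, el l) * hh gb1 P0 := by
        show _ = ((1 : PP), el l) * (gb1 (0, some 0), 1)
        rw [Prod.mk_mul_mk, one_mul, mul_one]; rfl
      have h4 : vv (hh gb1) (x ++ de (0, some 0) l (ts1_top l) :: y) =
          (1, el l) * vv (hh gb1) (x ++ P0 :: y) := by
        rw [vv_append, vv_append, vv_cons, vv_cons, hde]
        rw [mul_assoc ((1 : PP), el l), ← mul_assoc (vv (hh gb1) x), hce, mul_assoc]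
      rw [h4, h2, ← mul_assoc, ← hce, mul_assoc, List.map_cons, List.prod_cons]
      simp
    · unfold cP at h3 ⊢
      rw [List.countP_append, List.countP_cons, if_pos (by simp)] at h3
      rw [List.countP_append, List.countP_cons, if_neg (by
        intro h6
        have := of_decide_eq_true h6
        simp at this), List.length_cons]
      omega

theorem f1a_even (i : ℕ) (c : VV) (k : ℕ) (hk : k % 2 = 0) (r : ZMod 15 → ℤ) :
    fs (Finset.range (i + 1)) (fun j => 1 * 11 ^ j) (fun j => r (c j)) (-(k : ℤ)) = 0 := by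
  apply fs_zero_of
  intro j _
  have := pow11_odd j
  omega

theorem bw1_pre (i : ℕ) (hi : 2 ≤ i) (c : VV) : ∃ (a1 a2 a3 a4 a5 a6 a7 : Lt) (rest : List Lt),
    bw1 i c = [a1, (false, 0), a2, (false, 0), a3, (false, 0), a4, (false, 0), a5, (false, 0),
      a6, (false, 0), a7, (false, 0)] ++ rest := by
  obtain ⟨d, hd⟩ := Nat.exists_eq_add_of_le (show 14 ≤ 11 ^ i by have := pow_i hi; omega)
  have hf : ∀ k : ℕ, k % 2 = 0 → f1a i c (-(k:ℤ)) = 0 := fun k hk => f1a_even i c k hk r1a
  have h2 := hf 2 (by norm_num)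
  have h4 := hf 4 (by norm_num)
  have h6 := hf 6 (by norm_num)
  have h8 := hf 8 (by norm_num)
  have h10 := hf 10 (by norm_num)
  have h12 := hf 12 (by norm_num)
  have h14 := hf 14 (by norm_num)
  push_cast at h2 h4 h6 h8 h10 h12 h14
  unfold bw1 gw Xw
  rw [hd, lp_add]
  simp only [List.append_assoc]
  have e1 : lp (f1a i c) 0 14 = [(tp (-1), f1a i c (-1)), (false, 0), (tp (-3), f1a i c (-3)),
      (false, 0), (tp (-5), f1a i c (-5)), (false, 0), (tp (-7), f1a i c (-7)), (false, 0),
      (tp (-9), f1a i c (-9)), (false, 0), (tp (-11), f1a i c (-11)), (false, 0),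
      (tp (-13), f1a i c (-13)), (false, 0)] := by
    norm_num [lp, h2, h4, h6, h8, h10, h12, h14]
    simp [tp]
  exact ⟨_, _, _, _, _, _, _, _, congrArg (fun x => x ++ _) e1⟩

theorem zip_count (i : ℕ) (hi : 2 ≤ i) (c c' : VV) :
    7 ≤ cP ((List.zip (bw1 i c) (bw1 i c')).map gz) := by
  obtain ⟨a1, a2, a3, a4, a5, a6, a7, rest, h1⟩ := bw1_pre i hi c
  obtain ⟨b1, b2, b3, b4, b5, b6, b7, rest', h1'⟩ := bw1_pre i hi c'
  have hP : gz ((false, 0), (false, 0)) = P0 := by
    have : idx (false, 0) = 0 := idx_tl 0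
    simp [gz, this]
  unfold cP
  rw [h1, h1', List.zip_append (by simp), List.map_append, List.countP_append]
  simp only [List.zip_cons_cons, List.map_cons, List.zip_nil_left, List.map_nil, hP,
    List.countP_cons, List.countP_nil, decide_true, if_true]
  omega

theorem up1 (i : ℕ) (hi : 2 ≤ i) (c c' : VV) (hc : ∀ j, i < j → c j = 0) (hc' : ∀ j, i < j → c' j = 0)
    (q : QQ) : ∃ w : List (Al ts1), w.length = 4 * (11 ^ i + 1) ∧
      vv (hh gb1) w = ((zc c, zc c'), q) := by
  have hlen : (bw1 i c).length = (bw1 i c').length := by rw [bw1_length, bw1_length]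
  have h1 := vv_gz (bw1 i c) (bw1 i c') hlen (bw1_ok i c) (bw1_ok i c')
  have h2 := zip_count i hi c c'
  obtain ⟨w', h3, h4, _⟩ := decorate ((List.finRange 7).filter (fun l => decide (q.toAdd l = 1)))
    ((List.zip (bw1 i c) (bw1 i c')).map gz) (by
      refine le_trans ?_ h2
      refine (List.length_filter_le _ _).trans (by simp))
  refine ⟨w', ?_, ?_⟩
  · rw [h3, List.length_map, List.length_zip, bw1_length, bw1_length, min_self]
  · rw [h4, h1, el_prod, bw1_val i c hc, bw1_val i c' hc']; simp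

/-! the abstract hypotheses -/

theorem amH1 {X : Type} {π0 : Al ts1 → Equiv.Perm X} {ρ i : ℕ} (hi : 2 ≤ i)
    (h1 : 4 * (11 ^ i + 1) ≤ ρ) (h2 : ρ < 4 * (11 ^ (i + 1) + 1))
    (h : Lcl (hh gb1) (2 * ρ + 3) π0) :
    ∃ κ : AA i →* Equiv.Perm X, AmH (hh gb1) CC ρ π0 (cc.comp (exA i)) κ := by
  have hpi := pow_i hi
  obtain ⟨E, hE⟩ := exists_E gbH1 h (by omega)
  have hcrd := crd1 h (by omega) E hE
  obtain ⟨K, k1, k2, k3⟩ := exists_K (Λ := 2 * ρ + 3) (i := i) (D := ρ / 4 - 1) hcrd (ar11 h)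
    (ar12 h (by omega)) hi (by omega) (by omega) (by omega)
  have hL := letHh (ts := ts1) gbH1
  refine ⟨K.comp (exA i), ⟨hL.inv, CC_center, h, fun a => ⟨_, rfl⟩, ?_, ?_, ?_⟩⟩
  · exact cc_inj.comp (exA_inj i)
  · rintro ⟨a, b, q⟩
    obtain ⟨w, hw1, hw2⟩ := up1 i hi (exH i a).toAdd (exH i b).toAdd (exH_vanish i a)
      (exH_vanish i b) q
    have hw2' : vv (hh gb1) w = cc (exA i (a, b, q)) := hw2
    refine ⟨w, by omega, hw2', ?_⟩
    have l1 := WW_len hcrd.l1 w
    have l2 := WW_len hcrd.l2 w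
    exact k2 w (by omega) (by omega) _ hw2'
  · rintro w hw ⟨x, hx⟩
    have l1 := WW_len hcrd.l1 w
    have l2 := WW_len hcrd.l2 w
    have hx' := hx
    rw [vv_coord hcrd.hgb] at hx'
    have x1 : vl (WW c11 w) = zc x.1.toAdd := (congrArg (fun y : HH => y.1.1) hx').symm
    have x2 : vl (WW c12 w) = zc x.2.1.toAdd := (congrArg (fun y : HH => y.1.2) hx').symm
    have hp : 0 < 11 ^ (i + 1) := pow_pos (by norm_num) _
    have v1 := bd_low (11 ^ (i + 1) - 1) _ _ x1 (by omega)
    have v2 := bd_low (11 ^ (i + 1) - 1) _ _ x2 (by omega)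
    have hv : ∀ j, i < j → 11 ^ (i + 1) - 1 < 11 ^ j := by
      intro j hj
      have := pow_mono' (show i + 1 ≤ j by omega)
      omega
    obtain ⟨y, hy⟩ := exA_surj i x (fun j hj => v1 j (hv j hj)) (fun j hj => v2 j (hv j hj))
    refine ⟨y, ?_, ?_⟩
    · show cc (exA i y) = _
      rw [hy, hx]
    · show _ = K (exA i y)
      rw [hy]
      exact k2 w (by omega) (by omega) _ hx.symm

/-! separated words -/

noncomputable def b8 (k : Fin 8) : List (Al ts1) :=
  (List.replicate k.val [ba (0, none), ba (2, none)]).flatten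

theorem b8_len (k : Fin 8) : (b8 k).length ≤ 16 := by
  unfold b8
  rw [List.length_flatten, List.map_replicate, List.sum_replicate]
  simp only [List.length_cons, List.length_nil, smul_eq_mul]
  omega

theorem pos_even_mul (a b : ℤ) (ha : a % 2 = 0) : pos a * pos b = pos (a + b) := by
  unfold pos
  rw [mul_mk, ac_even ha]; simp

theorem b8_val (k : ℕ) : vv (hh gb1) (List.replicate k [(ba (0, none) : Al ts1), ba (2, none)]).flatten =
    ((pos (2 * k), 1), 1) := by
  induction k with
  | zero => rfl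
  | succ k ih =>
    rw [List.replicate_succ, List.flatten_cons, vv_append, ih]
    have h1 : vv (hh gb1) [(ba (0, none) : Al ts1), ba (2, none)] = ((pos 2, 1), 1) := by
      have h3 : lt (false, 0) * lt (true, 0) = pos 2 := by
        rw [lt_f, lt_t]
        unfold pos
        rw [mul_mk, ac_odd (by norm_num)]
        simp
      simp only [vv_cons, vv_nil, mul_one, hh_ba, gb1, c11, c12, tl1, vl_cons, vl_nil]
      rw [Prod.mk_mul_mk, Prod.mk_mul_mk, h3]; simp
    rw [h1, Prod.mk_mul_mk, Prod.mk_mul_mk, pos_even_mul _ _ (by norm_num)]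
    simp only [mul_one]
    congr 3; push_cast; ring

theorem b8_sep (k l : Fin 8) (hkl : k ≠ l) : vv (hh gb1) (b8 k) * (vv (hh gb1) (b8 l))⁻¹ ∉ CC := by
  rintro ⟨x, hx⟩
  rw [eq_mul_inv_iff_mul_eq] at hx
  unfold b8 at hx
  rw [b8_val, b8_val] at hx
  have h1 : zc x.1.toAdd * pos (2 * (l.val : ℤ)) = pos (2 * (k.val : ℤ)) :=
    congrArg (fun y : HH => y.1.1) hx
  have h2 := congrArg LG.p h1
  have h3 : Da.ac 0 (2 * (l.val : ℤ)) = 2 * (k.val : ℤ) := h2
  rw [ac_even (by norm_num)] at h3
  apply hkl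
  ext
  omega

end Run7.h459
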