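import Pool.Agent.Run7.h459.S1b

set_option linter.unusedSectionVars false

/-! The first generating set: connectivity. -/

namespace Run7.h459

open Finset

section
variable {Γ : Type} [Group Γ] {T : Type}

theorem gr_connected {X : Type} [Nonempty X] {val : T → Γ} {π : T → Equiv.Perm X} {Λ : ℕ}
    (H : LetH val) (h : Lcl val Λ π) (hΛ : 2 ≤ Λ) : (gr π).Connected ↔ Trn π := by
  constructor
  · intro hc x y
    exact (gr_reach H h hΛ x y).1 (hc.preconnected x y)
  · intro ht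
    exact ⟨fun x y => (gr_reach H h hΛ x y).2 (ht x y)⟩

/-- graphs and systems -/
theorem graph_image {X : Type} {val : T → Γ} {r : ℕ} (H : LetH val) (hR : Rig val) (hr : 2 ≤ r)
    (hodd : ∀ π : T → Equiv.Perm X, Lcl val (2 * r) π → ∀ w : List T, w.length = 2 * r + 1 →
      vv val w = 1 → evp π w = 1) :
    {G : SimpleGraph X | RLocal G (cayG (Set.range val)) 1 r} =
      gr '' {π : T → Equiv.Perm X | Lcl val (2 * r + 1) π} := by
  ext G
  constructor
  · intro hG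
    obtain ⟨π, h1, h2⟩ := system_of_local H hR hr G hodd hG
    exact ⟨π, h1, h2⟩
  · rintro ⟨π, h1, rfl⟩
    exact local_of_system H (by omega) h1

theorem graph_image' {X : Type} [Nonempty X] {val : T → Γ} {r : ℕ} (H : LetH val) (hR : Rig val)
    (hr : 2 ≤ r)
    (hodd : ∀ π : T → Equiv.Perm X, Lcl val (2 * r) π → ∀ w : List T, w.length = 2 * r + 1 →
      vv val w = 1 → evp π w = 1) :
    {G : SimpleGraph X | RLocal G (cayG (Set.range val)) 1 r ∧ ¬ G.Connected} =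
      gr '' {π : T → Equiv.Perm X | Lcl val (2 * r + 1) π ∧ ¬ Trn π} := by
  ext G
  constructor
  · rintro ⟨hG, hc⟩
    obtain ⟨π, h1, rfl⟩ := system_of_local H hR hr G hodd hG
    exact ⟨π, ⟨h1, fun h => hc ((gr_connected H h1 (by omega)).2 h)⟩, rfl⟩
  · rintro ⟨π, ⟨h1, h2⟩, rfl⟩
    exact ⟨local_of_system H (by omega) h1, fun h => h2 ((gr_connected H h1 (by omega)).1 h)⟩

theorem gr_injOn {X : Type} {val : T → Γ} {r : ℕ} (H : LetH val) (hR : Rig val) (hr : 1 ≤ r) :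
    Set.InjOn gr {π : T → Equiv.Perm X | Lcl val (2 * r + 1) π} := by
  intro π h π' h' hg
  exact label_unique H hR (by omega) h h' hg

end

/-- transfer along an injective homomorphism -/
theorem Lcl_map {Γ Γ' T X : Type} [Group Γ] [Group Γ'] {val : T → Γ} (j : Γ →* Γ')
    (hj : Function.Injective j) {Λ : ℕ} (π : T → Equiv.Perm X) :
    Lcl val Λ π ↔ Lcl (fun t => j (val t)) Λ π := by
  have h1 : ∀ w, vv (fun t => j (val t)) w = j (vv val w) := by
    intro w
    induction w with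
    | nil => simp
    | cons t w ih => rw [vv_cons, vv_cons, map_mul, ih]
  unfold Lcl
  simp only [h1]
  have h2 : ∀ w, j (vv val w) = 1 ↔ vv val w = 1 := fun w => by
    rw [← map_one j, hj.eq_iff]
  simp only [h2]

theorem pf_eta {α X : Type} (π : Option α → Equiv.Perm X) : pf (π none) (fun a => π (some a)) = π := by
  funext o
  cases o <;> rfl

theorem Lcl_base {α X H : Type} [Group H] {C : Subgroup H} {h : α → H} {Λ : ℕ} {τ : Equiv.Perm X}
    {π0 : α → Equiv.Perm X} (hL : Lcl (v1 h : Option α → TG H C) Λ (pf τ π0)) : Lcl h Λ π0 := by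
  intro w hw x
  have := hL (w.map some) (by simpa using hw) x
  rw [evp_some] at this
  rw [this]
  show (vt h (w.map some) : TG H C) = 1 ↔ _
  rw [vt_some', ← map_one (SemidirectProduct.inr : H →* TG H C),
    SemidirectProduct.inr_injective.eq_iff]

noncomputable abbrev val1 : Option (Al ts1) → TG HH CC := v1 (hh gb1)

theorem exists_i (ρ : ℕ) (hρ : 488 ≤ ρ) : ∃ i, 2 ≤ i ∧ 4 * (11 ^ i + 1) ≤ ρ ∧ ρ < 4 * (11 ^ (i + 1) + 1) := by
  classical
  have hex : ∃ i, ρ < 4 * (11 ^ (i + 1) + 1) := by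
    refine ⟨ρ, ?_⟩
    have : ρ + 1 < 11 ^ (ρ + 1) := Nat.lt_pow_self (by norm_num)
    omega
  let i := Nat.find hex
  have h1 : ρ < 4 * (11 ^ (i + 1) + 1) := Nat.find_spec hex
  have h2 : 2 ≤ i := by
    by_contra hcon
    have h3 : i = 0 ∨ i = 1 := by omega
    rcases h3 with h3 | h3 <;> rw [h3] at h1 <;> norm_num at h1 <;> omega
  refine ⟨i, h2, ?_, h1⟩
  have h3 := Nat.find_min hex (show i - 1 < i by omega)
  rw [show i - 1 + 1 = i by omega] at h3
  omega

theorem ncard_filter' {β : Type} [Fintype β] (P : β → Prop) [DecidablePred P] :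
    {x | P x}.ncard = (univ.filter P).card := by
  rw [Set.ncard_eq_toFinset_card']
  congr 1
  ext x; simp

theorem ncard_dec {α X : Type} [Fintype α] [DecidableEq α] [Fintype X] [DecidableEq X]
    (P : (Option α → Equiv.Perm X) → Prop) :
    {π | P π}.ncard = ∑ π0 : α → Equiv.Perm X, {τ : Equiv.Perm X | P (pf τ π0)}.ncard := by
  classical
  rw [ncard_filter' P]
  let φ : (Option α → Equiv.Perm X) → (α → Equiv.Perm X) := fun π a => π (some a)
  rw [card_eq_sum_card_fiberwise (f := φ) (t := univ) (fun _ _ => mem_coe.2 (mem_univ _))]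
  apply sum_congr rfl
  intro π0 _
  rw [ncard_filter' (fun τ : Equiv.Perm X => P (pf τ π0))]
  symm
  apply card_bij (fun τ _ => pf τ π0)
  · intro τ hτ
    rw [mem_filter, mem_filter]
    exact ⟨⟨mem_univ _, (mem_filter.1 hτ).2⟩, rfl⟩
  · intro τ _ τ' _ h
    exact congrFun h none
  · intro π hπ
    rw [mem_filter, mem_filter] at hπ
    refine ⟨π none, ?_, ?_⟩
    · rw [mem_filter]
      refine ⟨mem_univ _, ?_⟩
      rw [← hπ.2]
      show P (pf (π none) (fun a => π (some a)))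
      rw [pf_eta]; exact hπ.1.2
    · rw [← hπ.2]; exact pf_eta π

/-- the abstract form of the first side -/
theorem systems_abs {α H : Type} [Fintype α] [DecidableEq α] [Group H] (h : α → H) (C : Subgroup H)
    (ρ : ℕ) (A : Type) [Group A] [Fintype A] (ι : A →* H) (b8 : Fin 8 → List α)
    (hb8 : ∀ k, (b8 k).length ≤ 16) (hρ : 32 ≤ ρ)
    (hb8' : ∀ k l, k ≠ l → vv h (b8 k) * (vv h (b8 l))⁻¹ ∉ C)
    (hA : ∀ (X : Type) (π0 : α → Equiv.Perm X), Lcl h (2 * ρ + 3) π0 →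
      ∃ κ : A →* Equiv.Perm X, AmH h C ρ π0 ι κ)
    (ε : ℝ) (hε : 0 < ε) : ∃ N : ℕ, ∀ n, N ≤ n →
    (({π : Option α → Equiv.Perm (Fin n) |
      Lcl (v1 h : Option α → TG H C) (2 * ρ + 3) π ∧ ¬ Trn π}.ncard : ℕ) : ℝ) ≤
    ε * (({π : Option α → Equiv.Perm (Fin n) |
      Lcl (v1 h : Option α → TG H C) (2 * ρ + 3) π}.ncard : ℕ) : ℝ) := by
  classical
  obtain ⟨c, N0, hc, hcount⟩ := count_main (A := A) h C ρ b8 hb8 hρ hb8'
  set a := Fintype.card A with ha
  refine ⟨N0 * a + 1 + ⌈2 * a / (ε * c) ^ 2⌉₊, ?_⟩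
  intro n hn
  have hn0 : 0 < n := by omega
  have hn0' : (0:ℝ) < n := by exact_mod_cast hn0
  -- the ratio is small
  have hsmall : Real.sqrt (2 * a / Fintype.card (Fin n)) / c ≤ ε := by
    rw [div_le_iff₀ hc, Fintype.card_fin]
    apply Real.sqrt_le_iff.2
    refine ⟨by positivity, ?_⟩
    rw [div_le_iff₀ hn0']
    have h1 := Nat.le_ceil (2 * (a:ℝ) / (ε * c) ^ 2)
    have h2 : ((⌈2 * (a:ℝ) / (ε * c) ^ 2⌉₊ : ℕ) : ℝ) ≤ n := by
      have : ⌈2 * (a:ℝ) / (ε * c) ^ 2⌉₊ ≤ n := by omega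
      exact_mod_cast this
    have h3 : 2 * (a:ℝ) / (ε * c) ^ 2 ≤ n := h1.trans h2
    rw [div_le_iff₀ (by positivity)] at h3
    linarith
  rw [ncard_dec, ncard_dec]
  push_cast
  rw [mul_sum]
  apply sum_le_sum
  intro π0 _
  by_cases hex : ∃ τ, Lcl (v1 h : Option α → TG H C) (2 * ρ + 3) (pf τ π0)
  · obtain ⟨τ, hτ⟩ := hex
    obtain ⟨κ, hκ⟩ := hA (Fin n) π0 (Lcl_base hτ)
    have := hcount (Fin n) π0 _ κ hκ (by rw [Fintype.card_fin]; omega) (by rw [Fintype.card_fin]; omega)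
    rw [← ncard_filter', ← ncard_filter'] at this
    refine this.trans ?_
    exact mul_le_mul_of_nonneg_right hsmall (Nat.cast_nonneg _)
  · push Not at hex
    have h1 : {τ : Equiv.Perm (Fin n) |
        Lcl (v1 h : Option α → TG H C) (2 * ρ + 3) (pf τ π0) ∧ ¬ Trn (pf τ π0)} = ∅ := by
      ext τ
      simp only [Set.mem_setOf_eq, Set.mem_empty_iff_false, iff_false]
      intro h
      exact hex τ h.1
    rw [h1, Set.ncard_empty, Nat.cast_zero]
    exact mul_nonneg hε.le (Nat.cast_nonneg _)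

theorem S1_systems (r : ℕ) (hr : 489 ≤ r) (ε : ℝ) (hε : 0 < ε) : ∃ N : ℕ, ∀ n, N ≤ n →
    (({π : Option (Al ts1) → Equiv.Perm (Fin n) |
      Lcl val1 (2 * r + 1) π ∧ ¬ Trn π}.ncard : ℕ) : ℝ) ≤
    ε * (({π : Option (Al ts1) → Equiv.Perm (Fin n) | Lcl val1 (2 * r + 1) π}.ncard : ℕ) : ℝ) := by
  obtain ⟨ρ, rfl⟩ : ∃ ρ, r = ρ + 1 := ⟨r - 1, by omega⟩
  obtain ⟨i, hi, hi1, hi2⟩ := exists_i ρ (by omega)
  have := systems_abs (hh gb1) CC ρ (AA i) (cc.comp (exA i)) b8 b8_len (by omega) b8_sep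
    (fun X π0 h => amH1 hi hi1 hi2 h) ε hε
  rw [show 2 * (ρ + 1) + 1 = 2 * ρ + 3 by ring]
  exact this

end Run7.h459
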