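import Pool.Agent.Run7.h459.S2
import Pool.Agent.Run7.h459.S1c

set_option linter.unusedSectionVars false

/-! The central action of a local system for the second generating set. -/

namespace Run7.h459

/-- central action of a full local system -/
structure KS {X : Type} (π : Option (Al ts2) → Equiv.Perm X) (i : ℕ)
    (K : MV × MV × QQ →* Equiv.Perm X) : Prop where
  comm : ∀ x a, K x * π a = π a * K x
  word : ∀ w : List (Option (Al ts2)), w.length ≤ Lam i → ∀ x,
    (vt (hh gb2) w : TG HH CC) = SemidirectProduct.inr (cc x) → evp π w = K x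

variable {X : Type} {π : Option (Al ts2) → Equiv.Perm X} {i : ℕ}

theorem tau_sq (hL : Lcl val2 (Lam i) π) (x : X) : π none (π none x) = x := by
  have := (hL [none, none] (by unfold Lam; simp) x).2 (by
    simp only [vv_cons, vv_nil, mul_one]; exact tau_mul_self)
  simpa using this

theorem gb2_sq (t : Al ts2) : hh gb2 t * hh gb2 t = 1 := (letHh (ts := ts2) gbH2).inv t

/-- short central words commute with the extra letter -/
theorem tau_word (hL : Lcl val2 (Lam i) π) (w : List (Al ts2)) (hw : 2 * w.length + 2 ≤ Lam i)
    (hc : vv (hh gb2) w ∈ CC) :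
    evp (fun a => π (some a)) w * π none = π none * evp (fun a => π (some a)) w := by
  have hB : Lcl (hh gb2) (Lam i) (fun a => π (some a)) := Lcl_base' hL
  have hsq : ∀ (t : Al ts2) x, (fun a => π (some a)) t ((fun a => π (some a)) t x) = x := by
    intro t x
    have := (hB [t, t] (by simp) x).2 (by
      simp only [vv_cons, vv_nil, mul_one]; exact gb2_sq t)
    simpa using this
  ext x
  have := (hL (none :: (w.map some ++ none :: (w.reverse.map some))) (by
      simp only [List.length_cons, List.length_append, List.length_map, List.length_reverse]; omega)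
    (evp (fun a => π (some a)) w x)).2 (by
      show (vt (hh gb2) _ : TG HH CC) = 1
      have h5 := cancel_none (h := hh gb2) CC_center (u := w) hc [] (w.reverse.map some)
      rw [List.nil_append] at h5
      rw [h5, List.nil_append, vt_append, vt_some', vt_some', vrev gb2_sq, ← map_mul,
        mul_inv_cancel, map_one])
  rw [evp_cons, evp_append, evp_cons, Equiv.Perm.mul_apply, Equiv.Perm.mul_apply,
      Equiv.Perm.mul_apply, evp_some', evp_some', erev hsq] at this
  rw [Equiv.Perm.inv_def, Equiv.symm_apply_apply] at this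
  rw [Equiv.Perm.mul_apply, Equiv.Perm.mul_apply]
  have h2 := congrArg (π none) this
  rw [tau_sq hL] at h2
  exact h2

theorem decomp_mem (i : ℕ) {G : Type*} [CommGroup G] (S : Subgroup G) (j : MV →* G)
    (h1 : ∀ k, k ≤ i → j (Multiplicative.ofAdd (ev1 k)) ∈ S)
    (h2 : ∀ c : VV, (∀ k, k ≤ i → c k = 0) → j (Multiplicative.ofAdd c) ∈ S) (c : MV) : j c ∈ S := by
  classical
  let c1 : VV := fun k => if k ≤ i then c.toAdd k else 0
  let c2 : VV := fun k => if k ≤ i then 0 else c.toAdd k
  have hc : c = Multiplicative.ofAdd c1 * Multiplicative.ofAdd c2 := by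
    rw [← ofAdd_add]
    apply Multiplicative.toAdd.injective
    funext k
    show c.toAdd k = c1 k + c2 k
    simp only [c1, c2]
    split_ifs <;> simp
  rw [hc, map_mul]
  apply mul_mem
  · have h3 : ∑ k ∈ Finset.range (i + 1), ((c1 k).val : ℤ) • ev1 k = c1 := by
      apply sum_ev1 i c1
      · intro k hk
        simp only [c1]; rw [if_neg (by omega)]
      · intro k _
        simp
    rw [← h3, ofAdd_sum, map_prod]
    apply Subgroup.prod_mem
    intro k hk
    have := Finset.mem_range.1 hk
    rw [ofAdd_zsmul, map_zpow]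
    exact zpow_mem (h1 k (by omega)) _
  · apply h2
    intro k hk
    simp only [c2]; rw [if_pos hk]

theorem exists_KS (hi : 2 ≤ i) (hL : Lcl val2 (Lam i) π) : ∃ K, KS π i K := by
  classical
  have hp2 : 11 ^ 2 ≤ 11 ^ i := Nat.pow_le_pow_right (by norm_num) hi
  have hLam : 60 ≤ Lam i := by unfold Lam; omega
  have hB : Lcl (hh gb2) (Lam i) (fun a => π (some a)) := Lcl_base' hL
  obtain ⟨E, hE⟩ := exists_E gbH2 hB (by omega)
  have hcrd := crd2 hB hLam E hE
  obtain ⟨K, k1, k2, k3⟩ := exists_K (D := 2 * 11 ^ i + 1) hcrd (ar21 hB) (ar22 hB) hi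
    (by unfold Lam; omega) (by unfold Lam; omega) (by
      rw [pow_succ]; omega)
  have kw : ∀ w : List (Al ts2), w.length ≤ Lam i → ∀ x, vv (hh gb2) w = cc x →
      evp (fun a => π (some a)) w = K x := by
    intro w hw x hx
    have l1 := WW_len hcrd.l1 w
    have l2 := WW_len hcrd.l2 w
    unfold Lam at hw
    exact k2 w (by omega) (by omega) x hx
  -- commutation with the extra letter
  let S : Subgroup (MV × MV × QQ) := (Subgroup.centralizer {π none}).comap K
  have memS : ∀ x, x ∈ S ↔ K x * π none = π none * K x := by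
    intro x
    rw [Subgroup.mem_comap, Subgroup.mem_centralizer_singleton_iff]
  have short : ∀ w : List (Al ts2), 2 * w.length + 2 ≤ Lam i → ∀ x, vv (hh gb2) w = cc x → x ∈ S := by
    intro w hw x hx
    rw [memS, ← kw w (by omega) x hx]
    exact tau_word hL w hw (by rw [hx]; exact ⟨x, rfl⟩)
  have hS1 : ∀ c : MV, ((c, 1, 1) : MV × MV × QQ) ∈ S := by
    intro c
    apply decomp_mem i S (MonoidHom.inl MV (MV × QQ))
    · intro k hk
      obtain ⟨w1, a1, a2, a3⟩ := build_exact k (ev1 k) (fun j hj => by
        simp [ev1, Pi.single_eq_of_ne (show j ≠ k by omega)]) (Or.inl (by simp [ev1]))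
      obtain ⟨w, b1, b2⟩ := word_of_coords w1 [] a1 (by simp) (ev1 k) 0 a3 rfl
      have h1 : 11 ^ k ≤ 11 ^ i := Nat.pow_le_pow_right (by norm_num) hk
      exact short w (by rw [b1, a2, List.length_nil]; unfold Lam; omega) _ b2
    · intro c hc
      rw [memS]
      have : K (MonoidHom.inl MV (MV × QQ) (Multiplicative.ofAdd c)) = 1 :=
        k3 _ hc (fun j _ => rfl) rfl
      rw [this]; simp
  have hS2 : ∀ c : MV, ((1, c, 1) : MV × MV × QQ) ∈ S := by
    intro c
    apply decomp_mem i S ((MonoidHom.inr MV (MV × QQ)).comp (MonoidHom.inl MV QQ))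
    · intro k hk
      obtain ⟨w1, a1, a2, a3⟩ := build_exact k (ev1 k) (fun j hj => by
        simp [ev1, Pi.single_eq_of_ne (show j ≠ k by omega)]) (Or.inl (by simp [ev1]))
      obtain ⟨w, b1, b2⟩ := word_of_coords [] w1 (by simp) a1 0 (ev1 k) rfl a3
      have h1 : 11 ^ k ≤ 11 ^ i := Nat.pow_le_pow_right (by norm_num) hk
      exact short w (by rw [b1, a2, List.length_nil]; unfold Lam; omega) _ b2
    · intro c hc
      rw [memS]
      have : K (((MonoidHom.inr MV (MV × QQ)).comp (MonoidHom.inl MV QQ)) (Multiplicative.ofAdd c)) = 1 :=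
        k3 _ (fun j _ => rfl) hc rfl
      rw [this]; simp
  have hS3 : ∀ q : QQ, ((1, 1, q) : MV × MV × QQ) ∈ S := by
    intro q
    refine short (wq q) ?_ _ (by rw [vv_wq]; rfl)
    have := wq_len (ts := ts2) q
    omega
  have hS : ∀ x, x ∈ S := by
    rintro ⟨c, c', q⟩
    have : ((c, c', q) : MV × MV × QQ) = (c, 1, 1) * ((1, c', 1) * (1, 1, q)) := by simp
    rw [this]
    exact mul_mem (hS1 c) (mul_mem (hS2 c') (hS3 q))
  have hcomm : ∀ x a, K x * π a = π a * K x := by
    intro x a
    cases a with
    | none => exact (memS x).1 (hS x)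
    | some a => exact k1 x a
  refine ⟨K, hcomm, ?_⟩
  -- words
  have key : ∀ (n : ℕ) (w : List (Option (Al ts2))), w.length = n → w.length ≤ Lam i → ∀ x,
      (vt (hh gb2) w : TG HH CC) = SemidirectProduct.inr (cc x) → evp π w = K x := by
    intro n
    induction n using Nat.strong_induction_on with
    | _ n ih =>
      intro w hn hw x hx
      by_cases hnone : none ∈ w
      · obtain ⟨a, u, b, rfl, hu⟩ := PN (hh gb2) w hnone (by rw [hx]; rfl)
        have hu' : vv (hh gb2) u ∈ CC := hu
        obtain ⟨y, hy⟩ := id hu'
        simp only [List.length_append, List.length_cons, List.length_map] at hw hn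
        have h1 := kw u (by omega) y hy.symm
        have h2 := cancel_none' (π0 := fun a => π (some a)) (τ := π none) (tau_sq hL) (u := u)
          (fun x => by
            rw [h1]
            have := congrArg (fun f : Equiv.Perm X => f x) (hcomm y none)
            simpa using this.symm) a b
        rw [pf_eta] at h2
        rw [h2]
        rw [cancel_none CC_center hu'] at hx
        exact ih _ (by simp only [List.length_append, List.length_map]; omega) _ rfl
          (by simp only [List.length_append, List.length_map]; omega) x hx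
      · obtain ⟨u, rfl⟩ := exists_some hnone
        rw [evp_some']
        rw [vt_some'] at hx
        exact kw u (by simpa using hw) x (SemidirectProduct.inr_injective hx)
  exact fun w hw x hx => key _ w rfl hw x hx

end Run7.h459
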