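import Pool.Agent.Run7.h459.S2b

set_option linter.unusedSectionVars false

/-! Transitive local systems. -/

namespace Run7.h459

/-- freeness of the part of exponent `p` -/
def Fr {X : Type} (i : ℕ) (K : MV × MV × QQ →* Equiv.Perm X) (p : ZMod 15) : Prop :=
  ∀ c c' : VV, (∀ j, i < j → c j = 0) → (∀ j, i < j → c' j = 0) → (∀ j, p * c j = 0) →
    (∀ j, p * c' j = 0) → ∀ x, K (Multiplicative.ofAdd c, Multiplicative.ofAdd c', 1) x = x →
    c = 0 ∧ c' = 0

def tv (x : ZMod 15) : Prop := x = 1 ∨ x = 2 ∨ x = 4 ∨ x = 11 ∨ x = 13 ∨ x = 14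

instance : DecidablePred tv := fun x => by unfold tv; infer_instance

theorem num1 : ∀ a b : ZMod 15, 3 * a = 0 → a ≠ 0 → 5 * b = 0 → b ≠ 0 →
    5 * (a + b) ≠ 0 ∧ 3 * (a + b) ≠ 0 := by decide +kernel

theorem num2 : ∀ u u' : ZMod 15, 5 * u ≠ 0 → 3 * u ≠ 0 → 5 * u' ≠ 0 → 3 * u' ≠ 0 →
    ∃ k : Fin 15, tv ((k.val : ZMod 15) * u) ∧ tv ((k.val : ZMod 15) * u') := by decide +kernel

theorem tv_ne {x : ZMod 15} (h : tv x) : x ≠ 0 := by
  revert h; revert x; decide +kernel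

variable {X : Type} {π : Option (Al ts2) → Equiv.Perm X} {i : ℕ} {K : MV × MV × QQ →* Equiv.Perm X}

theorem KS.word_comm (hK : KS π i K) (z : MV × MV × QQ) (w : List (Option (Al ts2))) :
    K z * evp π w = evp π w * K z := by
  induction w with
  | nil => simp
  | cons a w ih => rw [evp_cons, ← mul_assoc, hK.comm, mul_assoc, ih, mul_assoc]

theorem KS.base (hK : KS π i K) (w : List (Al ts2)) (hw : w.length ≤ Lam i) (z : MV × MV × QQ)
    (hz : vv (hh gb2) w = cc z) : evp π (w.map some) = K z :=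
  hK.word _ (by simpa using hw) z (by rw [vt_some', hz])

theorem claimB (hi : 2 ≤ i) [Nonempty X] (hL : Lcl val2 (Lam i) π) (hT : Trn π) (hK : KS π i K) :
    Fr i K 3 ∨ Fr i K 5 := by
  by_contra hcon
  rw [not_or] at hcon
  obtain ⟨hcon3, hcon5⟩ := hcon
  unfold Fr at hcon3 hcon5
  push Not at hcon3 hcon5
  obtain ⟨c, c', hc, hc', h3, h3', x, hx, hne⟩ := hcon3
  obtain ⟨d, d', hd, hd', h5, h5', y, hy, hne'⟩ := hcon5
  have kfix : ∀ z x, K z x = x → K z = 1 := by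
    intro z x hx
    ext y
    obtain ⟨w, rfl⟩ := hT x y
    have := congrArg (fun f : Equiv.Perm X => f x) (hK.word_comm z w)
    simp only [Equiv.Perm.mul_apply] at this
    rw [this, hx]; rfl
  have noK : ∀ w : List (Al ts2), w.length ≤ Lam i → ∀ z, vv (hh gb2) w = cc z → K z = 1 → z = 1 := by
    intro w hw z hz h1
    have h2 := hK.base w hw z hz
    rw [h1] at h2
    obtain ⟨x⟩ := ‹Nonempty X›
    have h3 := (hL (w.map some) (by simpa using hw) x).1 (by rw [h2]; rfl)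
    have h4 : (vt (hh gb2) (w.map some) : TG HH CC) = 1 := h3
    rw [vt_some', hz] at h4
    exact cc_inj (SemidirectProduct.inr_injective (by rw [h4, map_one, map_one]))
  have hpair : ∀ a a' : VV, ((Multiplicative.ofAdd a, Multiplicative.ofAdd a', 1) : MV × MV × QQ) = 1 →
      a = 0 ∧ a' = 0 := by
    intro a a' h
    rw [Prod.ext_iff] at h
    obtain ⟨h1, h2⟩ := h
    rw [Prod.ext_iff] at h2
    exact ⟨h1, h2.1⟩
  have hcc : K (Multiplicative.ofAdd c, Multiplicative.ofAdd c', 1) = 1 := kfix _ x hx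
  have hdd : K (Multiplicative.ofAdd d, Multiplicative.ofAdd d', 1) = 1 := kfix _ y hy
  have top : ∀ a a' : VV, (∀ j, i < j → a j = 0) → (∀ j, i < j → a' j = 0) →
      K (Multiplicative.ofAdd a, Multiplicative.ofAdd a', 1) = 1 → (a = 0 → a' ≠ 0) →
      a i ≠ 0 ∧ a' i ≠ 0 := by
    intro a a' ha ha' h1 h2
    by_contra h3
    have h4 : a i = 0 ∨ a' i = 0 := by
      by_contra h5
      rw [not_or] at h5
      exact h3 h5
    obtain ⟨w, w1, w2⟩ := up_zero i hi a a' ha ha' h4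
    obtain ⟨h5, h6⟩ := hpair _ _ (noK w w1 _ w2 h1)
    exact h2 h5 h6
  obtain ⟨c0, c0'⟩ := top c c' hc hc' hcc hne
  obtain ⟨d0, d0'⟩ := top d d' hd hd' hdd hne'
  obtain ⟨u5, u3⟩ := num1 _ _ (h3 i) c0 (h5 i) d0
  obtain ⟨v5, v3⟩ := num1 _ _ (h3' i) c0' (h5' i) d0'
  obtain ⟨k, k1, k2⟩ := num2 _ _ u5 u3 v5 v3
  have hee : K (Multiplicative.ofAdd (k.val • (c + d)), Multiplicative.ofAdd (k.val • (c' + d')), 1) = 1 := by
    have h1 : ((Multiplicative.ofAdd (k.val • (c + d)), Multiplicative.ofAdd (k.val • (c' + d')), 1) :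
        MV × MV × QQ) = ((Multiplicative.ofAdd c, Multiplicative.ofAdd c', 1) *
        (Multiplicative.ofAdd d, Multiplicative.ofAdd d', 1)) ^ k.val := by
      rw [ofAdd_nsmul, ofAdd_nsmul, ofAdd_add, ofAdd_add, Prod.mk_mul_mk, Prod.mk_mul_mk, one_mul,
        Prod.pow_mk, Prod.pow_mk, one_pow]
    rw [h1, map_pow, map_mul, hcc, hdd, one_mul, one_pow]
  have hval : ∀ (a b : VV), (k.val • (a + b)) i = (k.val : ZMod 15) * (a i + b i) := by
    intro a b
    rw [Pi.smul_apply, nsmul_eq_mul, Pi.add_apply]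
  obtain ⟨w, w1, w2⟩ := up_exact i (k.val • (c + d)) (k.val • (c' + d'))
    (fun j hj => by rw [Pi.smul_apply, Pi.add_apply, hc j hj, hd j hj, add_zero, smul_zero])
    (fun j hj => by rw [Pi.smul_apply, Pi.add_apply, hc' j hj, hd' j hj, add_zero, smul_zero])
    (by rw [hval]; exact k1) (by rw [hval]; exact k2)
  obtain ⟨h5, _⟩ := hpair _ _ (noK w w1 _ w2 hee)
  have h6 := hval c d
  rw [h5] at h6
  exact tv_ne k1 h6.symm

end Run7.h459
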