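import Pool.Agent.Run7.h459.EL2
import Pool.Agent.Run7.h459.S2c

set_option linter.unusedSectionVars false

/-! Dividing the number of vertices. -/

namespace Run7.h459

open Finset

/-- product of permutations -/
def pc (X R : Type) : Equiv.Perm X × Equiv.Perm R →* Equiv.Perm (X × R) where
  toFun f := f.1.prodCongr f.2
  map_one' := by ext ⟨a, b⟩ <;> simp
  map_mul' f g := by ext ⟨a, b⟩ <;> simp

theorem pc_apply {X R : Type} (f : Equiv.Perm X) (g : Equiv.Perm R) (z : X × R) :
    pc X R (f, g) z = (f z.1, g z.2) := rfl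

theorem cast_zero {m p : ℕ} (hm : m ∣ 15) (hpm : p * m = 15) (x : ZMod 15)
    (h : ZMod.castHom hm (ZMod m) x = 0) : (p : ZMod 15) * x = 0 := by
  have hx : ((x.val : ℕ) : ZMod 15) = x := ZMod.natCast_zmod_val x
  rw [← hx, map_natCast, ZMod.natCast_eq_zero_iff] at h
  obtain ⟨k, hk⟩ := h
  rw [← hx, hk, ← Nat.cast_mul, ← mul_assoc, hpm, ZMod.natCast_eq_zero_iff]
  exact dvd_mul_right _ _

theorem num3 : ∀ y : ZMod 15, (3 * y = 0 ∨ 5 * y = 0) → y ≠ 0 →
    ¬ (y = 0 ∨ y = 1 ∨ y = 2 ∨ y = 4 ∨ y = 11 ∨ y = 13 ∨ y = 14) := by decide +kernel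

/-- the element used for the quotient -/
def xw (i m : ℕ) : MV × MV × QQ :=
  (Multiplicative.ofAdd (m • ev1 i), Multiplicative.ofAdd (m • ev1 i), 1)

def cof (i m : ℕ) (k : ℤ) : VV := k • (m • ev1 i)

theorem xw_zpow (i m : ℕ) (k : ℤ) : xw i m ^ k =
    (Multiplicative.ofAdd (cof i m k), Multiplicative.ofAdd (cof i m k), 1) := by
  unfold xw cof
  rw [ofAdd_zsmul]
  rw [Prod.ext_iff]
  refine ⟨rfl, ?_⟩
  rw [Prod.ext_iff]
  exact ⟨rfl, one_zpow _⟩

theorem cof_ne {i m : ℕ} {k : ℤ} {j : ℕ} (hj : j ≠ i) : cof i m k j = 0 := by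
  unfold cof ev1
  rw [Pi.smul_apply, Pi.smul_apply, Pi.single_eq_of_ne hj, smul_zero, smul_zero]

theorem cof_self {i m : ℕ} {k : ℤ} : cof i m k i = (k : ZMod 15) * (m : ZMod 15) := by
  unfold cof ev1
  rw [Pi.smul_apply, Pi.smul_apply, Pi.single_eq_same, nsmul_eq_mul, mul_one, zsmul_eq_mul]

theorem cof_mul {i m p : ℕ} (hpm : p * m = 15) {k : ℤ} (j : ℕ) : (p : ZMod 15) * cof i m k j = 0 := by
  by_cases hj : j = i
  · rw [hj, cof_self, mul_left_comm, ← Nat.cast_mul, hpm]
    have : ((15 : ℕ) : ZMod 15) = 0 := rfl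
    rw [this, mul_zero]
  · rw [cof_ne hj, mul_zero]

theorem cof_zero {i m : ℕ} {k : ℤ} (h : cof i m k i = 0) : cof i m k = 0 := by
  funext j
  by_cases hj : j = i
  · rw [hj, h]; rfl
  · rw [cof_ne hj]; rfl

variable {X : Type} {π : Option (Al ts2) → Equiv.Perm X} {i : ℕ} {K : MV × MV × QQ →* Equiv.Perm X}

theorem claimA [Fintype X] (hi : 2 ≤ i) (hL : Lcl val2 (Lam i) π)
    (hK : KS π i K) (p m : ℕ) (hpm : p * m = 15) (hp : p = 3 ∨ p = 5) (hF : Fr i K (p : ZMod 15)) :
    ∃ (Y : Type) (_ : Fintype Y) (π' : Option (Al ts2) → Equiv.Perm Y) (N : ℕ),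
      Lcl val2 (Lam i) π' ∧ Fintype.card Y * p = Fintype.card X * N ∧ 0 < N ∧
      (∀ q : ℕ, q.Prime → q ∣ N → q ∣ m ∨ q = 2 ∨ q = 11) := by
  classical
  have hm : m ∣ 15 := Dvd.intro_left p hpm
  have hm2 : 2 ≤ m := by rcases hp with rfl | rfl <;> omega
  obtain ⟨R, _, _, ρ, hcardR, hρ⟩ := E_lemma (2 * Lam i + 24) m hm hm2
  let A : Subgroup (MV × MV × QQ) := Subgroup.zpowers (xw i m)
  have hxne : xw i m ≠ 1 := by
    intro h
    have h1 : xw i m ^ (1:ℤ) = 1 := by rw [zpow_one, h]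
    rw [xw_zpow] at h1
    have h2 : cof i m 1 = 0 := congrArg Prod.fst h1
    have h3 := congrFun h2 i
    rw [cof_self] at h3
    rcases hp with rfl | rfl
    · have : m = 5 := by omega
      subst this
      have h4 : ((1:ℤ) : ZMod 15) * ((5:ℕ) : ZMod 15) = 0 := h3
      revert h4; decide
    · have : m = 3 := by omega
      subst this
      have h4 : ((1:ℤ) : ZMod 15) * ((3:ℕ) : ZMod 15) = 0 := h3
      revert h4; decide
  have hord : orderOf (xw i m) = p := by
    have hpp : Fact p.Prime := ⟨by rcases hp with rfl | rfl <;> norm_num⟩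
    apply orderOf_eq_prime _ hxne
    have h1 : xw i m ^ ((p : ℕ) : ℤ) = 1 := by
      rw [xw_zpow, cof_zero (k := ((p:ℕ):ℤ))]
      · rfl
      · rw [cof_self]
        have h2 : (((p : ℕ) : ℤ) : ZMod 15) * (m : ZMod 15) = ((p * m : ℕ) : ZMod 15) := by push_cast; rfl
        rw [h2, hpm]; rfl
    rwa [zpow_natCast] at h1
  have hAcard : Nat.card A = p := by rw [Nat.card_zpowers, hord]
  have hAfin : Finite A := Nat.finite_of_card_ne_zero (by rw [hAcard]; rcases hp with rfl | rfl <;> norm_num)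
  let _ : Fintype A := Fintype.ofFinite _
  let κ : A →* Equiv.Perm (X × R) := (pc X R).comp
    ((K.comp A.subtype).prod (((ρ.comp SemidirectProduct.inr).comp cc).comp A.subtype))
  let π1 : Option (Al ts2) → Equiv.Perm (X × R) := fun b => pc X R (π b, ρ (val2 b))
  have hκ : ∀ (a : A) z, κ a z = (K a.1 z.1, ρ (SemidirectProduct.inr (cc a.1)) z.2) := fun a z => rfl
  have hev : ∀ w, evp π1 w = pc X R (evp π w, ρ (vt (hh gb2) w)) := by
    intro w
    induction w with
    | nil =>
      show 1 = pc X R (1, ρ 1)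
      rw [map_one ρ]; exact (map_one (pc X R)).symm
    | cons b w ih =>
      rw [evp_cons, ih, evp_cons, vt_cons, map_mul ρ]
      show pc X R _ * pc X R _ = _
      rw [← map_mul, Prod.mk_mul_mk]
  have hcomm : ∀ (a : A) b, κ a * π1 b = π1 b * κ a := by
    intro a b
    show pc X R (K a.1, ρ (SemidirectProduct.inr (cc a.1))) * pc X R (π b, ρ (val2 b)) =
      pc X R (π b, ρ (val2 b)) * pc X R (K a.1, ρ (SemidirectProduct.inr (cc a.1)))
    rw [← map_mul, ← map_mul, Prod.mk_mul_mk, Prod.mk_mul_mk, hK.comm, ← map_mul ρ, ← map_mul ρ,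
      inr_center CC_center ⟨a.1, rfl⟩]
  have hfree : ∀ a z, κ a z = z → a = 1 := by
    rintro ⟨a, ha⟩ z hz
    obtain ⟨k, rfl⟩ := Subgroup.mem_zpowers_iff.1 ha
    rw [hκ, Prod.ext_iff] at hz
    have h1 : K (xw i m ^ k) z.1 = z.1 := hz.1
    rw [xw_zpow] at h1
    have h2 : cof i m k = 0 := (hF (cof i m k) (cof i m k) (fun j hj => cof_ne (by omega))
      (fun j hj => cof_ne (by omega)) (cof_mul hpm) (cof_mul hpm) _ h1).1
    apply Subtype.ext
    show xw i m ^ k = 1
    rw [xw_zpow, h2]; rfl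
  let π' : Option (Al ts2) → Equiv.Perm (Orb κ) := fun b => Quotient.congr (π1 b) (by
    intro x y
    constructor
    · rintro ⟨a, rfl⟩
      exact ⟨a, congrArg (fun f : Equiv.Perm (X × R) => f x) (hcomm a b)⟩
    · rintro ⟨a, ha⟩
      refine ⟨a, (π1 b).injective ?_⟩
      rw [← ha]
      exact (congrArg (fun f : Equiv.Perm (X × R) => f x) (hcomm a b)).symm)
  have hev' : ∀ w z, evp π' w (pr0 κ z) = pr0 κ (evp π1 w z) := by
    intro w z
    induction w with
    | nil => rfl
    | cons b w ih =>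
      rw [evp_cons, Equiv.Perm.mul_apply, ih, evp_cons, Equiv.Perm.mul_apply]; rfl
  refine ⟨Orb κ, inferInstance, π', Fintype.card R, ?_, ?_, Fintype.card_pos, hcardR⟩
  · intro w hw y
    obtain ⟨⟨x, r⟩, rfl⟩ := pr0_sur y
    rw [hev', pr0_eq, hev]
    constructor
    · rintro ⟨⟨a, ha⟩, h⟩
      obtain ⟨k, rfl⟩ := Subgroup.mem_zpowers_iff.1 ha
      rw [hκ, Prod.ext_iff] at h
      have h1 : K (xw i m ^ k) (evp π w x) = x := h.1
      have h2 : ρ (SemidirectProduct.inr (cc (xw i m ^ k))) (ρ (vt (hh gb2) w) r) = r := h.2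
      obtain ⟨u, hu1, hu2⟩ := up_crude i (cof i m k) (cof i m k) (fun j hj => cof_ne (by omega))
        (fun j hj => cof_ne (by omega))
      rw [← xw_zpow] at hu2
      have hevρ : ∀ w, evp (fun a => ρ (val2 a)) w = ρ (vt (hh gb2) w) := by
        intro w
        induction w with
        | nil => simp [vt_nil]
        | cons b w ih => rw [evp_cons, ih, vt_cons, map_mul ρ]
      obtain ⟨x0, hx0, h3⟩ := hρ (u.map some ++ w) (by
        rw [List.length_append, List.length_map]; omega) r (by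
        rw [hevρ, vt_append, vt_some', hu2, map_mul ρ, Equiv.Perm.mul_apply, h2])
      rw [vt_append, vt_some', hu2] at h3
      have h4 : (vt (hh gb2) w : TG HH CC) =
          SemidirectProduct.inr (cc ((xw i m ^ k)⁻¹ * x0)) := by
        rw [map_mul, map_mul, ← h3, ← mul_assoc, ← map_mul SemidirectProduct.inr, ← map_mul cc,
          inv_mul_cancel, map_one, map_one, one_mul]
      have h5 := hK.word w hw _ h4
      rw [h5, ← Equiv.Perm.mul_apply, ← map_mul, mul_inv_cancel_left] at h1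
      have hstrip : vv (hh gb2) (strip w) = cc ((xw i m ^ k)⁻¹ * x0) := by
        rw [← vt_right' (C := CC), h4]; rfl
      have hslen : (strip w).length ≤ Lam i := (strip_len w).trans hw
      obtain ⟨hv1, hv2⟩ := low_vanish (strip w) hslen _ hstrip
      obtain ⟨x1, x2, x3⟩ := x0
      obtain ⟨g1, g2, g3⟩ := hx0
      simp only at g1 g2 g3
      subst g3
      rw [← zpow_neg, xw_zpow] at hv1 hv2
      have z1 : ∀ j, i < j → x1.toAdd j = 0 := by
        intro j hj
        have h6 : cof i m (-k) j + x1.toAdd j = 0 := hv1 j hj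
        rwa [cof_ne (by omega), zero_add] at h6
      have z2 : ∀ j, i < j → x2.toAdd j = 0 := by
        intro j hj
        have h6 : cof i m (-k) j + x2.toAdd j = 0 := hv2 j hj
        rwa [cof_ne (by omega), zero_add] at h6
      obtain ⟨f1, f2⟩ := hF x1.toAdd x2.toAdd z1 z2 (fun j => cast_zero hm hpm _ (g1 j))
        (fun j => cast_zero hm hpm _ (g2 j)) x h1
      have hx01 : ((x1, x2, 1) : MV × MV × QQ) = 1 := by
        rw [Prod.ext_iff]
        refine ⟨f1, ?_⟩
        rw [Prod.ext_iff]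
        exact ⟨f2, rfl⟩
      rw [hx01, mul_one, ← zpow_neg] at hstrip h4
      have hc0 : cof i m (-k) i = 0 := by
        by_contra hne
        have h7 : 3 * cof i m (-k) i = 0 ∨ 5 * cof i m (-k) i = 0 := by
          have := cof_mul (i := i) hpm (k := -k) i
          rcases hp with rfl | rfl
          · left; exact_mod_cast this
          · right; exact_mod_cast this
        have h8 := num3 _ h7 hne
        exact low_tight (by omega) (strip w) hslen _ hstrip (by rw [xw_zpow]; exact h8)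
          (by rw [xw_zpow]; exact h8)
      rw [xw_zpow, cof_zero hc0] at h4
      show (vt (hh gb2) w : TG HH CC) = 1
      rw [h4]
      show SemidirectProduct.inr (cc 1) = (1 : TG HH CC)
      rw [map_one, map_one]
    · intro hv
      have hv' : (vt (hh gb2) w : TG HH CC) = 1 := hv
      refine ⟨1, ?_⟩
      rw [map_one, hv', map_one, pc_apply, (hL w hw x).2 hv]; rfl
  · have h1 := card_orb (κ := κ) hfree
    rw [← Nat.card_eq_fintype_card (α := A), hAcard, Fintype.card_prod] at h1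
    exact h1

end Run7.h459
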