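import Pool.Agent.Run7.h459.S2f

set_option linter.unusedSectionVars false

/-! Numbers of vertices carrying local systems but no transitive one. -/

namespace Run7.h459

section
variable {X Y T Γ : Type} [Group Γ] {val : T → Γ} {Λ : ℕ}

theorem Lcl_equiv (e : X ≃ Y) {π : T → Equiv.Perm X} (h : Lcl val Λ π) :
    Lcl val Λ (fun t => e.permCongr (π t)) := by
  have hev : ∀ w : List T, evp (fun t => e.permCongr (π t)) w = e.permCongr (evp π w) := by
    intro w
    induction w with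
    | nil => ext x; simp
    | cons t w ih => rw [evp_cons, ih, evp_cons]; ext x; simp
  intro w hw y
  rw [hev, Equiv.permCongr_apply, ← Equiv.eq_symm_apply]
  exact h w hw _

theorem Lcl_sum {π : T → Equiv.Perm X} {π' : T → Equiv.Perm Y} (h : Lcl val Λ π)
    (h' : Lcl val Λ π') : Lcl val Λ (fun t => Equiv.Perm.sumCongr (π t) (π' t)) := by
  have hev : ∀ w : List T, evp (fun t => Equiv.Perm.sumCongr (π t) (π' t)) w =
      Equiv.Perm.sumCongr (evp π w) (evp π' w) := by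
    intro w
    induction w with
    | nil => simp
    | cons t w ih => rw [evp_cons, ih, evp_cons, evp_cons, Equiv.Perm.sumCongr_mul]
  intro w hw y
  rw [hev]
  rcases y with y | y
  · show Sum.inl (evp π w y) = Sum.inl y ↔ _
    rw [Sum.inl.injEq]; exact h w hw y
  · show Sum.inr (evp π' w y) = Sum.inr y ↔ _
    rw [Sum.inr.injEq]; exact h' w hw y

end

/-- existence of a local system with `n` points -/
def Ex (i n : ℕ) : Prop := ∃ π : Option (Al ts2) → Equiv.Perm (Fin n), Lcl val2 (Lam i) π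

variable {i : ℕ}

theorem Ex_of {Y : Type} [Fintype Y] {π : Option (Al ts2) → Equiv.Perm Y} (h : Lcl val2 (Lam i) π) :
    Ex i (Fintype.card Y) := ⟨_, Lcl_equiv (Fintype.equivFin Y) h⟩

theorem Ex_zero : Ex i 0 := ⟨fun _ => 1, fun _ _ x => x.elim0⟩

theorem Ex_add {a b : ℕ} (ha : Ex i a) (hb : Ex i b) : Ex i (a + b) := by
  obtain ⟨π, hπ⟩ := ha
  obtain ⟨π', hπ'⟩ := hb
  exact ⟨_, Lcl_equiv finSumFinEquiv (Lcl_sum hπ hπ')⟩

theorem Ex_mul {a : ℕ} (k : ℕ) (ha : Ex i a) : Ex i (k * a) := by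
  induction k with
  | zero => rw [zero_mul]; exact Ex_zero
  | succ k ih => rw [Nat.succ_mul]; exact Ex_add ih ha

theorem Ex_pos (i : ℕ) : ∃ n, 1 ≤ n ∧ Ex i n := by
  obtain ⟨R, _, _, ρ, _, hρ⟩ := E_lemma (Lam i) 15 (dvd_refl 15) (by norm_num)
  refine ⟨Fintype.card R, Fintype.card_pos, Ex_of (π := fun a => ρ (val2 a)) ?_⟩
  have hev : ∀ w : List (Option (Al ts2)), evp (fun a => ρ (val2 a)) w = ρ (vt (hh gb2) w) := by
    intro w
    induction w with
    | nil => simp [vt_nil]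
    | cons b w ih => rw [evp_cons, ih, vt_cons, map_mul ρ]
  intro w hw r
  constructor
  · intro hr
    obtain ⟨⟨x1, x2, x3⟩, ⟨h1, h2, h3⟩, h4⟩ := hρ w hw r hr
    show (vt (hh gb2) w : TG HH CC) = 1
    rw [h4]
    have hc : ∀ y : ZMod 15, ZMod.castHom (dvd_refl 15) (ZMod 15) y = 0 → y = 0 := by
      intro y hy
      rwa [ZMod.castHom_self] at hy
    have hx : ((x1, x2, x3) : MV × MV × QQ) = 1 := by
      rw [Prod.ext_iff]
      refine ⟨funext fun j => hc _ (h1 j), ?_⟩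
      rw [Prod.ext_iff]
      exact ⟨funext fun j => hc _ (h2 j), h3⟩
    rw [hx, map_one, map_one]
  · intro hv
    rw [hev, show (vt (hh gb2) w : TG HH CC) = 1 from hv, map_one]; rfl

theorem minval (S : ℕ → Prop) (n0 : ℕ) (hn0 : 1 ≤ n0) (hS : S n0) (p : ℕ) (hp : 2 ≤ p) :
    ∃ a, (∀ n, 1 ≤ n → S n → p ^ a ∣ n) ∧ ∃ n, 1 ≤ n ∧ S n ∧ ¬ p ^ (a + 1) ∣ n := by
  classical
  have hex : ∃ a, ∃ n, 1 ≤ n ∧ S n ∧ ¬ p ^ (a + 1) ∣ n := by
    refine ⟨n0, n0, hn0, hS, fun h => ?_⟩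
    have h1 := Nat.le_of_dvd hn0 h
    have h2 : n0 + 1 < p ^ (n0 + 1) := Nat.lt_pow_self (by omega)
    omega
  refine ⟨Nat.find hex, ?_, Nat.find_spec hex⟩
  intro n hn hSn
  by_contra hcon
  rcases Nat.eq_zero_or_pos (Nat.find hex) with h0 | h0
  · rw [h0, pow_zero] at hcon
    exact hcon (one_dvd _)
  · obtain ⟨b, hb⟩ : ∃ b, Nat.find hex = b + 1 := ⟨Nat.find hex - 1, by omega⟩
    rw [hb] at hcon
    exact Nat.find_min hex (m := b) (by omega) ⟨n, hn, hSn, hcon⟩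

theorem not_dvd_comb {p q a k n1 n2 : ℕ} (hpq : Nat.Coprime p q) (hk : a + 1 ≤ k)
    (h : ¬ p ^ (a + 1) ∣ n1) : ¬ p ^ (a + 1) ∣ q ^ k * n1 + p ^ k * n2 := by
  intro h1
  have h2 : p ^ (a + 1) ∣ p ^ k * n2 := (pow_dvd_pow p hk).mul_right n2
  have h3 : p ^ (a + 1) ∣ q ^ k * n1 := (Nat.dvd_add_left h2).1 h1
  exact h ((Nat.Coprime.pow (a + 1) k hpq).dvd_of_dvd_mul_left h3)

theorem S2_systems (hi : 2 ≤ i) (n0 : ℕ) : ∃ n, n0 ≤ n ∧ Ex i n ∧
    ∀ π : Option (Al ts2) → Equiv.Perm (Fin n), Lcl val2 (Lam i) π → ¬ Trn π := by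
  obtain ⟨m0, hm0, hEx0⟩ := Ex_pos i
  obtain ⟨a, ha, n1, hn1, hE1, ha1⟩ := minval (Ex i) m0 hm0 hEx0 3 (by norm_num)
  obtain ⟨b, hb, n2, hn2, hE2, hb2⟩ := minval (Ex i) m0 hm0 hEx0 5 (by norm_num)
  set k := a + b + n0 + 1 with hk
  set n := 5 ^ k * n1 + 3 ^ k * n2 with hn
  have hkn : k < n := by
    have h1 : k < 5 ^ k := Nat.lt_pow_self (by norm_num)
    have h2 : 5 ^ k * 1 ≤ 5 ^ k * n1 := Nat.mul_le_mul_left _ hn1
    omega
  have h3 : ¬ 3 ^ (a + 1) ∣ n := not_dvd_comb (by norm_num) (by omega) ha1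
  have h5 : ¬ 5 ^ (b + 1) ∣ n := by
    rw [hn, add_comm (5 ^ k * n1)]
    exact not_dvd_comb (p := 5) (q := 3) (by norm_num) (by omega) hb2
  refine ⟨n, by omega, Ex_add (Ex_mul _ hE1) (Ex_mul _ hE2), ?_⟩
  intro π hL hT
  have hne : Nonempty (Fin n) := ⟨⟨0, by omega⟩⟩
  obtain ⟨K, hK⟩ := exists_KS hi hL
  rcases claimB hi hL hT hK with hF | hF
  · obtain ⟨Y, _, π', N, hL', hcard, hN, hprime⟩ := claimA hi hL hK 3 5 (by norm_num) (Or.inl rfl)
      (by rw [Nat.cast_ofNat]; exact hF)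
    rw [Fintype.card_fin] at hcard
    have hY : 1 ≤ Fintype.card Y := by
      rcases Nat.eq_zero_or_pos (Fintype.card Y) with h0 | h0
      · rw [h0, zero_mul] at hcard
        have : 0 < n * N := Nat.mul_pos (by omega) hN
        omega
      · exact h0
    have h6 := ha _ hY (Ex_of hL')
    have h7 : 3 ^ (a + 1) ∣ n * N := by
      rw [← hcard, pow_succ]
      exact Nat.mul_dvd_mul_right h6 3
    have h8 : ¬ 3 ∣ N := by
      intro h
      rcases hprime 3 (by norm_num) h with h | h | h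
      · revert h; decide
      · omega
      · omega
    have h9 : Nat.Coprime (3 ^ (a + 1)) N :=
      Nat.Coprime.pow_left _ ((Nat.Prime.coprime_iff_not_dvd (by norm_num)).2 h8)
    exact h3 (h9.dvd_of_dvd_mul_right h7)
  · obtain ⟨Y, _, π', N, hL', hcard, hN, hprime⟩ := claimA hi hL hK 5 3 (by norm_num) (Or.inr rfl)
      (by rw [Nat.cast_ofNat]; exact hF)
    rw [Fintype.card_fin] at hcard
    have hY : 1 ≤ Fintype.card Y := by
      rcases Nat.eq_zero_or_pos (Fintype.card Y) with h0 | h0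
      · rw [h0, zero_mul] at hcard
        have : 0 < n * N := Nat.mul_pos (by omega) hN
        omega
      · exact h0
    have h6 := hb _ hY (Ex_of hL')
    have h7 : 5 ^ (b + 1) ∣ n * N := by
      rw [← hcard, pow_succ]
      exact Nat.mul_dvd_mul_right h6 5
    have h8 : ¬ 5 ∣ N := by
      intro h
      rcases hprime 5 (by norm_num) h with h | h | h
      · revert h; decide
      · omega
      · omega
    have h9 : Nat.Coprime (5 ^ (b + 1)) N :=
      Nat.Coprime.pow_left _ ((Nat.Prime.coprime_iff_not_dvd (by norm_num)).2 h8)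
    exact h5 (h9.dvd_of_dvd_mul_right h7)

end Run7.h459
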