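import Pool.Agent.Run7.h459.TG

set_option linter.unusedSectionVars false

/-! Homomorphisms out of the amalgam. -/

namespace Run7.h459

open Monoid

section
variable {G : Type} [Group G]

/-- the homomorphism given by an involution -/
def z2hom (a : G) (ha : a * a = 1) : Z2 →* G where
  toFun x := a ^ (Multiplicative.toAdd x).val
  map_one' := by
    show a ^ (0 : ZMod 2).val = 1
    simp
  map_mul' x y := by
    have key : ∀ u v : ZMod 2, a ^ (u + v).val = a ^ u.val * a ^ v.val := by
      intro u v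
      have h2 : ∀ u v : ZMod 2, (u + v).val = u.val + v.val ∨ ((u + v).val = 0 ∧ u.val = 1 ∧ v.val = 1) := by
        decide
      rcases h2 u v with h | ⟨h, h', h''⟩
      · rw [h, pow_add]
      · rw [h, h', h'', pow_zero, pow_one, ha]
    exact key _ _

theorem z2hom_one (a : G) (ha : a * a = 1) : z2hom a ha (Multiplicative.ofAdd 1) = a := by
  show a ^ (1 : ZMod 2).val = a
  have : (1 : ZMod 2).val = 1 := rfl
  rw [this, pow_one]

theorem z2_ext {f g : Z2 →* G} (h : f (Multiplicative.ofAdd 1) = g (Multiplicative.ofAdd 1)) : f = g := by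
  refine MonoidHom.ext fun x => ?_
  have key : ∀ u : ZMod 2, u = 0 ∨ u = 1 := by decide
  rcases key (Multiplicative.toAdd x) with h1 | h1
  · have : x = 1 := h1
    rw [this, map_one, map_one]
  · have : x = Multiplicative.ofAdd 1 := h1
    rw [this, h]

variable {H : Type} [Group H] {C : Subgroup H}

theorem exists_hom (ρH : H →* G) (τ : G) (hτ2 : τ * τ = 1) (hτC : ∀ c ∈ C, ρH c * τ = τ * ρH c) :
    ∃ ρ : TG H C →* G, (∀ g, ρ (SemidirectProduct.inr g) = ρH g) ∧ ρ tau = τ := by
  classical
  let b : H ⧸ C → G := fun j => ρH j.out * τ * (ρH j.out)⁻¹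
  have hb : ∀ j, b j * b j = 1 := by
    intro j
    show ρH j.out * τ * (ρH j.out)⁻¹ * (ρH j.out * τ * (ρH j.out)⁻¹) = 1
    calc _ = ρH j.out * (τ * τ) * (ρH j.out)⁻¹ := by group
      _ = 1 := by rw [hτ2]; group
  have hb2 : ∀ g : H, b (g : H ⧸ C) = ρH g * τ * (ρH g)⁻¹ := by
    intro g
    obtain ⟨c, hc⟩ := QuotientGroup.mk_out_eq_mul C g
    show ρH (Quotient.out (g : H ⧸ C)) * τ * (ρH (Quotient.out (g : H ⧸ C)))⁻¹ = _
    rw [hc, map_mul, mul_assoc (ρH g), hτC c c.2]
    group
  let f : NN (H ⧸ C) →* G := CoprodI.lift fun j => z2hom (b j) (hb j)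
  have hf : ∀ j, f (tt j) = b j := by
    intro j
    show CoprodI.lift (fun j => z2hom (b j) (hb j)) (CoprodI.of (Multiplicative.ofAdd 1)) = b j
    rw [CoprodI.lift_of, z2hom_one]
  have hcompat : ∀ g, f.comp (act H C g).toMonoidHom = (MulAut.conj (ρH g)).toMonoidHom.comp f := by
    intro g
    apply CoprodI.ext_hom
    intro j
    apply z2_ext
    show f (act H C g (tt j)) = ρH g * f (tt j) * (ρH g)⁻¹
    rw [act_tt, hf, hf]
    induction j using QuotientGroup.induction_on with
    | H x =>
      rw [MulAction.Quotient.smul_coe, smul_eq_mul, hb2, hb2, map_mul]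
      group
  refine ⟨SemidirectProduct.lift f ρH hcompat, ?_, ?_⟩
  · intro g
    rw [SemidirectProduct.lift_inr]
  · unfold tau
    rw [SemidirectProduct.lift_inl, hf, hb2]
    simp

end

end Run7.h459
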